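import Pool.Agent.Helper48.HD.Basic

/-!
Project HD: modules of alternating forms.  M is a module over A, φ : A → B a continuous
homomorphism, Z a B-C-bimodule; alt M q φ Z is the B-C-bimodule of all alternating
A-multilinear maps from M^q to Z, with the topology of pointwise convergence.
-/

namespace HD

/-- Alternating maps, A-multilinear for a given action of A on Z. -/
structure IsAlt {A M Z : Type} [CommRing A] [AddCommGroup M] [Module A M] [AddCommGroup Z]
    (act : A → Z → Z) {q : ℕ} (η : (Fin q → M) → Z) : Prop where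
  add : ∀ (y : Fin q → M) (i : Fin q) (u v : M),
    η (Function.update y i (u + v)) = η (Function.update y i u) + η (Function.update y i v)
  smul : ∀ (y : Fin q → M) (i : Fin q) (a : A) (u : M),
    η (Function.update y i (a • u)) = act a (η (Function.update y i u))
  alt : ∀ (y : Fin q → M) (i j : Fin q), y i = y j → i ≠ j → η y = 0

section

variable {A B C : Type} [CommRing A] [Algebra ℂ A] [TopologicalSpace A]
    [CommRing B] [Algebra ℂ B] [TopologicalSpace B]
    [CommRing C] [Algebra ℂ C] [TopologicalSpace C]

/-- The subspace of alternating forms. -/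
def altSub (M : Type) [AddCommGroup M] [Module A M] (q : ℕ) (φ : A →ₐ[ℂ] B) (Z : BMod B C) :
    Submodule ℂ (BMod.pi (fun _ : Fin q → M => Z)).V where
  carrier := {η : (Fin q → M) → Z.V | IsAlt (fun a z => Z.l (φ a) z) η}
  add_mem' := by
    intro η θ hη hθ
    refine ⟨fun y i u v => ?_, fun y i a u => ?_, fun y i j h hij => ?_⟩
    · show η _ + θ _ = (η _ + θ _) + (η _ + θ _)
      rw [hη.add, hθ.add]; abel
    · show η _ + θ _ = Z.l (φ a) (η _ + θ _)
      rw [hη.smul, hθ.smul, map_add]
    · show η _ + θ _ = 0
      rw [hη.alt y i j h hij, hθ.alt y i j h hij, add_zero]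
  zero_mem' := by
    refine ⟨fun y i u v => ?_, fun y i a u => ?_, fun y i j h hij => rfl⟩
    · exact (add_zero (0 : Z.V)).symm
    · exact (map_zero (Z.l (φ a))).symm
  smul_mem' := by
    intro z η hη
    refine ⟨fun y i u v => ?_, fun y i a u => ?_, fun y i j h hij => ?_⟩
    · show z • η _ = z • η _ + z • η _
      rw [hη.add, smul_add]
    · show z • η _ = Z.l (φ a) (z • η _)
      rw [hη.smul, map_smul]
    · show z • η _ = 0
      rw [hη.alt y i j h hij, smul_zero]

omit [TopologicalSpace A] in
theorem mem_altSub {M : Type} [AddCommGroup M] [Module A M] {q : ℕ} {φ : A →ₐ[ℂ] B}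
    {Z : BMod B C} {η : (Fin q → M) → Z.V} :
    η ∈ altSub M q φ Z ↔ IsAlt (fun a z => Z.l (φ a) z) η := Iff.rfl

/-- Actions are continuous for a fixed scalar. -/
theorem BMod.continuous_l (Z : BMod B C) (b : B) : Continuous fun z : Z.V => Z.l b z :=
  Z.cl.comp (continuous_const.prodMk continuous_id)

theorem BMod.continuous_r (Z : BMod B C) (c : C) : Continuous fun z : Z.V => Z.r c z :=
  Z.cr.comp (continuous_const.prodMk continuous_id)

theorem isClosed_altSub (M : Type) [AddCommGroup M] [Module A M] (q : ℕ) (φ : A →ₐ[ℂ] B)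
    (Z : BMod B C) :
    IsClosed ((altSub M q φ Z : Submodule ℂ (BMod.pi (fun _ : Fin q → M => Z)).V) :
      Set (BMod.pi (fun _ : Fin q → M => Z)).V) := by
  have key : IsClosed {η : (Fin q → M) → Z.V | IsAlt (fun a z => Z.l (φ a) z) η} := by
    have e : {η : (Fin q → M) → Z.V | IsAlt (fun a z => Z.l (φ a) z) η} =
        (⋂ (y : Fin q → M) (i : Fin q) (u : M) (v : M), {η : (Fin q → M) → Z.V |
          η (Function.update y i (u + v)) =
            η (Function.update y i u) + η (Function.update y i v)}) ∩
        ((⋂ (y : Fin q → M) (i : Fin q) (a : A) (u : M), {η : (Fin q → M) → Z.V |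
          η (Function.update y i (a • u)) = Z.l (φ a) (η (Function.update y i u))}) ∩
        (⋂ (y : Fin q → M) (i : Fin q) (j : Fin q) (_ : y i = y j) (_ : i ≠ j),
          {η : (Fin q → M) → Z.V | η y = 0})) := by
      ext η
      simp only [Set.mem_inter_iff, Set.mem_iInter]
      constructor
      · intro h
        exact ⟨h.add, h.smul, h.alt⟩
      · intro h
        exact ⟨h.1, h.2.1, h.2.2⟩
    rw [e]
    refine IsClosed.inter ?_ (IsClosed.inter ?_ ?_)
    · refine isClosed_iInter fun y => isClosed_iInter fun i => isClosed_iInter fun u =>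
        isClosed_iInter fun v => ?_
      exact isClosed_eq (by fun_prop) (by fun_prop)
    · refine isClosed_iInter fun y => isClosed_iInter fun i => isClosed_iInter fun a =>
        isClosed_iInter fun u => ?_
      exact isClosed_eq (by fun_prop) ((Z.continuous_l (φ a)).comp (continuous_apply _))
    · refine isClosed_iInter fun y => isClosed_iInter fun i => isClosed_iInter fun j =>
        isClosed_iInter fun _ => isClosed_iInter fun _ => ?_
      exact isClosed_eq (by fun_prop) continuous_const
  exact key

/-- Alternating forms as a module. -/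
def alt (M : Type) [AddCommGroup M] [Module A M] (q : ℕ) (φ : A →ₐ[ℂ] B) (Z : BMod B C) :
    BMod B C :=
  (BMod.pi (fun _ : Fin q → M => Z)).sub (altSub M q φ Z) (isClosed_altSub M q φ Z)
    (by
      intro b η hη
      refine ⟨fun y i u v => ?_, fun y i a u => ?_, fun y i j h hij => ?_⟩
      · show Z.l b (η _) = Z.l b (η _) + Z.l b (η _)
        rw [hη.add, map_add]
      · show Z.l b (η _) = Z.l (φ a) (Z.l b (η _))
        rw [hη.smul, ← Module.End.mul_apply, ← map_mul, mul_comm, map_mul, Module.End.mul_apply]
      · show Z.l b (η _) = 0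
        rw [hη.alt y i j h hij, map_zero])
    (by
      intro c η hη
      refine ⟨fun y i u v => ?_, fun y i a u => ?_, fun y i j h hij => ?_⟩
      · show Z.r c (η _) = Z.r c (η _) + Z.r c (η _)
        rw [hη.add, map_add]
      · show Z.r c (η _) = Z.l (φ a) (Z.r c (η _))
        rw [hη.smul, Z.comm]
      · show Z.r c (η _) = 0
        rw [hη.alt y i j h hij, map_zero])

/-- The value of a form. -/
def alt.ev {M : Type} [AddCommGroup M] [Module A M] {q : ℕ} {φ : A →ₐ[ℂ] B} {Z : BMod B C}
    (η : (alt M q φ Z).V) (y : Fin q → M) : Z.V := (η : altSub M q φ Z).1 y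

end

end HD
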