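import Pool.Agent.Helper48.HD.Basic

/-!
Project HD: the universal property of completed balanced tensor products.
-/

namespace HD

/-- The data of a completed balanced tensor product: T is generated topologically by the
elements τ m n, and continuous balanced bilinear maps (with a parameter from a locally convex
space X) to complete spaces factor through T. -/
structure IsTens {S R C : Type} [CommRing S] [Algebra ℂ S] [TopologicalSpace S]
    [CommRing R] [Algebra ℂ R] [TopologicalSpace R] [CommRing C] [Algebra ℂ C]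
    [TopologicalSpace C] (M : BMod S R) (N : BMod R C) (T : BMod S C)
    (τ : M.V →ₗ[ℂ] N.V →ₗ[ℂ] T.V) : Prop where
  bal : ∀ a m n, τ (M.r a m) n = τ m (N.l a n)
  left : ∀ s m n, T.l s (τ m n) = τ (M.l s m) n
  right : ∀ c m n, T.r c (τ m n) = τ m (N.r c n)
  cont : Continuous fun p : M.V × N.V => τ p.1 p.2
  dense : Dense ((Submodule.span ℂ {t | ∃ m n, τ m n = t} : Submodule ℂ T.V) : Set T.V)
  lift : ∀ (X G : BMod ℂ ℂ) (Φ : X.V →ₗ[ℂ] M.V →ₗ[ℂ] N.V →ₗ[ℂ] G.V),
    (Continuous fun p : X.V × M.V × N.V => Φ p.1 p.2.1 p.2.2) →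
    (∀ x a m n, Φ x (M.r a m) n = Φ x m (N.l a n)) →
    ∃ Ψ : X.V →ₗ[ℂ] T.V →ₗ[ℂ] G.V, (Continuous fun p : X.V × T.V => Ψ p.1 p.2) ∧
      ∀ x m n, Ψ x (τ m n) = Φ x m n

end HD
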