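import Pool.Agent.Helper48.HD.T1
import Pool.Agent.Helper48.HD.TensDefs

/-!
Module HD-T2: the completed balanced tensor product of an S-R-bimodule and an R-C-bimodule.

Proof. Apply exists_tens0 to the underlying spaces of M and N (as BMod ℂ ℂ, with actions
Algebra.ofId ℂ (Module.End ℂ V), see BMod.left for the pattern) with index type R and the
operators M.r a, N.l a.  Action of S: lift (with parameter space X = S, which is a complete
locally convex space by CAlg S) of the trilinear map (s, m, n) ↦ τ (M.l s m) n, continuous by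
M.cl and the continuity of τ, balanced since the two actions on M commute.  It is multiplicative
and unital, and commutes with the action of C, because this holds on the elements τ m n, whose
span is dense, and all maps are continuous.  Action of C in the same way from (c, m, n) ↦
τ m (N.r c n).  The property lift of IsTens is that of exists_tens0.
-/

namespace HD

section

variable {A C : Type} [CommRing A] [Algebra ℂ A] [TopologicalSpace A]
    [CommRing C] [Algebra ℂ C] [TopologicalSpace C]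

private theorem ofId_cont (V : Type) [AddCommGroup V] [Module ℂ V] [TopologicalSpace V]
    [ContinuousSMul ℂ V] :
    Continuous fun p : ℂ × V => (Algebra.ofId ℂ (Module.End ℂ V)) p.1 p.2 := by
  have h : (fun p : ℂ × V => (Algebra.ofId ℂ (Module.End ℂ V)) p.1 p.2)
      = fun p => p.1 • p.2 := by
    funext p
    simp [Algebra.ofId_apply, Algebra.algebraMap_eq_smul_one]
  rw [h]
  exact continuous_smul

private theorem ofId_comm (V : Type) [AddCommGroup V] [Module ℂ V] (a c : ℂ) (x : V) :
    (Algebra.ofId ℂ (Module.End ℂ V)) a ((Algebra.ofId ℂ (Module.End ℂ V)) c x) =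
      (Algebra.ofId ℂ (Module.End ℂ V)) c ((Algebra.ofId ℂ (Module.End ℂ V)) a x) := by
  have h : ∀ (z : ℂ) (y : V), (Algebra.ofId ℂ (Module.End ℂ V)) z y = z • y := fun z y => by
    simp [Algebra.ofId_apply, Algebra.algebraMap_eq_smul_one]
  rw [h, h, h, h, smul_comm]

/-- The underlying locally convex space. -/
private abbrev under (X : BMod A C) : BMod ℂ ℂ :=
  { V := X.V
    l := Algebra.ofId ℂ (Module.End ℂ X.V)
    r := Algebra.ofId ℂ (Module.End ℂ X.V)
    cl := ofId_cont X.V
    cr := ofId_cont X.V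
    comm := ofId_comm X.V }

/-- The locally convex space underlying an algebra. -/
private abbrev algCC (S : Type) [CommRing S] [Algebra ℂ S] [UniformSpace S] [h : CAlg S] :
    BMod ℂ ℂ :=
  haveI := h.uag
  haveI := h.csm
  haveI := h.lcs
  haveI := h.t2
  haveI := h.com
  { V := S
    l := Algebra.ofId ℂ (Module.End ℂ S)
    r := Algebra.ofId ℂ (Module.End ℂ S)
    cl := ofId_cont S
    cr := ofId_cont S
    comm := ofId_comm S }

private theorem ext_dense {E F T Y : Type} [AddCommGroup E] [Module ℂ E] [AddCommGroup F]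
    [Module ℂ F] [AddCommGroup T] [Module ℂ T] [TopologicalSpace T] [AddCommGroup Y] [Module ℂ Y]
    [TopologicalSpace Y] [T2Space Y] (τ : E →ₗ[ℂ] F →ₗ[ℂ] T)
    (hd : Dense ((Submodule.span ℂ {t | ∃ m n, τ m n = t} : Submodule ℂ T) : Set T))
    (f g : T →ₗ[ℂ] Y) (hf : Continuous f) (hg : Continuous g)
    (h : ∀ m n, f (τ m n) = g (τ m n)) : f = g := by
  apply LinearMap.ext
  intro x
  have h1 : Set.EqOn f g ((Submodule.span ℂ {t | ∃ m n, τ m n = t} : Submodule ℂ T) : Set T) := by
    apply LinearMap.eqOn_span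
    rintro _ ⟨m, n, rfl⟩
    exact h m n
  exact congrFun (Continuous.ext_on hd hf hg h1) x

end

section

variable {S R C : Type} [CommRing S] [Algebra ℂ S] [UniformSpace S] [CAlg S]
    [CommRing R] [Algebra ℂ R] [TopologicalSpace R]
    [CommRing C] [Algebra ℂ C] [UniformSpace C] [CAlg C]

theorem exists_tens (M : BMod S R) (N : BMod R C) :
    ∃ (T : BMod S C) (τ : M.V →ₗ[ℂ] N.V →ₗ[ℂ] T.V), IsTens M N T τ := by
  obtain ⟨T0, τ, hbal, hcont, hdense, hlift⟩ :=
    exists_tens0 (under M) (under N) R (fun a m => M.r a m) (fun a n => N.l a n)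
  change M.V →ₗ[ℂ] N.V →ₗ[ℂ] T0.V at τ
  change ∀ (a : R) (m : M.V) (n : N.V), τ (M.r a m) n = τ m (N.l a n) at hbal
  change Continuous fun p : M.V × N.V => τ p.1 p.2 at hcont
  -- the action of S
  obtain ⟨ΨS, hΨSc, hΨS⟩ := hlift (algCC S) T0
    ((LinearMap.llcomp ℂ M.V M.V (N.V →ₗ[ℂ] T0.V) τ) ∘ₗ M.l.toLinearMap)
    (hcont.comp ((M.cl.comp (continuous_fst.prodMk (continuous_fst.comp continuous_snd))).prodMk
      (continuous_snd.comp continuous_snd)))
    (fun s a m n => by
      show τ (M.l s (M.r a m)) n = τ (M.l s m) (N.l a n)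
      rw [M.comm, hbal])
  change S →ₗ[ℂ] T0.V →ₗ[ℂ] T0.V at ΨS
  change Continuous fun p : S × T0.V => ΨS p.1 p.2 at hΨSc
  change ∀ (s : S) (m : M.V) (n : N.V), ΨS s (τ m n) = τ (M.l s m) n at hΨS
  -- the action of C
  obtain ⟨ΨC, hΨCc, hΨC⟩ := hlift (algCC C) T0
    (LinearMap.flip ((LinearMap.lcomp ℂ (N.V →ₗ[ℂ] T0.V) N.r.toLinearMap) ∘ₗ
      (LinearMap.llcomp ℂ N.V N.V T0.V) ∘ₗ τ))
    (hcont.comp ((continuous_fst.comp continuous_snd).prodMk
      (N.cr.comp (continuous_fst.prodMk (continuous_snd.comp continuous_snd)))))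
    (fun c a m n => by
      show τ (M.r a m) (N.r c n) = τ m (N.r c (N.l a n))
      rw [hbal, N.comm])
  change C →ₗ[ℂ] T0.V →ₗ[ℂ] T0.V at ΨC
  change Continuous fun p : C × T0.V => ΨC p.1 p.2 at hΨCc
  change ∀ (c : C) (m : M.V) (n : N.V), ΨC c (τ m n) = τ m (N.r c n) at hΨC
  have cS : ∀ s : S, Continuous (ΨS s) := fun s =>
    hΨSc.comp (continuous_const.prodMk continuous_id)
  have cC : ∀ c : C, Continuous (ΨC c) := fun c =>
    hΨCc.comp (continuous_const.prodMk continuous_id)
  let l : S →ₐ[ℂ] Module.End ℂ T0.V := AlgHom.ofLinearMap ΨS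
    (ext_dense τ hdense _ _ (cS 1) continuous_id (fun m n => by
      rw [hΨS, map_one]
      rfl))
    (fun s s' => ext_dense τ hdense _ _ (cS _) ((cS s).comp (cS s')) (fun m n => by
      show ΨS (s * s') (τ m n) = ΨS s (ΨS s' (τ m n))
      rw [hΨS, hΨS, hΨS, map_mul]
      rfl))
  let r : C →ₐ[ℂ] Module.End ℂ T0.V := AlgHom.ofLinearMap ΨC
    (ext_dense τ hdense _ _ (cC 1) continuous_id (fun m n => by
      rw [hΨC, map_one]
      rfl))
    (fun s s' => ext_dense τ hdense _ _ (cC _) ((cC s).comp (cC s')) (fun m n => by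
      show ΨC (s * s') (τ m n) = ΨC s (ΨC s' (τ m n))
      rw [hΨC, hΨC, hΨC, map_mul]
      rfl))
  have hcomm : ∀ (a : S) (c : C) (x : T0.V), ΨS a (ΨC c x) = ΨC c (ΨS a x) := by
    intro a c x
    have h1 : (ΨS a) ∘ₗ (ΨC c) = (ΨC c) ∘ₗ (ΨS a) := by
      refine ext_dense τ hdense _ _ ((cS a).comp (cC c)) ((cC c).comp (cS a)) (fun m n => ?_)
      show ΨS a (ΨC c (τ m n)) = ΨC c (ΨS a (τ m n))
      rw [hΨC, hΨS, hΨS, hΨC]
    exact LinearMap.congr_fun h1 x
  let T : BMod S C :=
    { V := T0.V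
      l := l
      r := r
      cl := hΨSc
      cr := hΨCc
      comm := hcomm }
  refine ⟨T, τ, ?_⟩
  exact
    { bal := hbal
      left := hΨS
      right := hΨC
      cont := hcont
      dense := hdense
      lift := fun X G Φ hΦ hΦb => hlift X G Φ hΦ hΦb }

end

end HD
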