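import Pool.Agent.Helper48.HD.T3

/-!
Module HD-T4: base change along a continuous homomorphism φ : R → S preserves projective modules.

Proof. By projective_of_lift (H1).  Let M = algMod id φ (the algebra S as S-R-bimodule; its
underlying space is S, M.l s x = s * x, M.r a x = φ a * x up to commutativity),
τ : S × N → T.  Given σ : Z → X a morphism of S-C-bimodules with continuous linear right inverse
and a morphism f : T → X.  Restrict Z, X to R-C-bimodules (BMod.res φ).  n ↦ f (τ 1 n) is a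
morphism N → X of R-C-bimodules (τ 1 (N.l a n) = τ (φ a) n = T.l (φ a) (τ 1 n)), so it lifts to a
morphism g : N → Z (Projective.lift).  The map Φ s n = Z.l s (g n) is bilinear, continuous and
balanced, S-linear and C-linear, so it gives a morphism F : T → Z with F (τ s n) = Z.l s (g n)
(IsTens.lift_hom), and σ ∘ F = f by IsTens.hom_ext: σ (Z.l s (g n)) = X.l s (f (τ 1 n)) =
f (τ s n).
-/

namespace HD

section

variable {S R C : Type} [CommRing S] [Algebra ℂ S] [UniformSpace S] [CAlg S]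
    [CommRing R] [Algebra ℂ R] [TopologicalSpace R]
    [CommRing C] [Algebra ℂ C] [TopologicalSpace C]

theorem IsTens.projective {φ : R →ₐ[ℂ] S} (hφ : Continuous φ) {N : BMod R C} {T : BMod S C}
    {τ : (algMod (AlgHom.id ℂ S) continuous_id φ hφ).V →ₗ[ℂ] N.V →ₗ[ℂ] T.V}
    (hT : IsTens (algMod (AlgHom.id ℂ S) continuous_id φ hφ) N T τ) (hN : Projective N) :
    Projective T := by
  refine projective_of_lift fun Z X σ hσ ρ hρ f hf => ?_
  have hr1 : ∀ (a : R) (m : S), (algMod (AlgHom.id ℂ S) continuous_id φ hφ).r a m = φ a * m :=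
    fun a m => rfl
  have hl1 : ∀ (s : S) (m : S), (algMod (AlgHom.id ℂ S) continuous_id φ hφ).l s m = s * m :=
    fun s m => rfl
  have hone : ∀ (m : S) (n : N.V), T.l m (τ (1 : S) n) = τ m n := by
    intro m n
    rw [hT.left, hl1, mul_one]
  let f1 : N.V →L[ℂ] X.V := f.comp
    ⟨τ (1 : S), hT.cont.comp (continuous_const.prodMk continuous_id)⟩
  have hf1v : ∀ n, f1 n = f (τ (1 : S) n) := fun n => rfl
  have hf1 : IsHom (X := N) (Y := BMod.res φ hφ X) f1 := by
    refine ⟨fun a n => ?_, fun c n => ?_⟩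
    · show f (τ (1 : S) (N.l a n)) = X.l (φ a) (f (τ (1 : S) n))
      rw [← hT.bal, hr1, mul_one, ← hf.left, hone]
    · show f (τ (1 : S) (N.r c n)) = X.r c (f (τ (1 : S) n))
      rw [← hT.right, hf.right]
  obtain ⟨g, hg, hgσ⟩ := hN.lift (X := BMod.res φ hφ X) (Z := BMod.res φ hφ Z) σ
    ⟨fun a x => hσ.left (φ a) x, fun c x => hσ.right c x⟩ ρ hρ f1 hf1
  have hgl : ∀ a n, g (N.l a n) = Z.l (φ a) (g n) := fun a n => hg.left a n
  have hgr : ∀ c n, g (N.r c n) = Z.r c (g n) := fun c n => hg.right c n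
  have a1 : ∀ (s s' : S) (v : Z.V), Z.l (s + s') v = Z.l s v + Z.l s' v := fun s s' v => by
    rw [map_add, LinearMap.add_apply]
  have a2 : ∀ (z : ℂ) (s : S) (v : Z.V), Z.l (z • s) v = z • Z.l s v := fun z s v => by
    rw [map_smul, LinearMap.smul_apply]
  have a3 : ∀ (s : S) (v v' : Z.V), Z.l s (v + v') = Z.l s v + Z.l s v' :=
    fun s v v' => map_add (Z.l s) v v'
  have a4 : ∀ (z : ℂ) (s : S) (v : Z.V), Z.l s (z • v) = z • Z.l s v :=
    fun z s v => map_smul (Z.l s) z v
  let Φ : (algMod (AlgHom.id ℂ S) continuous_id φ hφ).V →ₗ[ℂ] N.V →ₗ[ℂ] Z.V :=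
    LinearMap.mk₂ ℂ (fun (s : S) (n : N.V) => (Z.l s (g n) : Z.V))
      (fun s s' n => a1 s s' (g n))
      (fun z s n => a2 z s (g n))
      (fun s n n' => (congrArg (Z.l (s : S)) (map_add g n n')).trans (a3 s (g n) (g n')))
      (fun z s n => (congrArg (Z.l (s : S)) (map_smul g z n)).trans (a4 z s (g n)))
  have hΦ : ∀ (s : S) (n : N.V), Φ s n = Z.l s (g n) := fun s n => rfl
  obtain ⟨F, hF, hFτ⟩ := hT.lift_hom Z Φ
    (Z.cl.comp (continuous_fst.prodMk (g.continuous.comp continuous_snd)))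
    (fun a m n => by
      rw [hr1, hΦ, hΦ, hgl, mul_comm, map_mul]
      rfl)
    (fun s m n => by
      rw [hl1, hΦ, hΦ, map_mul]
      rfl)
    (fun c m n => by
      rw [hΦ, hΦ, hgr, Z.comm])
  refine ⟨F, hF, fun x => ?_⟩
  have key : (σ.comp F) = f := by
    refine hT.hom_ext (σ.comp F) f fun m n => ?_
    show σ (F (τ m n)) = f (τ m n)
    rw [hFτ, hΦ, hσ.left]
    have h1 : σ (g n) = f (τ (1 : S) n) := hgσ n
    rw [h1, ← hf.left, hone]
  exact DFunLike.congr_fun key x

end

end HD
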