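import Pool.Agent.Helper48.HD.T5

/-!
Module HD-T6: projective resolutions exist; projective bimodules are projective left modules.

Proof. Projective.left: P is a retract of the free module F of exists_free by a morphism
(projectivity of P), so P.left is a retract of F.left (Projective.retract).
exists_projRes: recursively X_0 = X, X_{k+1} = kernel of π_k : F_k → X_k (a closed submodule,
BMod.sub), where F_k → X_k is given by exists_free (X_k); R.P k = F_k, ε = π_0,
d k : F_{k+1} → X_{k+1} ⊆ F_k, s₀ = s_0, and s k : F_k → F_{k+1} is y ↦ s_{k+1} (y - s_k (π_k y)),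
where y - s_k (π_k y) lies in the kernel X_{k+1}.
-/

namespace HD

section

variable {A C : Type} [CommRing A] [Algebra ℂ A] [UniformSpace A] [CAlg A]
    [CommRing C] [Algebra ℂ C] [UniformSpace C] [CAlg C]

theorem Projective.left {P : BMod A C} (hP : Projective P) : Projective P.left := by
  obtain ⟨F, π, s, -, hFl, hπ, hs⟩ := exists_free P
  obtain ⟨τ, hτ, hτπ⟩ := hP F π hπ ⟨s, hs⟩
  have h1 : IsHom (X := P.left) (Y := F.left) τ := by
    refine ⟨hτ.left, fun c x => ?_⟩
    show τ ((Algebra.ofId ℂ (Module.End ℂ P.V)) c x) = (Algebra.ofId ℂ (Module.End ℂ F.V)) c (τ x)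
    simp [Algebra.ofId_apply, Algebra.algebraMap_eq_smul_one]
  have h2 : IsHom (X := F.left) (Y := P.left) π := by
    refine ⟨hπ.left, fun c x => ?_⟩
    show π ((Algebra.ofId ℂ (Module.End ℂ F.V)) c x) = (Algebra.ofId ℂ (Module.End ℂ P.V)) c (π x)
    simp [Algebra.ofId_apply, Algebra.algebraMap_eq_smul_one]
  exact Projective.retract hFl τ h1 π h2 hτπ

/-- The free module over X. -/
private noncomputable def T6_F (X : BMod A C) : BMod A C := (exists_free X).choose

private noncomputable def T6_pi (X : BMod A C) : (T6_F X).V →L[ℂ] X.V :=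
  (exists_free X).choose_spec.choose

private noncomputable def T6_s (X : BMod A C) : X.V →L[ℂ] (T6_F X).V :=
  (exists_free X).choose_spec.choose_spec.choose

private theorem T6_spec (X : BMod A C) : Projective (T6_F X) ∧ Projective (T6_F X).left ∧
    IsHom (T6_pi X) ∧ ∀ x, T6_pi X (T6_s X x) = x :=
  (exists_free X).choose_spec.choose_spec.choose_spec

/-- The kernel of the projection of the free module. -/
private noncomputable def T6_U (X : BMod A C) : Submodule ℂ (T6_F X).V :=
  LinearMap.ker (T6_pi X : (T6_F X).V →ₗ[ℂ] X.V)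

private theorem T6_mem {X : BMod A C} {x : (T6_F X).V} : x ∈ T6_U X ↔ T6_pi X x = 0 := by
  unfold T6_U
  rw [LinearMap.mem_ker]
  rfl

private noncomputable def T6_K (X : BMod A C) : BMod A C :=
  BMod.sub (T6_F X) (T6_U X) ((T6_pi X).isClosed_ker)
    (fun a x hx => by
      rw [T6_mem] at hx ⊢
      rw [(T6_spec X).2.2.1.left, hx, map_zero])
    (fun c x hx => by
      rw [T6_mem] at hx ⊢
      rw [(T6_spec X).2.2.1.right, hx, map_zero])

private noncomputable def T6_incl (X : BMod A C) : (T6_K X).V →L[ℂ] (T6_F X).V :=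
  (T6_U X).subtypeL

private theorem T6_incl_hom (X : BMod A C) : IsHom (T6_incl X) := ⟨fun _ _ => rfl, fun _ _ => rfl⟩

private theorem T6_pi_incl (X : BMod A C) (x : (T6_K X).V) : T6_pi X (T6_incl X x) = 0 :=
  T6_mem.1 (Subtype.property (p := fun y => y ∈ T6_U X) x)

private noncomputable def T6_comp (X : BMod A C) : (T6_F X).V →L[ℂ] (T6_K X).V :=
  ContinuousLinearMap.codRestrict (ContinuousLinearMap.id ℂ (T6_F X).V - (T6_s X).comp (T6_pi X))
    (T6_U X) (fun x => by
      rw [T6_mem]
      simp [(T6_spec X).2.2.2])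

private theorem T6_incl_comp (X : BMod A C) (x : (T6_F X).V) :
    T6_incl X (T6_comp X x) = x - T6_s X (T6_pi X x) := rfl

private theorem T6_comp_incl (X : BMod A C) (x : (T6_K X).V) : T6_comp X (T6_incl X x) = x := by
  have h1 : T6_incl X (T6_comp X (T6_incl X x)) = T6_incl X x := by
    rw [T6_incl_comp, T6_pi_incl, map_zero, sub_zero]
  exact Subtype.ext h1

private noncomputable def T6_seq (X : BMod A C) : ℕ → BMod A C
  | 0 => X
  | k + 1 => T6_K (T6_seq X k)

theorem exists_projRes (X : BMod A C) : Nonempty (ProjRes X) := by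
  refine ⟨{
    P := fun k => T6_F (T6_seq X k)
    proj := fun k => (T6_spec (T6_seq X k)).1
    ε := T6_pi X
    d := fun k => (T6_incl (T6_seq X k)).comp (T6_pi (T6_K (T6_seq X k)))
    hε := (T6_spec X).2.2.1
    hd := fun k => (T6_incl_hom (T6_seq X k)).comp (T6_spec (T6_K (T6_seq X k))).2.2.1
    εd := fun x => T6_pi_incl X _
    dd := fun k x => by
      show T6_incl (T6_seq X k) (T6_pi (T6_K (T6_seq X k)) (T6_incl (T6_K (T6_seq X k))
        (T6_pi (T6_K (T6_K (T6_seq X k))) x))) = 0
      rw [T6_pi_incl, map_zero]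
    s₀ := T6_s X
    s := fun k => (T6_s (T6_K (T6_seq X k))).comp (T6_comp (T6_seq X k))
    εs := (T6_spec X).2.2.2
    sε := fun x => by
      show T6_s X (T6_pi X x) + T6_incl X (T6_pi (T6_K X) (T6_s (T6_K X) (T6_comp X x))) = x
      rw [(T6_spec (T6_K X)).2.2.2, T6_incl_comp]
      exact add_sub_cancel _ _
    sd := fun k x => ?_ }⟩
  show T6_s (T6_K (T6_seq X k)) (T6_comp (T6_seq X k) (T6_incl (T6_seq X k)
    (T6_pi (T6_K (T6_seq X k)) x))) + T6_incl (T6_K (T6_seq X k)) (T6_pi (T6_K (T6_K (T6_seq X k)))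
    (T6_s (T6_K (T6_K (T6_seq X k))) (T6_comp (T6_K (T6_seq X k)) x))) = x
  rw [T6_comp_incl, (T6_spec (T6_K (T6_K (T6_seq X k)))).2.2.2, T6_incl_comp]
  exact add_sub_cancel _ _

end

end HD
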