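import Pool.Agent.Helper48.HD.H7
import Pool.Agent.Helper48.HD.T2
import Pool.Agent.Helper48.HD.T4
import Pool.Agent.Helper48.HD.T6

/-!
Module HD-B1: base change of a bimodule resolution of B along ρ : B → A on the left.

Proof. projective_reg_left: (reg B).left is B with the left action by multiplication; given σ : Z →
(reg B).left with continuous linear right inverse τ, b ↦ Z.l b (τ 1) is a morphism and a right
inverse.
dimLE_base: let R be the resolution of reg B.  All R.P k are projective as left modules (T6), so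
by H7 there is a left linear contraction s₀, s.  Let P k, τ_k be the completed tensor product (T2)
of algMod id ρ (A as A-B-bimodule) and R.P k : BMod B B; projective by T4; differentials map id
(R.d k) (morphisms, by hom_ext), ε' from IsTens.lift_hom with Φ a p = a * ρ (R.ε p) to
algMod id ρ; contraction: s₀' a = τ_0 a (s₀ 1) (continuous linear), s' k = IsTens.map id (s k).
Identities on τ a p: s₀' (ε' (τ a p)) = τ (a * ρ (ε p)) (s₀ 1) = τ a ((R.P 0).l (ε p) (s₀ 1)) =
τ a (s₀ (ε p)) by balancedness and left linearity.  Length: if R.P k is a subsingleton so is P k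
(the span of the τ a 0 = 0 is dense).
-/

namespace HD

section

variable {A B : Type} [CommRing A] [Algebra ℂ A] [UniformSpace A] [CAlg A]
    [CommRing B] [Algebra ℂ B] [UniformSpace B] [CAlg B]

omit [CAlg B] in
private theorem exists_aug (ρ : B →ₐ[ℂ] A) (hρ : Continuous ρ) {N : BMod B B} {T : BMod A B}
    {τ : (algMod (AlgHom.id ℂ A) continuous_id ρ hρ).V →ₗ[ℂ] N.V →ₗ[ℂ] T.V}
    (hT : IsTens (algMod (AlgHom.id ℂ A) continuous_id ρ hρ) N T τ)
    (e : N.V →ₗ[ℂ] B) (he : Continuous e) (hel : ∀ b x, e (N.l b x) = b * e x)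
    (her : ∀ b x, e (N.r b x) = b * e x) :
    ∃ F : T.V →L[ℂ] (algMod (AlgHom.id ℂ A) continuous_id ρ hρ).V, IsHom F ∧
      ∀ (a : A) (n : N.V), F (τ a n) = (a * ρ (e n) : A) := by
  have hcm : Continuous fun p : A × A => p.1 * p.2 := CAlg.cmul
  have a1 : ∀ (s s' : A) (n : N.V), (s + s') * ρ (e n) = s * ρ (e n) + s' * ρ (e n) :=
    fun s s' n => add_mul _ _ _
  have a2 : ∀ (z : ℂ) (s : A) (n : N.V), (z • s) * ρ (e n) = z • (s * ρ (e n)) :=
    fun z s n => smul_mul_assoc z s _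
  have a3 : ∀ (s : A) (n n' : N.V), s * ρ (e (n + n')) = s * ρ (e n) + s * ρ (e n') := by
    intro s n n'
    rw [map_add, map_add, mul_add]
  have a4 : ∀ (z : ℂ) (s : A) (n : N.V), s * ρ (e (z • n)) = z • (s * ρ (e n)) := by
    intro z s n
    rw [map_smul, map_smul, mul_smul_comm]
  let Φ : (algMod (AlgHom.id ℂ A) continuous_id ρ hρ).V →ₗ[ℂ] N.V →ₗ[ℂ]
      (algMod (AlgHom.id ℂ A) continuous_id ρ hρ).V :=
    LinearMap.mk₂ ℂ (fun (a : A) (n : N.V) => (a * ρ (e n) : A))
      (fun a a' n => a1 a a' n)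
      (fun z a n => a2 z a n)
      (fun a n n' => a3 a n n')
      (fun z a n => a4 z a n)
  have b1 : ∀ (b : B) (m : A) (n : N.V), ρ b * m * ρ (e n) = m * ρ (e (N.l b n)) := by
    intro b m n
    rw [hel, map_mul]
    ring
  have b2 : ∀ (a m : A) (n : N.V), a * m * ρ (e n) = a * (m * ρ (e n)) := by
    intro a m n
    ring
  have b3 : ∀ (b : B) (m : A) (n : N.V), m * ρ (e (N.r b n)) = ρ b * (m * ρ (e n)) := by
    intro b m n
    rw [her, map_mul]
    ring
  obtain ⟨F, hF, hFτ⟩ := hT.lift_hom (algMod (AlgHom.id ℂ A) continuous_id ρ hρ) Φ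
    (hcm.comp (continuous_fst.prodMk ((hρ.comp he).comp continuous_snd)))
    (fun b m n => b1 b m n) (fun a m n => b2 a m n) (fun b m n => b3 b m n)
  exact ⟨F, hF, fun a n => hFτ a n⟩

variable (B) in
theorem projective_reg_left : Projective (reg B).left := by
  rintro Z σ hσ ⟨τ, hτ⟩
  have hZr : ∀ (c : ℂ) (x : Z.V), Z.r c x = c • x := by
    intro c x
    have h1 : Z.r c = c • Z.r 1 := by
      rw [← map_smul, smul_eq_mul, mul_one]
    rw [h1, map_one, LinearMap.smul_apply, Module.End.one_apply]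
  have hBl : ∀ (a x : B), (reg B).left.l a x = a * x := fun a x => rfl
  have hBr : ∀ (c : ℂ) (x : B), (reg B).left.r c x = c • x := by
    intro c x
    change (Algebra.ofId ℂ (Module.End ℂ B)) c x = c • x
    simp [Algebra.ofId_apply, Algebra.algebraMap_eq_smul_one]
  let g0 : B →ₗ[ℂ] Z.V :=
    { toFun := fun b => Z.l b (τ (1 : B))
      map_add' := fun b b' => by rw [map_add, LinearMap.add_apply]
      map_smul' := fun z b => by rw [map_smul, LinearMap.smul_apply, RingHom.id_apply] }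
  have hg0 : Continuous g0 := Z.cl.comp (continuous_id.prodMk continuous_const)
  have k1 : ∀ (a x : B), g0 (a * x) = Z.l a (g0 x) := by
    intro a x
    change Z.l (a * x) (τ (1 : B)) = Z.l a (Z.l x (τ (1 : B)))
    rw [map_mul]
    rfl
  have k2 : ∀ (c : ℂ) (x : B), g0 (c • x) = Z.r c (g0 x) := by
    intro c x
    rw [map_smul, hZr]
  have k3 : ∀ x : B, (σ (g0 x) : B) = x := by
    intro x
    have h1 : σ (Z.l x (τ (1 : B))) = (reg B).left.l x (σ (τ (1 : B))) := hσ.left x _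
    have h2 : σ (τ (1 : B)) = (1 : B) := hτ _
    rw [h2] at h1
    exact h1.trans (mul_one x)
  exact ⟨⟨g0, hg0⟩, ⟨fun a x => k1 a x, fun c x => (congrArg g0 (hBr c x)).trans (k2 c x)⟩,
    fun x => k3 x⟩

theorem dimLE_base (ρ : B →ₐ[ℂ] A) (hρ : Continuous ρ) (N : ℕ) (h : DimLE (reg B) N) :
    DimLE (algMod (AlgHom.id ℂ A) continuous_id ρ hρ) N := by
  obtain ⟨R, hR⟩ := h
  obtain ⟨s0, s, hs0, hs, h1, h2, h3⟩ := exists_left_contraction R (projective_reg_left B)
    (fun k => (R.proj k).left)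
  have key : ∀ k, ∃ (T : BMod A B)
      (τ : (algMod (AlgHom.id ℂ A) continuous_id ρ hρ).V →ₗ[ℂ] (R.P k).V →ₗ[ℂ] T.V),
      IsTens (algMod (AlgHom.id ℂ A) continuous_id ρ hρ) (R.P k) T τ := fun k =>
    exists_tens _ _
  choose P τ hT using key
  -- the augmentation
  obtain ⟨e, he⟩ : ∃ e : (R.P 0).V →L[ℂ] B, e = R.ε := ⟨R.ε, rfl⟩
  have hel : ∀ (b : B) (x : (R.P 0).V), e ((R.P 0).l b x) = b * e x := by
    rw [he]
    exact fun b x => R.hε.left b x
  have her : ∀ (b : B) (x : (R.P 0).V), e ((R.P 0).r b x) = b * e x := by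
    rw [he]
    exact fun b x => R.hε.right b x
  have hed : ∀ x, e (R.d 0 x) = 0 := by
    rw [he]
    exact fun x => R.εd x
  obtain ⟨s00, hs00⟩ : ∃ s00 : B →L[ℂ] (R.P 0).V, s00 = s0 := ⟨s0, rfl⟩
  have hes : ∀ x : B, e (s00 x) = x := by
    rw [he, hs00]
    exact fun x => h1 x
  have hse : ∀ x, s00 (e x) + R.d 0 (s 0 x) = x := by
    rw [he, hs00]
    exact fun x => h2 x
  have hsl : ∀ b x : B, s00 (b * x) = (R.P 0).l b (s00 x) := by
    rw [hs00]
    exact fun b x => hs0 b x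
  obtain ⟨ε', hε', hε'τ⟩ := exists_aug ρ hρ (hT 0) (e : (R.P 0).V →ₗ[ℂ] B) e.continuous hel her
  have hε'τ' : ∀ (a : A) (n : (R.P 0).V), ε' (τ 0 a n) = (a * ρ (e n) : A) := hε'τ
  -- the differentials
  have hdk : ∀ k, ∃ F : (P (k + 1)).V →L[ℂ] (P k).V, IsHom F ∧
      ∀ m n, F (τ (k + 1) m n) = τ k m (R.d k n) := by
    intro k
    refine (hT (k + 1)).lift_hom (P k) ((τ k).compl₂ (R.d k : (R.P (k + 1)).V →ₗ[ℂ] (R.P k).V))
      ?_ ?_ ?_ ?_
    · change Continuous fun p : (algMod (AlgHom.id ℂ A) continuous_id ρ hρ).V ×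
        (R.P (k + 1)).V => τ k p.1 (R.d k p.2)
      exact (hT k).cont.comp (continuous_fst.prodMk ((R.d k).continuous.comp continuous_snd))
    · intro b m n
      change τ k _ (R.d k n) = τ k m (R.d k ((R.P (k + 1)).l b n))
      rw [(hT k).bal, (R.hd k).left]
    · intro a m n
      change τ k _ (R.d k n) = (P k).l a (τ k m (R.d k n))
      rw [(hT k).left]
    · intro b m n
      change τ k m (R.d k ((R.P (k + 1)).r b n)) = (P k).r b (τ k m (R.d k n))
      rw [(hT k).right, (R.hd k).right]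
  choose d' hd' hd'τ using hdk
  -- the contraction
  have hsk : ∀ k, ∃ F : (P k).V →L[ℂ] (P (k + 1)).V, ∀ m n,
      F (τ k m n) = τ (k + 1) m (s k n) := by
    intro k
    obtain ⟨F, hF⟩ := (hT k).map (hT (k + 1))
      (ContinuousLinearMap.id ℂ (algMod (AlgHom.id ℂ A) continuous_id ρ hρ).V)
      (fun a m => rfl) (s k) (hs k)
    exact ⟨F, fun m n => hF m n⟩
  choose s' hs' using hsk
  let s₀' : (algMod (AlgHom.id ℂ A) continuous_id ρ hρ).V →L[ℂ] (P 0).V :=
    ⟨(τ 0).flip (s00 1), (hT 0).cont.comp (continuous_id.prodMk continuous_const)⟩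
  have hs₀' : ∀ a : A, s₀' a = τ 0 a (s00 1) := fun a => rfl
  have hbal : ∀ (b : B) (m : A) (n : (R.P 0).V), τ 0 (m * ρ b : A) n = τ 0 m ((R.P 0).l b n) := by
    intro b m n
    have h4 : (m * ρ b : A) = ρ b * m := mul_comm _ _
    rw [h4]
    exact (hT 0).bal b m n
  have c1 : ∀ (m : A) (n : (R.P 0).V), s₀' (ε' (τ 0 m n)) = τ 0 m (s00 (e n)) := by
    intro m n
    have h4 : s00 (e n) = (R.P 0).l (e n) (s00 1) := by
      rw [← hsl, mul_one]
    rw [hε'τ', hs₀', hbal, h4]
  have c2 : ∀ x : A, (ε' (s₀' x) : A) = x := by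
    intro x
    have h4 : (ε' (s₀' x) : A) = x * ρ (e (s00 1)) := hε'τ' x (s00 1)
    rw [h4, hes, map_one, mul_one]
  refine ⟨{
    P := P
    proj := fun k => (hT k).projective hρ (R.proj k)
    ε := ε'
    d := d'
    hε := hε'
    hd := hd'
    εd := fun x => ?_
    dd := fun k x => ?_
    s₀ := s₀'
    s := s'
    εs := fun x => c2 x
    sε := fun x => ?_
    sd := fun k x => ?_ }, fun k hk => ?_⟩
  · have h4 : ε'.comp (d' 0) = 0 := (hT 1).hom_ext _ _ (fun m n => by
      change ε' (d' 0 (τ 1 m n)) = 0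
      have h5 : ∀ m : A, (m * ρ (e (R.d 0 n)) : A) = 0 := by
        intro m
        rw [hed, map_zero, mul_zero]
      rw [hd'τ]
      exact (hε'τ' m (R.d 0 n)).trans (h5 m))
    exact congrArg (fun f : (P 1).V →L[ℂ] (algMod (AlgHom.id ℂ A) continuous_id ρ hρ).V => f x) h4
  · have h4 : (d' k).comp (d' (k + 1)) = 0 := (hT (k + 2)).hom_ext _ _ (fun m n => by
      change d' k (d' (k + 1) (τ (k + 2) m n)) = 0
      rw [hd'τ, hd'τ, R.dd, map_zero])
    exact congrArg (fun f : (P (k + 2)).V →L[ℂ] (P k).V => f x) h4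
  · have h4 : s₀'.comp ε' + (d' 0).comp (s' 0) = ContinuousLinearMap.id ℂ (P 0).V :=
      (hT 0).hom_ext _ _ (fun m n => by
        have h5 : d' 0 (s' 0 (τ 0 m n)) = τ 0 m (R.d 0 (s 0 n)) := by
          rw [hs', hd'τ]
        have h6 : τ 0 m (s00 (e n)) + τ 0 m (R.d 0 (s 0 n)) = τ 0 m n := by
          rw [← map_add, hse]
        exact (congrArg₂ (fun u v : (P 0).V => u + v) (c1 m n) h5).trans h6)
    exact congrArg (fun f : (P 0).V →L[ℂ] (P 0).V => f x) h4
  · have h4 : (s' k).comp (d' k) + (d' (k + 1)).comp (s' (k + 1)) =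
        ContinuousLinearMap.id ℂ (P (k + 1)).V :=
      (hT (k + 1)).hom_ext _ _ (fun m n => by
        change s' k (d' k (τ (k + 1) m n)) + d' (k + 1) (s' (k + 1) (τ (k + 1) m n)) =
          τ (k + 1) m n
        rw [hd'τ, hs', hs', hd'τ, ← map_add, h3])
    exact congrArg (fun f : (P (k + 1)).V →L[ℂ] (P (k + 1)).V => f x) h4
  · have hsub := hR k hk
    have h4 : ContinuousLinearMap.id ℂ (P k).V = 0 := (hT k).hom_ext _ _ (fun m n => by
      change τ k m n = 0
      rw [Subsingleton.elim n 0, map_zero])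
    refine ⟨fun x y => ?_⟩
    have h5 : ∀ x : (P k).V, x = 0 := fun x =>
      congrArg (fun f : (P k).V →L[ℂ] (P k).V => f x) h4
    rw [h5 x, h5 y]

end

end HD
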