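import Pool.Agent.Helper48.HD.H1

/-!
Module HD-B2: formal properties of DimLE.

Proof. mono: same resolution.  of_iso: same P, d, s; ε' = f ∘ ε, s₀' = s₀ ∘ g.
flip: flip all modules (Projective.flip: the test modules are flipped back).
zero: for a subsingleton X all P k = the zero module (BMod.pi over Empty).
-/

namespace HD

section

variable {A C : Type} [CommRing A] [Algebra ℂ A] [TopologicalSpace A]
    [CommRing C] [Algebra ℂ C] [TopologicalSpace C]

theorem DimLE.mono {X : BMod A C} {m n : ℕ} (h : DimLE X m) (hmn : m ≤ n) : DimLE X n := by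
  obtain ⟨R, hR⟩ := h
  exact ⟨R, fun k hk => hR k (lt_of_le_of_lt hmn hk)⟩

theorem DimLE.of_iso {X X' : BMod A C} {m : ℕ} (h : DimLE X m) (f : X.V →L[ℂ] X'.V)
    (hf : IsHom f) (g : X'.V →L[ℂ] X.V) (hg : IsHom g) (hfg : ∀ x, f (g x) = x)
    (hgf : ∀ x, g (f x) = x) : DimLE X' m := by
  obtain ⟨R, hR⟩ := h
  refine ⟨{ P := R.P
            proj := R.proj
            ε := f.comp R.ε
            d := R.d
            hε := IsHom.comp hf R.hε
            hd := R.hd
            εd := fun x => ?_
            dd := R.dd
            s₀ := R.s₀.comp g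
            s := R.s
            εs := fun x => ?_
            sε := fun x => ?_
            sd := R.sd }, hR⟩
  · rw [ContinuousLinearMap.comp_apply, R.εd, map_zero]
  · rw [ContinuousLinearMap.comp_apply, ContinuousLinearMap.comp_apply, R.εs, hfg]
  · rw [ContinuousLinearMap.comp_apply, ContinuousLinearMap.comp_apply, hgf, R.sε]

theorem Projective.flip {P : BMod A C} (hP : Projective P) : Projective P.flip := by
  intro Z σ hσ hτ
  obtain ⟨τ, h1, h2⟩ := hP Z.flip σ ⟨hσ.right, hσ.left⟩ hτ
  exact ⟨τ, ⟨h1.right, h1.left⟩, h2⟩

theorem DimLE.flip {X : BMod A C} {m : ℕ} (h : DimLE X m) : DimLE X.flip m := by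
  obtain ⟨R, hR⟩ := h
  exact ⟨{ P := fun k => (R.P k).flip
           proj := fun k => (R.proj k).flip
           ε := R.ε
           d := R.d
           hε := ⟨R.hε.right, R.hε.left⟩
           hd := fun k => ⟨(R.hd k).right, (R.hd k).left⟩
           εd := R.εd
           dd := R.dd
           s₀ := R.s₀
           s := R.s
           εs := R.εs
           sε := R.sε
           sd := R.sd }, hR⟩

theorem DimLE.of_subsingleton {X : BMod A C} (h : Subsingleton X.V) (m : ℕ) : DimLE X m := by
  have hZ : Subsingleton (BMod.pi (fun _ : Empty => X)).V := ⟨fun x y => funext fun i => i.elim⟩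
  exact ⟨{ P := fun _ => BMod.pi (fun _ : Empty => X)
           proj := fun _ => fun Z σ _ _ => ⟨0, IsHom.zero, fun x => hZ.elim _ _⟩
           ε := 0
           d := fun _ => 0
           hε := IsHom.zero
           hd := fun _ => IsHom.zero
           εd := fun x => h.elim _ _
           dd := fun k x => hZ.elim _ _
           s₀ := 0
           s := fun _ => 0
           εs := fun x => h.elim _ _
           sε := fun x => hZ.elim _ _
           sd := fun k x => hZ.elim _ _ }, fun k _ => hZ⟩

end

end HD
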