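import Pool.Agent.Helper48.HD.H2

/-!
Module HD-H4: chain maps over the zero map of X are null homotopic.

Proof. h 0: lift f 0 through P.P 1 → P.P 0 → X (Projective.liftCx, s = P.s 0, P.ε ∘ f 0 = 0).
h (k+1): lift f (k+1) - h k ∘ T.d k through P.P (k+2) → P.P (k+1) → P.P k; the condition:
P.d k (f (k+1) x - h k (T.d k x)) = f k (T.d k x) - P.d k (h k (T.d k x)), which is
h (k-1) (T.d (k-1) (T.d k x)) = 0 for k ≥ 1 and f 0 (..) - f 0 (..) = 0 for k = 0.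
Recursion as in H3 (pairs).
-/

namespace HD

section

variable {A C : Type} [CommRing A] [Algebra ℂ A] [TopologicalSpace A]
    [CommRing C] [Algebra ℂ C] [TopologicalSpace C]

private theorem homotopy_zero {X : BMod A C} (T P : ProjRes X)
    (f : (T.P 0).V →L[ℂ] (P.P 0).V) (hf : IsHom f) (h0 : ∀ x, P.ε (f x) = 0) :
    ∃ h : (T.P 0).V →L[ℂ] (P.P 1).V, IsHom h ∧ ∀ x, P.d 0 (h x) = f x := by
  refine Projective.liftCx (T.proj 0) (P.d 0) (P.hd 0) P.ε P.hε P.εd (P.s 0) ?_ f hf h0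
  intro z hz
  have h1 := P.sε z
  rw [hz, map_zero, zero_add] at h1
  exact h1

private theorem homotopy_succ {X : BMod A C} (T P : ProjRes X) (k : ℕ)
    (f : (T.P k).V →L[ℂ] (P.P k).V)
    (f' : (T.P (k + 1)).V →L[ℂ] (P.P (k + 1)).V) (hf' : IsHom f')
    (hd : ∀ x, P.d k (f' x) = f (T.d k x))
    (h : (T.P k).V →L[ℂ] (P.P (k + 1)).V) (hh : IsHom h)
    (hc : ∀ x, P.d k (h (T.d k x)) = f (T.d k x)) :
    ∃ h' : (T.P (k + 1)).V →L[ℂ] (P.P (k + 2)).V, IsHom h' ∧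
      ∀ x, P.d (k + 1) (h' x) + h (T.d k x) = f' x := by
  obtain ⟨ψ, hψ, hψ'⟩ := Projective.liftCx (T.proj (k + 1)) (P.d (k + 1)) (P.hd (k + 1)) (P.d k)
    (P.hd k) (P.dd k) (P.s (k + 1)) (by
      intro z hz
      have h1 := P.sd k z
      rw [hz, map_zero, zero_add] at h1
      exact h1) (f' - h.comp (T.d k)) (hf'.sub (hh.comp (T.hd k))) (by
      intro x
      have h2 : (f' - h.comp (T.d k)) x = f' x - h (T.d k x) := rfl
      rw [h2, map_sub, hd x, hc x, sub_self])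
  refine ⟨ψ, hψ, fun x => ?_⟩
  have h2 : (f' - h.comp (T.d k)) x = f' x - h (T.d k x) := rfl
  rw [hψ' x, h2, sub_add_cancel]

theorem exists_homotopy {X : BMod A C} (T P : ProjRes X)
    (f : ∀ k, (T.P k).V →L[ℂ] (P.P k).V) (hf : ∀ k, IsHom (f k))
    (h0 : ∀ x, P.ε (f 0 x) = 0) (hd : ∀ k x, P.d k (f (k + 1) x) = f k (T.d k x)) :
    ∃ h : ∀ k, (T.P k).V →L[ℂ] (P.P (k + 1)).V, (∀ k, IsHom (h k)) ∧
      (∀ x, P.d 0 (h 0 x) = f 0 x) ∧
      ∀ k x, P.d (k + 1) (h (k + 1) x) + h k (T.d k x) = f (k + 1) x := by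
  classical
  let S : ℕ → Type := fun k => {h : (T.P k).V →L[ℂ] (P.P (k + 1)).V //
    IsHom h ∧ ∀ x, P.d k (h (T.d k x)) = f k (T.d k x)}
  have step : ∀ (k : ℕ) (h : S k), ∃ h' : S (k + 1),
      ∀ x, P.d (k + 1) (h'.1 x) + h.1 (T.d k x) = f (k + 1) x := by
    intro k h
    obtain ⟨h', h1, h2⟩ := homotopy_succ T P k (f k) (f (k + 1)) (hf (k + 1)) (hd k) h.1 h.2.1 h.2.2
    refine ⟨⟨h', h1, fun x => ?_⟩, h2⟩
    have h3 := h2 (T.d (k + 1) x)
    rw [T.dd k x, map_zero, add_zero] at h3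
    exact h3
  choose next hnext using step
  obtain ⟨a, ha, ha'⟩ := homotopy_zero T P (f 0) (hf 0) h0
  let a0 : S 0 := ⟨a, ha, fun x => ha' (T.d 0 x)⟩
  let q : ∀ k, S k := fun k => Nat.rec a0 (fun k h => next k h) k
  refine ⟨fun k => (q k).1, fun k => (q k).2.1, fun x => ha' x, fun k x => ?_⟩
  exact hnext k (q k) x

end

end HD
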