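import Pool.Agent.Helper48.HD.H3
import Pool.Agent.Helper48.HD.H4

/-!
Module HD-H5: if X has a projective resolution of length at most m, every projective resolution
T of X is contracted above m by module morphisms.

Proof. Let P be the short resolution, f : T → P and g : P → T chain maps over the identity (H3).
The chain map id - g ∘ f of T lies over 0 (T.ε (x - g 0 (f 0 x)) = 0), so by H4 it is
D h + h D.  For k ≥ m the module P.P (k+1) is a subsingleton, so g (k+1) (f (k+1) x) = 0 and
id = T.d (k+1) ∘ h (k+1) + h k ∘ T.d k on T.P (k+1).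
-/

namespace HD

section

variable {A C : Type} [CommRing A] [Algebra ℂ A] [TopologicalSpace A]
    [CommRing C] [Algebra ℂ C] [TopologicalSpace C]

theorem split_of_dimLE {X : BMod A C} {m : ℕ} (hX : DimLE X m) (T : ProjRes X) :
    ∃ h : ∀ k, (T.P k).V →L[ℂ] (T.P (k + 1)).V, (∀ k, IsHom (h k)) ∧
      ∀ k, m ≤ k → ∀ x, T.d (k + 1) (h (k + 1) x) + h k (T.d k x) = x := by
  obtain ⟨P, hP⟩ := hX
  obtain ⟨f, hf, hf0, hfd⟩ := exists_chainMap T P
  obtain ⟨g, hg, hg0, hgd⟩ := exists_chainMap P T
  obtain ⟨h, hh, -, hd⟩ := exists_homotopy T T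
    (fun k => ContinuousLinearMap.id ℂ (T.P k).V - (g k).comp (f k))
    (fun k => IsHom.id.sub (IsHom.comp (hg k) (hf k)))
    (fun x => by
      show T.ε (x - g 0 (f 0 x)) = 0
      rw [map_sub, hg0, hf0, sub_self])
    (fun k x => by
      show T.d k (x - g (k + 1) (f (k + 1) x)) = T.d k x - g k (f k (T.d k x))
      rw [map_sub, hgd, hfd])
  refine ⟨h, hh, fun k hk x => ?_⟩
  have h1 : f (k + 1) x = 0 := by
    haveI := hP (k + 1) (by omega)
    exact Subsingleton.elim _ _
  have h2 := hd k x
  have h3 : (ContinuousLinearMap.id ℂ (T.P (k + 1)).V - (g (k + 1)).comp (f (k + 1))) x =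
      x - g (k + 1) (f (k + 1) x) := rfl
  rw [h3, h1, map_zero, sub_zero] at h2
  exact h2

end

end HD
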