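import Pool.Agent.Helper48.HD.H1

/-!
Module HD-H6: a splitting at level k truncates the resolution.

Proof. Write d = R.d k : R.P (k+1) → R.P k and let e' = d ∘ h on R.P k; then e' (e' x) = e' x and
e' (d y) = d y.  Let Q be the closed submodule {x | d (h x) = 0} of R.P k (BMod.sub); it is a
retract of R.P k by x ↦ x - d (h x), so it is projective (Projective.retract).
If k = 0: the resolution is Q → X with ε restricted, s₀ followed by the retraction:
for x in Q: r (s₀ (ε x)) = r (x - d (s 0 x)) = x, as r kills the image of d; and ε (r (s₀ x)) =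
ε (s₀ x) - ε (d (h (s₀ x))) = x.  All further modules are the zero module (e.g. BMod.sub with
the bottom subspace, or BMod.pi over Empty).
If k ≥ 1: keep R.P j for j < k, put Q in place k and the zero module above; differential Q →
R.P (k-1) the restriction of R.d (k-1), contraction r ∘ R.s (k-1).
Suggestion: define the new modules by a function of j with cases on the order of j and k; a
cleaner way: induction on k.  For k = 0 as above.  For k + 1: let X' = ker (R.ε), a closed
submodule of R.P 0; R shifted by one is a projective resolution R' of X' (ε' = R.d 0 corestricted,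
s₀' = R.s 0 restricted), and h is a splitting at level k of R', so X' has a projective
resolution R'' of length at most k; splice R.P 0 in front of R''.
-/

namespace HD

section

variable {A C : Type} [CommRing A] [Algebra ℂ A] [TopologicalSpace A]
    [CommRing C] [Algebra ℂ C] [TopologicalSpace C]

/-- the zero module -/
private def zmod (A C : Type) [CommRing A] [Algebra ℂ A] [TopologicalSpace A]
    [CommRing C] [Algebra ℂ C] [TopologicalSpace C] : BMod A C :=
  BMod.pi (fun i : Empty => (i.elim : BMod A C))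

private theorem zmod_sub : Subsingleton (zmod A C).V :=
  ⟨fun _ _ => funext fun i => i.elim⟩

private theorem zmod_proj : Projective (zmod A C) :=
  Projective.pi (fun i => i.elim)

/-- the kernel of a morphism -/
private def kerMod {X Y : BMod A C} (f : X.V →L[ℂ] Y.V) (hf : IsHom f) : BMod A C :=
  X.sub (LinearMap.ker (f : X.V →ₗ[ℂ] Y.V)) (by
    have : ((LinearMap.ker (f : X.V →ₗ[ℂ] Y.V) : Submodule ℂ X.V) : Set X.V) = f ⁻¹' {0} := by
      ext x
      simp
    rw [this]
    exact isClosed_singleton.preimage f.continuous)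
    (fun a x hx => by
      simp only [LinearMap.mem_ker, ContinuousLinearMap.coe_coe] at hx ⊢
      rw [hf.left, hx, map_zero])
    (fun c x hx => by
      simp only [LinearMap.mem_ker, ContinuousLinearMap.coe_coe] at hx ⊢
      rw [hf.right, hx, map_zero])

private def kerIncl {X Y : BMod A C} (f : X.V →L[ℂ] Y.V) (hf : IsHom f) :
    (kerMod f hf).V →L[ℂ] X.V :=
  (LinearMap.ker (f : X.V →ₗ[ℂ] Y.V)).subtypeL

private theorem kerIncl_hom {X Y : BMod A C} (f : X.V →L[ℂ] Y.V) (hf : IsHom f) :
    IsHom (X := kerMod f hf) (Y := X) (kerIncl f hf) :=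
  ⟨fun _ _ => rfl, fun _ _ => rfl⟩

private theorem kerIncl_inj {X Y : BMod A C} (f : X.V →L[ℂ] Y.V) (hf : IsHom f)
    {x y : (kerMod f hf).V} (h : kerIncl f hf x = kerIncl f hf y) : x = y :=
  Subtype.ext h

private theorem kerIncl_ker {X Y : BMod A C} (f : X.V →L[ℂ] Y.V) (hf : IsHom f)
    (x : (kerMod f hf).V) : f (kerIncl f hf x) = 0 := by
  have := x.2
  exact this

private def kerLift {X Y Z : BMod A C} (f : X.V →L[ℂ] Y.V) (hf : IsHom f)
    (g : Z.V →L[ℂ] X.V) (hg : ∀ z, f (g z) = 0) : Z.V →L[ℂ] (kerMod f hf).V :=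
  g.codRestrict (LinearMap.ker (f : X.V →ₗ[ℂ] Y.V)) (fun z => by
    simpa using hg z)

private theorem kerIncl_lift {X Y Z : BMod A C} (f : X.V →L[ℂ] Y.V) (hf : IsHom f)
    (g : Z.V →L[ℂ] X.V) (hg : ∀ z, f (g z) = 0) (z : Z.V) :
    kerIncl f hf (kerLift f hf g hg z) = g z := rfl

private theorem kerLift_hom {X Y Z : BMod A C} (f : X.V →L[ℂ] Y.V) (hf : IsHom f)
    (g : Z.V →L[ℂ] X.V) (hg : ∀ z, f (g z) = 0) (hgh : IsHom g) :
    IsHom (X := Z) (Y := kerMod f hf) (kerLift f hf g hg) :=
  ⟨fun a x => kerIncl_inj f hf (by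
      rw [kerIncl_lift, (kerIncl_hom f hf).left, kerIncl_lift, hgh.left]),
    fun c x => kerIncl_inj f hf (by
      rw [kerIncl_lift, (kerIncl_hom f hf).right, kerIncl_lift, hgh.right])⟩

/-- put a module in front of a sequence of modules -/
private def consMod (P₀ : BMod A C) (P : ℕ → BMod A C) : ℕ → BMod A C
  | 0 => P₀
  | n + 1 => P n

private theorem dimLE_zero {X : BMod A C} (R : ProjRes X)
    (h : (R.P 0).V →L[ℂ] (R.P (0 + 1)).V) (hh : IsHom h)
    (e : ∀ x, R.d 0 (h (R.d 0 x)) = R.d 0 x) : DimLE X 0 := by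
  have he : IsHom (X := R.P 0) (Y := R.P 0) ((R.d 0).comp h) := IsHom.comp (R.hd 0) hh
  have hr0 : IsHom (X := R.P 0) (Y := R.P 0)
      (ContinuousLinearMap.id ℂ (R.P 0).V - (R.d 0).comp h) := IsHom.sub IsHom.id he
  have hk : ∀ z, ((R.d 0).comp h)
      ((ContinuousLinearMap.id ℂ (R.P 0).V - (R.d 0).comp h) z) = 0 := by
    intro z
    simp [e]
  let Q : BMod A C := kerMod ((R.d 0).comp h) he
  let i : Q.V →L[ℂ] (R.P 0).V := kerIncl ((R.d 0).comp h) he
  let r : (R.P 0).V →L[ℂ] Q.V := kerLift (Z := R.P 0) ((R.d 0).comp h) he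
    (ContinuousLinearMap.id ℂ (R.P 0).V - (R.d 0).comp h) hk
  have hi : IsHom (X := Q) (Y := R.P 0) i := kerIncl_hom _ he
  have hr : IsHom (X := R.P 0) (Y := Q) r := kerLift_hom _ he _ hk hr0
  have hir : ∀ x, i (r x) = x - R.d 0 (h x) := fun x => rfl
  have hiz : ∀ x, R.d 0 (h (i x)) = 0 := fun x => kerIncl_ker _ he x
  have hinj : ∀ x y, i x = i y → x = y := fun x y hxy => kerIncl_inj _ he hxy
  have hri : ∀ x, r (i x) = x := by
    intro x
    apply hinj
    rw [hir, hiz, sub_zero]
  have hQ : Projective Q := Projective.retract (R.proj 0) i hi r hr hri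
  have hz : Subsingleton (zmod A C).V := zmod_sub
  refine ⟨{
    P := consMod Q (fun _ => zmod A C)
    proj := fun k => ?_
    ε := R.ε.comp i
    d := fun k => 0
    hε := IsHom.comp R.hε hi
    hd := fun k => IsHom.zero
    εd := fun x => by simp
    dd := fun k x => by simp
    s₀ := r.comp R.s₀
    s := fun k => 0
    εs := fun x => ?_
    sε := fun x => ?_
    sd := fun k x => ?_ }, ?_⟩
  · match k with
    | 0 => exact hQ
    | n + 1 => exact zmod_proj
  · change R.ε (i (r (R.s₀ x))) = x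
    rw [hir, map_sub, R.εs, R.εd, sub_zero]
  · change r (R.s₀ (R.ε (i x))) + 0 = x
    rw [add_zero]
    apply hinj
    rw [hir]
    have h1 : R.s₀ (R.ε (i x)) = i x - R.d 0 (R.s 0 (i x)) := by
      rw [eq_sub_iff_add_eq]
      exact R.sε (i x)
    rw [h1, map_sub h, map_sub (R.d 0), hiz, e]
    abel
  · exact hz.elim _ _
  · intro k hk
    match k, hk with
    | n + 1, _ => exact hz

private theorem dimLE_succ {X : BMod A C} (R : ProjRes X) {k : ℕ}
    (hX' : DimLE (kerMod R.ε R.hε) k) : DimLE X (k + 1) := by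
  obtain ⟨T, hT⟩ := hX'
  have hq : ∀ z, R.ε ((ContinuousLinearMap.id ℂ (R.P 0).V - R.s₀.comp R.ε) z) = 0 := by
    intro z
    simp [R.εs]
  let q : (R.P 0).V →L[ℂ] (kerMod R.ε R.hε).V := kerLift (Z := R.P 0) R.ε R.hε
    (ContinuousLinearMap.id ℂ (R.P 0).V - R.s₀.comp R.ε) hq
  let i : (kerMod R.ε R.hε).V →L[ℂ] (R.P 0).V := kerIncl R.ε R.hε
  have hi : IsHom (X := kerMod R.ε R.hε) (Y := R.P 0) i := kerIncl_hom _ _
  have hiq : ∀ x, i (q x) = x - R.s₀ (R.ε x) := fun x => rfl
  have hiz : ∀ x, R.ε (i x) = 0 := fun x => kerIncl_ker _ _ x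
  have hinj : ∀ x y, i x = i y → x = y := fun x y hxy => kerIncl_inj _ _ hxy
  have hqi : ∀ x, q (i x) = x := by
    intro x
    apply hinj
    rw [hiq, hiz, map_zero, sub_zero]
  refine ⟨{
    P := consMod (R.P 0) T.P
    proj := fun k => ?_
    ε := R.ε
    d := fun k => match k with
      | 0 => i.comp T.ε
      | n + 1 => T.d n
    hε := R.hε
    hd := fun k => ?_
    εd := fun x => ?_
    dd := fun k x => ?_
    s₀ := R.s₀
    s := fun k => match k with
      | 0 => T.s₀.comp q
      | n + 1 => T.s n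
    εs := R.εs
    sε := fun x => ?_
    sd := fun k x => ?_ }, ?_⟩
  · match k with
    | 0 => exact R.proj 0
    | n + 1 => exact T.proj n
  · match k with
    | 0 => exact IsHom.comp hi T.hε
    | n + 1 => exact T.hd n
  · exact hiz (T.ε x)
  · match k, x with
    | 0, x =>
      change i (T.ε (T.d 0 x)) = 0
      rw [T.εd, map_zero]
    | n + 1, x => exact T.dd n x
  · change R.s₀ (R.ε x) + i (T.ε (T.s₀ (q x))) = x
    rw [T.εs, hiq]
    exact add_sub_cancel (R.s₀ (R.ε x)) x
  · match k, x with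
    | 0, x =>
      change T.s₀ (q (i (T.ε x))) + T.d 0 (T.s 0 x) = x
      rw [hqi]
      exact T.sε x
    | n + 1, x => exact T.sd n x
  · intro j hj
    match j, hj with
    | n + 1, hj => exact hT n (by omega)

private def shiftRes {X : BMod A C} (R : ProjRes X) : ProjRes (kerMod R.ε R.hε) where
  P := fun j => R.P (j + 1)
  proj := fun j => R.proj (j + 1)
  ε := kerLift (Z := R.P 1) R.ε R.hε (R.d 0) R.εd
  d := fun j => R.d (j + 1)
  hε := kerLift_hom _ _ _ _ (R.hd 0)
  hd := fun j => R.hd (j + 1)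
  εd := fun x => kerIncl_inj _ _ (by
    rw [kerIncl_lift, map_zero]
    exact R.dd 0 x)
  dd := fun j x => R.dd (j + 1) x
  s₀ := (R.s 0).comp (kerIncl R.ε R.hε)
  s := fun j => R.s (j + 1)
  εs := fun x => kerIncl_inj _ _ (by
    rw [kerIncl_lift]
    have h1 := R.sε (kerIncl R.ε R.hε x)
    rw [kerIncl_ker, map_zero, zero_add] at h1
    exact h1)
  sε := fun x => R.sd 0 x
  sd := fun j x => R.sd (j + 1) x

theorem dimLE_of_split {X : BMod A C} (R : ProjRes X) (k : ℕ)
    (h : (R.P k).V →L[ℂ] (R.P (k + 1)).V) (hh : IsHom h)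
    (e : ∀ x, R.d k (h (R.d k x)) = R.d k x) : DimLE X k := by
  induction k generalizing X with
  | zero => exact dimLE_zero R h hh e
  | succ k ih => exact dimLE_succ R (ih (shiftRes R) h hh e)

end

end HD
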