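import Pool.Agent.Helper48.HD.Basic

/-!
Module HD-H1: projective modules have the lifting property; retracts and finite products.

Proof.
lift: let Q be the closed submodule {(p,z) | φ p = σ z} of the product of P and Z (use BMod.sub
of BMod.pi over Bool or Fin 2 with a family given by cases, or any other way).  The projection
Q → P is a morphism with the continuous linear right inverse p ↦ (p, τ (φ p)), so it has a
right inverse which is a morphism; compose it with the projection to Z.
projective_of_lift: take X = P, φ = id.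
retract: by projective_of_lift: lift φ ∘ p to P and compose with i.
pi (finite products): by projective_of_lift: for every i lift φ ∘ (inclusion of the factor i)
to ψ_i and take the sum of the ψ_i ∘ (projection to the factor i).
projective_CC: modules over ℂ and ℂ: every continuous linear map is a morphism
(l z x = z • x because l is a homomorphism of ℂ-algebras), so every module is projective.
-/

namespace HD

section

variable {A C : Type} [CommRing A] [Algebra ℂ A] [TopologicalSpace A]
    [CommRing C] [Algebra ℂ C] [TopologicalSpace C]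

private def prodMod (P Z : BMod A C) : BMod A C :=
  { V := P.V × Z.V
    l :=
      { toFun := fun a => (P.l a).prodMap (Z.l a)
        map_one' := by ext x <;> simp
        map_mul' := fun a b => by ext x <;> simp
        map_zero' := by ext x <;> simp
        map_add' := fun a b => by ext x <;> simp
        commutes' := fun z => by ext x <;> simp [Algebra.algebraMap_eq_smul_one] }
    r :=
      { toFun := fun c => (P.r c).prodMap (Z.r c)
        map_one' := by ext x <;> simp
        map_mul' := fun a b => by ext x <;> simp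
        map_zero' := by ext x <;> simp
        map_add' := fun a b => by ext x <;> simp
        commutes' := fun z => by ext x <;> simp [Algebra.algebraMap_eq_smul_one] }
    cl := (P.cl.comp (continuous_fst.prodMk (continuous_fst.comp continuous_snd))).prodMk
      (Z.cl.comp (continuous_fst.prodMk (continuous_snd.comp continuous_snd)))
    cr := (P.cr.comp (continuous_fst.prodMk (continuous_fst.comp continuous_snd))).prodMk
      (Z.cr.comp (continuous_fst.prodMk (continuous_snd.comp continuous_snd)))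
    comm := fun a c x => Prod.ext (P.comm a c x.1) (Z.comm a c x.2) }

theorem Projective.lift {P X Z : BMod A C} (hP : Projective P) (σ : Z.V →L[ℂ] X.V) (hσ : IsHom σ)
    (τ : X.V →L[ℂ] Z.V) (hτ : ∀ x, σ (τ x) = x) (φ : P.V →L[ℂ] X.V) (hφ : IsHom φ) :
    ∃ ψ : P.V →L[ℂ] Z.V, IsHom ψ ∧ ∀ x, σ (ψ x) = φ x := by
  let g : P.V × Z.V →L[ℂ] X.V :=
    φ.comp (ContinuousLinearMap.fst ℂ P.V Z.V) - σ.comp (ContinuousLinearMap.snd ℂ P.V Z.V)
  let U : Submodule ℂ (P.V × Z.V) := LinearMap.ker g.toLinearMap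
  have hmem : ∀ x : P.V × Z.V, x ∈ U ↔ φ x.1 = σ x.2 := by
    intro x
    show g x = 0 ↔ _
    simp [g, sub_eq_zero]
  have hU : IsClosed (U : Set (P.V × Z.V)) := g.isClosed_ker
  let Q : BMod A C := (prodMod P Z).sub U hU
    (fun a x hx => (hmem (P.l a x.1, Z.l a x.2)).2 (by
      have hx' : φ x.1 = σ x.2 := (hmem x).1 hx
      show φ (P.l a x.1) = σ (Z.l a x.2)
      rw [hφ.left, hσ.left, hx']))
    (fun c x hx => (hmem (P.r c x.1, Z.r c x.2)).2 (by
      have hx' : φ x.1 = σ x.2 := (hmem x).1 hx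
      show φ (P.r c x.1) = σ (Z.r c x.2)
      rw [hφ.right, hσ.right, hx']))
  let ρ : Q.V →L[ℂ] P.V := (ContinuousLinearMap.fst ℂ P.V Z.V).comp U.subtypeL
  have hρ : IsHom (X := Q) (Y := P) ρ := ⟨fun _ _ => rfl, fun _ _ => rfl⟩
  let κ : P.V →L[ℂ] Q.V :=
    ((ContinuousLinearMap.id ℂ P.V).prod (τ.comp φ)).codRestrict U (fun x => by
      rw [hmem]
      simp [hτ])
  obtain ⟨τ', hτ', hτ''⟩ := hP Q ρ hρ ⟨κ, fun _ => rfl⟩
  refine ⟨((ContinuousLinearMap.snd ℂ P.V Z.V).comp U.subtypeL).comp τ', ⟨?_, ?_⟩, ?_⟩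
  · intro a x
    show (τ' (P.l a x)).1.2 = Z.l a (τ' x).1.2
    rw [hτ'.left]
    rfl
  · intro c x
    show (τ' (P.r c x)).1.2 = Z.r c (τ' x).1.2
    rw [hτ'.right]
    rfl
  · intro x
    show σ (τ' x).1.2 = φ x
    rw [← (hmem (τ' x).1).1 (τ' x).2]
    congr 1
    exact hτ'' x

theorem projective_of_lift {P : BMod A C}
    (h : ∀ (Z X : BMod A C) (σ : Z.V →L[ℂ] X.V), IsHom σ → ∀ τ : X.V →L[ℂ] Z.V,
      (∀ x, σ (τ x) = x) → ∀ φ : P.V →L[ℂ] X.V, IsHom φ →
      ∃ ψ : P.V →L[ℂ] Z.V, IsHom ψ ∧ ∀ x, σ (ψ x) = φ x) : Projective P := by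
  intro Z σ hσ ⟨τ, hτ⟩
  exact h Z P σ hσ τ hτ (ContinuousLinearMap.id ℂ P.V) IsHom.id

theorem Projective.retract {P Q : BMod A C} (hP : Projective P) (i : Q.V →L[ℂ] P.V)
    (hi : IsHom i) (p : P.V →L[ℂ] Q.V) (hp : IsHom p) (h : ∀ x, p (i x) = x) :
    Projective Q := by
  apply projective_of_lift
  intro Z X σ hσ τ hτ φ hφ
  obtain ⟨ψ, hψ, hψ'⟩ := hP.lift σ hσ τ hτ (φ.comp p) (hφ.comp hp)
  refine ⟨ψ.comp i, hψ.comp hi, fun x => ?_⟩
  have := hψ' (i x)
  rw [ContinuousLinearMap.comp_apply, this, ContinuousLinearMap.comp_apply, h]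

theorem Projective.pi {ι : Type} [Fintype ι] {X : ι → BMod A C} (h : ∀ i, Projective (X i)) :
    Projective (BMod.pi X) := by
  classical
  apply projective_of_lift
  intro Z Y σ hσ τ hτ φ hφ
  let inc : ∀ i, (X i).V →L[ℂ] (BMod.pi X).V := fun i =>
    ContinuousLinearMap.single ℂ (fun i => (X i).V) i
  have hinc : ∀ i, IsHom (X := X i) (Y := BMod.pi X) (inc i) := by
    intro i
    constructor
    · intro a x
      funext j
      show Pi.single (M := fun i => (X i).V) i ((X i).l a x) j =
        (X j).l a (Pi.single (M := fun i => (X i).V) i x j)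
      by_cases hj : j = i
      · subst hj
        rw [Pi.single_eq_same, Pi.single_eq_same]
      · rw [Pi.single_eq_of_ne hj, Pi.single_eq_of_ne hj, map_zero]
    · intro c x
      funext j
      show Pi.single (M := fun i => (X i).V) i ((X i).r c x) j =
        (X j).r c (Pi.single (M := fun i => (X i).V) i x j)
      by_cases hj : j = i
      · subst hj
        rw [Pi.single_eq_same, Pi.single_eq_same]
      · rw [Pi.single_eq_of_ne hj, Pi.single_eq_of_ne hj, map_zero]
  let pr : ∀ i, (BMod.pi X).V →L[ℂ] (X i).V := fun i =>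
    ContinuousLinearMap.proj (R := ℂ) (φ := fun i => (X i).V) i
  have hpr : ∀ i, IsHom (X := BMod.pi X) (Y := X i) (pr i) := fun i =>
    ⟨fun _ _ => rfl, fun _ _ => rfl⟩
  choose ψ hψ hψ' using fun i => (h i).lift σ hσ τ hτ (φ.comp (inc i)) (hφ.comp (hinc i))
  refine ⟨∑ i, (ψ i).comp (pr i), IsHom.sum _ (fun i _ => (hψ i).comp (hpr i)), fun x => ?_⟩
  have e1 : σ ((∑ i, (ψ i).comp (pr i)) x) = ∑ i, σ (ψ i (x i)) := by
    rw [sum_apply, map_sum]
    rfl
  rw [e1]
  have e2 : ∀ i, σ (ψ i (x i)) = φ (Pi.single i (x i)) := fun i => hψ' i (x i)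
  simp only [e2]
  rw [← map_sum]
  congr 1
  exact Finset.univ_sum_single x

end

theorem BMod.l_CC (X : BMod ℂ ℂ) (z : ℂ) (x : X.V) : X.l z x = z • x := by
  have h : X.l z = X.l (algebraMap ℂ ℂ z) := rfl
  rw [h, AlgHom.commutes]
  simp [Algebra.algebraMap_eq_smul_one]

theorem BMod.r_CC (X : BMod ℂ ℂ) (z : ℂ) (x : X.V) : X.r z x = z • x := by
  have h : X.r z = X.r (algebraMap ℂ ℂ z) := rfl
  rw [h, AlgHom.commutes]
  simp [Algebra.algebraMap_eq_smul_one]

theorem projective_CC (X : BMod ℂ ℂ) : Projective X := by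
  intro Z σ _ ⟨τ, hτ⟩
  refine ⟨τ, ⟨fun a x => ?_, fun c x => ?_⟩, hτ⟩
  · rw [BMod.l_CC, BMod.l_CC, map_smul]
  · rw [BMod.r_CC, BMod.r_CC, map_smul]

end HD
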