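import Pool.Agent.Helper48.HD.Tube
import Pool.Agent.Helper48.HD.H1

/-!
Module HD-K5: forms with values in a projective module form a projective module.

Proof. alt M q ι Z is a retract of the finite product of copies of Z over the tuples
I : Fin q → Fin m (Projective.pi, Projective.retract): the map η ↦ (I ↦ η (x ∘ I)) and back
(z_I) ↦ [ y ↦ (1/q!) Σ_σ sign σ • Σ_I Z.l (ι (∏_k ξ_(I k) (y (σ k)))) z_I ].
The second map has alternating A-multilinear values (MultilinearMap.alternatization, or check
IsAlt directly), is a morphism (continuity: pointwise topology), and the composition is the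
identity: Σ_I (∏_k ξ_(I k)(y_k)) η(x ∘ I) = η(y) by multilinearity and ξx (induction, or
MultilinearMap.map_sum), and antisymmetrising an alternating map multiplies by q!.
-/

namespace HD

section

variable {A B C : Type} [CommRing A] [Algebra ℂ A] [UniformSpace A]
    [CommRing B] [Algebra ℂ B] [UniformSpace B]
    [CommRing C] [Algebra ℂ C] [TopologicalSpace C]

private noncomputable def sumForm (𝕋 : Tube A B) (q : ℕ) (Z : BMod B C)
    (z : (Fin q → Fin 𝕋.m) → Z.V) (y : Fin q → 𝕋.M) : Z.V :=
  ((q.factorial : ℂ)⁻¹) • ∑ σ : Equiv.Perm (Fin q), Equiv.Perm.sign σ •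
    ∑ I : Fin q → Fin 𝕋.m, Z.l (𝕋.ι (∏ k, 𝕋.ξ (I k) (y (σ k)))) (z I)

private theorem sumForm_key (𝕋 : Tube A B) (q : ℕ) (Z : BMod B C) :
    (∀ z, IsAlt (fun a z => Z.l (𝕋.ι a) z) (sumForm 𝕋 q Z z)) ∧
    (∀ η : (Fin q → 𝕋.M) → Z.V, IsAlt (fun a z => Z.l (𝕋.ι a) z) η →
      sumForm 𝕋 q Z (fun I => η (fun k => 𝕋.x (I k))) = η) := by
  classical
  let _ : Module A Z.V := Module.compHom Z.V (Z.l.comp 𝕋.ι).toRingHom
  have hsm : ∀ (a : A) (z : Z.V), a • z = Z.l (𝕋.ι a) z := fun _ _ => rfl
  let F : ((Fin q → Fin 𝕋.m) → Z.V) → MultilinearMap A (fun _ : Fin q => 𝕋.M) Z.V := fun z =>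
    ∑ I, ((MultilinearMap.mkPiAlgebra A (Fin q) A).compLinearMap (fun k => 𝕋.ξ (I k))).smulRight (z I)
  have hF : ∀ z y, F z y = ∑ I, Z.l (𝕋.ι (∏ k, 𝕋.ξ (I k) (y k))) (z I) := by
    intro z y
    simp only [F, MultilinearMap.sum_apply, MultilinearMap.smulRight_apply,
      MultilinearMap.compLinearMap_apply, MultilinearMap.mkPiAlgebra_apply]
    rfl
  have hS : ∀ z y, sumForm 𝕋 q Z z y =
      ((q.factorial : ℂ)⁻¹) • (MultilinearMap.alternatization (F z)) y := by
    intro z y
    rw [MultilinearMap.alternatization_apply, sumForm]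
    congr 1
    refine Finset.sum_congr rfl fun σ _ => ?_
    rw [MultilinearMap.domDomCongr_apply, hF]
  refine ⟨fun z => ⟨fun y i u v => ?_, fun y i a u => ?_, fun y i j h hij => ?_⟩, fun η hη => ?_⟩
  · rw [hS, hS, hS, AlternatingMap.map_update_add, smul_add]
  · show _ = Z.l (𝕋.ι a) _
    rw [hS, hS, AlternatingMap.map_update_smul, hsm, map_smul]
  · rw [hS, AlternatingMap.map_eq_zero_of_eq _ _ h hij, smul_zero]
  · let η' : 𝕋.M [⋀^Fin q]→ₗ[A] Z.V :=
      { toFun := η
        map_update_add' := by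
          intro inst y i u v
          have : inst = instDecidableEqFin q := Subsingleton.elim _ _
          subst this
          exact hη.add y i u v
        map_update_smul' := by
          intro inst y i a u
          have : inst = instDecidableEqFin q := Subsingleton.elim _ _
          subst this
          exact hη.smul y i a u
        map_eq_zero_of_eq' := fun y i j h hij => hη.alt y i j h hij }
    have h1 : F (fun I => η (fun k => 𝕋.x (I k))) = (η' : MultilinearMap A (fun _ => 𝕋.M) Z.V) := by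
      ext y
      rw [hF]
      have h2 : (fun k => ∑ i, 𝕋.ξ i (y k) • 𝕋.x i) = y := funext fun k => 𝕋.ξx (y k)
      conv_rhs => rw [← h2]
      rw [MultilinearMap.map_sum]
      refine Finset.sum_congr rfl fun I _ => ?_
      rw [MultilinearMap.map_smul_univ]
      rfl
    funext y
    rw [hS, h1, AlternatingMap.coe_alternatization, Fintype.card_fin, AlternatingMap.smul_apply]
    show ((q.factorial : ℂ)⁻¹) • (q.factorial • η y) = η y
    rw [← Nat.cast_smul_eq_nsmul ℂ, smul_smul, inv_mul_cancel₀ (Nat.cast_ne_zero.2 q.factorial_ne_zero),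
      one_smul]

theorem projective_alt (𝕋 : Tube A B) (q : ℕ) {Z : BMod B C} (hZ : Projective Z) :
    Projective (alt 𝕋.M q 𝕋.ι Z) := by
  classical
  obtain ⟨h1, h2⟩ := sumForm_key 𝕋 q Z
  let P : BMod B C := BMod.pi (fun _ : Fin q → Fin 𝕋.m => Z)
  have hP : Projective P := Projective.pi (fun _ => hZ)
  let i : (alt 𝕋.M q 𝕋.ι Z).V →L[ℂ] P.V :=
    { toFun := fun η I => alt.ev η (fun k => 𝕋.x (I k))
      map_add' := fun _ _ => rfl
      map_smul' := fun _ _ => rfl
      cont := by
        refine continuous_pi fun I => ?_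
        exact (continuous_apply (A := fun _ : Fin q → 𝕋.M => Z.V) (fun k => 𝕋.x (I k))).comp
          continuous_subtype_val }
  have hadd : ∀ z z' : (Fin q → Fin 𝕋.m) → Z.V,
      sumForm 𝕋 q Z (z + z') = sumForm 𝕋 q Z z + sumForm 𝕋 q Z z' := by
    intro z z'
    funext y
    simp only [sumForm, Pi.add_apply, map_add, Finset.sum_add_distrib, smul_add]
  have hsmul : ∀ (c : ℂ) (z : (Fin q → Fin 𝕋.m) → Z.V),
      sumForm 𝕋 q Z (c • z) = c • sumForm 𝕋 q Z z := by
    intro c z
    funext y
    simp only [sumForm, Pi.smul_apply, map_smul, ← Finset.smul_sum]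
    rw [smul_comm c]
    congr 1
    rw [Finset.smul_sum]
    refine Finset.sum_congr rfl fun σ _ => ?_
    rw [smul_comm]
  let p : P.V →L[ℂ] (alt 𝕋.M q 𝕋.ι Z).V :=
    { toFun := fun z => (⟨sumForm 𝕋 q Z z, h1 z⟩ : altSub 𝕋.M q 𝕋.ι Z)
      map_add' := fun z z' => Subtype.ext (hadd z z')
      map_smul' := fun c z => Subtype.ext (hsmul c z)
      cont := by
        refine Continuous.subtype_mk (continuous_pi fun y => ?_) _
        refine Continuous.const_smul (continuous_finset_sum _ fun σ _ => ?_) _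
        refine Continuous.const_smul (continuous_finset_sum _ fun I _ => ?_) _
        exact (Z.continuous_l _).comp (continuous_apply (A := fun _ : Fin q → Fin 𝕋.m => Z.V) I) }
  refine hP.retract i ⟨fun _ _ => rfl, fun _ _ => rfl⟩ p ⟨fun b z => ?_, fun c z => ?_⟩ ?_
  · refine Subtype.ext (funext fun y => ?_)
    show sumForm 𝕋 q Z (fun I => Z.l b (z I)) y = Z.l b (sumForm 𝕋 q Z z y)
    simp only [sumForm, map_smul, map_sum, map_zsmul, Units.smul_def]
    congr 1
    refine Finset.sum_congr rfl fun σ _ => ?_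
    congr 1
    refine Finset.sum_congr rfl fun I _ => ?_
    rw [← Module.End.mul_apply, ← Module.End.mul_apply, ← map_mul, ← map_mul, mul_comm]
  · refine Subtype.ext (funext fun y => ?_)
    show sumForm 𝕋 q Z (fun I => Z.r c (z I)) y = Z.r c (sumForm 𝕋 q Z z y)
    simp only [sumForm, map_smul, map_sum, map_zsmul, Units.smul_def]
    congr 1
    refine Finset.sum_congr rfl fun σ _ => ?_
    congr 1
    refine Finset.sum_congr rfl fun I _ => ?_
    rw [Z.comm]
  · intro η
    exact Subtype.ext (h2 _ (η : altSub 𝕋.M q 𝕋.ι Z).2)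

end

end HD
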