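import Pool.Agent.Helper48.HD.Tube

/-!
Module HD-K4: the contraction in degree zero, and kos ∘ kos = 0.

Proof. kos_hom_zero: the sum over Fin 1 is one term; kos (hom η) y = Σ_i v_i J_1 D_{x_i} (η y),
then J_1.  (All functions on Fin 0 are equal.)
kos_kos: Σ_i Σ_j v_i v_j η(x_j, x_i, y): symmetric in (i, j) times antisymmetric (η with two equal
first arguments is 0, so it changes sign when they are exchanged), so the sum S satisfies S = -S.
-/

namespace HD

section

variable {A B C : Type} [CommRing A] [Algebra ℂ A] [UniformSpace A]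
    [CommRing B] [Algebra ℂ B] [UniformSpace B]
    [CommRing C] [Algebra ℂ C] [TopologicalSpace C]

theorem kos_hom_zero (𝕋 : Tube A B) {Y : BMod A C} {Z : BMod B C} (O : 𝕋.Ops Y Z)
    (η : (Fin 0 → 𝕋.M) → Z.V) (y : Fin 0 → 𝕋.M) :
    kosFun 𝕋 Z (homFun 𝕋 O η) y = η y - O.i (O.p (η y)) := by
  rw [← O.J_1 (η y)]
  unfold kosFun homFun
  refine Finset.sum_congr rfl fun i _ => ?_
  rw [Fin.sum_univ_one]
  have h : (fun k : Fin 0 => (Fin.cons (𝕋.x i) y : Fin 1 → 𝕋.M) ((0 : Fin 1).succAbove k)) = y :=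
    funext fun k => k.elim0
  rw [h]
  simp

theorem kos_kos (𝕋 : Tube A B) (Z : BMod B C) {q : ℕ} {η : (Fin (q + 2) → 𝕋.M) → Z.V}
    (hη : IsAlt (fun a z => Z.l (𝕋.ι a) z) η) (y : Fin q → 𝕋.M) :
    kosFun 𝕋 Z (kosFun 𝕋 Z η) y = 0 := by
  have anti : ∀ a b : 𝕋.M, η (Fin.cons a (Fin.cons b y)) = - η (Fin.cons b (Fin.cons a y)) := by
    intro a b
    have upd0 : ∀ u v w : 𝕋.M, Function.update (Fin.cons u (Fin.cons v y) : Fin (q + 2) → 𝕋.M) 0 w
        = Fin.cons w (Fin.cons v y) := fun u v w => Fin.update_cons_zero _ _ _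
    have upd1 : ∀ u v w : 𝕋.M, Function.update (Fin.cons u (Fin.cons v y) : Fin (q + 2) → 𝕋.M) 1 w
        = Fin.cons u (Fin.cons w y) := by
      intro u v w
      have e : (1 : Fin (q + 2)) = Fin.succ 0 := rfl
      rw [e, ← Fin.cons_update, Fin.update_cons_zero]
    have z : ∀ u : 𝕋.M, η (Fin.cons u (Fin.cons u y)) = 0 := by
      intro u
      refine hη.alt _ 0 1 ?_ (by simp)
      have e : (1 : Fin (q + 2)) = Fin.succ 0 := rfl
      rw [e, Fin.cons_zero, Fin.cons_succ, Fin.cons_zero]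
    have h := z (a + b)
    have h0 := hη.add (Fin.cons a (Fin.cons (a + b) y)) 0 a b
    rw [upd0, upd0, upd0] at h0
    have h1 := hη.add (Fin.cons a (Fin.cons a y)) 1 a b
    rw [upd1, upd1, upd1] at h1
    have h2 := hη.add (Fin.cons b (Fin.cons a y)) 1 a b
    rw [upd1, upd1, upd1] at h2
    rw [h0, h1, h2, z a, z b, zero_add, add_zero] at h
    exact eq_neg_of_add_eq_zero_left h
  have key : kosFun 𝕋 Z (kosFun 𝕋 Z η) y =
      ∑ i, ∑ j, Z.l (𝕋.v i * 𝕋.v j) (η (Fin.cons (𝕋.x j) (Fin.cons (𝕋.x i) y))) := by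
    unfold kosFun
    refine Finset.sum_congr rfl fun i _ => ?_
    rw [map_sum]
    refine Finset.sum_congr rfl fun j _ => ?_
    rw [map_mul]
    rfl
  have hS : kosFun 𝕋 Z (kosFun 𝕋 Z η) y = - kosFun 𝕋 Z (kosFun 𝕋 Z η) y := by
    conv_lhs => rw [key, Finset.sum_comm]
    rw [key, ← Finset.sum_neg_distrib]
    refine Finset.sum_congr rfl fun i _ => ?_
    rw [← Finset.sum_neg_distrib]
    refine Finset.sum_congr rfl fun j _ => ?_
    rw [anti, map_neg, mul_comm]
  have h2 : (2 : ℂ) • kosFun 𝕋 Z (kosFun 𝕋 Z η) y = 0 := by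
    rw [two_smul]
    nth_rewrite 1 [hS]
    exact neg_add_cancel _
  exact (smul_eq_zero.mp h2).resolve_left two_ne_zero

end

end HD
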