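import Pool.Agent.Helper48.HD.TubeRes
import Pool.Agent.Helper48.HD.K4

/-!
Module HD-X2: the augmentation and the section of the total complex are chain maps.

Proof. aug only sees the component (0, k) at the empty tuple.
aug_D: (D t)_(0,k) = kosL t_(1,k) + δA t_(0,k+1); p (v_i z) = ρ(v_i) p z = 0 (p_l, ρv), and
p (δ z) = R.d k (p z) (pδ).
D_coaug: component (0,k): δA (i y) = i (R.d k y) by iδ, the term kosL (component (1,k) of
coaug) = 0; components (q+1, j): all components of coaug involved vanish.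
aug_coaug: p_i.
E_l, E_r: for the augmentation to Y.
-/

namespace HD

section

variable {A B C : Type} [CommRing A] [Algebra ℂ A] [UniformSpace A]
    [CommRing B] [Algebra ℂ B] [UniformSpace B]
    [CommRing C] [Algebra ℂ C] [TopologicalSpace C]

variable {𝕋 : Tube A B} {Y : BMod A C} (U : TubeRes 𝕋 Y)

theorem TubeRes.aug_D (k : ℕ) (t : (U.T (k + 1)).V) :
    U.aug k (U.D k t) = U.R.d k (U.aug (k + 1) t) := by
  show (U.O k).p (alt.ev (U.comp k 0 k (by omega) (U.D k t)) (fun i => i.elim0)) =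
    U.R.d k ((U.O (k + 1)).p (alt.ev (U.comp (k + 1) 0 (k + 1) (by omega) t)
      (fun i => i.elim0)))
  rw [U.comp_D, alt.ev_add, ev_kosL, pow_zero, one_smul, U.ev_δA, map_add, U.pδ]
  have h : (U.O k).p (kosFun 𝕋 (U.Z k) (alt.ev (U.comp (k + 1) (0 + 1) k (by omega) t))
      (fun i => i.elim0)) = 0 := by
    unfold kosFun
    rw [map_sum]
    refine Finset.sum_eq_zero fun i _ => ?_
    rw [(U.O k).p_l, 𝕋.ρv, map_zero]
    rfl
  rw [h, zero_add]

theorem TubeRes.D_coaug (k : ℕ) (y : (U.R.P (k + 1)).V) :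
    U.D k (U.coaug (k + 1) y) = U.coaug k (U.R.d k y) := by
  refine U.T_ext fun q j e => ?_
  rw [U.comp_D, U.comp_coaug_succ, map_zero, zero_add]
  rcases q with _ | q
  · obtain rfl : j = k := by omega
    rw [pow_zero, one_smul]
    show U.δA 0 j (TubeRes.zero (U.Z (j + 1)) ((U.O (j + 1)).i y)) =
      TubeRes.zero (U.Z j) ((U.O j).i (U.R.d j y))
    refine alt.ext fun z => ?_
    rw [U.ev_δA, TubeRes.ev_zero, TubeRes.ev_zero, U.iδ]
  · rw [U.comp_coaug_succ, U.comp_coaug_succ, map_zero, smul_zero]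

theorem TubeRes.aug_coaug (k : ℕ) (y : (U.R.P k).V) : U.aug k (U.coaug k y) = y := by
  show (U.O k).p ((U.O k).i y) = y
  exact (U.O k).p_i y

theorem TubeRes.E_l (b : B) (t : (U.T 0).V) : U.E ((U.T 0).l b t) = Y.l (𝕋.ρ b) (U.E t) := by
  show U.R.ε ((U.O 0).p ((U.Z 0).l b (alt.ev (U.comp 0 0 0 (by omega) t)
    (fun i => i.elim0)))) = Y.l (𝕋.ρ b) (U.R.ε ((U.O 0).p
      (alt.ev (U.comp 0 0 0 (by omega) t) (fun i => i.elim0))))
  rw [(U.O 0).p_l, U.R.hε.left]

theorem TubeRes.E_r (c : C) (t : (U.T 0).V) : U.E ((U.T 0).r c t) = Y.r c (U.E t) := by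
  show U.R.ε ((U.O 0).p ((U.Z 0).r c (alt.ev (U.comp 0 0 0 (by omega) t)
    (fun i => i.elim0)))) = Y.r c (U.R.ε ((U.O 0).p
      (alt.ev (U.comp 0 0 0 (by omega) t) (fun i => i.elim0))))
  rw [(U.O 0).p_r, U.R.hε.right]

end

end HD
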