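import Pool.Agent.Helper48.HD.Tube

/-!
Module HD-K3: the contraction of the Koszul complex in positive degrees.

Proof. Let Q = q + 1 be the degree of η, x_i = 𝕋.x i, v_i = 𝕋.v i.
kos (hom η) y = Σ_i v_i hom η (x_i, y_0..y_q)
 = Σ_i v_i J_{Q+1} D_{x_i} η(y) - Σ_i v_i Σ_j (-1)^j J_{Q+1} D_{y_j} η(x_i, y without y_j)
(the first summand of homFun, and the other summands with Fin.succAbove; sum over Fin (q+2) by
Fin.sum_univ_succ).  By J_v (Q ≥ 1): v_i J_{Q+1} z = J_Q (v_i z).  So this is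
J_Q [ Σ_i v_i D_{x_i} η(y) - Σ_j (-1)^j Σ_i v_i D_{y_j} η(x_i, y without y_j) ].
hom (kos η) y = Σ_j (-1)^j J_Q D_{y_j} ( Σ_i v_i η(x_i, y without y_j) )
 = J_Q [ Σ_j (-1)^j Σ_i ( ι(ξ_i(y_j)) η(x_i, y without y_j) + v_i D_{y_j} η(x_i, y without y_j) ) ]
by D_v.  In the sum the terms with v_i D_{y_j} cancel.  Σ_i ι(ξ_i(y_j)) η(x_i, y without y_j) =
η(y_j, y without y_j) by A-multilinearity in the first slot and ξx, and this is (-1)^j η(y) by
alternation (moving y_j from the front to the place j).  So the sum over j is Q • η(y), and the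
total is J_Q (Σ_i v_i D_{x_i} η(y) + Q • η(y)) = η(y) by J_E.
(Useful: turn η into an AlternatingMap over ℤ; AlternatingMap.map_perm, Fin.cycleRange, or
AlternatingMap lemmas about Fin.cons/insertNth such as
AlternatingMap.map_insertNth / neg_one_pow_smul_map_insertNth.)
-/

namespace HD

section

/-- alternating forms as alternating maps over the integers -/
private def toAlt {A M Z : Type} [CommRing A] [AddCommGroup M] [Module A M] [AddCommGroup Z]
    {act : A → Z → Z} {q : ℕ} {η : (Fin q → M) → Z} (hη : IsAlt act η) :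
    AlternatingMap ℤ M Z (Fin q) where
  toFun := η
  map_update_add' := by
    intro dec y i u v
    have e : dec = instDecidableEqFin q := Subsingleton.elim _ _
    subst e
    exact hη.add y i u v
  map_update_smul' := by
    intro dec y i c u
    have e : dec = instDecidableEqFin q := Subsingleton.elim _ _
    subst e
    have h := map_zsmul (AddMonoidHom.mk' (fun w : M => η (Function.update y i w))
      (fun u v => hη.add y i u v)) c u
    simp only [AddMonoidHom.mk'_apply] at h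
    exact h
  map_eq_zero_of_eq' := by
    intro y i j h hij
    exact hη.alt y i j h hij

private theorem toAlt_apply {A M Z : Type} [CommRing A] [AddCommGroup M] [Module A M]
    [AddCommGroup Z] {act : A → Z → Z} {q : ℕ} {η : (Fin q → M) → Z} (hη : IsAlt act η)
    (y : Fin q → M) : toAlt hη y = η y := rfl

private theorem alt_front {A M Z : Type} [CommRing A] [AddCommGroup M] [Module A M]
    [AddCommGroup Z] {act : A → Z → Z} {q : ℕ} {η : (Fin (q + 1) → M) → Z} (hη : IsAlt act η)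
    (y : Fin (q + 1) → M) (j : Fin (q + 1)) :
    η (Fin.cons (y j) (fun k => y (j.succAbove k))) = ((-1 : ℤ) ^ (j : ℕ)) • η y := by
  have e : (Fin.cons (y j) (fun k => y (j.succAbove k)) : Fin (q + 1) → M) =
      fun k => y (j.cycleRange.symm k) := by
    funext k
    refine Fin.cases ?_ (fun k => ?_) k
    · simp
    · simp
  rw [e]
  have h := AlternatingMap.map_perm (toAlt hη) y j.cycleRange.symm
  rw [Equiv.Perm.sign_symm, Fin.sign_cycleRange] at h
  have h2 : (toAlt hη) (y ∘ ⇑(Equiv.symm j.cycleRange)) =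
      η (fun k => y (j.cycleRange.symm k)) := rfl
  rw [h2, toAlt_apply] at h
  rw [h]
  rw [Units.smul_def]
  push_cast
  rfl

variable {A B C : Type} [CommRing A] [Algebra ℂ A] [UniformSpace A]
    [CommRing B] [Algebra ℂ B] [UniformSpace B]
    [CommRing C] [Algebra ℂ C] [TopologicalSpace C]

private theorem lin_front (𝕋 : Tube A B) {Z : BMod B C} {q : ℕ}
    {η : (Fin (q + 1) → 𝕋.M) → Z.V} (hη : IsAlt (fun a z => Z.l (𝕋.ι a) z) η)
    (u : 𝕋.M) (y : Fin q → 𝕋.M) :
    ∑ i, Z.l (𝕋.ι (𝕋.ξ i u)) (η (Fin.cons (𝕋.x i) y)) = η (Fin.cons u y) := by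
  have hupd : ∀ w : 𝕋.M, Function.update (Fin.cons u y : Fin (q + 1) → 𝕋.M) 0 w =
      Fin.cons w y := by
    intro w
    funext k
    refine Fin.cases ?_ (fun k => ?_) k
    · simp
    · rw [Function.update_of_ne (Fin.succ_ne_zero k)]
      simp
  have hadd : ∀ w w' : 𝕋.M, η (Fin.cons (w + w') y) = η (Fin.cons w y) + η (Fin.cons w' y) := by
    intro w w'
    have h := hη.add (Fin.cons u y) 0 w w'
    simpa only [hupd] using h
  have hsm : ∀ (a : A) (w : 𝕋.M), η (Fin.cons (a • w) y) = Z.l (𝕋.ι a) (η (Fin.cons w y)) := by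
    intro a w
    have h := hη.smul (Fin.cons u y) 0 a w
    simpa only [hupd] using h
  have hmap := map_sum (AddMonoidHom.mk' (fun w : 𝕋.M => η (Fin.cons w y)) hadd)
    (fun i => 𝕋.ξ i u • 𝕋.x i) Finset.univ
  simp only [AddMonoidHom.mk'_apply] at hmap
  rw [𝕋.ξx] at hmap
  rw [hmap]
  exact Finset.sum_congr rfl fun i _ => (hsm _ _).symm

theorem kos_hom (𝕋 : Tube A B) {Y : BMod A C} {Z : BMod B C} (O : 𝕋.Ops Y Z) {q : ℕ}
    {η : (Fin (q + 1) → 𝕋.M) → Z.V} (hη : IsAlt (fun a z => Z.l (𝕋.ι a) z) η)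
    (y : Fin (q + 1) → 𝕋.M) :
    kosFun 𝕋 Z (homFun 𝕋 O η) y + homFun 𝕋 O (kosFun 𝕋 Z η) y = η y := by
  have hJ : ∀ (i : Fin 𝕋.m) (z : Z.V), Z.l (𝕋.v i) (O.J (q + 1 + 1) z) =
      O.J (q + 1) (Z.l (𝕋.v i) z) := fun i z => (O.J_v (q + 1) i z (by omega)).symm
  -- the first term
  have h1 : kosFun 𝕋 Z (homFun 𝕋 O η) y = O.J (q + 1) (∑ i, Z.l (𝕋.v i) (O.D (𝕋.x i) (η y))) -
      ∑ j : Fin (q + 1), ((-1 : ℤ) ^ (j : ℕ)) • O.J (q + 1) (∑ i, Z.l (𝕋.v i)
        (O.D (y j) (η (Fin.cons (𝕋.x i) (fun k => y (j.succAbove k)))))) := by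
    have h2 : ∀ i : Fin 𝕋.m, Z.l (𝕋.v i) (homFun 𝕋 O η (Fin.cons (𝕋.x i) y)) =
        O.J (q + 1) (Z.l (𝕋.v i) (O.D (𝕋.x i) (η y))) -
        ∑ j : Fin (q + 1), ((-1 : ℤ) ^ (j : ℕ)) • O.J (q + 1) (Z.l (𝕋.v i)
          (O.D (y j) (η (Fin.cons (𝕋.x i) (fun k => y (j.succAbove k)))))) := by
      intro i
      unfold homFun
      rw [Fin.sum_univ_succ, map_add, sub_eq_add_neg]
      congr 1
      · simp only [Fin.val_zero, pow_zero, one_smul, Fin.cons_zero, Fin.zero_succAbove,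
          Fin.cons_succ]
        exact hJ i _
      · rw [map_sum, ← Finset.sum_neg_distrib]
        refine Finset.sum_congr rfl fun j _ => ?_
        have e : (fun k => (Fin.cons (𝕋.x i) y : Fin (q + 1 + 1) → 𝕋.M)
            ((j.succ).succAbove k)) = Fin.cons (𝕋.x i) (fun k => y (j.succAbove k)) := by
          funext k
          refine Fin.cases ?_ (fun k => ?_) k
          · simp
          · simp
        rw [e, map_zsmul, hJ, Fin.cons_succ, Fin.val_succ, pow_succ, mul_neg_one, neg_smul]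
    unfold kosFun
    rw [Finset.sum_congr rfl fun i _ => h2 i, Finset.sum_sub_distrib, map_sum]
    congr 1
    rw [Finset.sum_comm]
    refine Finset.sum_congr rfl fun j _ => ?_
    rw [map_sum, Finset.smul_sum]
  have h3 : homFun 𝕋 O (kosFun 𝕋 Z η) y = ((q + 1 : ℕ)) • O.J (q + 1) (η y) +
      ∑ j : Fin (q + 1), ((-1 : ℤ) ^ (j : ℕ)) • O.J (q + 1) (∑ i, Z.l (𝕋.v i)
        (O.D (y j) (η (Fin.cons (𝕋.x i) (fun k => y (j.succAbove k)))))) := by
    have h4 : ∀ j : Fin (q + 1), ((-1 : ℤ) ^ (j : ℕ)) • O.J (q + 1) (O.D (y j)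
        (kosFun 𝕋 Z η (fun k => y (j.succAbove k)))) = O.J (q + 1) (η y) +
        ((-1 : ℤ) ^ (j : ℕ)) • O.J (q + 1) (∑ i, Z.l (𝕋.v i)
        (O.D (y j) (η (Fin.cons (𝕋.x i) (fun k => y (j.succAbove k)))))) := by
      intro j
      have h5 : O.D (y j) (kosFun 𝕋 Z η (fun k => y (j.succAbove k))) =
          ((-1 : ℤ) ^ (j : ℕ)) • η y + ∑ i, Z.l (𝕋.v i)
          (O.D (y j) (η (Fin.cons (𝕋.x i) (fun k => y (j.succAbove k))))) := by
        unfold kosFun
        rw [map_sum, Finset.sum_congr rfl fun i _ => O.D_v (y j) i _, Finset.sum_add_distrib,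
          lin_front 𝕋 hη (y j), alt_front hη]
      rw [h5, map_add, smul_add, map_zsmul, smul_smul, ← mul_pow]
      simp
    unfold homFun
    rw [Finset.sum_congr rfl fun j _ => h4 j, Finset.sum_add_distrib]
    congr 1
    simp
  rw [h1, h3]
  have h6 := O.J_E (q + 1) (η y) (by omega)
  rw [map_add, map_nsmul] at h6
  generalize O.J (q + 1) (∑ i, Z.l (𝕋.v i) (O.D (𝕋.x i) (η y))) = a at h6 ⊢
  generalize (∑ j : Fin (q + 1), ((-1 : ℤ) ^ (j : ℕ)) • O.J (q + 1) (∑ i, Z.l (𝕋.v i)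
        (O.D (y j) (η (Fin.cons (𝕋.x i) (fun k => y (j.succAbove k))))))) = b
  rw [show a - b + ((q + 1 : ℕ) • O.J (q + 1) (η y) + b) =
    a + (q + 1 : ℕ) • O.J (q + 1) (η y) by abel]
  exact h6

end

end HD
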