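import Pool.Agent.Helper48.HD.TubeRes
import Pool.Agent.Helper48.HD.K3
import Pool.Agent.Helper48.HD.K4

/-!
Module HD-X3: the homotopy H of the total complex.

Proof. By T_ext, comp_D, comp_H_zero, comp_H_succ, index (q, j) with q + j = k + 1.
q = 0: (D (H t))_(0,j) = kosL (homL t_(0,j)) + δA 0 = t_(0,j) - i p t_(0,j) (kos_hom_zero of K4,
forms of degree 0 are functions on a one point set), (H (D t))_(0,j) = 0, and
(coaug (aug t))_(0,j) = i p t_(0,j) for j = k + 1 (comp_coaug_zero, subst j).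
q = q' + 1: (D (H t))_(q,j) = kosL (homL t_(q,j)) + (-1)^q δA (homL t_(q',j+1)),
(H (D t))_(q,j) = homL (kosL t_(q,j) + (-1)^q' δA t_(q',j+1)); δA ∘ homL = homL ∘ δA by Dδ, Jδ,
so the sum is t_(q,j) by kos_hom (K3); (coaug (aug t))_(q,j) = 0.
D_H_zero: the same for k = 0 without the term H (D t).
-/

namespace HD

section

variable {A B C : Type} [CommRing A] [Algebra ℂ A] [UniformSpace A]
    [CommRing B] [Algebra ℂ B] [UniformSpace B]
    [CommRing C] [Algebra ℂ C] [TopologicalSpace C]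

variable {𝕋 : Tube A B} {Y : BMod A C} (U : TubeRes 𝕋 Y)

private theorem kosL_homL_zero (j : ℕ) (η : (alt 𝕋.M 0 𝕋.ι (U.Z j)).V) :
    kosL 𝕋 (U.Z j) 0 (homL 𝕋 (U.O j) 0 η) =
      η - TubeRes.zero (𝕋 := 𝕋) (U.Z j) ((U.O j).i ((U.O j).p (TubeRes.val (U.Z j) η))) := by
  refine alt.ext fun y => ?_
  have h : alt.ev (homL 𝕋 (U.O j) 0 η) = homFun 𝕋 (U.O j) (alt.ev η) :=
    funext fun y => ev_homL 𝕋 (U.O j) 0 η y
  have hy : y = fun i => i.elim0 := funext fun i => i.elim0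
  rw [ev_kosL, alt.ev_sub, TubeRes.ev_zero, h, kos_hom_zero, TubeRes.val_apply, hy]

private theorem kosL_homL_succ (q j : ℕ) (η : (alt 𝕋.M (q + 1) 𝕋.ι (U.Z j)).V) :
    kosL 𝕋 (U.Z j) (q + 1) (homL 𝕋 (U.O j) (q + 1) η) +
      homL 𝕋 (U.O j) q (kosL 𝕋 (U.Z j) q η) = η := by
  refine alt.ext fun y => ?_
  have h : alt.ev (homL 𝕋 (U.O j) (q + 1) η) = homFun 𝕋 (U.O j) (alt.ev η) :=
    funext fun y => ev_homL 𝕋 (U.O j) (q + 1) η y
  have h' : alt.ev (kosL 𝕋 (U.Z j) q η) = kosFun 𝕋 (U.Z j) (alt.ev η) :=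
    funext fun y => ev_kosL 𝕋 (U.Z j) q η y
  rw [alt.ev_add, ev_kosL, ev_homL, h, h', kos_hom 𝕋 (U.O j) (alt.isAlt η) y]

private theorem δA_homL (q j : ℕ) (η : (alt 𝕋.M q 𝕋.ι (U.Z (j + 1))).V) :
    U.δA (q + 1) j (homL 𝕋 (U.O (j + 1)) q η) = homL 𝕋 (U.O j) q (U.δA q j η) := by
  refine alt.ext fun y => ?_
  rw [U.ev_δA, ev_homL, ev_homL]
  unfold homFun
  rw [map_sum]
  refine Finset.sum_congr rfl fun i _ => ?_
  rw [map_zsmul, U.Jδ, U.Dδ, U.ev_δA]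

theorem TubeRes.D_H_zero (t : (U.T 0).V) :
    U.D 0 (U.H 0 t) = t - U.coaug 0 (U.aug 0 t) := by
  refine U.T_ext fun q j e => ?_
  obtain ⟨rfl, rfl⟩ : q = 0 ∧ j = 0 := by omega
  rw [map_sub, U.comp_D, U.comp_H_zero, U.comp_H_succ, map_zero, smul_zero, add_zero,
    kosL_homL_zero U, U.comp_coaug_zero]
  rfl

theorem TubeRes.D_H_succ (k : ℕ) (t : (U.T (k + 1)).V) :
    U.D (k + 1) (U.H (k + 1) t) + U.H k (U.D k t) =
      t - U.coaug (k + 1) (U.aug (k + 1) t) := by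
  refine U.T_ext fun q j e => ?_
  cases q with
  | zero =>
    obtain rfl : j = k + 1 := by omega
    rw [map_add, map_sub, U.comp_D, U.comp_H_zero, U.comp_H_succ, U.comp_H_zero, map_zero,
      smul_zero, add_zero, add_zero, kosL_homL_zero U, U.comp_coaug_zero]
    rfl
  | succ q =>
    rw [map_add, map_sub, U.comp_D, U.comp_H_succ, U.comp_H_succ, U.comp_H_succ, U.comp_D,
      U.comp_coaug_succ, sub_zero, δA_homL U, map_add, map_zsmul]
    have h := kosL_homL_succ U q j (U.comp (k + 1) (q + 1) j e t)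
    conv_rhs => rw [← h]
    rw [pow_succ, mul_neg_one, neg_smul]
    abel

end

end HD
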