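import Pool.Agent.Helper48.HD.X1
import Pool.Agent.Helper48.HD.X2
import Pool.Agent.Helper48.HD.X3
import Pool.Agent.Helper48.HD.K5

/-!
Module HD-X4: the total complex is a projective resolution of Y over B.

Proof. P = U.T, projective: Projective.pi (H1) and projective_alt (K5) with U.projZ.
ε = U.E (a morphism to Y.res: X2), d = U.D (X1), s₀ = U.S₀, s = U.S.
E ∘ D 0 = 0: R.ε (aug 0 (D 0 t)) = R.ε (R.d 0 (aug 1 t)) = 0.
E (S₀ y) = R.ε (aug 0 (coaug 0 (R.s₀ y))) = y.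
S₀ (E t) + D 0 (S 0 t) = coaug (R.s₀ (R.ε (aug t))) + D 0 (H 0 t) + D 0 (coaug 1 (R.s 0 (aug t)))
= coaug (R.s₀ (R.ε a) + R.d 0 (R.s 0 a)) + t - coaug a = t for a = aug 0 t (R.sε, D_coaug, D_H_zero).
S k (D k t) + D (k+1) (S (k+1) t) = H (D t) + D (H t) + coaug (R.s k (R.d k a)) +
coaug (R.d (k+1) (R.s (k+1) a)) = t with a = aug (k+1) t (aug_D, D_coaug, R.sd, D_H_succ).
-/

namespace HD

section

variable {A B C : Type} [CommRing A] [Algebra ℂ A] [UniformSpace A]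
    [CommRing B] [Algebra ℂ B] [UniformSpace B]
    [CommRing C] [Algebra ℂ C] [TopologicalSpace C]

variable {𝕋 : Tube A B} {Y : BMod A C} (U : TubeRes 𝕋 Y)

/-- The total complex as a projective resolution of the B-module Y. -/
theorem TubeRes.exists_projRes :
    ∃ T : ProjRes (Y.res 𝕋.ρ 𝕋.hρ), T.P = U.T ∧ HEq T.d U.D := by
  refine ⟨{
    P := U.T
    proj := fun k => Projective.pi fun p => projective_alt 𝕋 p.1.1 (U.projZ p.1.2)
    ε := U.E
    d := U.D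
    hε := ⟨fun b t => U.E_l b t, fun c t => U.E_r c t⟩
    hd := fun k => U.hD k
    εd := ?_
    dd := fun k t => U.D_D k t
    s₀ := U.S₀
    s := U.S
    εs := ?_
    sε := ?_
    sd := ?_ }, rfl, HEq.rfl⟩
  · intro t
    show U.R.ε (U.aug 0 (U.D 0 t)) = 0
    rw [U.aug_D, U.R.εd]
  · intro y
    show U.R.ε (U.aug 0 (U.coaug 0 (U.R.s₀ y))) = y
    rw [U.aug_coaug, U.R.εs]
  · intro t
    show U.coaug 0 (U.R.s₀ (U.R.ε (U.aug 0 t))) +
      U.D 0 (U.H 0 t + U.coaug 1 (U.R.s 0 (U.aug 0 t))) = t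
    rw [map_add, U.D_H_zero, U.D_coaug]
    have h : U.coaug 0 (U.R.s₀ (U.R.ε (U.aug 0 t))) + U.coaug 0 (U.R.d 0 (U.R.s 0 (U.aug 0 t))) =
        U.coaug 0 (U.aug 0 t) := by
      rw [← map_add, U.R.sε]
    rw [← h]
    abel
  · intro k t
    show U.H k (U.D k t) + U.coaug (k + 1) (U.R.s k (U.aug k (U.D k t))) +
      U.D (k + 1) (U.H (k + 1) t + U.coaug (k + 2) (U.R.s (k + 1) (U.aug (k + 1) t))) = t
    rw [map_add, U.D_coaug, U.aug_D]
    have h : U.coaug (k + 1) (U.R.s k (U.R.d k (U.aug (k + 1) t))) +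
        U.coaug (k + 1) (U.R.d (k + 1) (U.R.s (k + 1) (U.aug (k + 1) t))) =
        U.coaug (k + 1) (U.aug (k + 1) t) := by
      rw [← map_add, U.R.sd]
    have h2 := U.D_H_succ k t
    rw [← h] at h2
    calc _ = (U.D (k + 1) (U.H (k + 1) t) + U.H k (U.D k t)) +
        (U.coaug (k + 1) (U.R.s k (U.R.d k (U.aug (k + 1) t))) +
        U.coaug (k + 1) (U.R.d (k + 1) (U.R.s (k + 1) (U.aug (k + 1) t)))) := by abel
      _ = t := by rw [h2]; abel

end

end HD
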