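import Pool.Agent.Helper48.HD.Tube

/-!
Module HD-K6: forms on W whose restriction to S vanishes are generated by the v i.

Proof. θ i = the form y ↦ J 1 (D (x i) (η y)) (alternating and A-linear by D_lin, J_lin and
additivity), and Σ_i v_i J_1 D_{x_i} z = z - i (p z) by J_1, with p (η y) = 0.
-/

namespace HD

section

variable {A B C : Type} [CommRing A] [Algebra ℂ A] [UniformSpace A]
    [CommRing B] [Algebra ℂ B] [UniformSpace B]
    [CommRing C] [Algebra ℂ C] [TopologicalSpace C]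

/-- evaluation as an additive map -/
private def evHom {M : Type} [AddCommGroup M] [Module A M] (q : ℕ) (φ : A →ₐ[ℂ] B) (Z : BMod B C)
    (y : Fin q → M) : (alt M q φ Z).V →+ Z.V where
  toFun η := alt.ev η y
  map_zero' := rfl
  map_add' _ _ := rfl

theorem ker_restr (𝕋 : Tube A B) {Y : BMod A C} {Z : BMod B C} (O : 𝕋.Ops Y Z) (q : ℕ)
    (η : (alt 𝕋.M q 𝕋.ι Z).V) (h : ∀ y, O.p (alt.ev η y) = 0) :
    ∃ θ : Fin 𝕋.m → (alt 𝕋.M q 𝕋.ι Z).V,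
      η = ∑ i, (alt 𝕋.M q 𝕋.ι Z).l (𝕋.v i) (θ i) := by
  have hη : IsAlt (fun a z => Z.l (𝕋.ι a) z) (fun y => alt.ev η y) :=
    (η : altSub 𝕋.M q 𝕋.ι Z).2
  have hθ : ∀ i : Fin 𝕋.m, IsAlt (fun a z => Z.l (𝕋.ι a) z)
      (fun y : Fin q → 𝕋.M => O.J 1 (O.D (𝕋.x i) (alt.ev η y))) := by
    intro i
    refine ⟨fun y j u w => ?_, fun y j a u => ?_, fun y j k h hjk => ?_⟩
    · have h1 := hη.add y j u w
      show O.J 1 (O.D (𝕋.x i) (alt.ev η _)) = _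
      rw [h1, map_add, map_add]
    · have h1 := hη.smul y j a u
      show O.J 1 (O.D (𝕋.x i) (alt.ev η _)) = _
      rw [h1, O.D_lin, O.J_lin]
    · have h1 := hη.alt y j k h hjk
      show O.J 1 (O.D (𝕋.x i) (alt.ev η _)) = _
      rw [h1, map_zero, map_zero]
  let θ : Fin 𝕋.m → (alt 𝕋.M q 𝕋.ι Z).V := fun i =>
    (⟨fun y => O.J 1 (O.D (𝕋.x i) (alt.ev η y)), hθ i⟩ : altSub 𝕋.M q 𝕋.ι Z)
  refine ⟨θ, ?_⟩
  have key : ∀ y : Fin q → 𝕋.M, alt.ev η y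
      = alt.ev (∑ i, (alt 𝕋.M q 𝕋.ι Z).l (𝕋.v i) (θ i)) y := by
    intro y
    have h1 : alt.ev (∑ i, (alt 𝕋.M q 𝕋.ι Z).l (𝕋.v i) (θ i)) y
        = ∑ i, Z.l (𝕋.v i) (O.J 1 (O.D (𝕋.x i) (alt.ev η y))) :=
      map_sum (evHom q 𝕋.ι Z y) _ _
    rw [h1, O.J_1, h y, map_zero, sub_zero]
  exact Subtype.ext (funext key)

end

end HD
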