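import Pool.Agent.Helper48.HD.TubeRes
import Pool.Agent.Helper48.HD.K4

/-!
Module HD-X1: D ∘ D = 0 in the total complex, and D consists of morphisms.

Proof. By T_ext and comp_D (index (q, j), q + j = k):
kosL (kosL t_(q+2,j) + (-1)^(q+1) δA t_(q+1,j+1)) + (-1)^q δA (kosL t_(q+1,j+1) + (-1)^q δA t_(q,j+2))
= 0: kosL ∘ kosL = 0 (kos_kos of K4, evaluate forms with alt.ext, ev_kosL), δA ∘ δA = 0 (δδ),
δA ∘ kosL = kosL ∘ δA because δ is B-linear (hδ).  (comp with equal indices but different proofs of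
the index equation are definitionally equal.)
D_l, D_r: the Koszul differential, δA and the components commute with both actions
(commutativity of B, the two actions commute).
-/

namespace HD

section

variable {A B C : Type} [CommRing A] [Algebra ℂ A] [UniformSpace A]
    [CommRing B] [Algebra ℂ B] [UniformSpace B]
    [CommRing C] [Algebra ℂ C] [TopologicalSpace C]

variable {𝕋 : Tube A B} {Y : BMod A C} (U : TubeRes 𝕋 Y)

private theorem kosL_kosL (Z : BMod B C) (q : ℕ) (η : (alt 𝕋.M (q + 2) 𝕋.ι Z).V) :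
    kosL 𝕋 Z q (kosL 𝕋 Z (q + 1) η) = 0 := by
  refine alt.ext fun y => ?_
  rw [ev_kosL, alt.ev_zero]
  have h : alt.ev (kosL 𝕋 Z (q + 1) η) = kosFun 𝕋 Z (alt.ev η) := funext fun y => ev_kosL 𝕋 Z _ η y
  rw [h]
  exact kos_kos 𝕋 Z (alt.isAlt η) y

private theorem kosL_l (Z : BMod B C) (q : ℕ) (b : B) (η : (alt 𝕋.M (q + 1) 𝕋.ι Z).V) :
    kosL 𝕋 Z q ((alt 𝕋.M (q + 1) 𝕋.ι Z).l b η) = (alt 𝕋.M q 𝕋.ι Z).l b (kosL 𝕋 Z q η) := by
  refine alt.ext fun y => ?_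
  rw [ev_kosL, alt.ev_l, ev_kosL]
  unfold kosFun
  rw [map_sum]
  refine Finset.sum_congr rfl fun i _ => ?_
  rw [alt.ev_l, ← Module.End.mul_apply, ← Module.End.mul_apply, ← map_mul, ← map_mul, mul_comm]

private theorem kosL_r (Z : BMod B C) (q : ℕ) (c : C) (η : (alt 𝕋.M (q + 1) 𝕋.ι Z).V) :
    kosL 𝕋 Z q ((alt 𝕋.M (q + 1) 𝕋.ι Z).r c η) = (alt 𝕋.M q 𝕋.ι Z).r c (kosL 𝕋 Z q η) := by
  refine alt.ext fun y => ?_
  rw [ev_kosL, alt.ev_r, ev_kosL]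
  unfold kosFun
  rw [map_sum]
  refine Finset.sum_congr rfl fun i _ => ?_
  rw [alt.ev_r, Z.comm]

private theorem TubeRes.deltaA_deltaA (q j : ℕ) (η : (alt 𝕋.M q 𝕋.ι (U.Z (j + 2))).V) :
    U.δA q j (U.δA q (j + 1) η) = 0 := by
  refine alt.ext fun y => ?_
  rw [U.ev_δA, U.ev_δA, alt.ev_zero, U.δδ]

private theorem TubeRes.deltaA_kosL (q j : ℕ) (η : (alt 𝕋.M (q + 1) 𝕋.ι (U.Z (j + 1))).V) :
    U.δA q j (kosL 𝕋 (U.Z (j + 1)) q η) = kosL 𝕋 (U.Z j) q (U.δA (q + 1) j η) := by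
  refine alt.ext fun y => ?_
  rw [U.ev_δA, ev_kosL, ev_kosL]
  unfold kosFun
  rw [map_sum]
  refine Finset.sum_congr rfl fun i _ => ?_
  rw [U.ev_δA, (U.hδ j).left]

private theorem TubeRes.deltaA_l (q j : ℕ) (b : B) (η : (alt 𝕋.M q 𝕋.ι (U.Z (j + 1))).V) :
    U.δA q j ((alt 𝕋.M q 𝕋.ι (U.Z (j + 1))).l b η) =
      (alt 𝕋.M q 𝕋.ι (U.Z j)).l b (U.δA q j η) := by
  refine alt.ext fun y => ?_
  rw [U.ev_δA, alt.ev_l, alt.ev_l, U.ev_δA, (U.hδ j).left]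

private theorem TubeRes.deltaA_r (q j : ℕ) (c : C) (η : (alt 𝕋.M q 𝕋.ι (U.Z (j + 1))).V) :
    U.δA q j ((alt 𝕋.M q 𝕋.ι (U.Z (j + 1))).r c η) =
      (alt 𝕋.M q 𝕋.ι (U.Z j)).r c (U.δA q j η) := by
  refine alt.ext fun y => ?_
  rw [U.ev_δA, alt.ev_r, alt.ev_r, U.ev_δA, (U.hδ j).right]

theorem TubeRes.D_D (k : ℕ) (t : (U.T (k + 2)).V) : U.D k (U.D (k + 1) t) = 0 := by
  apply U.T_ext
  intro q j e
  rw [U.comp_D, U.comp_D, U.comp_D, map_zero, map_add, map_add, map_zsmul, map_zsmul,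
    kosL_kosL, U.deltaA_deltaA, U.deltaA_kosL, smul_zero, add_zero, zero_add, pow_succ,
    mul_neg_one, neg_smul]
  exact neg_add_cancel _

theorem TubeRes.hD (k : ℕ) : IsHom (U.D k) := by
  refine ⟨fun a x => U.T_ext fun q j e => ?_, fun c x => U.T_ext fun q j e => ?_⟩
  · rw [U.comp_D, U.comp_l, U.comp_l, U.comp_l, U.comp_D, kosL_l, U.deltaA_l, map_add, map_zsmul]
  · rw [U.comp_D, U.comp_r, U.comp_r, U.comp_r, U.comp_D, kosL_r, U.deltaA_r, map_add, map_zsmul]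

end

end HD
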