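import Pool.Agent.Helper48.HD.X5
import Pool.Agent.Helper48.HD.K6
import Pool.Agent.Helper48.HD.X1

/-!
Module HD-X6: the block (c, c) of a module splitting of the total complex.

Write, for q + j = k, in(q,j) for the inclusion of the component (U.mkT with zero elsewhere; a
morphism of B-C-bimodules), U.comp k q j, U.pA, U.iA.  pA (v_i η) = 0 (p_l, ρv), pA ∘ iA = id.
FACT. If w in T k has pA (comp w) = 0 for all components and h : T k → W' is additive and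
commutes with the action of B, then pA (comp (h w)) = 0 for all components of the values in
T (k+1): by ker_restr (K6) every component of w is Σ_i v_i w_i, so w = Σ_i v_i w'_i and
h w = Σ_i v_i h w'_i.

splitting_forms: let q = c, h' = (-1)^c • (pA ∘ comp (m+1) c (j+1) ∘ h m ∘ in(c,j) ∘ iA), a
morphism of A-C-bimodules (iA (a η) = ι(a) iA η, pA (ι(a) η) = ρ(ι a) pA η = a pA η).
For η in the forms with values in R.P (j+1) let t = in(c,j+1) (iA η) in T (m+1).  The only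
components of D m t that can be nonzero are (c,j): (-1)^c δA (iA η) = (-1)^c iA (dA η), and
(if c ≥ 1) (c-1,j+1): kosL (iA η), which is a combination Σ v_i (..) so that its pA vanishes.
From D (m+1) (h (m+1) t) + h m (D m t) = t and D ∘ D = 0: D m (h m (D m t)) = D m t.  Take the
component (c,j) and pA on both sides: right (-1)^c dA η.  Left: comp(c,j) (D m s) =
kosL (..) + (-1)^c δA (comp(c,j+1) s) for s = h m (D m t), pA kills kosL, so
(-1)^c dA (pA (comp(c,j+1) s)) and by the FACT pA (comp(c,j+1) s) = (-1)^c pA comp(c,j+1)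
(h m (in(c,j) (iA (dA η)))) = h' (dA η)  (signs (-1)^c (-1)^c = 1).  So
(-1)^c dA (h' (dA η)) = (-1)^c dA η.

forms_zero (m < c): write c = k + 1, k ≥ m.  Let η be a form of degree c with values in R.P 0, t =
in(c,0) (iA η) in T c.  t = D c (h c t) + h k (D k t); D k t has only the component
(k,0) = kosL (iA η) with pA = 0, so by the FACT pA comp(c,0) (h k (D k t)) = 0 and
η = pA comp(c,0) t = pA (kosL (..) + (-1)^c δA (comp(c,1) (h c t))) = (-1)^c dA (..), so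
R.ε (ev η y) = 0 by R.εd.
-/

namespace HD

section

variable {A B C : Type} [CommRing A] [Algebra ℂ A] [UniformSpace A]
    [CommRing B] [Algebra ℂ B] [UniformSpace B]
    [CommRing C] [Algebra ℂ C] [TopologicalSpace C]

variable {𝕋 : Tube A B} {Y : BMod A C} (U : TubeRes 𝕋 Y)

/-- Inclusion of a component. -/
private noncomputable def inc (k q j : ℕ) (e : q + j = k) :
    (alt 𝕋.M q 𝕋.ι (U.Z j)).V →L[ℂ] (U.T k).V :=
  U.mkT k (fun p =>
    if h : p.1 = (q, j) then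
      (by
        have h1 : q = p.1.1 := by rw [h]
        have h2 : j = p.1.2 := by rw [h]
        rw [h1, h2]
        exact ContinuousLinearMap.id ℂ _)
    else 0)

private theorem comp_inc_same (k q j : ℕ) (e e' : q + j = k)
    (η : (alt 𝕋.M q 𝕋.ι (U.Z j)).V) :
    U.comp k q j e' (inc U k q j e η) = η := by
  rw [inc, TubeRes.comp_mkT]
  rw [dif_pos rfl]
  rfl

private theorem comp_inc_ne (k q j q' j' : ℕ) (e : q + j = k) (e' : q' + j' = k)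
    (hne : (q', j') ≠ (q, j)) (η : (alt 𝕋.M q 𝕋.ι (U.Z j)).V) :
    U.comp k q' j' e' (inc U k q j e η) = 0 := by
  rw [inc, TubeRes.comp_mkT]
  rw [dif_neg hne]
  rfl

private theorem inc_l (k q j : ℕ) (e : q + j = k) (b : B)
    (η : (alt 𝕋.M q 𝕋.ι (U.Z j)).V) :
    inc U k q j e ((alt 𝕋.M q 𝕋.ι (U.Z j)).l b η) = (U.T k).l b (inc U k q j e η) := by
  apply U.T_ext
  intro q' j' e'
  rw [U.comp_l]
  by_cases h : (q', j') = (q, j)
  · obtain ⟨rfl, rfl⟩ := Prod.mk.inj h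
    rw [comp_inc_same, comp_inc_same]
  · rw [comp_inc_ne U k q j q' j' e e' h, comp_inc_ne U k q j q' j' e e' h, map_zero]

private theorem inc_r (k q j : ℕ) (e : q + j = k) (c : C)
    (η : (alt 𝕋.M q 𝕋.ι (U.Z j)).V) :
    inc U k q j e ((alt 𝕋.M q 𝕋.ι (U.Z j)).r c η) = (U.T k).r c (inc U k q j e η) := by
  apply U.T_ext
  intro q' j' e'
  rw [U.comp_r]
  by_cases h : (q', j') = (q, j)
  · obtain ⟨rfl, rfl⟩ := Prod.mk.inj h
    rw [comp_inc_same, comp_inc_same]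
  · rw [comp_inc_ne U k q j q' j' e e' h, comp_inc_ne U k q j q' j' e e' h, map_zero]

private theorem pA_kosL (q j : ℕ) (η : (alt 𝕋.M (q + 1) 𝕋.ι (U.Z j)).V) :
    U.pA q j (kosL 𝕋 (U.Z j) q η) = 0 := by
  apply alt.ext
  intro y
  rw [U.ev_pA, ev_kosL, alt.ev_zero, kosFun, map_sum]
  refine Finset.sum_eq_zero fun i _ => ?_
  rw [(U.O j).p_l, 𝕋.ρv, map_zero, LinearMap.zero_apply]

private theorem pA_l_v (q j : ℕ) (i : Fin 𝕋.m) (η : (alt 𝕋.M q 𝕋.ι (U.Z j)).V) :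
    U.pA q j ((alt 𝕋.M q 𝕋.ι (U.Z j)).l (𝕋.v i) η) = 0 := by
  apply alt.ext
  intro y
  rw [U.ev_pA, alt.ev_l, alt.ev_zero, (U.O j).p_l, 𝕋.ρv, map_zero, LinearMap.zero_apply]

private theorem pA_δA (q j : ℕ) (η : (alt 𝕋.M q 𝕋.ι (U.Z (j + 1))).V) :
    U.pA q j (U.δA q j η) = dA 𝕋 U.R q j (U.pA q (j + 1) η) := by
  apply alt.ext
  intro y
  rw [U.ev_pA, U.ev_δA, ev_dA, U.ev_pA, U.pδ]

private theorem pA_iA (q j : ℕ) (η : (alt 𝕋.M q (AlgHom.id ℂ A) (U.R.P j)).V) :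
    U.pA q j (U.iA q j η) = η := by
  apply alt.ext
  intro y
  rw [U.ev_pA, U.ev_iA, (U.O j).p_i]

private theorem δA_iA (q j : ℕ) (η : (alt 𝕋.M q (AlgHom.id ℂ A) (U.R.P (j + 1))).V) :
    U.δA q j (U.iA q (j + 1) η) = U.iA q j (dA 𝕋 U.R q j η) := by
  apply alt.ext
  intro y
  rw [U.ev_δA, U.ev_iA, U.ev_iA, ev_dA, U.iδ]

private theorem iA_l (q j : ℕ) (a : A) (η : (alt 𝕋.M q (AlgHom.id ℂ A) (U.R.P j)).V) :
    U.iA q j ((alt 𝕋.M q (AlgHom.id ℂ A) (U.R.P j)).l a η) =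
      (alt 𝕋.M q 𝕋.ι (U.Z j)).l (𝕋.ι a) (U.iA q j η) := by
  apply alt.ext
  intro y
  rw [U.ev_iA, alt.ev_l, alt.ev_l, U.ev_iA, (U.O j).i_l]

private theorem iA_r (q j : ℕ) (c : C) (η : (alt 𝕋.M q (AlgHom.id ℂ A) (U.R.P j)).V) :
    U.iA q j ((alt 𝕋.M q (AlgHom.id ℂ A) (U.R.P j)).r c η) =
      (alt 𝕋.M q 𝕋.ι (U.Z j)).r c (U.iA q j η) := by
  apply alt.ext
  intro y
  rw [U.ev_iA, alt.ev_r, alt.ev_r, U.ev_iA, (U.O j).i_r]

private theorem pA_l (q j : ℕ) (a : A) (η : (alt 𝕋.M q 𝕋.ι (U.Z j)).V) :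
    U.pA q j ((alt 𝕋.M q 𝕋.ι (U.Z j)).l (𝕋.ι a) η) =
      (alt 𝕋.M q (AlgHom.id ℂ A) (U.R.P j)).l a (U.pA q j η) := by
  apply alt.ext
  intro y
  rw [U.ev_pA, alt.ev_l, alt.ev_l, U.ev_pA, (U.O j).p_l, 𝕋.ρι]

private theorem pA_r (q j : ℕ) (c : C) (η : (alt 𝕋.M q 𝕋.ι (U.Z j)).V) :
    U.pA q j ((alt 𝕋.M q 𝕋.ι (U.Z j)).r c η) =
      (alt 𝕋.M q (AlgHom.id ℂ A) (U.R.P j)).r c (U.pA q j η) := by
  apply alt.ext
  intro y
  rw [U.ev_pA, alt.ev_r, alt.ev_r, U.ev_pA, (U.O j).p_r]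

/-- Morphisms preserve the vanishing of the restrictions to S. -/
private theorem pA_hom_eq_zero (k l : ℕ) (h : (U.T k).V →L[ℂ] (U.T l).V) (hh : IsHom h)
    (w : (U.T k).V) (hw : ∀ q j e, U.pA q j (U.comp k q j e w) = 0) (q j : ℕ) (e : q + j = l) :
    U.pA q j (U.comp l q j e (h w)) = 0 := by
  have key : ∀ p : Idx k, ∃ θ : Fin 𝕋.m → (alt 𝕋.M p.1.1 𝕋.ι (U.Z p.1.2)).V,
      U.comp k p.1.1 p.1.2 p.2 w = ∑ i, (alt 𝕋.M p.1.1 𝕋.ι (U.Z p.1.2)).l (𝕋.v i) (θ i) := by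
    intro p
    apply ker_restr 𝕋 (U.O p.1.2)
    intro y
    have h1 := hw p.1.1 p.1.2 p.2
    have h2 : alt.ev (U.pA p.1.1 p.1.2 (U.comp k p.1.1 p.1.2 p.2 w)) y = 0 := by
      rw [h1, alt.ev_zero]
    rw [U.ev_pA] at h2
    exact h2
  choose θ hθ using key
  let w' : Fin 𝕋.m → (U.T k).V := fun i p => θ p i
  have hw' : w = ∑ i, (U.T k).l (𝕋.v i) (w' i) := by
    apply U.T_ext
    intro q' j' e'
    rw [map_sum]
    have h3 := hθ ⟨(q', j'), e'⟩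
    rw [h3]
    refine Finset.sum_congr rfl fun i _ => ?_
    rw [U.comp_l]
    rfl
  rw [hw', map_sum, map_sum, map_sum]
  refine Finset.sum_eq_zero fun i _ => ?_
  rw [hh.left, U.comp_l, pA_l_v]

private theorem sign_cancel {V : Type} [AddCommGroup V] (q : ℕ) {x y : V}
    (h : ((-1 : ℤ) ^ q) • x = ((-1 : ℤ) ^ q) • y) : x = y := by
  rcases neg_one_pow_eq_or ℤ q with h1 | h1
  · rw [h1, one_smul, one_smul] at h
    exact h
  · rw [h1, neg_smul, neg_smul, one_smul, one_smul, neg_inj] at h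
    exact h

private theorem sign_sign {V : Type} [AddCommGroup V] (q : ℕ) (x : V) :
    ((-1 : ℤ) ^ q) • ((-1 : ℤ) ^ q) • x = x := by
  rw [smul_smul, ← mul_pow]
  norm_num

private theorem splitting_forms_aux (q m j : ℕ) (hm : q + j = m)
    (h : ∀ k, (U.T k).V →L[ℂ] (U.T (k + 1)).V) (hh : ∀ k, IsHom (h k))
    (e : ∀ k, m ≤ k → ∀ t, U.D (k + 1) (h (k + 1) t) + h k (U.D k t) = t) :
    ∃ h' : (alt 𝕋.M q (AlgHom.id ℂ A) (U.R.P j)).V →L[ℂ]
      (alt 𝕋.M q (AlgHom.id ℂ A) (U.R.P (j + 1))).V, IsHom h' ∧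
      ∀ η, dA 𝕋 U.R q j (h' (dA 𝕋 U.R q j η)) = dA 𝕋 U.R q j η := by
  let g : (alt 𝕋.M q (AlgHom.id ℂ A) (U.R.P j)).V →L[ℂ]
      (alt 𝕋.M q (AlgHom.id ℂ A) (U.R.P (j + 1))).V :=
    (U.pA q (j + 1)).comp ((U.comp (m + 1) q (j + 1) (by omega)).comp
      ((h m).comp ((inc U m q j hm).comp (U.iA q j))))
  have hg : ∀ η, g η = U.pA q (j + 1) (U.comp (m + 1) q (j + 1) (by omega)
      (h m (inc U m q j hm (U.iA q j η)))) := fun η => rfl
  refine ⟨((-1 : ℤ) ^ q) • g, ⟨fun a x => ?_, fun c x => ?_⟩, fun η => ?_⟩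
  · show ((-1 : ℤ) ^ q) • g _ =
      (alt 𝕋.M q (AlgHom.id ℂ A) (U.R.P (j + 1))).l a (((-1 : ℤ) ^ q) • g x)
    rw [map_zsmul, hg, hg, iA_l, inc_l, (hh m).left, U.comp_l, pA_l]
  · show ((-1 : ℤ) ^ q) • g _ =
      (alt 𝕋.M q (AlgHom.id ℂ A) (U.R.P (j + 1))).r c (((-1 : ℤ) ^ q) • g x)
    rw [map_zsmul, hg, hg, iA_r, inc_r, (hh m).right, U.comp_r, pA_r]
  · set t : (U.T (m + 1)).V := inc U (m + 1) q (j + 1) (by omega) (U.iA q (j + 1) η) with ht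
    have e1 := e m le_rfl t
    set w := U.D m t with hw
    have e2 : U.D m (h m w) = w := by
      have h1 := congrArg (U.D m) e1
      rw [map_add, U.D_D, zero_add] at h1
      rw [h1]
    -- the part of w outside of the component (q, j) has vanishing restriction
    set w₁ : (U.T m).V := ((-1 : ℤ) ^ q) • inc U m q j hm (U.iA q j (dA 𝕋 U.R q j η)) with hw₁
    have e3 : ∀ q' j' e', U.pA q' j' (U.comp m q' j' e' (w - w₁)) = 0 := by
      intro q' j' e'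
      rw [map_sub, map_sub, hw, U.comp_D, map_add, pA_kosL, zero_add, map_zsmul, hw₁,
        map_zsmul, map_zsmul]
      by_cases hq : (q', j') = (q, j)
      · obtain ⟨rfl, rfl⟩ := Prod.mk.inj hq
        rw [ht, comp_inc_same, comp_inc_same, δA_iA, sub_self]
      · have hq2 : (q', j' + 1) ≠ (q, j + 1) := by
          intro hc
          apply hq
          have h1 := Prod.mk.inj hc
          rw [h1.1, Nat.succ_injective h1.2]
        rw [ht, comp_inc_ne U _ _ _ _ _ _ _ hq2, comp_inc_ne U _ _ _ _ _ _ _ hq]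
        simp
    have e4 := pA_hom_eq_zero U m (m + 1) (h m) (hh m) (w - w₁) e3 q (j + 1) (by omega)
    rw [map_sub, map_sub, map_sub, sub_eq_zero, hw₁, map_zsmul, map_zsmul, map_zsmul, ← hg] at e4
    have e5 : U.pA q j (U.comp m q j hm (U.D m (h m w))) = U.pA q j (U.comp m q j hm w) := by
      rw [e2]
    rw [U.comp_D, map_add, pA_kosL, zero_add, map_zsmul, pA_δA, e4] at e5
    have e6 := e3 q j hm
    rw [map_sub, map_sub, sub_eq_zero, hw₁, map_zsmul, comp_inc_same, map_zsmul, pA_iA] at e6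
    rw [e6] at e5
    exact sign_cancel q e5

private theorem forms_zero_aux (k m : ℕ) (hm : m ≤ k)
    (h : ∀ k, (U.T k).V →L[ℂ] (U.T (k + 1)).V) (hh : ∀ k, IsHom (h k))
    (e : ∀ k, m ≤ k → ∀ t, U.D (k + 1) (h (k + 1) t) + h k (U.D k t) = t) :
    ∀ (η : (alt 𝕋.M (k + 1) (AlgHom.id ℂ A) (U.R.P 0)).V) (y : Fin (k + 1) → 𝕋.M),
      U.R.ε (alt.ev η y) = 0 := by
  intro η y
  set t : (U.T (k + 1)).V := inc U (k + 1) (k + 1) 0 (by omega) (U.iA (k + 1) 0 η) with ht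
  have e1 := e k hm t
  have e2 : ∀ q' j' e', U.pA q' j' (U.comp k q' j' e' (U.D k t)) = 0 := by
    intro q' j' e'
    rw [U.comp_D, map_add, pA_kosL, zero_add, map_zsmul]
    have hq2 : (q', j' + 1) ≠ (k + 1, 0) := by
      intro hc
      exact Nat.succ_ne_zero _ (Prod.mk.inj hc).2
    rw [ht, comp_inc_ne U _ _ _ _ _ _ _ hq2]
    simp
  have e3 := pA_hom_eq_zero U k (k + 1) (h k) (hh k) _ e2 (k + 1) 0 (by omega)
  have e4 : alt.ev (U.pA (k + 1) 0 (U.comp (k + 1) (k + 1) 0 (by omega)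
      (U.D (k + 1) (h (k + 1) t) + h k (U.D k t)))) y =
      alt.ev (U.pA (k + 1) 0 (U.comp (k + 1) (k + 1) 0 (by omega) t)) y := by
    rw [e1]
  rw [map_add, map_add, e3, add_zero, ht, comp_inc_same, pA_iA, U.comp_D, map_add, pA_kosL,
    zero_add, map_zsmul, pA_δA] at e4
  rw [← e4]
  show U.R.ε (((-1 : ℤ) ^ (k + 1)) • U.R.d 0 _) = 0
  rw [map_zsmul, U.R.εd, smul_zero]

theorem TubeRes.splitting_forms (m j : ℕ) (hm : 𝕋.c + j = m)
    (h : ∀ k, (U.T k).V →L[ℂ] (U.T (k + 1)).V) (hh : ∀ k, IsHom (h k))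
    (e : ∀ k, m ≤ k → ∀ t, U.D (k + 1) (h (k + 1) t) + h k (U.D k t) = t) :
    ∃ h' : (alt 𝕋.M 𝕋.c (AlgHom.id ℂ A) (U.R.P j)).V →L[ℂ]
      (alt 𝕋.M 𝕋.c (AlgHom.id ℂ A) (U.R.P (j + 1))).V, IsHom h' ∧
      ∀ η, dA 𝕋 U.R 𝕋.c j (h' (dA 𝕋 U.R 𝕋.c j η)) = dA 𝕋 U.R 𝕋.c j η := by
  exact splitting_forms_aux U 𝕋.c m j hm h hh e

theorem TubeRes.forms_zero (m : ℕ) (hm : m < 𝕋.c)
    (h : ∀ k, (U.T k).V →L[ℂ] (U.T (k + 1)).V) (hh : ∀ k, IsHom (h k))
    (e : ∀ k, m ≤ k → ∀ t, U.D (k + 1) (h (k + 1) t) + h k (U.D k t) = t) :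
    ∀ (η : (alt 𝕋.M 𝕋.c (AlgHom.id ℂ A) (U.R.P 0)).V) (y : Fin 𝕋.c → 𝕋.M),
      U.R.ε (alt.ev η y) = 0 := by
  have key : ∀ q, m < q → ∀ (η : (alt 𝕋.M q (AlgHom.id ℂ A) (U.R.P 0)).V)
      (y : Fin q → 𝕋.M), U.R.ε (alt.ev η y) = 0 := by
    intro q hq
    obtain ⟨k, rfl⟩ : ∃ k, q = k + 1 := ⟨q - 1, by omega⟩
    exact forms_zero_aux U k m (by omega) h hh e
  exact key 𝕋.c hm

end

end HD
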