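import Pool.Agent.Helper48.HD.U2
import Pool.Agent.Helper48.HD.X4
import Pool.Agent.Helper48.HD.X6
import Pool.Agent.Helper48.HD.H5
import Pool.Agent.Helper48.HD.H6

/-!
Module HD-Main: homological dimensions over the tube.

Proof. Let U be the data of exists_tubeRes, T the resolution of X4 (eliminate the equations
T.P = U.T, HEq T.d U.D by cases on T).  split_of_dimLE (H5) gives h with
D h + h D = id above m.  If c ≤ m: splitting_forms with j = m - c, split_of_split_forms (X5) and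
dimLE_of_split (H6).  If m < c: forms_zero and subsingleton_of_forms.
-/

namespace HD

section

variable {A B C : Type} [CommRing A] [Algebra ℂ A] [UniformSpace A] [CAlg A]
    [CommRing B] [Algebra ℂ B] [UniformSpace B] [CAlg B]
    [CommRing C] [Algebra ℂ C] [UniformSpace C] [CAlg C]

theorem tube_dim (𝕋 : Tube A B) (Y : BMod A C) (m : ℕ) (h : DimLE (Y.res 𝕋.ρ 𝕋.hρ) m) :
    (𝕋.c ≤ m ∧ DimLE Y (m - 𝕋.c)) ∨ Subsingleton Y.V := by
  obtain ⟨U⟩ := exists_tubeRes 𝕋 Y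
  obtain ⟨T, hP, hD⟩ := U.exists_projRes
  obtain ⟨h1, hh1, e1⟩ := split_of_dimLE h T
  have key : ∃ h : ∀ k, (U.T k).V →L[ℂ] (U.T (k + 1)).V, (∀ k, IsHom (h k)) ∧
      ∀ k, m ≤ k → ∀ t, U.D (k + 1) (h (k + 1) t) + h k (U.D k t) = t := by
    rcases T with ⟨P, pr, ε, d, hε, hd, εd, dd, s₀, s, εs, sε, sd⟩
    have hP' : P = U.T := hP
    have hD' : HEq d U.D := hD
    clear hP hD
    subst hP'
    have hD2 := eq_of_heq hD'
    subst hD2
    exact ⟨h1, hh1, e1⟩
  obtain ⟨h2, hh2, e2⟩ := key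
  by_cases hc : 𝕋.c ≤ m
  · left
    refine ⟨hc, ?_⟩
    obtain ⟨h', hh', e'⟩ := U.splitting_forms m (m - 𝕋.c) (by omega) h2 hh2 e2
    obtain ⟨h'', hh'', e''⟩ := split_of_split_forms 𝕋 U.R (m - 𝕋.c) h' hh' e'
    exact dimLE_of_split U.R (m - 𝕋.c) h'' hh'' e''
  · right
    exact subsingleton_of_forms 𝕋 U.R (U.forms_zero m (by omega) h2 hh2 e2)

end

end HD
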