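import Pool.Agent.Helper48.HD.B1
import Pool.Agent.Helper48.HD.B2
import Pool.Agent.Helper48.HD.Main

/-!
Module HD-B3: the bidimension.

Proof. dimLE_base gives DimLE of A as A-B-bimodule (algMod id ρ).  Flip it: BMod B A.  It is
isomorphic (identity map on A) to (reg A).res ρ: BMod B A with left action b · x = ρ b * x and right
action multiplication (DimLE.of_iso).  Apply tube_dim with C = A, Y = reg A; A is nontrivial.
-/

namespace HD

section

variable {A B : Type} [CommRing A] [Algebra ℂ A] [UniformSpace A] [CAlg A]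
    [CommRing B] [Algebra ℂ B] [UniformSpace B] [CAlg B]

theorem tube_db [Nontrivial A] (𝕋 : Tube A B) (N : ℕ) (h : DimLE (reg B) N) :
    𝕋.c ≤ N ∧ DimLE (reg A) (N - 𝕋.c) := by
  have h2 : DimLE (algMod (AlgHom.id ℂ A) continuous_id 𝕋.ρ 𝕋.hρ).flip N :=
    (dimLE_base 𝕋.ρ 𝕋.hρ N h).flip
  have h3 : DimLE ((reg A).res 𝕋.ρ 𝕋.hρ) N :=
    DimLE.of_iso (X' := (reg A).res 𝕋.ρ 𝕋.hρ) h2
      (ContinuousLinearMap.id ℂ (algMod (AlgHom.id ℂ A) continuous_id 𝕋.ρ 𝕋.hρ).flip.V)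
      ⟨fun _ _ => rfl, fun _ _ => rfl⟩
      (ContinuousLinearMap.id ℂ (algMod (AlgHom.id ℂ A) continuous_id 𝕋.ρ 𝕋.hρ).flip.V)
      ⟨fun _ _ => rfl, fun _ _ => rfl⟩ (fun _ => rfl) (fun _ => rfl)
  rcases tube_dim 𝕋 (reg A) N h3 with h4 | h4
  · exact h4
  · have h5 : Subsingleton A := h4
    exact absurd h5 (not_subsingleton A)

end

end HD
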