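import Pool.Agent.Helper48.HD.T2
import Pool.Agent.Helper48.HD.T4

/-!
Module HD-T5: every bimodule is an admissible quotient of a projective bimodule (the free one).

Proof. Let X be an A-C-bimodule, X₀ the underlying BMod ℂ ℂ (projective by projective_CC).
Base change along ℂ → C (algMod id (Algebra.ofId ℂ C)): T₁ : BMod C ℂ with τ₁ : C × X₀ → T₁,
projective (IsTens.projective).  N = T₁.flip : BMod ℂ C is projective (flip exchanges the roles
of the actions: prove that flip preserves Projective).  Base change along ℂ → A of N: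
F : BMod A C with τ : A × N → F, projective.
Also F.left is projective: F.left with the same τ is a completed tensor product of A
and N.left : BMod ℂ ℂ (IsTens algMod N.left F.left τ: the property right only concerns scalars),
so IsTens.projective applies.
Morphism π : F → X with π (τ a (τ₁ c x)) = X.l a (X.r c x): first IsTens.lift1/lift_hom for
T₁ → X.flip.. (c, x) ↦ X.r c x, then for F.  Right inverse s x = τ 1 (τ₁ 1 x), continuous linear.
-/

namespace HD

private theorem t5_calgC : CAlg ℂ :=
  ⟨inferInstance, inferInstance, inferInstance, inferInstance, inferInstance, continuous_mul⟩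

private theorem t5_flip {A C : Type} [CommRing A] [Algebra ℂ A] [TopologicalSpace A]
    [CommRing C] [Algebra ℂ C] [TopologicalSpace C] {P : BMod A C} (hP : Projective P) :
    Projective P.flip := by
  intro Z σ hσ hτ
  obtain ⟨ρ, hρ, h⟩ := hP Z.flip σ ⟨hσ.right, hσ.left⟩ hτ
  exact ⟨ρ, ⟨hρ.right, hρ.left⟩, h⟩

private theorem t5_ofId {S : Type} [CommRing S] [Algebra ℂ S] [UniformSpace S] [hS : CAlg S] :
    Continuous (Algebra.ofId ℂ S) := by
  haveI := hS.csm
  have h : (Algebra.ofId ℂ S : ℂ → S) = fun z => z • (1 : S) := by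
    funext z
    simp [Algebra.ofId_apply, Algebra.algebraMap_eq_smul_one]
  rw [h]
  exact continuous_id.smul continuous_const

private theorem t5_left_r {A C : Type} [CommRing A] [Algebra ℂ A] [TopologicalSpace A]
    [CommRing C] [Algebra ℂ C] [TopologicalSpace C] (X : BMod A C) (z : ℂ) (x : X.V) :
    X.left.r z x = z • x := by
  show (Algebra.ofId ℂ (Module.End ℂ X.V)) z x = z • x
  simp [Algebra.ofId_apply, Algebra.algebraMap_eq_smul_one]

private theorem t5_C_l {C : Type} [CommRing C] [Algebra ℂ C] [TopologicalSpace C]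
    (X : BMod ℂ C) (z : ℂ) (x : X.V) : X.l z x = z • x := by
  have h : X.l z = z • (1 : Module.End ℂ X.V) := by
    have h1 : z = z • (1 : ℂ) := by simp
    rw [h1, map_smul, map_one]
    simp
  rw [h]
  simp

section

variable {A C : Type} [CommRing A] [Algebra ℂ A] [UniformSpace A] [CAlg A]
    [CommRing C] [Algebra ℂ C] [UniformSpace C] [CAlg C]

/-- One base change from the scalars, together with the extension of a continuous linear map. -/
private theorem t5_base {S R : Type} [CommRing S] [Algebra ℂ S] [UniformSpace S] [hS : CAlg S]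
    [CommRing R] [Algebra ℂ R] [UniformSpace R] [CAlg R] (N : BMod ℂ R) (hN : Projective N)
    (Y : BMod S R) (g : N.V →L[ℂ] Y.V) (hg : ∀ c n, g (N.r c n) = Y.r c (g n)) :
    ∃ (F : BMod S R) (π : F.V →L[ℂ] Y.V) (s : N.V →L[ℂ] F.V),
      Projective F ∧ Projective F.left ∧ IsHom π ∧ ∀ x, π (s x) = g x := by
  obtain ⟨F, τ, hF⟩ := exists_tens
    (algMod (AlgHom.id ℂ S) continuous_id (Algebra.ofId ℂ S) t5_ofId) N
  have hr1 : ∀ (a : ℂ) (m : S),
      (algMod (AlgHom.id ℂ S) continuous_id (Algebra.ofId ℂ S) t5_ofId).r a m = a • m := by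
    intro a m
    show (Algebra.ofId ℂ S a) * m = a • m
    simp [Algebra.ofId_apply, Algebra.smul_def]
  have hl1 : ∀ (s : S) (m : S),
      (algMod (AlgHom.id ℂ S) continuous_id (Algebra.ofId ℂ S) t5_ofId).l s m = s * m :=
    fun s m => rfl
  have hproj : Projective F := IsTens.projective t5_ofId hF hN
  have hF' : IsTens (algMod (AlgHom.id ℂ S) continuous_id (Algebra.ofId ℂ S) t5_ofId)
      N.left F.left τ :=
    { bal := hF.bal
      left := hF.left
      right := fun c m n => by
        rw [t5_left_r, t5_left_r]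
        exact (map_smul (τ m) c n).symm
      cont := hF.cont
      dense := hF.dense
      lift := hF.lift }
  have hprojl : Projective F.left := IsTens.projective t5_ofId hF' (projective_CC _)
  have a1 : ∀ (s s' : S) (v : Y.V), Y.l (s + s') v = Y.l s v + Y.l s' v := fun s s' v => by
    rw [map_add, LinearMap.add_apply]
  have a2 : ∀ (z : ℂ) (s : S) (v : Y.V), Y.l (z • s) v = z • Y.l s v := fun z s v => by
    rw [map_smul, LinearMap.smul_apply]
  have a3 : ∀ (s : S) (v v' : Y.V), Y.l s (v + v') = Y.l s v + Y.l s v' :=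
    fun s v v' => map_add (Y.l s) v v'
  have a4 : ∀ (z : ℂ) (s : S) (v : Y.V), Y.l s (z • v) = z • Y.l s v :=
    fun z s v => map_smul (Y.l s) z v
  let Φ : (algMod (AlgHom.id ℂ S) continuous_id (Algebra.ofId ℂ S) t5_ofId).V
      →ₗ[ℂ] N.V →ₗ[ℂ] Y.V :=
    LinearMap.mk₂ ℂ (fun (s : S) (n : N.V) => (Y.l s (g n) : Y.V))
      (fun s s' n => a1 s s' (g n))
      (fun z s n => a2 z s (g n))
      (fun s n n' => (congrArg (Y.l (s : S)) (map_add g n n')).trans (a3 s (g n) (g n')))
      (fun z s n => (congrArg (Y.l (s : S)) (map_smul g z n)).trans (a4 z s (g n)))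
  have hΦ : ∀ (s : S) (n : N.V), Φ s n = Y.l s (g n) := fun s n => rfl
  obtain ⟨π, hπ, hπτ⟩ := hF.lift_hom Y Φ
    (Y.cl.comp (continuous_fst.prodMk (g.continuous.comp continuous_snd)))
    (fun a m n => by
      rw [hr1, hΦ, hΦ, t5_C_l, a2, map_smul g a n, a4])
    (fun s m n => by
      rw [hl1, hΦ, hΦ, map_mul]
      rfl)
    (fun c m n => by
      rw [hΦ, hΦ, hg, Y.comm])
  refine ⟨F, π, ⟨τ (1 : S), hF.cont.comp (continuous_const.prodMk continuous_id)⟩,
    hproj, hprojl, hπ, fun x => ?_⟩
  show π (τ (1 : S) x) = g x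
  rw [hπτ, hΦ, map_one]
  rfl

theorem exists_free (X : BMod A C) :
    ∃ (F : BMod A C) (π : F.V →L[ℂ] X.V) (s : X.V →L[ℂ] F.V),
      Projective F ∧ Projective F.left ∧ IsHom π ∧ ∀ x, π (s x) = x := by
  haveI : CAlg ℂ := t5_calgC
  obtain ⟨T, q, t, hT, -, hq, hqt⟩ := t5_base (S := C) (R := ℂ) (X.flip.left.flip.left)
    (projective_CC _) X.flip.left (ContinuousLinearMap.id ℂ X.V)
    (fun c n => by
      show X.flip.left.flip.left.r c n = X.flip.left.r c n
      rw [t5_left_r, t5_left_r]
      rfl)
  obtain ⟨F, π, s, hF, hFl, hπ, hπs⟩ := t5_base (S := A) (R := C) T.flip (t5_flip hT) X q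
    (fun c n => hq.left c n)
  refine ⟨F, π, s.comp t, hF, hFl, hπ, fun x => ?_⟩
  have h1 : π (s (t x)) = q (t x) := hπs (t x)
  have h2 : q (t x) = x := hqt x
  exact h1.trans h2

end

end HD
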