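import Pool.Agent.Helper48.HD.T2
import Pool.Agent.Helper48.HD.T5
import Pool.Agent.Helper48.HD.T6

/-!
Module HD-B4: P ⊗_A X is a projective left module if P is a projective A-A-bimodule.

Proof. Free case: in T5 the free bimodule is F = A ⊗ N (τ₁ : A × N → F, IsTens (algMod id ofId) N F
τ₁) with N : BMod ℂ A, and every P has a morphism π : F → P with a continuous linear right inverse
(state this again: copy the construction of exists_free of T5, keeping N and τ₁), so P is a retract
of F by morphisms.  Let τ' : F × X → T' be the completed tensor product (exists_tens).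
T' is projective (projective_of_lift): given σ : Z → W a morphism of BMod A ℂ with continuous linear
right inverse ρ and a morphism f : T' → W.  Apply lift of IsTens for F with the parameter space X
(as BMod ℂ ℂ) to Φ x a n = Z.l a (ρ (f (τ' (τ₁ 1 n) x))): it gives Ψ : X × F → Z continuous, with
Ψ x (τ₁ a n) = Φ x a n.  Ψ (X.l a' x) φ = Ψ x (F.r a' φ) for all φ in F by density of the τ₁ a n
(F.r a' (τ₁ a n) = τ₁ a (N.r a' n) and the balancedness of τ').  So by lift_hom for T' there is a
morphism g : T' → Z with g (τ' φ x) = Ψ x φ; A-linearity on generators; σ (g (τ' (τ₁ a n) x)) =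
W.l a (f (τ' (τ₁ 1 n) x)) = f (τ' (τ₁ a n) x), so σ ∘ g = f by density (twice).
General case: T is a retract of T' by IsTens.map of the retraction and the inclusion of P in F
(and the identity of X), use Projective.retract.
-/

namespace HD

private theorem b4_calgC : CAlg ℂ :=
  ⟨inferInstance, inferInstance, inferInstance, inferInstance, inferInstance, continuous_mul⟩

private theorem b4_ofId {S : Type} [CommRing S] [Algebra ℂ S] [UniformSpace S] [hS : CAlg S] :
    Continuous (Algebra.ofId ℂ S) := by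
  haveI := hS.csm
  have h : (Algebra.ofId ℂ S : ℂ → S) = fun z => z • (1 : S) := by
    funext z
    simp [Algebra.ofId_apply, Algebra.algebraMap_eq_smul_one]
  rw [h]
  exact continuous_id.smul continuous_const

private theorem b4_left_r {A C : Type} [CommRing A] [Algebra ℂ A] [TopologicalSpace A]
    [CommRing C] [Algebra ℂ C] [TopologicalSpace C] (X : BMod A C) (z : ℂ) (x : X.V) :
    X.left.r z x = z • x := by
  show (Algebra.ofId ℂ (Module.End ℂ X.V)) z x = z • x
  simp [Algebra.ofId_apply, Algebra.algebraMap_eq_smul_one]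

private theorem b4_C_l {C : Type} [CommRing C] [Algebra ℂ C] [TopologicalSpace C]
    (X : BMod ℂ C) (z : ℂ) (x : X.V) : X.l z x = z • x := by
  have h : X.l z = z • (1 : Module.End ℂ X.V) := by
    have h1 : z = z • (1 : ℂ) := by simp
    rw [h1, map_smul, map_one]
    simp
  rw [h]
  simp

private theorem b4_C_r {C : Type} [CommRing C] [Algebra ℂ C] [TopologicalSpace C]
    (X : BMod C ℂ) (z : ℂ) (x : X.V) : X.r z x = z • x := b4_C_l X.flip z x

/-- The underlying locally convex space, as a right module. -/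
private noncomputable def b4_right {A : Type} [CommRing A] [Algebra ℂ A] [TopologicalSpace A]
    (P : BMod A A) : BMod ℂ A := P.flip.left.flip

/-- The free bimodule on a right module, with the tensor product map. -/
private theorem b4_base {S R : Type} [CommRing S] [Algebra ℂ S] [UniformSpace S] [hS : CAlg S]
    [CommRing R] [Algebra ℂ R] [UniformSpace R] [CAlg R] (N : BMod ℂ R)
    (Y : BMod S R) (g : N.V →L[ℂ] Y.V) (hg : ∀ c n, g (N.r c n) = Y.r c (g n))
    (F : BMod S R)
    (τ : (algMod (AlgHom.id ℂ S) continuous_id (Algebra.ofId ℂ S) b4_ofId).V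
      →ₗ[ℂ] N.V →ₗ[ℂ] F.V)
    (hF : IsTens (algMod (AlgHom.id ℂ S) continuous_id (Algebra.ofId ℂ S) b4_ofId) N F τ) :
    ∃ π : F.V →L[ℂ] Y.V, IsHom π ∧ ∀ (s : S) (x : N.V), π (τ s x) = Y.l s (g x) := by
  have hr1 : ∀ (a : ℂ) (m : S),
      (algMod (AlgHom.id ℂ S) continuous_id (Algebra.ofId ℂ S) b4_ofId).r a m = a • m := by
    intro a m
    show (Algebra.ofId ℂ S a) * m = a • m
    simp [Algebra.ofId_apply, Algebra.smul_def]
  have hl1 : ∀ (s : S) (m : S),
      (algMod (AlgHom.id ℂ S) continuous_id (Algebra.ofId ℂ S) b4_ofId).l s m = s * m :=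
    fun s m => rfl
  have a1 : ∀ (s s' : S) (v : Y.V), Y.l (s + s') v = Y.l s v + Y.l s' v := fun s s' v => by
    rw [map_add, LinearMap.add_apply]
  have a2 : ∀ (z : ℂ) (s : S) (v : Y.V), Y.l (z • s) v = z • Y.l s v := fun z s v => by
    rw [map_smul, LinearMap.smul_apply]
  have a3 : ∀ (s : S) (v v' : Y.V), Y.l s (v + v') = Y.l s v + Y.l s v' :=
    fun s v v' => map_add (Y.l s) v v'
  have a4 : ∀ (z : ℂ) (s : S) (v : Y.V), Y.l s (z • v) = z • Y.l s v :=
    fun z s v => map_smul (Y.l s) z v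
  let Φ : (algMod (AlgHom.id ℂ S) continuous_id (Algebra.ofId ℂ S) b4_ofId).V
      →ₗ[ℂ] N.V →ₗ[ℂ] Y.V :=
    LinearMap.mk₂ ℂ (fun (s : S) (n : N.V) => (Y.l s (g n) : Y.V))
      (fun s s' n => a1 s s' (g n))
      (fun z s n => a2 z s (g n))
      (fun s n n' => (congrArg (Y.l (s : S)) (map_add g n n')).trans (a3 s (g n) (g n')))
      (fun z s n => (congrArg (Y.l (s : S)) (map_smul g z n)).trans (a4 z s (g n)))
  have hΦ : ∀ (s : S) (n : N.V), Φ s n = Y.l s (g n) := fun s n => rfl
  obtain ⟨π, hπ, hπτ⟩ := hF.lift_hom Y Φ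
    (Y.cl.comp (continuous_fst.prodMk (g.continuous.comp continuous_snd)))
    (fun a m n => by
      have e1 : Φ ((algMod (AlgHom.id ℂ S) continuous_id (Algebra.ofId ℂ S) b4_ofId).r a m) n
          = a • Y.l (m : S) (g n) :=
        (congrArg (fun y : S => Y.l y (g n)) (hr1 a m)).trans (a2 a m (g n))
      have e2 : Φ m (N.l a n) = a • Y.l (m : S) (g n) := by
        rw [b4_C_l]
        exact (congrArg (Y.l (m : S)) (map_smul g a n)).trans (a4 a m (g n))
      exact e1.trans e2.symm)
    (fun s m n => by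
      have e1 : Φ ((algMod (AlgHom.id ℂ S) continuous_id (Algebra.ofId ℂ S) b4_ofId).l s m) n
          = Y.l s (Y.l (m : S) (g n)) :=
        congrArg (fun f : Module.End ℂ Y.V => f (g n)) (map_mul Y.l s (m : S))
      exact e1)
    (fun c m n => by
      have e1 : Φ m (N.r c n) = Y.r c (Y.l (m : S) (g n)) :=
        (congrArg (Y.l (m : S)) (hg c n)).trans (Y.comm m c (g n))
      exact e1)
  exact ⟨π, hπ, fun s x => (hπτ s x).trans (hΦ s x)⟩

section

variable {A : Type} [CommRing A] [Algebra ℂ A] [UniformSpace A] [CAlg A]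

theorem IsTens.projective_of_bimod {P : BMod A A} (hP : Projective P) {X T : BMod A ℂ}
    {τ : P.V →ₗ[ℂ] X.V →ₗ[ℂ] T.V} (hT : IsTens P X T τ) : Projective T := by
  haveI : CAlg ℂ := b4_calgC
  -- the free bimodule on the right module P
  obtain ⟨F, τ₁, hF⟩ := exists_tens
    (algMod (AlgHom.id ℂ A) continuous_id (Algebra.ofId ℂ A) b4_ofId) (b4_right P)
  -- the balanced tensor product of the right module P with X, a locally convex space
  obtain ⟨Y, υ, hY⟩ := exists_tens (b4_right P) X
  -- the free left module on Y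
  obtain ⟨W, ω, hW⟩ := exists_tens
    (algMod (AlgHom.id ℂ A) continuous_id (Algebra.ofId ℂ A) b4_ofId) Y
  have hWp : Projective W := IsTens.projective b4_ofId hW (projective_CC _)
  change P.V →ₗ[ℂ] X.V →ₗ[ℂ] Y.V at υ
  have hNr : ∀ (a : A) (p : P.V), (b4_right P).r a p = P.r a p := fun a p => rfl
  -- the projection F → P and its right inverse
  obtain ⟨π, hπ, hπτ⟩ := b4_base (b4_right P) P (ContinuousLinearMap.id ℂ P.V)
    (fun c n => rfl) F τ₁ hF
  change ∀ (s : A) (x : P.V), π (τ₁ s x) = P.l s x at hπτ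
  let s1 : P.V →L[ℂ] F.V :=
    ⟨τ₁ (1 : A), hF.cont.comp (continuous_const.prodMk continuous_id)⟩
  obtain ⟨ρ, hρ, hρπ⟩ := hP F π hπ ⟨s1, fun x => by
    show π (τ₁ (1 : A) x) = x
    rw [hπτ, map_one]
    rfl⟩
  -- the map from Y to T
  obtain ⟨u, hu⟩ := hY.lift1 (G := T.V) τ hT.cont (fun a m n => hT.bal a m n)
  change ∀ (m : P.V) (n : X.V), u (υ m n) = τ m n at hu
  have hYl : ∀ (z : ℂ) (y : Y.V), u (Y.r z y) = T.r z (u y) := fun z y => by
    rw [BMod.r_CC, b4_C_r, map_smul]
  obtain ⟨q, hq, hqω⟩ := b4_base Y T u hYl W ω hW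
  -- the bilinear map on X × F
  let Φ : X.V →ₗ[ℂ] (algMod (AlgHom.id ℂ A) continuous_id (Algebra.ofId ℂ A) b4_ofId).V
      →ₗ[ℂ] P.V →ₗ[ℂ] W.V :=
    { toFun := fun x => ω.compl₂ (υ.flip x)
      map_add' := fun x y => by
        apply LinearMap.ext
        intro a
        apply LinearMap.ext
        intro n
        show ω a (υ n (x + y)) = ω a (υ n x) + ω a (υ n y)
        rw [map_add, map_add]
      map_smul' := fun z x => by
        apply LinearMap.ext
        intro a
        apply LinearMap.ext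
        intro n
        show ω a (υ n (z • x)) = z • ω a (υ n x)
        rw [map_smul, map_smul] }
  have hυc : Continuous fun p : P.V × X.V => υ p.1 p.2 := hY.cont
  have hωc : Continuous fun p : A × Y.V => ω p.1 p.2 := hW.cont
  have hr1 : ∀ (a : ℂ) (m : A),
      (algMod (AlgHom.id ℂ A) continuous_id (Algebra.ofId ℂ A) b4_ofId).r a m = a • m := by
    intro a m
    show (Algebra.ofId ℂ A a) * m = a • m
    simp [Algebra.ofId_apply, Algebra.smul_def]
  have hl1 : ∀ (s : A) (m : A),
      (algMod (AlgHom.id ℂ A) continuous_id (Algebra.ofId ℂ A) b4_ofId).l s m = s * m :=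
    fun s m => rfl
  obtain ⟨Ψ, hΨc, hΨ⟩ := hF.lift X.flip.left W.flip.left Φ
    (by
      show Continuous fun p : X.V × A × P.V => ω p.2.1 (υ p.2.2 p.1)
      exact hωc.comp ((continuous_fst.comp continuous_snd).prodMk
        (hυc.comp ((continuous_snd.comp continuous_snd).prodMk continuous_fst))))
    (by
      intro x z a n
      show ω ((algMod (AlgHom.id ℂ A) continuous_id (Algebra.ofId ℂ A) b4_ofId).r z a) (υ n x)
        = ω a (υ ((b4_right P).l z n) x)
      have h1 : ∀ (z : ℂ) (y : Y.V), ω ((algMod (AlgHom.id ℂ A) continuous_id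
          (Algebra.ofId ℂ A) b4_ofId).r z a) y = ω a (z • y) := fun z y => by
        rw [hW.bal, BMod.l_CC]
      rw [h1, b4_C_l]
      exact congrArg (ω a) (map_smul (υ.flip x) z n).symm)
  change X.V →ₗ[ℂ] F.V →ₗ[ℂ] W.V at Ψ
  change Continuous fun p : X.V × F.V => Ψ p.1 p.2 at hΨc
  change ∀ (x : X.V) (a : A) (p : P.V), Ψ x (τ₁ a p) = ω a (υ p x) at hΨ
  have cΨ : ∀ x : X.V, Continuous (Ψ x) := fun x => hΨc.comp (continuous_const.prodMk continuous_id)
  have hbal : ∀ (a : A) (x : X.V) (φ : F.V), Ψ (X.l a x) φ = Ψ x (F.r a φ) := by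
    intro a x φ
    have h := hF.hom_ext (G := W.V) ⟨Ψ (X.l a x), cΨ _⟩ ⟨(Ψ x).comp (F.r a), (cΨ x).comp
      (F.cr.comp (continuous_const.prodMk continuous_id))⟩ (fun m n => by
        exact (hΨ (X.l a x) m n).trans ((congrArg (ω m) (hY.bal a n x).symm).trans
          ((hΨ x m (P.r a n)).symm.trans (congrArg (Ψ x) (hF.right a m n).symm))))
    exact congrArg (fun f : F.V →L[ℂ] W.V => f φ) h
  have hleft : ∀ (s : A) (x : X.V) (φ : F.V), Ψ x (F.l s φ) = W.l s (Ψ x φ) := by
    intro s x φ
    have h := hF.hom_ext (G := W.V) ⟨(Ψ x).comp (F.l s), (cΨ x).comp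
      (F.cl.comp (continuous_const.prodMk continuous_id))⟩
      ⟨(W.l s).comp (Ψ x), (W.cl.comp (continuous_const.prodMk continuous_id)).comp (cΨ x)⟩
      (fun m n => by
        exact (congrArg (Ψ x) (hF.left s m n)).trans ((hΨ x _ n).trans
          ((hW.left s m (υ n x)).symm.trans (congrArg (W.l s) (hΨ x m n).symm))))
    exact congrArg (fun f : F.V →L[ℂ] W.V => f φ) h
  have hkey : ∀ (x : X.V) (φ : F.V), q (Ψ x φ) = τ (π φ) x := by
    intro x φ
    have h := hF.hom_ext (G := T.V) ⟨(q : W.V →ₗ[ℂ] T.V).comp (Ψ x), q.continuous.comp (cΨ x)⟩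
      ⟨(τ.flip x).comp (π : F.V →ₗ[ℂ] P.V),
        hT.cont.comp (π.continuous.prodMk continuous_const)⟩
      (fun m n => by
        exact (congrArg q (hΨ x m n)).trans ((hqω m (υ n x)).trans
          ((congrArg (T.l (m : A)) (hu n x)).trans ((hT.left m n x).trans
          (congrArg (fun y : P.V => τ y x) (hπτ m n).symm)))))
    exact congrArg (fun f : F.V →L[ℂ] T.V => f φ) h
  obtain ⟨i, hi, hiτ⟩ := hT.lift_hom W (Ψ.flip.comp (ρ : P.V →ₗ[ℂ] F.V))
    (by
      show Continuous fun p : P.V × X.V => Ψ p.2 (ρ p.1)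
      exact hΨc.comp (continuous_snd.prodMk (ρ.continuous.comp continuous_fst)))
    (fun a m n => by
      show Ψ n (ρ (P.r a m)) = Ψ (X.l a n) (ρ m)
      rw [hρ.right, hbal])
    (fun s m n => by
      show Ψ n (ρ (P.l s m)) = W.l s (Ψ n (ρ m))
      rw [hρ.left, hleft])
    (fun c m n => by
      show Ψ (X.r c n) (ρ m) = W.r c (Ψ n (ρ m))
      rw [b4_C_r, b4_C_r, map_smul]
      rfl)
  refine Projective.retract hWp i hi q hq (fun x => ?_)
  have h := hT.hom_ext (G := T.V) (q.comp i) (ContinuousLinearMap.id ℂ T.V) (fun m n => by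
    show q (i (τ m n)) = τ m n
    rw [hiτ]
    show q (Ψ n (ρ m)) = τ m n
    rw [hkey, hρπ])
  exact congrArg (fun f : T.V →L[ℂ] T.V => f x) h

end

end HD
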