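import Pool.Agent.Helper48.HD.H7
import Pool.Agent.Helper48.HD.T2
import Pool.Agent.Helper48.HD.T6
import Pool.Agent.Helper48.HD.B2
import Pool.Agent.Helper48.HD.B4

/-!
Module HD-B5: the homological dimension of a left module is at most the bidimension.

Proof. (Like B1, on the other side.)  Let R be the resolution of reg A of length at most m.  Flip it:
the modules (R.P k).flip are projective (Projective.flip) and projective as left modules (T6),
(reg A).flip.left is projective (given σ : Z → (reg A).flip.left with continuous linear right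
inverse τ, b ↦ Z.l b (τ 1) is a morphism and a right inverse; A is commutative), so by H7 applied to
the flipped resolution there is a contraction s₀, s of R which is right A-linear.
Let Q k, τ_k be the completed tensor product of R.P k : BMod A A and X : BMod A ℂ (exists_tens),
projective by B4.  Differentials: IsTens.map of R.d k and the identity.  Augmentation Q 0 → X from
lift_hom with Φ p x = X.l (R.ε p) x (balanced as ε (p a) = ε p * a).  Contraction:
s₀' x = τ_0 (s₀ 1) x, s' k = IsTens.map of s k and the identity (s k is right A-linear).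
Identities on the τ p x: s₀' (ε' (τ p x)) = τ (s₀ 1) (X.l (ε p) x) = τ (s₀ 1 · ε p) x = τ (s₀ (ε p)) x,
hence d (s (τ p x)) + s₀' (ε' (τ p x)) = τ p x, and so on; then hom_ext.
Length: if R.P k is a subsingleton so is Q k (the span of the τ 0 x = 0 is dense).
-/

namespace HD

private theorem b5_calgC : CAlg ℂ :=
  ⟨inferInstance, inferInstance, inferInstance, inferInstance, inferInstance, continuous_mul⟩

section

variable {A : Type} [CommRing A] [Algebra ℂ A] [UniformSpace A] [CAlg A]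

variable (A) in
private theorem b5_reg_left : Projective (reg A).flip.left := by
  rintro Z σ hσ ⟨τ, hτ⟩
  have hZr : ∀ (c : ℂ) (x : Z.V), Z.r c x = c • x := by
    intro c x
    have h1 : Z.r c = c • Z.r 1 := by
      rw [← map_smul, smul_eq_mul, mul_one]
    rw [h1, map_one, LinearMap.smul_apply, Module.End.one_apply]
  have hBl : ∀ (a x : A), (reg A).flip.left.l a x = a * x := fun a x => rfl
  have hBr : ∀ (c : ℂ) (x : A), (reg A).flip.left.r c x = c • x := by
    intro c x
    change (Algebra.ofId ℂ (Module.End ℂ A)) c x = c • x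
    simp [Algebra.ofId_apply, Algebra.algebraMap_eq_smul_one]
  let g0 : A →ₗ[ℂ] Z.V :=
    { toFun := fun b => Z.l b (τ (1 : A))
      map_add' := fun b b' => by rw [map_add, LinearMap.add_apply]
      map_smul' := fun z b => by rw [map_smul, LinearMap.smul_apply, RingHom.id_apply] }
  have hg0 : Continuous g0 := Z.cl.comp (continuous_id.prodMk continuous_const)
  have k1 : ∀ (a x : A), g0 (a * x) = Z.l a (g0 x) := by
    intro a x
    change Z.l (a * x) (τ (1 : A)) = Z.l a (Z.l x (τ (1 : A)))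
    rw [map_mul]
    rfl
  have k2 : ∀ (c : ℂ) (x : A), g0 (c • x) = Z.r c (g0 x) := by
    intro c x
    rw [map_smul, hZr]
  have k3 : ∀ x : A, (σ (g0 x) : A) = x := by
    intro x
    have h1 : σ (Z.l x (τ (1 : A))) = (reg A).flip.left.l x (σ (τ (1 : A))) := hσ.left x _
    have h2 : σ (τ (1 : A)) = (1 : A) := hτ _
    rw [h2] at h1
    exact h1.trans (mul_one x)
  exact ⟨⟨g0, hg0⟩, ⟨fun a x => k1 a x, fun c x => (congrArg g0 (hBr c x)).trans (k2 c x)⟩,
    fun x => k3 x⟩

omit [CAlg A] in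
private theorem b5_aug (X : BMod A ℂ) {N : BMod A A} {T : BMod A ℂ}
    {τ : N.V →ₗ[ℂ] X.V →ₗ[ℂ] T.V} (hT : IsTens N X T τ)
    (e : N.V →ₗ[ℂ] A) (he : Continuous e) (hel : ∀ b x, e (N.l b x) = b * e x)
    (her : ∀ b x, e (N.r b x) = b * e x) :
    ∃ F : T.V →L[ℂ] X.V, IsHom F ∧ ∀ (n : N.V) (x : X.V), F (τ n x) = X.l (e n) x := by
  let Φ : N.V →ₗ[ℂ] X.V →ₗ[ℂ] X.V :=
    LinearMap.mk₂ ℂ (fun (n : N.V) (x : X.V) => X.l (e n) x)
      (fun n n' x => by rw [map_add, map_add, LinearMap.add_apply])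
      (fun z n x => by rw [map_smul, map_smul, LinearMap.smul_apply])
      (fun n x x' => by rw [map_add])
      (fun z n x => by rw [map_smul])
  obtain ⟨F, hF, hFτ⟩ := hT.lift_hom X Φ
    (X.cl.comp ((he.comp continuous_fst).prodMk continuous_snd))
    (fun a m n => by
      show X.l (e (N.r a m)) n = X.l (e m) (X.l a n)
      rw [her, mul_comm, map_mul]
      rfl)
    (fun a m n => by
      show X.l (e (N.l a m)) n = X.l a (X.l (e m) n)
      rw [hel, map_mul]
      rfl)
    (fun c m n => by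
      show X.l (e m) (X.r c n) = X.r c (X.l (e m) n)
      rw [X.comm])
  exact ⟨F, hF, fun n x => hFτ n x⟩

theorem dimLE_of_reg (m : ℕ) (h : DimLE (reg A) m) (X : BMod A ℂ) : DimLE X m := by
  haveI : CAlg ℂ := b5_calgC
  obtain ⟨R, hR⟩ := h
  let Rf : ProjRes (reg A).flip :=
    { P := fun k => (R.P k).flip
      proj := fun k => (R.proj k).flip
      ε := R.ε
      d := R.d
      hε := ⟨R.hε.right, R.hε.left⟩
      hd := fun k => ⟨(R.hd k).right, (R.hd k).left⟩
      εd := R.εd
      dd := R.dd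
      s₀ := R.s₀
      s := R.s
      εs := R.εs
      sε := R.sε
      sd := R.sd }
  obtain ⟨s0', s', hs0', hs', h1', h2', h3'⟩ := exists_left_contraction Rf (b5_reg_left A)
    (fun k => (R.proj k).flip.left)
  obtain ⟨s0, s, hs0, hs, h1, h2, h3⟩ : ∃ (s₀ : (reg A).V →L[ℂ] (R.P 0).V)
      (s : ∀ k, (R.P k).V →L[ℂ] (R.P (k + 1)).V),
      (∀ a x, s₀ ((reg A).r a x) = (R.P 0).r a (s₀ x)) ∧
      (∀ k a x, s k ((R.P k).r a x) = (R.P (k + 1)).r a (s k x)) ∧
      (∀ x, R.ε (s₀ x) = x) ∧ (∀ x, s₀ (R.ε x) + R.d 0 (s 0 x) = x) ∧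
      ∀ k x, s k (R.d k x) + R.d (k + 1) (s (k + 1) x) = x :=
    ⟨s0', s', hs0', hs', h1', h2', h3'⟩
  have key : ∀ k, ∃ (T : BMod A ℂ) (τ : (R.P k).V →ₗ[ℂ] X.V →ₗ[ℂ] T.V),
      IsTens (R.P k) X T τ := fun k => exists_tens _ _
  choose P τ hT using key
  -- the augmentation
  obtain ⟨e, he⟩ : ∃ e : (R.P 0).V →L[ℂ] A, e = R.ε := ⟨R.ε, rfl⟩
  have hel : ∀ (b : A) (x : (R.P 0).V), e ((R.P 0).l b x) = b * e x := by
    rw [he]
    exact fun b x => R.hε.left b x
  have her : ∀ (b : A) (x : (R.P 0).V), e ((R.P 0).r b x) = b * e x := by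
    rw [he]
    exact fun b x => R.hε.right b x
  have hed : ∀ x, e (R.d 0 x) = 0 := by
    rw [he]
    exact fun x => R.εd x
  obtain ⟨s00, hs00⟩ : ∃ s00 : A →L[ℂ] (R.P 0).V, s00 = s0 := ⟨s0, rfl⟩
  have hes : ∀ x : A, e (s00 x) = x := by
    rw [he, hs00]
    exact fun x => h1 x
  have hse : ∀ x, s00 (e x) + R.d 0 (s 0 x) = x := by
    rw [he, hs00]
    exact fun x => h2 x
  have hsr : ∀ b x : A, s00 (b * x) = (R.P 0).r b (s00 x) := by
    rw [hs00]
    exact fun b x => hs0 b x
  obtain ⟨ε', hε', hε'τ⟩ := b5_aug X (hT 0) (e : (R.P 0).V →ₗ[ℂ] A) e.continuous hel her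
  have hε'τ' : ∀ (n : (R.P 0).V) (x : X.V), ε' (τ 0 n x) = X.l (e n) x := hε'τ
  -- the differentials
  have hdk : ∀ k, ∃ F : (P (k + 1)).V →L[ℂ] (P k).V, IsHom F ∧
      ∀ m n, F (τ (k + 1) m n) = τ k (R.d k m) n := by
    intro k
    refine (hT (k + 1)).lift_hom (P k) ((τ k).comp (R.d k : (R.P (k + 1)).V →ₗ[ℂ] (R.P k).V))
      ?_ ?_ ?_ ?_
    · change Continuous fun p : (R.P (k + 1)).V × X.V => τ k (R.d k p.1) p.2
      exact (hT k).cont.comp (((R.d k).continuous.comp continuous_fst).prodMk continuous_snd)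
    · intro b m n
      change τ k (R.d k ((R.P (k + 1)).r b m)) n = τ k (R.d k m) (X.l b n)
      rw [(R.hd k).right, (hT k).bal]
    · intro a m n
      change τ k (R.d k ((R.P (k + 1)).l a m)) n = (P k).l a (τ k (R.d k m) n)
      rw [(hT k).left, (R.hd k).left]
    · intro b m n
      change τ k (R.d k m) (X.r b n) = (P k).r b (τ k (R.d k m) n)
      rw [(hT k).right]
  choose d' hd' hd'τ using hdk
  -- the contraction
  have hsk : ∀ k, ∃ F : (P k).V →L[ℂ] (P (k + 1)).V, ∀ m n,
      F (τ k m n) = τ (k + 1) (s k m) n := by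
    intro k
    obtain ⟨F, hF⟩ := (hT k).map (hT (k + 1)) (s k) (hs k) (ContinuousLinearMap.id ℂ X.V)
      (fun a m => rfl)
    exact ⟨F, fun m n => hF m n⟩
  choose s' hs' using hsk
  let s₀' : X.V →L[ℂ] (P 0).V :=
    ⟨τ 0 (s00 1), (hT 0).cont.comp (continuous_const.prodMk continuous_id)⟩
  have hs₀' : ∀ x : X.V, s₀' x = τ 0 (s00 1) x := fun a => rfl
  have c1 : ∀ (m : (R.P 0).V) (n : X.V), s₀' (ε' (τ 0 m n)) = τ 0 (s00 (e m)) n := by
    intro m n
    have h4 : s00 (e m) = (R.P 0).r (e m) (s00 1) := by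
      rw [← hsr, mul_one]
    rw [hε'τ', hs₀', h4, (hT 0).bal]
  have c2 : ∀ x : X.V, ε' (s₀' x) = x := by
    intro x
    have h4 : ε' (s₀' x) = X.l (e (s00 1)) x := hε'τ' (s00 1) x
    rw [h4, hes, map_one]
    rfl
  refine ⟨{
    P := P
    proj := fun k => (hT k).projective_of_bimod (R.proj k)
    ε := ε'
    d := d'
    hε := hε'
    hd := hd'
    εd := fun x => ?_
    dd := fun k x => ?_
    s₀ := s₀'
    s := s'
    εs := fun x => c2 x
    sε := fun x => ?_
    sd := fun k x => ?_ }, fun k hk => ?_⟩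
  · have h4 : ε'.comp (d' 0) = 0 := (hT 1).hom_ext _ _ (fun m n => by
      change ε' (d' 0 (τ 1 m n)) = 0
      rw [hd'τ, hε'τ', hed, map_zero, LinearMap.zero_apply])
    exact congrArg (fun f : (P 1).V →L[ℂ] X.V => f x) h4
  · have h4 : (d' k).comp (d' (k + 1)) = 0 := (hT (k + 2)).hom_ext _ _ (fun m n => by
      change d' k (d' (k + 1) (τ (k + 2) m n)) = 0
      rw [hd'τ, hd'τ, R.dd, map_zero, LinearMap.zero_apply])
    exact congrArg (fun f : (P (k + 2)).V →L[ℂ] (P k).V => f x) h4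
  · have h4 : s₀'.comp ε' + (d' 0).comp (s' 0) = ContinuousLinearMap.id ℂ (P 0).V :=
      (hT 0).hom_ext _ _ (fun m n => by
        have h5 : d' 0 (s' 0 (τ 0 m n)) = τ 0 (R.d 0 (s 0 m)) n := by
          rw [hs', hd'τ]
        have h6 : τ 0 (s00 (e m)) n + τ 0 (R.d 0 (s 0 m)) n = τ 0 m n := by
          rw [← LinearMap.add_apply, ← map_add, hse]
        exact (congrArg₂ (fun u v : (P 0).V => u + v) (c1 m n) h5).trans h6)
    exact congrArg (fun f : (P 0).V →L[ℂ] (P 0).V => f x) h4
  · have h4 : (s' k).comp (d' k) + (d' (k + 1)).comp (s' (k + 1)) =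
        ContinuousLinearMap.id ℂ (P (k + 1)).V :=
      (hT (k + 1)).hom_ext _ _ (fun m n => by
        change s' k (d' k (τ (k + 1) m n)) + d' (k + 1) (s' (k + 1) (τ (k + 1) m n)) =
          τ (k + 1) m n
        rw [hd'τ, hs', hs', hd'τ, ← LinearMap.add_apply, ← map_add, h3])
    exact congrArg (fun f : (P (k + 1)).V →L[ℂ] (P (k + 1)).V => f x) h4
  · have hsub := hR k hk
    have h4 : ContinuousLinearMap.id ℂ (P k).V = 0 := (hT k).hom_ext _ _ (fun m n => by
      change τ k m n = 0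
      rw [Subsingleton.elim m 0, map_zero, LinearMap.zero_apply])
    refine ⟨fun x y => ?_⟩
    have h5 : ∀ x : (P k).V, x = 0 := fun x =>
      congrArg (fun f : (P k).V →L[ℂ] (P k).V => f x) h4
    rw [h5 x, h5 y]

end

end HD
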