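import Pool.Agent.Helper48.HD.Defs

/-!
Project HD: basic constructions on bimodules: composition of morphisms, closed submodules,
products, restriction of scalars, flip, algebras as bimodules.
-/

namespace HD

section

variable {A C : Type} [CommRing A] [Algebra ℂ A] [TopologicalSpace A]
    [CommRing C] [Algebra ℂ C] [TopologicalSpace C]

namespace IsHom

variable {X Y Z : BMod A C}

theorem id : IsHom (X := X) (Y := X) (ContinuousLinearMap.id ℂ X.V) :=
  ⟨fun _ _ => rfl, fun _ _ => rfl⟩

theorem comp {g : Y.V →L[ℂ] Z.V} {f : X.V →L[ℂ] Y.V} (hg : IsHom g) (hf : IsHom f) :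
    IsHom (X := X) (Y := Z) (g.comp f) :=
  ⟨fun a x => by simp [hf.left, hg.left], fun c x => by simp [hf.right, hg.right]⟩

theorem zero : IsHom (X := X) (Y := Y) 0 := ⟨fun _ _ => by simp, fun _ _ => by simp⟩

theorem add {f g : X.V →L[ℂ] Y.V} (hf : IsHom f) (hg : IsHom g) :
    IsHom (X := X) (Y := Y) (f + g) :=
  ⟨fun a x => by simp [hf.left, hg.left], fun c x => by simp [hf.right, hg.right]⟩

theorem neg {f : X.V →L[ℂ] Y.V} (hf : IsHom f) : IsHom (X := X) (Y := Y) (-f) :=
  ⟨fun a x => by simp [hf.left], fun c x => by simp [hf.right]⟩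

theorem sub {f g : X.V →L[ℂ] Y.V} (hf : IsHom f) (hg : IsHom g) :
    IsHom (X := X) (Y := Y) (f - g) :=
  ⟨fun a x => by simp [hf.left, hg.left], fun c x => by simp [hf.right, hg.right]⟩

theorem smul {f : X.V →L[ℂ] Y.V} (hf : IsHom f) (z : ℂ) : IsHom (X := X) (Y := Y) (z • f) :=
  ⟨fun a x => by simp [hf.left], fun c x => by simp [hf.right]⟩

theorem sum {ι : Type*} (s : Finset ι) {f : ι → X.V →L[ℂ] Y.V} (hf : ∀ i ∈ s, IsHom (f i)) :
    IsHom (X := X) (Y := Y) (∑ i ∈ s, f i) := by
  refine ⟨fun a x => ?_, fun c x => ?_⟩
  · simp only [sum_apply, map_sum]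
    exact Finset.sum_congr rfl fun i hi => (hf i hi).left a x
  · simp only [sum_apply, map_sum]
    exact Finset.sum_congr rfl fun i hi => (hf i hi).right c x

end IsHom

/-- Stable closed subspaces as modules. -/
def BMod.sub (X : BMod A C) (U : Submodule ℂ X.V) (hU : IsClosed (U : Set X.V))
    (hl : ∀ a, ∀ x ∈ U, X.l a x ∈ U) (hr : ∀ c, ∀ x ∈ U, X.r c x ∈ U) : BMod A C :=
  haveI : IsUniformAddGroup U := inferInstanceAs (IsUniformAddGroup U.toAddSubgroup)
  haveI : CompleteSpace U := hU.completeSpace_coe
  haveI : LocallyConvexSpace ℝ U := by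
    exact LocallyConvexSpace.induced (𝕜 := ℝ) (U.subtype.restrictScalars ℝ)
  { V := U
    l :=
      { toFun := fun a => (X.l a).restrict (hl a)
        map_one' := by ext x; simp
        map_mul' := fun a b => by ext x; simp
        map_zero' := by ext x; simp
        map_add' := fun a b => by ext x; simp
        commutes' := fun z => by ext x; simp [Algebra.algebraMap_eq_smul_one] }
    r :=
      { toFun := fun c => (X.r c).restrict (hr c)
        map_one' := by ext x; simp
        map_mul' := fun a b => by ext x; simp
        map_zero' := by ext x; simp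
        map_add' := fun a b => by ext x; simp
        commutes' := fun z => by ext x; simp [Algebra.algebraMap_eq_smul_one] }
    cl := by
      refine Continuous.subtype_mk (X.cl.comp (continuous_fst.prodMk
        (continuous_subtype_val.comp continuous_snd))) _
    cr := by
      refine Continuous.subtype_mk (X.cr.comp (continuous_fst.prodMk
        (continuous_subtype_val.comp continuous_snd))) _
    comm := fun a c x => Subtype.ext (X.comm a c x.1) }

/-- Products of modules. -/
def BMod.pi {ι : Type} (X : ι → BMod A C) : BMod A C :=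
  { V := ∀ i, (X i).V
    l :=
      { toFun := fun a => LinearMap.pi fun i => ((X i).l a).comp (LinearMap.proj i)
        map_one' := by ext x i; simp
        map_mul' := fun a b => by ext x i; simp
        map_zero' := by ext x i; simp
        map_add' := fun a b => by ext x i; simp
        commutes' := fun z => by ext x i; simp [Algebra.algebraMap_eq_smul_one] }
    r :=
      { toFun := fun c => LinearMap.pi fun i => ((X i).r c).comp (LinearMap.proj i)
        map_one' := by ext x i; simp
        map_mul' := fun a b => by ext x i; simp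
        map_zero' := by ext x i; simp
        map_add' := fun a b => by ext x i; simp
        commutes' := fun z => by ext x i; simp [Algebra.algebraMap_eq_smul_one] }
    cl := continuous_pi fun i => (X i).cl.comp
      (continuous_fst.prodMk ((continuous_apply i).comp continuous_snd))
    cr := continuous_pi fun i => (X i).cr.comp
      (continuous_fst.prodMk ((continuous_apply i).comp continuous_snd))
    comm := fun a c x => funext fun i => (X i).comm a c (x i) }

theorem BMod.pi_l {ι : Type} (X : ι → BMod A C) (a : A) (x : (BMod.pi X).V) (i : ι) :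
    (BMod.pi X).l a x i = (X i).l a (x i) := rfl

theorem BMod.pi_r {ι : Type} (X : ι → BMod A C) (c : C) (x : (BMod.pi X).V) (i : ι) :
    (BMod.pi X).r c x i = (X i).r c (x i) := rfl

/-- Exchange of the two actions. -/
def BMod.flip (X : BMod A C) : BMod C A :=
  { V := X.V
    l := X.r
    r := X.l
    cl := X.cr
    cr := X.cl
    comm := fun a c x => (X.comm c a x).symm }

/-- Restriction of scalars on the left. -/
def BMod.res {B : Type} [CommRing B] [Algebra ℂ B] [TopologicalSpace B]
    (φ : A →ₐ[ℂ] B) (hφ : Continuous φ) (X : BMod B C) : BMod A C :=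
  { V := X.V
    l := X.l.comp φ
    r := X.r
    cl := X.cl.comp ((hφ.comp continuous_fst).prodMk continuous_snd)
    cr := X.cr
    comm := fun a c x => X.comm (φ a) c x }

/-- The underlying left module. -/
def BMod.left (X : BMod A C) : BMod A ℂ :=
  { V := X.V
    l := X.l
    r := Algebra.ofId ℂ (Module.End ℂ X.V)
    cl := X.cl
    cr := by
      have h : (fun p : ℂ × X.V => (Algebra.ofId ℂ (Module.End ℂ X.V)) p.1 p.2)
          = fun p => p.1 • p.2 := by
        funext p
        simp [Algebra.ofId_apply, Algebra.algebraMap_eq_smul_one]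
      rw [h]
      exact continuous_smul
    comm := fun a c x => by
      simp [Algebra.ofId_apply, Algebra.algebraMap_eq_smul_one] }

end

section

variable {B : Type} [CommRing B] [Algebra ℂ B] [UniformSpace B] [hB : CAlg B]
    {S R : Type} [CommRing S] [Algebra ℂ S] [TopologicalSpace S]
    [CommRing R] [Algebra ℂ R] [TopologicalSpace R]

/-- The algebra B as an S-R-bimodule by means of two homomorphisms S → B and R → B. -/
def algMod (φ : S →ₐ[ℂ] B) (hφ : Continuous φ) (ψ : R →ₐ[ℂ] B) (hψ : Continuous ψ) : BMod S R :=
  haveI := hB.uag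
  haveI := hB.csm
  haveI := hB.lcs
  haveI := hB.t2
  haveI := hB.com
  { V := B
    l := (Algebra.lmul ℂ B).comp φ
    r := (Algebra.lmul ℂ B).comp ψ
    cl := by
      exact hB.cmul.comp ((hφ.comp continuous_fst).prodMk continuous_snd)
    cr := by
      exact hB.cmul.comp ((hψ.comp continuous_fst).prodMk continuous_snd)
    comm := fun a c x => by simp [mul_left_comm] }

variable (B) in
/-- The algebra B as a B-B-bimodule. -/
def reg : BMod B B := algMod (AlgHom.id ℂ B) continuous_id (AlgHom.id ℂ B) continuous_id

/-- The bidimension of a commutative algebra with identity. -/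
noncomputable def db (B : Type) [CommRing B] [Algebra ℂ B] [UniformSpace B] [CAlg B] : ℕ∞ :=
  dh (reg B)

/-- The global dimension. -/
noncomputable def dg (B : Type) [CommRing B] [Algebra ℂ B] [TopologicalSpace B] : ℕ∞ :=
  ⨆ X : BMod B ℂ, dh X

/-- Irreducible left modules: nonzero modules without proper nonzero submodules. -/
def Irr {B : Type} [CommRing B] [Algebra ℂ B] [TopologicalSpace B] (X : BMod B ℂ) : Prop :=
  Nontrivial X.V ∧ ∀ U : Submodule ℂ X.V, (∀ b, ∀ x ∈ U, X.l b x ∈ U) → U = ⊥ ∨ U = ⊤

/-- The small dimension. -/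
noncomputable def ds (B : Type) [CommRing B] [Algebra ℂ B] [TopologicalSpace B] : ℕ∞ :=
  ⨆ X : {X : BMod B ℂ // Irr X}, dh X.1

end

end HD
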