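import Mathlib

/-!
Module HD-CB: sum of the principal minors of order c of an idempotent matrix of rank c.

Proof. An idempotent matrix P of rank c factors as P = X * Y with X : m × c, Y : c × m and
Y * X = 1 (basis of the range).  det (P.submatrix I I) = det (X.submatrix I id) *
det (Y.submatrix id I) for I : Fin c → Fin m.  Expand det (X.submatrix I id) =
Σ_σ sign σ ∏_k X (I k) (σ k)  (or the transposed version) and sum over I first:
Σ_I (∏_k X (I k) (σ k)) det (Y.submatrix id I) = det (matrix with columns Y * X e_(σ k)) (det is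
multilinear in the columns) = det of the permutation matrix = sign σ.  The total is
Σ_σ sign σ * sign σ = c!.
(Alternatively by induction or by the theory of exterior powers; any proof is fine.)
-/

open scoped Manifold ContDiff Topology

namespace HD

private theorem factor (m c : ℕ) (P : Matrix (Fin m) (Fin m) ℂ) (hP : P * P = P)
    (hr : P.rank = c) : ∃ (X : Matrix (Fin m) (Fin c) ℂ) (Y : Matrix (Fin c) (Fin m) ℂ),
      P = X * Y ∧ Y * X = 1 := by
  let b : Module.Basis (Fin c) ℂ (LinearMap.range P.mulVecLin) :=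
    Module.finBasisOfFinrankEq ℂ (LinearMap.range P.mulVecLin) hr
  have hmem : ∀ v : Fin m → ℂ, P.mulVecLin v ∈ LinearMap.range P.mulVecLin := fun v =>
    LinearMap.mem_range_self _ v
  refine ⟨Matrix.of fun i j => (b j : Fin m → ℂ) i,
    Matrix.of fun j i => b.repr ⟨P.mulVecLin (Pi.single i 1), hmem _⟩ j, ?_, ?_⟩
  · ext i k
    rw [Matrix.mul_apply]
    simp only [Matrix.of_apply]
    have h1 := b.sum_repr ⟨P.mulVecLin (Pi.single k 1), hmem _⟩
    have h2 := congrArg (fun z : LinearMap.range P.mulVecLin => (z : Fin m → ℂ) i) h1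
    have h3 : (P.mulVecLin (Pi.single k 1)) i = P i k := by
      simp
    rw [← h3]
    refine Eq.trans h2.symm ?_
    simp only [Submodule.coe_sum, Submodule.coe_smul, Finset.sum_apply, Pi.smul_apply,
      smul_eq_mul]
    refine Finset.sum_congr rfl fun j _ => ?_
    exact mul_comm _ _
  · ext j k
    rw [Matrix.mul_apply]
    simp only [Matrix.of_apply]
    have hfix : P.mulVecLin (b k : Fin m → ℂ) = (b k : Fin m → ℂ) := by
      obtain ⟨v, hv⟩ := (b k).2
      rw [← hv]
      simp only [Matrix.mulVecLin_apply, Matrix.mulVec_mulVec, hP]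
    -- the linear map v ↦ repr (P v) j
    let f : (Fin m → ℂ) →ₗ[ℂ] ℂ :=
      (Finsupp.lapply j).comp ((b.repr : _ →ₗ[ℂ] _).comp
        (P.mulVecLin.codRestrict (LinearMap.range P.mulVecLin) hmem))
    have hf : ∀ v, f v = b.repr ⟨P.mulVecLin v, hmem v⟩ j := fun v => rfl
    have h3 : f (b k : Fin m → ℂ) = ∑ i, (b k : Fin m → ℂ) i * f (Pi.single i 1) := by
      conv_lhs => rw [pi_eq_sum_univ' (b k : Fin m → ℂ)]
      rw [map_sum]
      refine Finset.sum_congr rfl fun i _ => ?_
      rw [map_smul, smul_eq_mul]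
    have h4 : f (b k : Fin m → ℂ) = (1 : Matrix (Fin c) (Fin c) ℂ) j k := by
      rw [hf]
      have : (⟨P.mulVecLin (b k : Fin m → ℂ), hmem _⟩ : LinearMap.range P.mulVecLin) = b k :=
        Subtype.ext hfix
      rw [this, b.repr_self, Matrix.one_apply, Finsupp.single_apply]
      simp [eq_comm]
    rw [← h4, h3]
    refine Finset.sum_congr rfl fun i _ => ?_
    rw [hf, mul_comm]

theorem sum_minors (m c : ℕ) (P : Matrix (Fin m) (Fin m) ℂ) (hP : P * P = P) (hr : P.rank = c) :
    ∑ I : Fin c → Fin m, (P.submatrix I I).det = (Nat.factorial c : ℂ) := by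
  obtain ⟨X, Y, hXY, hYX⟩ := factor m c P hP hr
  have h1 : ∀ I : Fin c → Fin m, (P.submatrix I I).det =
      ∑ σ : Equiv.Perm (Fin c), ((Equiv.Perm.sign σ : ℤ) : ℂ) *
        ((∏ k, X (I k) (σ k)) * (Matrix.of fun k j => Y j (I k)).det) := by
    intro I
    have e1 : P.submatrix I I = X.submatrix I id * Y.submatrix id I := by
      ext i j
      rw [hXY]
      simp [Matrix.mul_apply]
    have e2 : (X.submatrix I id).det = ∑ σ : Equiv.Perm (Fin c),
        ((Equiv.Perm.sign σ : ℤ) : ℂ) * ∏ k, X (I k) (σ k) := by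
      rw [← Matrix.det_transpose, Matrix.det_apply']
      rfl
    have e3 : (Y.submatrix id I).det = (Matrix.of fun k j => Y j (I k)).det := by
      rw [← Matrix.det_transpose]
      rfl
    rw [e1, Matrix.det_mul, e2, e3, Finset.sum_mul]
    refine Finset.sum_congr rfl fun σ _ => ?_
    ring
  simp only [h1]
  rw [Finset.sum_comm]
  have h2 : ∀ σ : Equiv.Perm (Fin c), ∑ I : Fin c → Fin m, ((Equiv.Perm.sign σ : ℤ) : ℂ) *
      ((∏ k, X (I k) (σ k)) * (Matrix.of fun k j => Y j (I k)).det) = 1 := by
    intro σ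
    rw [← Finset.mul_sum]
    have h3 : ∑ I : Fin c → Fin m, (∏ k, X (I k) (σ k)) * (Matrix.of fun k j => Y j (I k)).det
        = (Matrix.detRowAlternating (n := Fin c) (R := ℂ)).toMultilinearMap
            (fun k => ∑ i : Fin m, X i (σ k) • (fun j => Y j i)) := by
      rw [MultilinearMap.map_sum]
      refine Finset.sum_congr rfl fun I _ => ?_
      rw [MultilinearMap.map_smul_univ]
      rfl
    have h4 : (fun k : Fin c => ∑ i : Fin m, X i (σ k) • (fun j : Fin c => Y j i))
        = (fun k j : Fin c => if σ k = j then (1 : ℂ) else 0) := by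
      funext k j
      have h5 := congrFun (congrFun hYX j) (σ k)
      rw [Matrix.mul_apply, Matrix.one_apply] at h5
      rw [Finset.sum_apply]
      have h7 : (if σ k = j then (1 : ℂ) else 0) = if j = σ k then 1 else 0 := by
        simp [eq_comm]
      rw [h7, ← h5]
      refine Finset.sum_congr rfl fun i _ => ?_
      show X i (σ k) * Y j i = _
      exact mul_comm _ _
    have h8 : (fun k j : Fin c => if σ k = j then (1 : ℂ) else 0)
        = (1 : Matrix (Fin c) (Fin c) ℂ).submatrix σ id := by
      ext k j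
      simp [Matrix.one_apply]
    have h6 : (Matrix.detRowAlternating (n := Fin c) (R := ℂ)).toMultilinearMap
        ((1 : Matrix (Fin c) (Fin c) ℂ).submatrix σ id) = ((Equiv.Perm.sign σ : ℤ) : ℂ) := by
      have := Matrix.det_permute σ (1 : Matrix (Fin c) (Fin c) ℂ)
      rw [Matrix.det_one, mul_one] at this
      exact this
    rw [h3, h4, h8, h6]
    rcases Int.units_eq_one_or (Equiv.Perm.sign σ) with h | h <;> simp [h]
  rw [Finset.sum_congr rfl fun σ _ => h2 σ]
  simp [Fintype.card_perm]

end HD
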