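import Mathlib

/-!
Project HD (MP_1cfca6_an): homological dimensions of the algebra of holomorphic functions
on a complex manifold.  Basic definitions: polynormed bimodules over two commutative
topological algebras (left modules are bimodules with right algebra the complex numbers),
projective modules, admissible projective resolutions, homological dimension.
-/

namespace HD

/-- The topological algebras used here: complete Hausdorff locally convex complex
topological vector spaces with jointly continuous multiplication. -/
class CAlg (A : Type) [CommRing A] [Algebra ℂ A] [UniformSpace A] : Prop where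
  uag : IsUniformAddGroup A
  csm : ContinuousSMul ℂ A
  lcs : LocallyConvexSpace ℝ A
  t2 : T2Space A
  com : CompleteSpace A
  cmul : Continuous fun p : A × A => p.1 * p.2

/-- Polynormed A-C-bimodules: complete Hausdorff locally convex complex topological vector
spaces with commuting, unital, jointly continuous actions of the algebras A and C.
For C = ℂ these are the (left) A-modules. -/
structure BMod (A C : Type) [CommRing A] [Algebra ℂ A] [TopologicalSpace A]
    [CommRing C] [Algebra ℂ C] [TopologicalSpace C] : Type 1 where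
  V : Type
  [acg : AddCommGroup V]
  [mod : Module ℂ V]
  [unif : UniformSpace V]
  [uag : IsUniformAddGroup V]
  [csm : ContinuousSMul ℂ V]
  [lcs : LocallyConvexSpace ℝ V]
  [t2 : T2Space V]
  [com : CompleteSpace V]
  l : A →ₐ[ℂ] (Module.End ℂ V)
  r : C →ₐ[ℂ] (Module.End ℂ V)
  cl : Continuous fun p : A × V => l p.1 p.2
  cr : Continuous fun p : C × V => r p.1 p.2
  comm : ∀ a c x, l a (r c x) = r c (l a x)

attribute [instance] BMod.acg BMod.mod BMod.unif BMod.uag BMod.csm BMod.lcs BMod.t2 BMod.com

section

variable {A C : Type} [CommRing A] [Algebra ℂ A] [TopologicalSpace A]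
    [CommRing C] [Algebra ℂ C] [TopologicalSpace C]

/-- Module morphisms: continuous linear maps commuting with both actions. -/
structure IsHom {X Y : BMod A C} (f : X.V →L[ℂ] Y.V) : Prop where
  left : ∀ a x, f (X.l a x) = Y.l a (f x)
  right : ∀ c x, f (X.r c x) = Y.r c (f x)

/-- Projective modules: every morphism onto P which is a retraction of topological vector
spaces is a retraction of modules. -/
def Projective (P : BMod A C) : Prop :=
  ∀ (Z : BMod A C) (σ : Z.V →L[ℂ] P.V), IsHom σ →
    (∃ τ : P.V →L[ℂ] Z.V, ∀ x, σ (τ x) = x) →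
    ∃ τ : P.V →L[ℂ] Z.V, IsHom τ ∧ ∀ x, σ (τ x) = x

/-- Projective resolutions: complexes 0 ← X ← P 0 ← P 1 ← ... of modules, all P k projective,
which split as complexes of topological vector spaces. -/
structure ProjRes (X : BMod A C) : Type 1 where
  P : ℕ → BMod A C
  proj : ∀ k, Projective (P k)
  ε : (P 0).V →L[ℂ] X.V
  d : ∀ k, (P (k + 1)).V →L[ℂ] (P k).V
  hε : IsHom ε
  hd : ∀ k, IsHom (d k)
  εd : ∀ x, ε (d 0 x) = 0
  dd : ∀ k x, d k (d (k + 1) x) = 0
  s₀ : X.V →L[ℂ] (P 0).V
  s : ∀ k, (P k).V →L[ℂ] (P (k + 1)).V
  εs : ∀ x, ε (s₀ x) = x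
  sε : ∀ x, s₀ (ε x) + d 0 (s 0 x) = x
  sd : ∀ k x, s k (d k x) + d (k + 1) (s (k + 1) x) = x

/-- The resolution has length at most m: P k = 0 for k > m. -/
def ProjRes.LengthLE {X : BMod A C} (R : ProjRes X) (m : ℕ) : Prop :=
  ∀ k, m < k → Subsingleton (R.P k).V

/-- X has a projective resolution of length at most m. -/
def DimLE (X : BMod A C) (m : ℕ) : Prop := ∃ R : ProjRes X, R.LengthLE m

/-- Homological dimension. -/
noncomputable def dh (X : BMod A C) : ℕ∞ := ⨅ m : {m : ℕ // DimLE X m}, ((m : ℕ) : ℕ∞)

end

end HD
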