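import Pool.Agent.Helper48.HD.U2
import Pool.Agent.Helper48.HD.X4

/-!
Module HD-E1: the upper bound dh_B Y ≤ dh_A Y + c when the forms of degree greater than c vanish.

Proof. vanish: let η be an alternating A-multilinear form of degree q > c with values in Z.
For J : Fin q → Fin m: x_(J l) = Σ_i ξ_i(x_(J l)) x_i (ξx), so by multilinearity
η(x ∘ J) = Σ_I (∏_l ξ_(I l)(x_(J l))) η(x ∘ I); permuting I by σ and averaging over σ
(η(x ∘ I ∘ σ) = sign σ η(x ∘ I)) this is (1/q!) Σ_I det(ξ_(I k)(x_(J l)))_(k,l) η(x ∘ I) = 0.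
Every y in M^q is an A-combination of the x's, so η = 0 by multilinearity again.
(With alternating maps: AlternatingMap over ℤ or MultilinearMap.map_sum.)

dimLE_res: let R be a projective resolution of Y of length at most d; take the data TubeRes with this
R: either redo the proof of exists_tubeRes (U2) for the given R (the proof there works for any R;
copy it), and T = the total complex (X4).  T k is a subsingleton for k > d + c: every component
(q, j) with q + j = k has q > c (forms vanish) or j > d (R.P j is a subsingleton; the values of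
the forms lie in Z j, the base change of R.P j, generated by τ b y with y in R.P j, hence also a
subsingleton).  It may be convenient to prove first that in the construction of U2 Z j is a
subsingleton if R.P j is.
-/

namespace HD

section

variable {A B C : Type} [CommRing A] [Algebra ℂ A] [UniformSpace A] [CAlg A]
    [CommRing B] [Algebra ℂ B] [UniformSpace B] [CAlg B]
    [CommRing C] [Algebra ℂ C] [UniformSpace C] [CAlg C]

private theorem alt_vanish {A M Z : Type} [CommRing A] [AddCommGroup M] [Module A M]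
    [AddCommGroup Z] [Module A Z] [Module ℂ Z] {q m : ℕ} (x : Fin m → M) (ξ : Fin m → M →ₗ[A] A)
    (hx : ∀ y, ∑ i, ξ i y • x i = y)
    (hq : ∀ I J : Fin q → Fin m, Matrix.det (Matrix.of fun k l => ξ (I k) (x (J l))) = 0)
    (g : M [⋀^Fin q]→ₗ[A] Z) (y : Fin q → M) : g y = 0 := by
  have h0 : ∀ y : Fin q → M, g y =
      ∑ I : Fin q → Fin m, (∏ l, ξ (I l) (y l)) • g (fun l => x (I l)) := by
    intro y
    have e : y = fun l => ∑ i, ξ i (y l) • x i := by
      funext l
      rw [hx]
    conv_lhs => rw [e]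
    have e2 := g.toMultilinearMap.map_sum (fun (l : Fin q) (i : Fin m) => ξ i (y l) • x i)
    have e3 : g.toMultilinearMap (fun l => ∑ i, ξ i (y l) • x i) =
      g (fun l => ∑ i, ξ i (y l) • x i) := rfl
    rw [← e3, e2]
    refine Finset.sum_congr rfl fun I _ => ?_
    exact g.toMultilinearMap.map_smul_univ (fun l => ξ (I l) (y l)) (fun l => x (I l))
  have h1 : ∀ J : Fin q → Fin m, g (fun l => x (J l)) = 0 := by
    intro J
    have h2 : ∀ σ : Equiv.Perm (Fin q), g (fun l => x (J l)) =
        ∑ I : Fin q → Fin m, ((Equiv.Perm.sign σ : ℤ) • ∏ l, ξ (I (σ l)) (x (J l))) •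
          g (fun l => x (I l)) := by
      intro σ
      rw [h0 (fun l => x (J l))]
      rw [← (Equiv.arrowCongr σ (Equiv.refl (Fin m))).symm.sum_comp]
      refine Finset.sum_congr rfl fun I _ => ?_
      have e : ∀ l, (Equiv.arrowCongr σ (Equiv.refl (Fin m))).symm I l = I (σ l) := by
        intro l
        simp [Equiv.arrowCongr]
      simp only [e]
      have e2 := g.map_perm (fun l => x (I l)) σ
      have e3 : g ((fun l => x (I l)) ∘ σ) = g (fun l => x (I (σ l))) := rfl
      rw [← e3, e2, smul_comm, smul_assoc]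
      rfl
    have h3 : (Fintype.card (Equiv.Perm (Fin q))) • g (fun l => x (J l)) = 0 := by
      have : ∑ σ : Equiv.Perm (Fin q), g (fun l => x (J l)) =
          (Fintype.card (Equiv.Perm (Fin q))) • g (fun l => x (J l)) := by
        rw [Finset.sum_const, Finset.card_univ]
      rw [← this, Finset.sum_congr rfl fun σ _ => h2 σ, Finset.sum_comm]
      refine Finset.sum_eq_zero fun I _ => ?_
      rw [← Finset.sum_smul]
      have h4 := hq I J
      rw [Matrix.det_apply] at h4
      simp only [Matrix.of_apply] at h4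
      have h5 : ∑ σ : Equiv.Perm (Fin q), (Equiv.Perm.sign σ : ℤ) • ∏ l, ξ (I (σ l)) (x (J l)) = 0 := by
        rw [← h4]
        rfl
      rw [h5, zero_smul]
    rw [← Nat.cast_smul_eq_nsmul ℂ] at h3
    rcases smul_eq_zero.mp h3 with h | h
    · exfalso
      have : Fintype.card (Equiv.Perm (Fin q)) ≠ 0 := Fintype.card_ne_zero
      exact this (by exact_mod_cast h)
    · exact h
  rw [h0 y]
  refine Finset.sum_eq_zero fun I _ => ?_
  rw [h1, smul_zero]

theorem vanish_of_minors (𝕋 : Tube A B) {q : ℕ}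
    (hq : ∀ I J : Fin q → Fin 𝕋.m, Matrix.det (Matrix.of fun k l => 𝕋.ξ (I k) (𝕋.x (J l))) = 0)
    (Z : BMod B C) (η : (alt 𝕋.M q 𝕋.ι Z).V) : η = 0 := by
  let act : Module A Z.V := Module.compHom Z.V (Z.l.toRingHom.comp 𝕋.ι.toRingHom)
  have hact : ∀ (a : A) (z : Z.V), a • z = Z.l (𝕋.ι a) z := fun a z => rfl
  have hη : IsAlt (fun a z => Z.l (𝕋.ι a) z) (alt.ev η) := (η : altSub 𝕋.M q 𝕋.ι Z).2
  let g : 𝕋.M [⋀^Fin q]→ₗ[A] Z.V :=
    { toFun := alt.ev η
      map_update_add' := by
        intro inst y i u v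
        have e : inst = instDecidableEqFin q := Subsingleton.elim _ _
        subst e
        exact hη.add y i u v
      map_update_smul' := by
        intro inst y i a u
        have e : inst = instDecidableEqFin q := Subsingleton.elim _ _
        subst e
        exact hη.smul y i a u
      map_eq_zero_of_eq' := fun y i j h hij => hη.alt y i j h hij }
  have h : ∀ y, alt.ev η y = 0 := fun y =>
    alt_vanish 𝕋.x 𝕋.ξ 𝕋.ξx hq g y
  apply Subtype.ext
  funext y
  exact h y

private theorem exists_tubeRes_of (𝕋 : Tube A B) (Y : BMod A C) (R : ProjRes Y) :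
    ∃ U : TubeRes 𝕋 Y, ∀ j, Subsingleton (R.P j).V → Subsingleton (U.Z j).V := by
  choose Z τ hτ using fun j => exists_tens (algMod (AlgHom.id ℂ B) continuous_id 𝕋.ι 𝕋.hι) (R.P j)
  choose O hi hp hD hJ using fun j => exists_ops 𝕋 (R.P j) (hτ j)
  choose δ hδ using fun j => (hτ (j + 1)).map (hτ j)
    (ContinuousLinearMap.id ℂ (algMod (AlgHom.id ℂ B) continuous_id 𝕋.ι 𝕋.hι).V)
    (fun _ _ => rfl) (R.d j) (fun a n => (R.hd j).left a n)
  have hδ' : ∀ j m n, δ j (τ (j + 1) m n) = τ j m (R.d j n) := fun j m n => hδ j m n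
  refine ⟨{
    R := R
    Z := Z
    projZ := fun j => (hτ j).projective 𝕋.hι (R.proj j)
    O := O
    δ := δ
    hδ := fun j => ⟨fun b z => ?_, fun c z => ?_⟩
    δδ := fun j z => ?_
    pδ := fun j z => ?_
    iδ := fun j y => ?_
    Dδ := fun j x z => ?_
    Jδ := fun j q z => ?_ }, ?_⟩
  · have key : (δ j).comp ((Z (j + 1)).lL b) = ((Z j).lL b).comp (δ j) := by
      refine (hτ (j + 1)).hom_ext _ _ fun m n => ?_
      show δ j ((Z (j + 1)).l b (τ (j + 1) m n)) = (Z j).l b (δ j (τ (j + 1) m n))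
      rw [(hτ (j + 1)).left, hδ', hδ', (hτ j).left]
    exact DFunLike.congr_fun key z
  · have key : (δ j).comp ((Z (j + 1)).rL c) = ((Z j).rL c).comp (δ j) := by
      refine (hτ (j + 1)).hom_ext _ _ fun m n => ?_
      show δ j ((Z (j + 1)).r c (τ (j + 1) m n)) = (Z j).r c (δ j (τ (j + 1) m n))
      rw [(hτ (j + 1)).right, hδ', hδ', (hτ j).right, (R.hd j).right]
    exact DFunLike.congr_fun key z
  · have key : (δ j).comp (δ (j + 1)) = 0 := by
      refine (hτ (j + 1 + 1)).hom_ext _ _ fun m n => ?_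
      show δ j (δ (j + 1) (τ (j + 1 + 1) m n)) = 0
      rw [hδ', hδ', R.dd, map_zero]
    exact DFunLike.congr_fun key z
  · have key : ((O j).p).comp (δ j) = (R.d j).comp (O (j + 1)).p := by
      refine (hτ (j + 1)).hom_ext _ _ fun m n => ?_
      show (O j).p (δ j (τ (j + 1) m n)) = R.d j ((O (j + 1)).p (τ (j + 1) m n))
      rw [hδ']
      exact (hp j m _).trans (((R.hd j).left _ _).symm.trans (congrArg (R.d j) (hp (j + 1) m n).symm))
    exact DFunLike.congr_fun key z
  · rw [hi, hi]
    exact hδ' j (1 : B) y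
  · have key : (δ j).comp ((O (j + 1)).D x) = ((O j).D x).comp (δ j) := by
      refine (hτ (j + 1)).hom_ext _ _ fun m n => ?_
      show δ j ((O (j + 1)).D x (τ (j + 1) m n)) = (O j).D x (δ j (τ (j + 1) m n))
      rw [hδ']
      exact (congrArg (δ j) (hD (j + 1) x m n)).trans ((hδ' j (𝕋.D x m) n).trans
        (hD j x m (R.d j n)).symm)
    exact DFunLike.congr_fun key z
  · have key : (δ j).comp ((O (j + 1)).J q) = ((O j).J q).comp (δ j) := by
      refine (hτ (j + 1)).hom_ext _ _ fun m n => ?_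
      show δ j ((O (j + 1)).J q (τ (j + 1) m n)) = (O j).J q (δ j (τ (j + 1) m n))
      rw [hδ']
      exact (congrArg (δ j) (hJ (j + 1) q m n)).trans ((hδ' j (𝕋.J q m) n).trans
        (hJ j q m (R.d j n)).symm)
    exact DFunLike.congr_fun key z
  · intro j hj
    show Subsingleton (Z j).V
    have key : ContinuousLinearMap.id ℂ (Z j).V = 0 := by
      refine (hτ j).hom_ext _ _ fun m n => ?_
      have e : n = 0 := Subsingleton.elim _ _
      rw [e, map_zero, map_zero, map_zero]
    refine ⟨fun a b => ?_⟩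
    have ha : a = 0 := DFunLike.congr_fun key a
    have hb : b = 0 := DFunLike.congr_fun key b
    rw [ha, hb]

theorem dimLE_res (𝕋 : Tube A B)
    (hq : ∀ q, 𝕋.c < q → ∀ I J : Fin q → Fin 𝕋.m,
      Matrix.det (Matrix.of fun k l => 𝕋.ξ (I k) (𝕋.x (J l))) = 0)
    (Y : BMod A C) (d : ℕ) (h : DimLE Y d) : DimLE (Y.res 𝕋.ρ 𝕋.hρ) (d + 𝕋.c) := by
  obtain ⟨R, hR⟩ := h
  obtain ⟨U, hU⟩ := exists_tubeRes_of 𝕋 Y R
  obtain ⟨T, hT, _⟩ := U.exists_projRes
  refine ⟨T, fun k hk => ?_⟩
  rw [hT]
  refine ⟨fun s t => U.T_ext fun q j e => ?_⟩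
  rcases Nat.lt_or_ge 𝕋.c q with hc | hc
  · rw [vanish_of_minors 𝕋 (hq q hc) (U.Z j) (U.comp k q j e s),
      vanish_of_minors 𝕋 (hq q hc) (U.Z j) (U.comp k q j e t)]
  · have h1 : Subsingleton (U.Z j).V := hU j (hR j (by omega))
    apply Subtype.ext
    funext y
    exact Subsingleton.elim (α := (U.Z j).V) _ _

end

end HD
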