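import Mathlib

/-!
Module HD-F0: locally uniform limits of holomorphic functions of several variables.

Proof. Fix x₀ in U and ρ > 0 with the closed ball of radius 2ρ about x₀ in U (E is proper, so
locally uniform convergence is uniform on this compact ball).  Cauchy estimate: a function G holomorphic
near the closed ball, |G| ≤ M on it, satisfies ‖fderiv ℂ G x‖ ≤ M / ρ for x in the ball of radius ρ
(apply Complex.norm_deriv_le_of_forall_mem_sphere_norm_le to the functions τ ↦ G (x + τ • v) on the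
disc of radius ρ / ‖v‖).  Applied to differences F i - F j: the derivatives are uniformly Cauchy on
the ball of radius ρ, so converge uniformly to some g', and hasFDerivAt_of_tendstoUniformlyOnFilter /
hasFDerivAt_of_tendstoUniformlyOn gives the derivative of the limit.
(Alternatively: uniformCauchySeqOn for the filter version.)
-/

open scoped Manifold ContDiff Topology

namespace HD

private theorem F0_cauchy {E : Type*} [NormedAddCommGroup E] [NormedSpace ℂ E]
    {U : Set E} (hU : IsOpen U) {G : E → ℂ} (hG : DifferentiableOn ℂ G U) {x₀ x : E} {ρ M : ℝ}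
    (hρ : 0 < ρ) (hsub : Metric.closedBall x₀ (2 * ρ) ⊆ U)
    (hM : ∀ y ∈ Metric.closedBall x₀ (2 * ρ), ‖G y‖ ≤ M) (hM0 : 0 ≤ M)
    (hx : x ∈ Metric.ball x₀ ρ) :
    ‖fderiv ℂ G x‖ ≤ M / ρ := by
  apply ContinuousLinearMap.opNorm_le_bound _ (by positivity)
  intro v
  rcases eq_or_ne v 0 with rfl | hv
  · simp
  have hv0 : 0 < ‖v‖ := norm_pos_iff.2 hv
  have hr : 0 < ρ / ‖v‖ := by positivity
  have hmem : ∀ τ : ℂ, τ ∈ Metric.closedBall (0 : ℂ) (ρ / ‖v‖) →
      x + τ • v ∈ Metric.closedBall x₀ (2 * ρ) := by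
    intro τ hτ
    rw [mem_closedBall_zero_iff, le_div_iff₀ hv0] at hτ
    rw [Metric.mem_closedBall]
    rw [Metric.mem_ball] at hx
    have h1 : dist (x + τ • v) x₀ ≤ dist (x + τ • v) x + dist x x₀ := dist_triangle _ _ _
    have h2 : dist (x + τ • v) x = ‖τ‖ * ‖v‖ := by
      rw [dist_eq_norm, add_sub_cancel_left, norm_smul]
    linarith
  have hd : ∀ τ : ℂ, τ ∈ Metric.closedBall (0 : ℂ) (ρ / ‖v‖) →
      HasFDerivAt G (fderiv ℂ G (x + τ • v)) (x + τ • v) := by
    intro τ hτ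
    exact (hG.differentiableAt (hU.mem_nhds (hsub (hmem τ hτ)))).hasFDerivAt
  have hline : ∀ τ : ℂ, HasDerivAt (fun τ : ℂ => x + τ • v) v τ := by
    intro τ
    have h1 := ((hasDerivAt_id τ).smul_const v).const_add x
    simpa using h1
  have hderiv : ∀ τ : ℂ, τ ∈ Metric.closedBall (0 : ℂ) (ρ / ‖v‖) →
      HasDerivAt (fun τ : ℂ => G (x + τ • v)) (fderiv ℂ G (x + τ • v) v) τ := by
    intro τ hτ
    exact (hd τ hτ).comp_hasDerivAt τ (hline τ)
  have hdc : DiffContOnCl ℂ (fun τ : ℂ => G (x + τ • v)) (Metric.ball (0 : ℂ) (ρ / ‖v‖)) := by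
    apply DifferentiableOn.diffContOnCl
    rw [closure_ball _ hr.ne']
    intro τ hτ
    exact (hderiv τ hτ).differentiableAt.differentiableWithinAt
  have h1 := Complex.norm_deriv_le_of_forall_mem_sphere_norm_le (C := M) hr hdc (by
    intro τ hτ
    exact hM _ (hmem τ (Metric.sphere_subset_closedBall hτ)))
  have h2 := (hderiv 0 (Metric.mem_closedBall_self hr.le)).deriv
  rw [h2, zero_smul, add_zero] at h1
  refine h1.trans (le_of_eq ?_)
  field_simp

theorem hol_limit {E : Type*} [NormedAddCommGroup E] [NormedSpace ℂ E] [FiniteDimensional ℂ E]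
    {U : Set E} (hU : IsOpen U) {κ : Type*} {φ : Filter κ} [φ.NeBot] {F : κ → E → ℂ} {f : E → ℂ}
    (hF : ∀ᶠ i in φ, DifferentiableOn ℂ (F i) U) (h : TendstoLocallyUniformlyOn F f φ U) :
    DifferentiableOn ℂ f U := by
  haveI : ProperSpace E := FiniteDimensional.proper ℂ E
  intro x₀ hx₀
  obtain ⟨r, hr, hball⟩ := Metric.isOpen_iff.1 hU x₀ hx₀
  set ρ := r / 4 with hρdef
  have hρ : 0 < ρ := by positivity
  have hsub : Metric.closedBall x₀ (2 * ρ) ⊆ U :=
    (Metric.closedBall_subset_ball (by linarith)).trans hball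
  have hun : TendstoUniformlyOn F f φ (Metric.closedBall x₀ (2 * ρ)) :=
    (tendstoLocallyUniformlyOn_iff_forall_isCompact hU).1 h _ hsub (isCompact_closedBall _ _)
  have hc := hun.uniformCauchySeqOn
  have hc' : UniformCauchySeqOn (fun i x => fderiv ℂ (F i) x) φ (Metric.ball x₀ ρ) := by
    intro u hu
    obtain ⟨ε, hε, hεu⟩ := Metric.mem_uniformity_dist.1 hu
    have h1 := hc _ (Metric.dist_mem_uniformity (show 0 < ε * ρ / 2 by positivity))
    filter_upwards [h1, hF.prod_inl φ, hF.prod_inr φ] with m hm hm1 hm2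
    intro x hx
    apply hεu
    have hxU : x ∈ U := hsub (Metric.ball_subset_closedBall (Metric.ball_subset_ball
      (by linarith) hx))
    have hb := F0_cauchy hU (hm1.sub hm2) (M := ε * ρ / 2) hρ hsub (by
      intro y hy
      have h2 := hm y hy
      have h3 : dist (F m.1 y) (F m.2 y) < ε * ρ / 2 := h2
      rw [dist_eq_norm] at h3
      exact h3.le) (by positivity) hx
    have h4 : fderiv ℂ (F m.1 - F m.2) x = fderiv ℂ (F m.1) x - fderiv ℂ (F m.2) x :=
      fderiv_sub (hm1.differentiableAt (hU.mem_nhds hxU)) (hm2.differentiableAt (hU.mem_nhds hxU))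
    rw [h4] at hb
    rw [dist_eq_norm]
    refine lt_of_le_of_lt hb ?_
    rw [div_lt_iff₀ hρ]
    nlinarith
  have hex : ∀ x, ∃ L : E →L[ℂ] ℂ, x ∈ Metric.ball x₀ ρ →
      Filter.Tendsto (fun i => fderiv ℂ (F i) x) φ (𝓝 L) := by
    intro x
    by_cases hx : x ∈ Metric.ball x₀ ρ
    · obtain ⟨L, hL⟩ := CompleteSpace.complete (hc'.cauchy_map hx)
      exact ⟨L, fun _ => hL⟩
    · exact ⟨0, fun h => absurd h hx⟩
  choose g' hg' using hex
  have hun' : TendstoUniformlyOn (fun i x => fderiv ℂ (F i) x) g' φ (Metric.ball x₀ ρ) :=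
    hc'.tendstoUniformlyOn_of_tendsto (fun x hx => hg' x hx)
  have h1 : TendstoUniformlyOnFilter (fun i x => fderiv ℂ (F i) x) g' φ (𝓝 x₀) :=
    hun'.tendstoUniformlyOnFilter.mono_right
      (Filter.le_principal_iff.2 (Metric.ball_mem_nhds x₀ hρ))
  have h2 : ∀ᶠ n : κ × E in φ ×ˢ 𝓝 x₀, HasFDerivAt (F n.1) (fderiv ℂ (F n.1) n.2) n.2 := by
    have hUx : ∀ᶠ y in 𝓝 x₀, y ∈ U := hU.mem_nhds hx₀
    filter_upwards [hF.prod_inl (𝓝 x₀), hUx.prod_inr φ] with n hn1 hn2
    exact (hn1.differentiableAt (hU.mem_nhds hn2)).hasFDerivAt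
  have h3 : ∀ᶠ y in 𝓝 x₀, Filter.Tendsto (fun n => F n y) φ (𝓝 (f y)) := by
    have hUx : ∀ᶠ y in 𝓝 x₀, y ∈ U := hU.mem_nhds hx₀
    filter_upwards [hUx] with y hy
    exact h.tendsto_at hy
  exact (hasFDerivAt_of_tendstoUniformlyOnFilter h1 h2 h3).differentiableAt.differentiableWithinAt

end HD
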