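import Pool.Agent.Helper48.HD.F0

/-!
Module HD-F1: derivatives of holomorphic functions of several variables are holomorphic.

Proof. Fix x₀ in U and δ > 0 such that x + τ • v is in U for ‖x - x₀‖ ≤ δ, |τ| ≤ δ (v fixed).  On the
open ball B about x₀ of radius δ the difference quotients F_k x = (f (x + τ_k • v) - f x) / τ_k,
τ_k = δ / (k + 2), are holomorphic and converge uniformly to fderiv ℂ f x v: for fixed x the function
φ(τ) = f (x + τ • v) is holomorphic for |τ| < δ (slightly larger radius if needed) and bounded by M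
on the compact set, φ'(0) = fderiv ℂ f x v, and |(φ(τ) - φ(0))/τ - φ'(0)| ≤ C M |τ| / δ²
(Cauchy estimates for the second derivative, or Taylor series of φ, or the mean value inequality for
φ' with a Cauchy estimate of φ'').  Then hol_limit on B.
-/

open scoped Manifold ContDiff Topology

namespace HD

private theorem F1_one {φ : ℂ → ℂ} {s M : ℝ} (hs : 0 < s)
    (hd : DifferentiableOn ℂ φ (Metric.ball 0 s)) (hb : ∀ τ ∈ Metric.ball (0 : ℂ) s, ‖φ τ‖ ≤ M)
    {τ : ℂ} (hτ : τ ∈ Metric.ball (0 : ℂ) s) (hτ0 : τ ≠ 0) :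
    dist (deriv φ 0) ((φ τ - φ 0) / τ) ≤ 2 * (2 * M / s) / s * ‖τ‖ := by
  have h0 : (0 : ℂ) ∈ Metric.ball (0 : ℂ) s := Metric.mem_ball_self hs
  have hmaps : Set.MapsTo φ (Metric.ball 0 s) (Metric.closedBall (φ 0) (2 * M)) := by
    intro z hz
    rw [Metric.mem_closedBall, dist_eq_norm]
    have h1 := norm_sub_le (φ z) (φ 0)
    have h2 := hb z hz
    have h3 := hb 0 h0
    linarith
  have hdd : DifferentiableOn ℂ (dslope φ 0) (Metric.ball 0 s) :=
    (Complex.differentiableOn_dslope (Metric.ball_mem_nhds (0 : ℂ) hs)).2 hd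
  have hmaps2 : Set.MapsTo (dslope φ 0) (Metric.ball 0 s)
      (Metric.closedBall (dslope φ 0 0) (2 * (2 * M / s))) := by
    intro z hz
    rw [Metric.mem_closedBall, dist_eq_norm]
    have h1 := norm_sub_le (dslope φ 0 z) (dslope φ 0 0)
    have h2 := Complex.norm_dslope_le_div_of_mapsTo_ball hd hmaps hz
    have h3 := Complex.norm_dslope_le_div_of_mapsTo_ball hd hmaps h0
    linarith
  have h4 := Complex.dist_le_div_mul_dist_of_mapsTo_ball hdd hmaps2 hτ
  rw [dslope_same, dslope_of_ne _ hτ0, slope_def_module, sub_zero, dist_zero_right] at h4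
  rw [dist_comm, div_eq_inv_mul]
  exact h4

theorem hol_fderiv {E : Type*} [NormedAddCommGroup E] [NormedSpace ℂ E] [FiniteDimensional ℂ E]
    {U : Set E} (hU : IsOpen U) {f : E → ℂ} (hf : DifferentiableOn ℂ f U) (v : E) :
    DifferentiableOn ℂ (fun x => fderiv ℂ f x v) U := by
  have : ProperSpace E := FiniteDimensional.proper ℂ E
  intro x₀ hx₀
  obtain ⟨r₀, hr₀, hball⟩ := Metric.isOpen_iff.1 hU x₀ hx₀
  set r := r₀ / 4 with hrdef
  have hr : 0 < r := by positivity
  have hsub : Metric.closedBall x₀ (2 * r) ⊆ U :=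
    (Metric.closedBall_subset_ball (by linarith)).trans hball
  -- a bound
  obtain ⟨M, hM⟩ : ∃ M : ℝ, ∀ y ∈ Metric.closedBall x₀ (2 * r), ‖f y‖ ≤ M :=
    (isCompact_closedBall x₀ (2 * r)).exists_bound_of_continuousOn
      (hf.continuousOn.mono hsub)
  have hM0 : 0 ≤ M := (norm_nonneg _).trans (hM x₀ (Metric.mem_closedBall_self (by positivity)))
  set s := r / (‖v‖ + 1) with hsdef
  have hv1 : 0 < ‖v‖ + 1 := by positivity
  have hs : 0 < s := by positivity
  have hmem : ∀ x ∈ Metric.ball x₀ r, ∀ τ ∈ Metric.ball (0 : ℂ) s,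
      x + τ • v ∈ Metric.closedBall x₀ (2 * r) := by
    intro x hx τ hτ
    rw [mem_ball_zero_iff, hsdef, lt_div_iff₀ hv1] at hτ
    rw [Metric.mem_ball] at hx
    rw [Metric.mem_closedBall]
    have h1 : dist (x + τ • v) x₀ ≤ dist (x + τ • v) x + dist x x₀ := dist_triangle _ _ _
    have h2 : dist (x + τ • v) x = ‖τ‖ * ‖v‖ := by
      rw [dist_eq_norm, add_sub_cancel_left, norm_smul]
    have h3 : ‖τ‖ * ‖v‖ ≤ ‖τ‖ * (‖v‖ + 1) :=
      mul_le_mul_of_nonneg_left (by linarith) (norm_nonneg _)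
    linarith
  have hline : ∀ x : E, ∀ τ : ℂ, HasDerivAt (fun τ : ℂ => x + τ • v) v τ := by
    intro x τ
    have h1 := ((hasDerivAt_id τ).smul_const v).const_add x
    simpa using h1
  have hderiv : ∀ x ∈ Metric.ball x₀ r, ∀ τ ∈ Metric.ball (0 : ℂ) s,
      HasDerivAt (fun τ : ℂ => f (x + τ • v)) (fderiv ℂ f (x + τ • v) v) τ := by
    intro x hx τ hτ
    exact ((hf.differentiableAt (hU.mem_nhds (hsub (hmem x hx τ hτ)))).hasFDerivAt).comp_hasDerivAt
      τ (hline x τ)
  have h0s : (0 : ℂ) ∈ Metric.ball (0 : ℂ) s := Metric.mem_ball_self hs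
  -- the difference quotients
  let F : ℂ → E → ℂ := fun τ x => (f (x + τ • v) - f x) / τ
  have hev : ∀ᶠ τ : ℂ in 𝓝[≠] 0, τ ∈ Metric.ball (0 : ℂ) s ∧ τ ≠ 0 := by
    filter_upwards [self_mem_nhdsWithin,
      mem_nhdsWithin_of_mem_nhds (Metric.ball_mem_nhds (0 : ℂ) hs)] with τ h1 h2
    exact ⟨h2, h1⟩
  have hF : ∀ᶠ τ in 𝓝[≠] (0 : ℂ), DifferentiableOn ℂ (F τ) (Metric.ball x₀ r) := by
    filter_upwards [hev] with τ hτ
    intro x hx
    have h1 : DifferentiableAt ℂ f (x + τ • v) :=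
      hf.differentiableAt (hU.mem_nhds (hsub (hmem x hx τ hτ.1)))
    have h2 : DifferentiableAt ℂ f x := by
      have h3 := hmem x hx 0 h0s
      rw [zero_smul, add_zero] at h3
      exact hf.differentiableAt (hU.mem_nhds (hsub h3))
    have h4 : DifferentiableAt ℂ (fun x : E => f (x + τ • v)) x := by
      have h5 : DifferentiableAt ℂ (fun x : E => x + τ • v) x :=
        differentiableAt_id.add_const _
      exact DifferentiableAt.comp x h1 h5
    have h6 : DifferentiableAt ℂ (fun x : E => (f (x + τ • v) - f x) / τ) x := by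
      simp only [div_eq_mul_inv]
      exact (h4.sub h2).mul_const τ⁻¹
    exact h6.differentiableWithinAt
  have hunif : TendstoUniformlyOn F (fun x => fderiv ℂ f x v) (𝓝[≠] (0 : ℂ))
      (Metric.ball x₀ r) := by
    rw [Metric.tendstoUniformlyOn_iff]
    intro ε hε
    set C : ℝ := 2 * (2 * M / s) / s with hC
    have hC0 : 0 ≤ C := by positivity
    have hδ : 0 < ε / (C + 1) := by positivity
    filter_upwards [hev, mem_nhdsWithin_of_mem_nhds (Metric.ball_mem_nhds (0 : ℂ) hδ)] with τ hτ hτ2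
    intro x hx
    have hd : DifferentiableOn ℂ (fun τ : ℂ => f (x + τ • v)) (Metric.ball 0 s) := by
      intro τ hτ
      exact (hderiv x hx τ hτ).differentiableAt.differentiableWithinAt
    have h1 := F1_one hs hd (fun τ hτ => hM _ (hmem x hx τ hτ)) hτ.1 hτ.2
    have h2 := (hderiv x hx 0 h0s).deriv
    rw [h2, zero_smul, add_zero] at h1
    rw [mem_ball_zero_iff, lt_div_iff₀ (by positivity)] at hτ2
    have h3 : C * ‖τ‖ ≤ ‖τ‖ * (C + 1) := by
      have := norm_nonneg τ
      nlinarith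
    exact lt_of_le_of_lt (h1.trans h3) hτ2
  have hlim := hol_limit Metric.isOpen_ball hF hunif.tendstoLocallyUniformlyOn
  exact (hlim.differentiableAt (Metric.ball_mem_nhds x₀ hr)).differentiableWithinAt

end HD
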