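import Pool.Agent.Helper48.HD.F0

/-!
Module HD-F2: integrals of holomorphic functions depending continuously on a parameter.

Proof. By hol_limit: the Riemann sums F_k x = Σ_(j<k) (1/k) H (j/k) x are holomorphic on U and
converge to the integral locally uniformly: on a compact subset K of U the function H is uniformly
continuous on [0,1] × K.  (Or: differentiation under the integral sign with the Cauchy estimate of
the derivative.)
-/

open scoped Manifold ContDiff Topology

namespace HD

theorem hol_integral {E : Type*} [NormedAddCommGroup E] [NormedSpace ℂ E] [FiniteDimensional ℂ E]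
    {U : Set E} (hU : IsOpen U) {H : ℝ → E → ℂ}
    (hc : ContinuousOn (fun p : ℝ × E => H p.1 p.2) (Set.Icc (0 : ℝ) 1 ×ˢ U))
    (hH : ∀ t ∈ Set.Icc (0 : ℝ) 1, DifferentiableOn ℂ (H t) U) :
    DifferentiableOn ℂ (fun x => ∫ t in (0 : ℝ)..1, H t x) U := by
  have : ProperSpace E := FiniteDimensional.proper ℂ E
  have hmem : ∀ {n j : ℕ}, j ≤ n → ((j : ℝ) / n) ∈ Set.Icc (0 : ℝ) 1 := by
    intro n j hj
    refine ⟨by positivity, ?_⟩
    exact div_le_one_of_le₀ (by exact_mod_cast hj) (by positivity)
  refine hol_limit (φ := Filter.atTop) hU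
    (F := fun (n : ℕ) x => ∑ j ∈ Finset.range n, ((1 : ℝ) / n : ℝ) • H ((j : ℝ) / n) x) ?_ ?_
  · refine Filter.Eventually.of_forall fun n => ?_
    refine DifferentiableOn.fun_sum fun j hj => ?_
    exact (hH _ (hmem (Finset.mem_range.1 hj).le)).const_smul ((1 : ℝ) / n : ℝ)
  · rw [tendstoLocallyUniformlyOn_iff_forall_isCompact hU]
    intro K hKU hK
    rw [Metric.tendstoUniformlyOn_iff]
    intro ε hε
    have huc : UniformContinuousOn (fun p : ℝ × E => H p.1 p.2) (Set.Icc (0 : ℝ) 1 ×ˢ K) :=
      (isCompact_Icc.prod hK).uniformContinuousOn_of_continuous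
        (hc.mono (Set.prod_mono_right hKU))
    rw [Metric.uniformContinuousOn_iff] at huc
    obtain ⟨δ, hδ, hd⟩ := huc (ε / 2) (by positivity)
    obtain ⟨N, hN⟩ := exists_nat_gt (1 / δ)
    filter_upwards [Filter.eventually_ge_atTop (max N 1)] with n hn x hx
    have hn1 : 1 ≤ n := le_trans (le_max_right _ _) hn
    have hnN : N ≤ n := le_trans (le_max_left _ _) hn
    have hn0 : (0 : ℝ) < n := by exact_mod_cast hn1
    have hnδ : 1 / (n : ℝ) < δ := by
      rw [div_lt_iff₀ hn0, mul_comm, ← div_lt_iff₀ hδ]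
      exact lt_of_lt_of_le hN (by exact_mod_cast hnN)
    have hcx : ContinuousOn (fun t => H t x) (Set.Icc (0 : ℝ) 1) := by
      have : ContinuousOn (fun t : ℝ => ((t, x) : ℝ × E)) (Set.Icc (0 : ℝ) 1) := by fun_prop
      exact hc.comp this fun t ht => ⟨ht, hKU hx⟩
    have hint : ∀ k < n, IntervalIntegrable (fun t => H t x) MeasureTheory.volume
        ((fun k : ℕ => (k : ℝ) / n) k) ((fun k : ℕ => (k : ℝ) / n) (k + 1)) := by
      intro k hk
      refine (hcx.mono ?_).intervalIntegrable
      exact Set.uIcc_subset_Icc (hmem hk.le) (hmem hk)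
    have hsum := intervalIntegral.sum_integral_adjacent_intervals hint
    have h0 : (((0 : ℕ) : ℝ) / n) = 0 := by simp
    have h1 : (((n : ℕ) : ℝ) / n) = 1 := div_self hn0.ne'
    simp only [h0, h1] at hsum
    have hw : ∀ k : ℕ, (((k + 1 : ℕ) : ℝ) / n) - (k : ℝ) / n = 1 / n := by
      intro k
      push_cast
      ring
    rw [dist_eq_norm, ← hsum, ← Finset.sum_sub_distrib]
    have hterm : ∀ k ∈ Finset.range n,
        ‖(∫ t in ((k : ℝ) / n)..(((k + 1 : ℕ) : ℝ) / n), H t x) -
          ((1 : ℝ) / n : ℝ) • H ((k : ℝ) / n) x‖ ≤ (ε / 2) * (1 / n) := by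
      intro k hk
      have hk' := Finset.mem_range.1 hk
      have hconst : ((1 : ℝ) / n : ℝ) • H ((k : ℝ) / n) x =
          ∫ _t in ((k : ℝ) / n)..(((k + 1 : ℕ) : ℝ) / n), H ((k : ℝ) / n) x := by
        rw [intervalIntegral.integral_const, hw]
      rw [hconst, ← intervalIntegral.integral_sub (hint k hk') (intervalIntegrable_const)]
      have hb := intervalIntegral.norm_integral_le_of_norm_le_const
        (a := (k : ℝ) / n) (b := ((k + 1 : ℕ) : ℝ) / n) (C := ε / 2)
        (f := fun t => H t x - H ((k : ℝ) / n) x) ?_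
      · rwa [hw, abs_of_pos (by positivity)] at hb
      · intro t ht
        have hle : (k : ℝ) / n ≤ ((k + 1 : ℕ) : ℝ) / n := by
          have := hw k
          have h2 : (0 : ℝ) < 1 / n := by positivity
          linarith
        rw [Set.uIoc_of_le hle] at ht
        have ht01 : t ∈ Set.Icc (0 : ℝ) 1 :=
          ⟨le_trans (hmem hk'.le).1 ht.1.le, le_trans ht.2 (hmem hk').2⟩
        have hdist : dist ((t, x) : ℝ × E) ((k : ℝ) / n, x) < δ := by
          rw [Prod.dist_eq, dist_self, max_eq_left dist_nonneg, Real.dist_eq, abs_of_pos (by linarith [ht.1])]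
          have := hw k
          linarith [ht.2]
        have := hd (t, x) ⟨ht01, hx⟩ ((k : ℝ) / n, x) ⟨hmem hk'.le, hx⟩ hdist
        rw [dist_eq_norm] at this
        exact this.le
    calc ‖∑ k ∈ Finset.range n, ((∫ t in ((k : ℝ) / n)..(((k + 1 : ℕ) : ℝ) / n), H t x) -
          ((1 : ℝ) / n : ℝ) • H ((k : ℝ) / n) x)‖
        ≤ ∑ k ∈ Finset.range n, (ε / 2) * (1 / n) := norm_sum_le_of_le _ hterm
      _ = ε / 2 := by
          rw [Finset.sum_const, Finset.card_range, nsmul_eq_mul]
          field_simp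
      _ < ε := by linarith

end HD
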