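import Pool.Agent.Helper48.HD.VDefs
import Pool.Agent.Helper48.HD.H1
import Pool.Agent.Helper48.HD.B2

/-!
Module HD-V2: from resolutions in the sense of Helper39/ST to DimLE of the unital part.

Proof. Let P, aug, d, s', s be the resolution of X.  The modules corner (P i) are projective:
given σ : Z → corner (P i) in BMod A ℂ with a continuous linear right inverse, the left module
Z × {x in P i | 1 x = 0} (the second factor with its zero action; it is a closed submodule) maps
onto P i ≅ corner (P i) × {1 x = 0} by σ × id, has a continuous linear right inverse, so a right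
inverse which is a morphism; restrict it to the unital part.  (Z as LeftMod: V = Z.V, act = Z.l.)
aug, d map unital parts to unital parts; contraction: x ↦ 1 · (s x) restricted to the unital part:
it satisfies the same identities (1 · commutes with d and aug).
-/

open scoped Manifold ContDiff Topology

namespace HD

open Pool.Agent.Helper39.ST

section

variable {A : Type} [CommRing A] [Algebra ℂ A] [TopologicalSpace A]

/-- The action of a fixed element as a continuous linear map. -/
private def actL (X : LeftMod A) (a : A) : X.V →L[ℂ] X.V :=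
  { toLinearMap := X.act a
    cont := X.continuous_act.comp (continuous_const.prodMk continuous_id) }

@[simp] private theorem actL_apply (X : LeftMod A) (a : A) (x : X.V) :
    actL X a x = X.act a x := rfl

/-- A module in the sense of this project as a left module. -/
private def toL (P : BMod A ℂ) : LeftMod A :=
  { V := P.V
    act := P.l.toLinearMap
    act_mul := fun a b v => by
      show P.l (a * b) v = P.l a (P.l b v)
      rw [map_mul]
      rfl
    continuous_act := P.cl }

private theorem toL_act (P : BMod A ℂ) (a : A) (x : P.V) : (toL P).act a x = P.l a x := rfl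

private theorem toL_poly (P : BMod A ℂ) : (toL P).IsPolynormed := by
  refine ⟨P.t2, P.lcs, ?_⟩
  have e : IsTopologicalAddGroup.rightUniformSpace P.V = P.unif :=
    IsUniformAddGroup.rightUniformSpace_eq
  show @CompleteSpace P.V (IsTopologicalAddGroup.rightUniformSpace P.V)
  rw [e]
  exact P.com

/-- The inclusion of the unital part. -/
private noncomputable def incl (X : LeftMod A) (hX : X.IsPolynormed) : (corner X hX).V →L[ℂ] X.V :=
  (cornerSub X).subtypeL

private theorem incl_l (X : LeftMod A) (hX : X.IsPolynormed) (a : A) (x : (corner X hX).V) :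
    incl X hX ((corner X hX).l a x) = X.act a (incl X hX x) := rfl

private theorem incl_one (X : LeftMod A) (hX : X.IsPolynormed) (x : (corner X hX).V) :
    X.act 1 (incl X hX x) = incl X hX x := mem_cornerSub.mp x.2

/-- The projection to the unital part. -/
private noncomputable def proj (X : LeftMod A) (hX : X.IsPolynormed) : X.V →L[ℂ] (corner X hX).V :=
  (actL X 1).codRestrict (cornerSub X) (fun x => by
    rw [mem_cornerSub]
    show X.act 1 (X.act 1 x) = X.act 1 x
    rw [← X.act_mul, one_mul])

private theorem incl_proj (X : LeftMod A) (hX : X.IsPolynormed) (x : X.V) :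
    incl X hX (proj X hX x) = X.act 1 x := rfl

private theorem incl_inj (X : LeftMod A) (hX : X.IsPolynormed) {x y : (corner X hX).V}
    (h : incl X hX x = incl X hX y) : x = y := Subtype.ext h

/-- A module plus the part killed by the unit. -/
private noncomputable def addNul (P : BMod A ℂ) (X : LeftMod A) : LeftMod A :=
  { V := P.V × LinearMap.ker (X.act 1)
    act := LinearMap.mk₂ ℂ (fun a v => (P.l a v.1, 0))
      (by intro a b v; ext <;> simp)
      (by intro c a v; ext <;> simp)
      (by intro a v w; ext <;> simp)
      (by intro c a v; ext <;> simp)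
    act_mul := fun a b v => by
      simp [LinearMap.mk₂_apply]
    continuous_act := by
      simp only [LinearMap.mk₂_apply]
      exact (P.cl.comp (continuous_fst.prodMk (continuous_fst.comp continuous_snd))).prodMk
        continuous_const }

private theorem addNul_act (P : BMod A ℂ) (X : LeftMod A) (a : A) (x : (addNul P X).V) :
    (addNul P X).act a x = (P.l a x.1, 0) := rfl

private theorem isClosed_nul (X : LeftMod A) (hX : X.IsPolynormed) :
    IsClosed (LinearMap.ker (X.act 1) : Set X.V) := by
  haveI := hX.1
  exact (actL X 1).isClosed_ker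

private theorem addNul_poly (P : BMod A ℂ) (X : LeftMod A) (hX : X.IsPolynormed) :
    (addNul P X).IsPolynormed := by
  letI := IsTopologicalAddGroup.rightUniformSpace X.V
  haveI : IsUniformAddGroup X.V := isUniformAddGroup_of_addCommGroup
  haveI := hX.1
  haveI := hX.2.1
  haveI : CompleteSpace X.V := hX.2.2
  haveI : IsUniformAddGroup (LinearMap.ker (X.act 1)) :=
    inferInstanceAs (IsUniformAddGroup (LinearMap.ker (X.act 1)).toAddSubgroup)
  haveI : CompleteSpace (LinearMap.ker (X.act 1)) := (isClosed_nul X hX).completeSpace_coe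
  haveI : LocallyConvexSpace ℝ (LinearMap.ker (X.act 1)) :=
    LocallyConvexSpace.induced (𝕜 := ℝ) ((LinearMap.ker (X.act 1)).subtype.restrictScalars ℝ)
  refine ⟨?_, ?_, ?_⟩
  · show T2Space (P.V × LinearMap.ker (X.act 1))
    infer_instance
  · show LocallyConvexSpace ℝ (P.V × LinearMap.ker (X.act 1))
    infer_instance
  · have e : IsTopologicalAddGroup.rightUniformSpace (P.V × LinearMap.ker (X.act 1))
        = instUniformSpaceProd := IsUniformAddGroup.rightUniformSpace_eq
    show @CompleteSpace (P.V × LinearMap.ker (X.act 1))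
      (IsTopologicalAddGroup.rightUniformSpace (P.V × LinearMap.ker (X.act 1)))
    rw [e]
    infer_instance

private theorem r_smul (P : BMod A ℂ) (c : ℂ) (x : P.V) : P.r c x = c • x := by
  have := AlgHom.commutes P.r c
  rw [Algebra.algebraMap_self, RingHom.id_apply] at this
  rw [this, Algebra.algebraMap_eq_smul_one]
  rfl

/-- Restriction of a morphism to the unital parts. -/
private noncomputable def cmap {X Y : LeftMod A} (hX : X.IsPolynormed) (hY : Y.IsPolynormed)
    (f : X.V →L[ℂ] Y.V) : (corner X hX).V →L[ℂ] (corner Y hY).V :=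
  (proj Y hY).comp (f.comp (incl X hX))

private theorem incl_cmap {X Y : LeftMod A} (hX : X.IsPolynormed) (hY : Y.IsPolynormed)
    (f : X.V →L[ℂ] Y.V) (x : (corner X hX).V) :
    incl Y hY (cmap hX hY f x) = Y.act 1 (f (incl X hX x)) := rfl

private theorem incl_cmap' {X Y : LeftMod A} (hX : X.IsPolynormed) (hY : Y.IsPolynormed)
    {f : X.V →L[ℂ] Y.V} (hf : Pool.Agent.Helper39.ST.IsHom f) (x : (corner X hX).V) :
    incl Y hY (cmap hX hY f x) = f (incl X hX x) := by
  rw [incl_cmap, ← hf, incl_one]

private theorem cmap_hom {X Y : LeftMod A} (hX : X.IsPolynormed) (hY : Y.IsPolynormed)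
    {f : X.V →L[ℂ] Y.V} (hf : Pool.Agent.Helper39.ST.IsHom f) :
    HD.IsHom (X := corner X hX) (Y := corner Y hY) (cmap hX hY f) := by
  refine ⟨fun a x => ?_, fun c x => ?_⟩
  · apply incl_inj
    rw [incl_cmap' hX hY hf, incl_l, incl_l, incl_cmap' hX hY hf]
    exact hf a _
  · rw [r_smul, r_smul]
    exact map_smul (cmap hX hY f) c x

private theorem corner_proj {P : LeftMod A} (hP : P.IsPolynormed) (h : P.IsProjective) :
    Projective (corner P hP) := by
  intro Z σ hσ hτ
  obtain ⟨τ, hτ⟩ := hτ
  let N := LinearMap.ker (P.act 1)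
  have hN : ∀ a (x : N), P.act a (x : P.V) = 0 := by
    intro a x
    have h1 : P.act 1 (x : P.V) = 0 := x.2
    rw [← mul_one a, P.act_mul, h1, map_zero]
  let nul : P.V →L[ℂ] N := (ContinuousLinearMap.id ℂ P.V - actL P 1).codRestrict N (fun x => by
    show P.act 1 (x - P.act 1 x) = 0
    rw [map_sub, ← P.act_mul, mul_one, sub_self])
  let f : (addNul Z P).V →L[ℂ] P.V :=
    ((incl P hP).comp σ).comp (ContinuousLinearMap.fst ℂ Z.V N)
      + N.subtypeL.comp (ContinuousLinearMap.snd ℂ Z.V N)
  have hfa : ∀ (z : Z.V) (x : N), f (z, x) = incl P hP (σ z) + x := fun _ _ => rfl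
  have hf : Pool.Agent.Helper39.ST.IsHom (X := addNul Z P) (Y := P) f := by
    rintro a ⟨z, x⟩
    show incl P hP (σ (Z.l a z)) + ((0 : N) : P.V) = P.act a (incl P hP (σ z) + (x : P.V))
    rw [hσ.left, incl_l, map_add, hN, ZeroMemClass.coe_zero]
  obtain ⟨t, ht1, ht2⟩ := h (addNul Z P) (addNul_poly Z P hP) f hf
    ⟨(τ.comp (proj P hP)).prod nul, fun p => by
      show incl P hP (σ (τ (proj P hP p))) + (p - P.act 1 p) = p
      rw [hτ, incl_proj, add_sub_cancel]⟩
  have ht3 : ∀ x : (corner P hP).V, (t (incl P hP x)).2 = 0 := by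
    intro x
    have h1 : t (incl P hP x) = (addNul Z P).act 1 (t (incl P hP x)) := by
      rw [← ht1, incl_one]
    rw [h1]
    rfl
  refine ⟨(ContinuousLinearMap.fst ℂ Z.V N).comp (t.comp (incl P hP)), ⟨fun a x => ?_,
    fun c x => ?_⟩, fun x => ?_⟩
  · show (t (incl P hP ((corner P hP).l a x))).1 = Z.l a (t (incl P hP x)).1
    rw [incl_l, ht1]
    rfl
  · rw [r_smul, r_smul]
    exact map_smul ((ContinuousLinearMap.fst ℂ Z.V N).comp (t.comp (incl P hP))) c x
  · apply incl_inj
    have h2 := ht2 (incl P hP x)
    have h3 : f (t (incl P hP x)) = incl P hP (σ (t (incl P hP x)).1)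
        + (((t (incl P hP x)).2 : N) : P.V) := rfl
    rw [h3, ht3, ZeroMemClass.coe_zero, add_zero] at h2
    exact h2

theorem dimLE_corner (X : LeftMod A) (hX : X.IsPolynormed) (m : ℕ) (h : X.HasResolution m) :
    DimLE (corner X hX) m := by
  obtain ⟨P, aug, d, s', s, hP, haug, hd, hε, hdd, hs', hs0, hss, hlen⟩ := h
  refine ⟨{ P := fun i => corner (P i) (hP i).1
            proj := fun i => corner_proj (hP i).1 (hP i).2
            ε := cmap (hP 0).1 hX aug
            d := fun i => cmap (hP (i + 1)).1 (hP i).1 (d i)
            hε := cmap_hom (hP 0).1 hX haug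
            hd := fun i => cmap_hom (hP (i + 1)).1 (hP i).1 (hd i)
            εd := fun x => ?_
            dd := fun k x => ?_
            s₀ := cmap hX (hP 0).1 s'
            s := fun i => cmap (hP i).1 (hP (i + 1)).1 (s i)
            εs := fun x => ?_
            sε := fun x => ?_
            sd := fun k x => ?_ }, fun k hk => ?_⟩
  · apply incl_inj
    rw [incl_cmap' _ _ haug, incl_cmap' _ _ (hd 0), hε]
    rfl
  · apply incl_inj
    rw [incl_cmap' _ _ (hd k), incl_cmap' _ _ (hd (k + 1)), hdd]
    rfl
  · apply incl_inj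
    rw [incl_cmap' _ _ haug, incl_cmap, haug, hs', incl_one]
  · apply incl_inj
    rw [map_add, incl_cmap, incl_cmap' _ _ haug, incl_cmap' _ _ (hd 0), incl_cmap, hd 0, ← map_add,
      add_comm, hs0, incl_one]
  · apply incl_inj
    rw [map_add, incl_cmap, incl_cmap' _ _ (hd k), incl_cmap' _ _ (hd (k + 1)), incl_cmap,
      hd (k + 1), ← map_add]
    have h1 : (s k) ((d k) ((incl (P (k + 1)) (hP (k + 1)).1) x)) +
        (d (k + 1)) ((s (k + 1)) ((incl (P (k + 1)) (hP (k + 1)).1) x))
          = (incl (P (k + 1)) (hP (k + 1)).1) x := by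
      refine Eq.trans (add_comm _ _) (hss k _)
    rw [h1, incl_one]
  · haveI := hlen k hk
    exact ⟨fun x y => Subtype.ext (Subsingleton.elim (α := (P k).V) _ _)⟩

end

end HD
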