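import Pool.Agent.Helper48.HD.VDefs
import Pool.Agent.Helper48.HD.H1
import Pool.Agent.Helper48.HD.B2

/-!
Module HD-V3: from DimLE of the unital part to resolutions in the sense of Helper39/ST.

Proof. X is the direct sum (topologically) of corner X and X₀ = {x | 1 x = 0} (projection x ↦ 1 x).
A projective P : BMod A ℂ is projective as LeftMod (V = P.V, act = P.l): given f : E → P a morphism
of polynormed left modules with a continuous linear right inverse s, the restriction of f to corner E
has the right inverse p ↦ 1 · s p, now use Projective P for corner E.  X₀ with zero action is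
projective as LeftMod: for f : E → X₀ with right inverse s, x ↦ s x - 1 · (s x) is a morphism
(a (y - 1 y) = 0) and a right inverse.  A direct sum of two projective left modules is projective
(same proof or sum).  So take P 0 = R.P 0 × X₀, P i = R.P i for i ≥ 1, with aug (p, x) = ε p + x.
-/

open scoped Manifold ContDiff Topology

namespace HD

open Pool.Agent.Helper39.ST

section

variable {A : Type} [CommRing A] [Algebra ℂ A] [TopologicalSpace A]

/-- The action of a fixed element as a continuous linear map. -/
private def actL (X : LeftMod A) (a : A) : X.V →L[ℂ] X.V :=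
  { toLinearMap := X.act a
    cont := X.continuous_act.comp (continuous_const.prodMk continuous_id) }

@[simp] private theorem actL_apply (X : LeftMod A) (a : A) (x : X.V) :
    actL X a x = X.act a x := rfl

/-- A module in the sense of this project as a left module. -/
private def toL (P : BMod A ℂ) : LeftMod A :=
  { V := P.V
    act := P.l.toLinearMap
    act_mul := fun a b v => by
      show P.l (a * b) v = P.l a (P.l b v)
      rw [map_mul]
      rfl
    continuous_act := P.cl }

private theorem toL_act (P : BMod A ℂ) (a : A) (x : P.V) : (toL P).act a x = P.l a x := rfl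

private theorem toL_poly (P : BMod A ℂ) : (toL P).IsPolynormed := by
  refine ⟨P.t2, P.lcs, ?_⟩
  have e : IsTopologicalAddGroup.rightUniformSpace P.V = P.unif :=
    IsUniformAddGroup.rightUniformSpace_eq
  show @CompleteSpace P.V (IsTopologicalAddGroup.rightUniformSpace P.V)
  rw [e]
  exact P.com

/-- The inclusion of the unital part. -/
private noncomputable def incl (X : LeftMod A) (hX : X.IsPolynormed) : (corner X hX).V →L[ℂ] X.V :=
  (cornerSub X).subtypeL

private theorem incl_l (X : LeftMod A) (hX : X.IsPolynormed) (a : A) (x : (corner X hX).V) :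
    incl X hX ((corner X hX).l a x) = X.act a (incl X hX x) := rfl

private theorem incl_one (X : LeftMod A) (hX : X.IsPolynormed) (x : (corner X hX).V) :
    X.act 1 (incl X hX x) = incl X hX x := mem_cornerSub.mp x.2

/-- The projection to the unital part. -/
private noncomputable def proj (X : LeftMod A) (hX : X.IsPolynormed) : X.V →L[ℂ] (corner X hX).V :=
  (actL X 1).codRestrict (cornerSub X) (fun x => by
    rw [mem_cornerSub]
    show X.act 1 (X.act 1 x) = X.act 1 x
    rw [← X.act_mul, one_mul])

private theorem incl_proj (X : LeftMod A) (hX : X.IsPolynormed) (x : X.V) :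
    incl X hX (proj X hX x) = X.act 1 x := rfl

private theorem incl_inj (X : LeftMod A) (hX : X.IsPolynormed) {x y : (corner X hX).V}
    (h : incl X hX x = incl X hX y) : x = y := Subtype.ext h

private theorem toL_proj {P : BMod A ℂ} (hP : Projective P) : (toL P).IsProjective := by
  intro E hE f hf hs
  obtain ⟨s, hs⟩ := hs
  have hσ : HD.IsHom (X := corner E hE) (Y := P) (f.comp (incl E hE)) := by
    refine ⟨fun a x => ?_, fun c x => ?_⟩
    · show f (incl E hE ((corner E hE).l a x)) = P.l a (f (incl E hE x))
      rw [incl_l]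
      exact hf a _
    · have e1 : (corner E hE).r c x = c • x := by
        have := AlgHom.commutes (corner E hE).r c
        rw [Algebra.algebraMap_self, RingHom.id_apply] at this
        rw [this, Algebra.algebraMap_eq_smul_one]
        rfl
      have e2 : ∀ y : P.V, P.r c y = c • y := by
        intro y
        have := AlgHom.commutes P.r c
        rw [Algebra.algebraMap_self, RingHom.id_apply] at this
        rw [this, Algebra.algebraMap_eq_smul_one]
        rfl
      rw [e1, e2]
      exact map_smul (f.comp (incl E hE)) c x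
  obtain ⟨t, ht1, ht2⟩ := hP (corner E hE) (f.comp (incl E hE)) hσ
    ⟨(proj E hE).comp s, fun x => by
      show f (incl E hE (proj E hE (s x))) = x
      rw [incl_proj]
      have := hf 1 (s x)
      rw [this, hs]
      show P.l 1 x = x
      rw [map_one]
      rfl⟩
  refine ⟨(incl E hE).comp t, fun a x => ?_, fun x => ht2 x⟩
  show incl E hE (t (P.l a x)) = E.act a (incl E hE (t x))
  rw [ht1.left, incl_l]

/-- A module plus the part killed by the unit. -/
private noncomputable def addNul (P : BMod A ℂ) (X : LeftMod A) : LeftMod A :=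
  { V := P.V × LinearMap.ker (X.act 1)
    act := LinearMap.mk₂ ℂ (fun a v => (P.l a v.1, 0))
      (by intro a b v; ext <;> simp)
      (by intro c a v; ext <;> simp)
      (by intro a v w; ext <;> simp)
      (by intro c a v; ext <;> simp)
    act_mul := fun a b v => by
      simp [LinearMap.mk₂_apply]
    continuous_act := by
      simp only [LinearMap.mk₂_apply]
      exact (P.cl.comp (continuous_fst.prodMk (continuous_fst.comp continuous_snd))).prodMk
        continuous_const }

private theorem addNul_act (P : BMod A ℂ) (X : LeftMod A) (a : A) (x : (addNul P X).V) :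
    (addNul P X).act a x = (P.l a x.1, 0) := rfl

private theorem isClosed_nul (X : LeftMod A) (hX : X.IsPolynormed) :
    IsClosed (LinearMap.ker (X.act 1) : Set X.V) := by
  haveI := hX.1
  exact (actL X 1).isClosed_ker

private theorem addNul_poly (P : BMod A ℂ) (X : LeftMod A) (hX : X.IsPolynormed) :
    (addNul P X).IsPolynormed := by
  letI := IsTopologicalAddGroup.rightUniformSpace X.V
  haveI : IsUniformAddGroup X.V := isUniformAddGroup_of_addCommGroup
  haveI := hX.1
  haveI := hX.2.1
  haveI : CompleteSpace X.V := hX.2.2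
  haveI : IsUniformAddGroup (LinearMap.ker (X.act 1)) :=
    inferInstanceAs (IsUniformAddGroup (LinearMap.ker (X.act 1)).toAddSubgroup)
  haveI : CompleteSpace (LinearMap.ker (X.act 1)) := (isClosed_nul X hX).completeSpace_coe
  haveI : LocallyConvexSpace ℝ (LinearMap.ker (X.act 1)) :=
    LocallyConvexSpace.induced (𝕜 := ℝ) ((LinearMap.ker (X.act 1)).subtype.restrictScalars ℝ)
  refine ⟨?_, ?_, ?_⟩
  · show T2Space (P.V × LinearMap.ker (X.act 1))
    infer_instance
  · show LocallyConvexSpace ℝ (P.V × LinearMap.ker (X.act 1))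
    infer_instance
  · have e : IsTopologicalAddGroup.rightUniformSpace (P.V × LinearMap.ker (X.act 1))
        = instUniformSpaceProd := IsUniformAddGroup.rightUniformSpace_eq
    show @CompleteSpace (P.V × LinearMap.ker (X.act 1))
      (IsTopologicalAddGroup.rightUniformSpace (P.V × LinearMap.ker (X.act 1)))
    rw [e]
    infer_instance

private theorem addNul_proj {P : BMod A ℂ} (hP : Projective P) (X : LeftMod A) :
    (addNul P X).IsProjective := by
  intro E hE f hf hs
  obtain ⟨s, hs⟩ := hs
  have hf1 : Pool.Agent.Helper39.ST.IsHom (X := E) (Y := toL P)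
      ((ContinuousLinearMap.fst ℂ P.V (LinearMap.ker (X.act 1))).comp f) := by
    intro a x
    show (f (E.act a x)).1 = P.l a (f x).1
    rw [hf]
    rfl
  obtain ⟨t, ht1, ht2⟩ := toL_proj hP E hE _ hf1
    ⟨s.comp (ContinuousLinearMap.inl ℂ P.V (LinearMap.ker (X.act 1))), fun p => by
      show (f (s (p, 0))).1 = p
      rw [hs]⟩
  have ht3 : ∀ p, f (t p) = (p, 0) := by
    intro p
    have h1 : (f (t p)).1 = p := ht2 p
    have h2 : t p = E.act 1 (t p) := by
      have h3 := ht1 1 p
      rw [toL_act, map_one] at h3
      exact h3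
    have h4 : (f (t p)).2 = 0 := by
      rw [h2, hf]
      rfl
    exact Prod.ext h1 h4
  let s2 : LinearMap.ker (X.act 1) →L[ℂ] E.V :=
    s.comp (ContinuousLinearMap.inr ℂ P.V (LinearMap.ker (X.act 1)))
  let t2 : LinearMap.ker (X.act 1) →L[ℂ] E.V := s2 - (actL E 1).comp s2
  have ht2a : ∀ a x, E.act a (t2 x) = 0 := by
    intro a x
    show E.act a (s2 x - E.act 1 (s2 x)) = 0
    rw [map_sub, ← E.act_mul, mul_one, sub_self]
  have ht2f : ∀ x, f (t2 x) = (0, x) := by
    intro x
    show f (s2 x - E.act 1 (s2 x)) = (0, x)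
    have h5 : f (s2 x) = (0, x) := hs (0, x)
    have h6 : (addNul P X).act 1 ((0, x) : P.V × LinearMap.ker (X.act 1)) = 0 := by
      rw [addNul_act]
      exact Prod.ext (map_zero (P.l 1)) rfl
    rw [map_sub, hf, h5]
    exact (congrArg (fun z => ((0, x) : P.V × LinearMap.ker (X.act 1)) - z) h6).trans
      (sub_zero _)
  refine ⟨t.comp (ContinuousLinearMap.fst ℂ P.V (LinearMap.ker (X.act 1)))
    + t2.comp (ContinuousLinearMap.snd ℂ P.V (LinearMap.ker (X.act 1))), ?_, ?_⟩
  · intro a x
    show t (P.l a x.1) + t2 0 = E.act a (t x.1 + t2 x.2)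
    rw [map_zero, add_zero, map_add, ht2a, add_zero]
    exact ht1 a x.1
  · intro x
    show f (t x.1 + t2 x.2) = x
    rw [map_add, ht3, ht2f]
    exact Prod.ext (add_zero x.1) (zero_add x.2)

/-- The modules of the resolution. -/
private noncomputable def resMod (X : LeftMod A) (Q : ℕ → BMod A ℂ) : ℕ → LeftMod A
  | 0 => addNul (Q 0) X
  | (k + 1) => toL (Q (k + 1))

theorem hasResolution_of_corner (X : LeftMod A) (hX : X.IsPolynormed) (m : ℕ)
    (h : DimLE (corner X hX) m) : X.HasResolution m := by
  obtain ⟨R, hR⟩ := h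
  let N := LinearMap.ker (X.act 1)
  let P : ℕ → LeftMod A := resMod X R.P
  let aug : (P 0).V →L[ℂ] X.V :=
    ((incl X hX).comp R.ε).comp (ContinuousLinearMap.fst ℂ (R.P 0).V N)
      + N.subtypeL.comp (ContinuousLinearMap.snd ℂ (R.P 0).V N)
  let d : ∀ i, (P (i + 1)).V →L[ℂ] (P i).V := fun i =>
    match i with
    | 0 => (ContinuousLinearMap.inl ℂ (R.P 0).V N).comp (R.d 0)
    | (k + 1) => R.d (k + 1)
  let nul : X.V →L[ℂ] N := (ContinuousLinearMap.id ℂ X.V - actL X 1).codRestrict N (fun x => by
    show X.act 1 (x - X.act 1 x) = 0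
    rw [map_sub, ← X.act_mul, mul_one, sub_self])
  let s' : X.V →L[ℂ] (P 0).V := (R.s₀.comp (proj X hX)).prod nul
  let s : ∀ i, (P i).V →L[ℂ] (P (i + 1)).V := fun i =>
    match i with
    | 0 => (R.s 0).comp (ContinuousLinearMap.fst ℂ (R.P 0).V N)
    | (k + 1) => R.s (k + 1)
  have hN : ∀ a (x : N), X.act a (x : X.V) = 0 := by
    intro a x
    have h1 : X.act 1 (x : X.V) = 0 := x.2
    rw [← mul_one a, X.act_mul, h1, map_zero]
  have haug : ∀ (p : (R.P 0).V) (x : N), aug (p, x) = incl X hX (R.ε p) + x := fun _ _ => rfl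
  have hs' : ∀ x, s' x = (R.s₀ (proj X hX x), nul x) := fun _ => rfl
  refine ⟨P, aug, d, s', s, ?_, ?_, ?_, ?_, ?_, ?_, ?_, ?_, ?_⟩
  · intro i
    cases i with
    | zero => exact ⟨addNul_poly _ _ hX, addNul_proj (R.proj 0) X⟩
    | succ k => exact ⟨toL_poly _, toL_proj (R.proj (k + 1))⟩
  · rintro a ⟨p, x⟩
    show incl X hX (R.ε ((R.P 0).l a p)) + ((0 : N) : X.V)
      = X.act a (incl X hX (R.ε p) + (x : X.V))
    rw [R.hε.left, incl_l, map_add, hN, ZeroMemClass.coe_zero]
  · intro i
    cases i with
    | zero =>
      intro a x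
      show ((R.d 0 ((R.P 1).l a x), (0 : N)) : (R.P 0).V × N) = ((R.P 0).l a (R.d 0 x), 0)
      rw [(R.hd 0).left]
    | succ k =>
      intro a x
      exact (R.hd (k + 1)).left a x
  · intro q
    show incl X hX (R.ε (R.d 0 q)) + ((0 : N) : X.V) = 0
    rw [R.εd, map_zero, ZeroMemClass.coe_zero, add_zero]
  · intro i
    cases i with
    | zero =>
      intro q
      show ((R.d 0 (R.d 1 q), (0 : N)) : (R.P 0).V × N) = 0
      rw [R.dd]
      rfl
    | succ k => exact R.dd (k + 1)
  · intro x
    show incl X hX (R.ε (R.s₀ (proj X hX x))) + (x - X.act 1 x) = x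
    rw [R.εs, incl_proj, add_sub_cancel]
  · rintro ⟨p, x⟩
    have h1 : proj X hX (aug (p, x)) = R.ε p := by
      apply incl_inj
      rw [incl_proj, haug, map_add, hN, add_zero, incl_one]
    have h2 : nul (aug (p, x)) = x := by
      apply Subtype.ext
      show aug (p, x) - X.act 1 (aug (p, x)) = x
      rw [haug, map_add, hN, add_zero, incl_one, add_sub_cancel_left]
    have h3 : s' (aug (p, x)) = (R.s₀ (R.ε p), x) := by
      rw [hs', h1, h2]
    refine (congrArg (fun z => d 0 (s 0 (p, x)) + z) h3).trans (Prod.ext ?_ ?_)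
    · show R.d 0 (R.s 0 p) + R.s₀ (R.ε p) = p
      rw [add_comm]
      exact R.sε p
    · show (0 : N) + x = x
      rw [zero_add]
  · intro i
    cases i with
    | zero =>
      intro p
      show R.d 1 (R.s 1 p) + R.s 0 (R.d 0 p) = p
      rw [add_comm]
      exact R.sd 0 p
    | succ k =>
      intro p
      exact (add_comm (R.d (k + 1 + 1) (R.s (k + 1 + 1) p)) (R.s (k + 1) (R.d (k + 1) p))).trans
        (R.sd (k + 1) p)
  · intro i hi
    cases i with
    | zero => exact absurd hi (Nat.not_lt_zero _)
    | succ k => exact hR (k + 1) hi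

end

end HD
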