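import Pool.Agent.Helper48.HD.VDefs
import Pool.Agent.Helper48.HD.H1
import Pool.Agent.Helper48.HD.B2
import Pool.Agent.Helper39.ST.Left

/-!
Module HD-V5: from bimodule resolutions of the unitization to DimLE (reg A).

Proof. Like V2 for bimodules: for a polynormed bimodule P let C(P) = {x | 1 x 1 = x}, a closed
sub-bimodule with unital actions, as BMod A A (A is commutative).  C(P) is projective in BMod A A if P
is projective: P ≅ C(P) × {x | 1 x 1 = 0} (both sub-bimodules, projection x ↦ 1 x 1); given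
σ : Z → C(P) use Z × {x | 1 x 1 = 0} → P.  C of the unitization A × ℂ is {(b, 0)} ≅ A = reg A
(l 1 (b, z) = (b + z, 0)).  Contraction: x ↦ 1 (s x) 1.
-/

open scoped Manifold ContDiff Topology

namespace HD

open Pool.Agent.Helper39.ST

section

variable {A : Type} [CommRing A] [Algebra ℂ A] [TopologicalSpace A]

/-- The part on which both units act as the identity. -/
private noncomputable def cbSub (E : BiMod A) : Submodule ℂ E.V :=
  LinearMap.ker (E.l 1 - LinearMap.id) ⊓ LinearMap.ker (E.r 1 - LinearMap.id)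

private theorem mem_cbSub {E : BiMod A} {x : E.V} : x ∈ cbSub E ↔ E.l 1 x = x ∧ E.r 1 x = x := by
  rw [cbSub, Submodule.mem_inf, LinearMap.mem_ker, LinearMap.mem_ker, LinearMap.sub_apply,
    LinearMap.sub_apply, LinearMap.id_apply, sub_eq_zero, sub_eq_zero]

private theorem isClosed_cbSub (E : BiMod A) (hE : E.IsPolynormed) :
    IsClosed (cbSub E : Set E.V) := by
  haveI := hE.1
  have e : (cbSub E : Set E.V) = {x | E.l 1 x = x} ∩ {x | E.r 1 x = x} :=
    Set.ext fun x => mem_cbSub
  rw [e]
  exact (isClosed_eq (E.continuous_l.comp (continuous_const.prodMk continuous_id))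
    continuous_id).inter (isClosed_eq (E.continuous_r.comp (continuous_const.prodMk continuous_id))
    continuous_id)

private theorem cb_l {E : BiMod A} (a : A) {x : E.V} (hx : x ∈ cbSub E) : E.l a x ∈ cbSub E := by
  rw [mem_cbSub] at hx ⊢
  constructor
  · rw [← E.l_mul, one_mul]
  · rw [← E.l_r, hx.2]

private theorem cb_r {E : BiMod A} (a : A) {x : E.V} (hx : x ∈ cbSub E) : E.r a x ∈ cbSub E := by
  rw [mem_cbSub] at hx ⊢
  constructor
  · rw [E.l_r, hx.1]
  · rw [← E.r_mul, mul_one]

/-- The projection onto this part. -/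
private theorem cb_proj {E : BiMod A} (x : E.V) : E.l 1 (E.r 1 x) ∈ cbSub E := by
  rw [mem_cbSub]
  constructor
  · rw [← E.l_mul, one_mul]
  · rw [← E.l_r, ← E.r_mul, one_mul]

/-- This part as a BMod. -/
private noncomputable def cb (E : BiMod A) (hE : E.IsPolynormed) : BMod A A :=
  letI := IsTopologicalAddGroup.rightUniformSpace E.V
  haveI : IsUniformAddGroup E.V := isUniformAddGroup_of_addCommGroup
  haveI := hE.1
  haveI := hE.2.1
  haveI : CompleteSpace E.V := hE.2.2
  haveI : IsUniformAddGroup (cbSub E) :=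
    inferInstanceAs (IsUniformAddGroup (cbSub E).toAddSubgroup)
  haveI : CompleteSpace (cbSub E) := (isClosed_cbSub E hE).completeSpace_coe
  haveI : LocallyConvexSpace ℝ (cbSub E) :=
    LocallyConvexSpace.induced (𝕜 := ℝ) ((cbSub E).subtype.restrictScalars ℝ)
  { V := cbSub E
    l :=
      { toFun := fun a => (E.l a).restrict (fun _ hx => cb_l a hx)
        map_one' := by
          ext x
          exact (mem_cbSub.mp x.2).1
        map_mul' := fun a b => by
          ext x
          exact E.l_mul a b x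
        map_zero' := by ext x; simp
        map_add' := fun a b => by ext x; simp
        commutes' := fun z => by
          ext x
          show E.l (algebraMap ℂ A z) x = z • (x : E.V)
          rw [Algebra.algebraMap_eq_smul_one, map_smul, LinearMap.smul_apply,
            (mem_cbSub.mp x.2).1] }
    r :=
      { toFun := fun a => (E.r a).restrict (fun _ hx => cb_r a hx)
        map_one' := by
          ext x
          exact (mem_cbSub.mp x.2).2
        map_mul' := fun a b => by
          ext x
          show E.r (a * b) x = E.r a (E.r b x)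
          rw [mul_comm, E.r_mul]
        map_zero' := by ext x; simp
        map_add' := fun a b => by ext x; simp
        commutes' := fun z => by
          ext x
          show E.r (algebraMap ℂ A z) x = z • (x : E.V)
          rw [Algebra.algebraMap_eq_smul_one, map_smul, LinearMap.smul_apply,
            (mem_cbSub.mp x.2).2] }
    cl := Continuous.subtype_mk (E.continuous_l.comp (continuous_fst.prodMk
        (continuous_subtype_val.comp continuous_snd))) _
    cr := Continuous.subtype_mk (E.continuous_r.comp (continuous_fst.prodMk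
        (continuous_subtype_val.comp continuous_snd))) _
    comm := fun a c x => Subtype.ext (E.l_r a c x) }

/-- The actions as continuous linear maps. -/
private noncomputable def actL (E : BiMod A) (a : A) : E.V →L[ℂ] E.V :=
  { toLinearMap := E.l a
    cont := E.continuous_l.comp (continuous_const.prodMk continuous_id) }

private noncomputable def actR (E : BiMod A) (a : A) : E.V →L[ℂ] E.V :=
  { toLinearMap := E.r a
    cont := E.continuous_r.comp (continuous_const.prodMk continuous_id) }

private theorem actL_apply (E : BiMod A) (a : A) (x : E.V) : actL E a x = E.l a x := rfl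

private theorem actR_apply (E : BiMod A) (a : A) (x : E.V) : actR E a x = E.r a x := rfl

private theorem polynormed_closed {V : Type} [AddCommGroup V] [Module ℂ V] [TopologicalSpace V]
    [IsTopologicalAddGroup V] [ContinuousSMul ℂ V] (hV : IsPolynormedSpace V)
    (U : Submodule ℂ V) (hU : IsClosed (U : Set V)) : IsPolynormedSpace U := by
  obtain ⟨h1, h2, h3⟩ := hV
  letI uV : UniformSpace V := IsTopologicalAddGroup.rightUniformSpace V
  haveI : IsUniformAddGroup V := isUniformAddGroup_of_addCommGroup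
  haveI : CompleteSpace V := h3
  refine ⟨inferInstance, ?_, ?_⟩
  · exact LocallyConvexSpace.induced (𝕜 := ℝ) (U.subtype.restrictScalars ℝ)
  · haveI : IsUniformAddGroup U := inferInstanceAs (IsUniformAddGroup U.toAddSubgroup)
    have h4 : IsTopologicalAddGroup.rightUniformSpace U = (inferInstance : UniformSpace U) :=
      IsUniformAddGroup.rightUniformSpace_eq
    rw [h4]
    exact hU.completeSpace_coe

/-- The part on which `1 x 1 = 0`. -/
private noncomputable def coSub (E : BiMod A) : Submodule ℂ E.V :=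
  LinearMap.ker ((E.l 1).comp (E.r 1))

private theorem mem_coSub {E : BiMod A} {x : E.V} : x ∈ coSub E ↔ E.l 1 (E.r 1 x) = 0 := Iff.rfl

private theorem isClosed_coSub (E : BiMod A) (hE : E.IsPolynormed) :
    IsClosed (coSub E : Set E.V) := by
  haveI := hE.1
  exact ((actL E 1).comp (actR E 1)).isClosed_ker

private theorem co_l {E : BiMod A} (a : A) {x : E.V} (hx : x ∈ coSub E) : E.l a x ∈ coSub E := by
  rw [mem_coSub] at hx ⊢
  rw [← E.l_r, ← E.l_mul, one_mul, ← mul_one a, E.l_mul, hx, map_zero]

private theorem co_r {E : BiMod A} (a : A) {x : E.V} (hx : x ∈ coSub E) : E.r a x ∈ coSub E := by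
  rw [mem_coSub] at hx ⊢
  rw [← E.r_mul, mul_one, ← one_mul a, E.r_mul, E.l_r, hx, map_zero]

/-- The test module. -/
private noncomputable def testMod (Z : BMod A A) (P : BiMod A) : BiMod A where
  V := Z.V × coSub P
  l :=
    { toFun := fun a => (Z.l a).prodMap ((P.l a).restrict (fun _ hx => co_l a hx))
      map_add' := fun a b => by
        refine LinearMap.ext fun x => Prod.ext ?_ (Subtype.ext ?_)
        · show Z.l (a + b) x.1 = Z.l a x.1 + Z.l b x.1
          rw [map_add]; rfl
        · show P.l (a + b) x.2.1 = P.l a x.2.1 + P.l b x.2.1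
          rw [map_add]; rfl
      map_smul' := fun c a => by
        refine LinearMap.ext fun x => Prod.ext ?_ (Subtype.ext ?_)
        · show Z.l (c • a) x.1 = c • Z.l a x.1
          rw [map_smul]; rfl
        · show P.l (c • a) x.2.1 = c • P.l a x.2.1
          rw [map_smul]; rfl }
  r :=
    { toFun := fun a => (Z.r a).prodMap ((P.r a).restrict (fun _ hx => co_r a hx))
      map_add' := fun a b => by
        refine LinearMap.ext fun x => Prod.ext ?_ (Subtype.ext ?_)
        · show Z.r (a + b) x.1 = Z.r a x.1 + Z.r b x.1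
          rw [map_add]; rfl
        · show P.r (a + b) x.2.1 = P.r a x.2.1 + P.r b x.2.1
          rw [map_add]; rfl
      map_smul' := fun c a => by
        refine LinearMap.ext fun x => Prod.ext ?_ (Subtype.ext ?_)
        · show Z.r (c • a) x.1 = c • Z.r a x.1
          rw [map_smul]; rfl
        · show P.r (c • a) x.2.1 = c • P.r a x.2.1
          rw [map_smul]; rfl }
  l_mul := fun a b x => by
    refine Prod.ext ?_ (Subtype.ext ?_)
    · show Z.l (a * b) x.1 = Z.l a (Z.l b x.1)
      rw [map_mul]; rfl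
    · exact P.l_mul a b x.2.1
  r_mul := fun a b x => by
    refine Prod.ext ?_ (Subtype.ext ?_)
    · show Z.r (a * b) x.1 = Z.r b (Z.r a x.1)
      rw [mul_comm, map_mul]; rfl
    · exact P.r_mul a b x.2.1
  l_r := fun a b x => Prod.ext (Z.comm a b x.1) (Subtype.ext (P.l_r a b x.2.1))
  continuous_l := (Z.cl.comp (continuous_fst.prodMk (continuous_fst.comp continuous_snd))).prodMk
    (Continuous.subtype_mk (P.continuous_l.comp (continuous_fst.prodMk
      (continuous_subtype_val.comp (continuous_snd.comp continuous_snd)))) _)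
  continuous_r := (Z.cr.comp (continuous_fst.prodMk (continuous_fst.comp continuous_snd))).prodMk
    (Continuous.subtype_mk (P.continuous_r.comp (continuous_fst.prodMk
      (continuous_subtype_val.comp (continuous_snd.comp continuous_snd)))) _)

private theorem bmod_polynormed (X : BMod A A) : IsPolynormedSpace X.V := by
  refine ⟨inferInstance, inferInstance, ?_⟩
  have h4 : IsTopologicalAddGroup.rightUniformSpace X.V = (inferInstance : UniformSpace X.V) :=
    IsUniformAddGroup.rightUniformSpace_eq
  rw [h4]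
  infer_instance

private theorem testMod_polynormed (Z : BMod A A) (P : BiMod A) (hP : P.IsPolynormed) :
    (testMod Z P).IsPolynormed :=
  polynormed_prod (bmod_polynormed Z) (polynormed_closed hP _ (isClosed_coSub P hP))

private theorem cut_cut {E : BiMod A} (x : E.V) :
    E.l 1 (E.r 1 (E.l 1 (E.r 1 x))) = E.l 1 (E.r 1 x) := by
  rw [← E.l_r, ← E.l_mul, one_mul, ← E.r_mul, one_mul]

private theorem cut_of_mem {E : BiMod A} {x : E.V} (hx : x ∈ cbSub E) :
    E.l 1 (E.r 1 x) = x := by
  rw [(mem_cbSub.1 hx).2, (mem_cbSub.1 hx).1]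

private theorem cb_projective (P : BiMod A) (hP : P.IsPolynormed) (hp : P.IsProjective) :
    Projective (cb P hP) := by
  intro Z σ hσ ⟨τ, hτ⟩
  let σ' : Z.V →L[ℂ] cbSub P := σ
  let τ' : cbSub P →L[ℂ] Z.V := τ
  have hτ' : ∀ x, σ' (τ' x) = x := hτ
  have hσl : ∀ a z, (σ' (Z.l a z) : P.V) = P.l a (σ' z : P.V) := fun a z =>
    congrArg Subtype.val (hσ.left a z)
  have hσr : ∀ a z, (σ' (Z.r a z) : P.V) = P.r a (σ' z : P.V) := fun a z =>
    congrArg Subtype.val (hσ.right a z)
  let cut : P.V →L[ℂ] P.V := (actL P 1).comp (actR P 1)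
  have hcut : ∀ x, cut x = P.l 1 (P.r 1 x) := fun x => rfl
  let f : Z.V × coSub P →L[ℂ] P.V :=
    ((cbSub P).subtypeL.comp σ').comp (ContinuousLinearMap.fst ℂ Z.V (coSub P)) +
      (coSub P).subtypeL.comp (ContinuousLinearMap.snd ℂ Z.V (coSub P))
  have hf : ∀ x : Z.V × coSub P, f x = (σ' x.1 : P.V) + (x.2 : P.V) := fun x => rfl
  let s : P.V →L[ℂ] Z.V × coSub P :=
    (τ'.comp (cut.codRestrict (cbSub P) (fun x => cb_proj x))).prod
      ((ContinuousLinearMap.id ℂ P.V - cut).codRestrict (coSub P) (fun x => by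
        rw [mem_coSub]
        show P.l 1 (P.r 1 (x - P.l 1 (P.r 1 x))) = 0
        rw [map_sub, map_sub, cut_cut, sub_self]))
  have hs : ∀ p, f (s p) = p := by
    intro p
    rw [hf]
    show ((σ' (τ' ⟨P.l 1 (P.r 1 p), cb_proj p⟩) : cbSub P) : P.V) + (p - P.l 1 (P.r 1 p)) = p
    rw [hτ']
    abel
  obtain ⟨t, ht, ht'⟩ := hp (testMod Z P) (testMod_polynormed Z P hP) f
    (fun a x => ⟨by
      show (σ' (Z.l a x.1) : P.V) + P.l a (x.2 : P.V) = P.l a (f x)
      rw [hf, map_add, hσl], by
      show (σ' (Z.r a x.1) : P.V) + P.r a (x.2 : P.V) = P.r a (f x)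
      rw [hf, map_add, hσr]⟩) ⟨s, hs⟩
  let t' : P.V →L[ℂ] Z.V × coSub P := t
  have htl : ∀ a p, (t' (P.l a p)).1 = Z.l a (t' p).1 := fun a p =>
    congrArg Prod.fst (ht a p).1
  have htr : ∀ a p, (t' (P.r a p)).1 = Z.r a (t' p).1 := fun a p =>
    congrArg Prod.fst (ht a p).2
  have htf : ∀ p, (σ' (t' p).1 : P.V) + ((t' p).2 : P.V) = p := ht'
  refine ⟨((ContinuousLinearMap.fst ℂ Z.V (coSub P)).comp t').comp (cbSub P).subtypeL,
    ⟨fun a x => htl a x.1, fun a x => htr a x.1⟩, fun x => ?_⟩
  refine Subtype.ext ?_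
  show (σ' (t' x.1).1 : P.V) = x.1
  have e1 := congrArg (fun y => P.l 1 (P.r 1 y)) (htf x.1)
  have e2 : P.l 1 (P.r 1 ((t' x.1).2 : P.V)) = 0 := (t' x.1).2.2
  have e3 : P.l 1 (P.r 1 ((σ' (t' x.1).1 : cbSub P) : P.V)) = (σ' (t' x.1).1 : P.V) :=
    cut_of_mem (σ' (t' x.1).1).2
  simp only [map_add, e2, e3, add_zero, cut_of_mem x.2] at e1
  exact e1

/-- Morphisms on the unital parts. -/
private noncomputable def restr {X Y : BiMod A} (hX : X.IsPolynormed) (hY : Y.IsPolynormed)
    (f : X.V →L[ℂ] Y.V) (hf : IsBiHom f) : (cb X hX).V →L[ℂ] (cb Y hY).V :=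
  (f.comp (cbSub X).subtypeL).codRestrict (cbSub Y) (fun x => by
    have h1 := mem_cbSub.1 x.2
    show f (x : X.V) ∈ cbSub Y
    rw [mem_cbSub, ← (hf 1 _).1, ← (hf 1 _).2, h1.1, h1.2]
    exact ⟨rfl, rfl⟩)

private theorem restr_isHom {X Y : BiMod A} (hX : X.IsPolynormed) (hY : Y.IsPolynormed)
    (f : X.V →L[ℂ] Y.V) (hf : IsBiHom f) :
    HD.IsHom (X := cb X hX) (Y := cb Y hY) (restr hX hY f hf) :=
  ⟨fun a x => Subtype.ext (hf a x.1).1, fun a x => Subtype.ext (hf a x.1).2⟩

/-- Continuous linear maps cut down to the unital parts. -/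
private noncomputable def cutMap {X Y : BiMod A} (hX : X.IsPolynormed) (hY : Y.IsPolynormed)
    (f : X.V →L[ℂ] Y.V) : (cb X hX).V →L[ℂ] (cb Y hY).V :=
  ((actL Y 1).comp ((actR Y 1).comp (f.comp (cbSub X).subtypeL))).codRestrict (cbSub Y)
    (fun x => cb_proj _)

private theorem dimLE_cb (X : BiMod A) (hX : X.IsPolynormed) (m : ℕ) (h : X.HasResolution m) :
    DimLE (cb X hX) m := by
  obtain ⟨P, aug, d, s', s, hP, haug, hd, h1, h2, h3, h4, h5, h6⟩ := h
  have k1 : ∀ y, y ∈ cbSub X → aug ((P 0).l 1 ((P 0).r 1 (s' y))) = y := by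
    intro y hy
    rw [(haug 1 _).1, (haug 1 _).2, h3, cut_of_mem hy]
  have k2 : ∀ y, y ∈ cbSub (P 0) → (P 0).l 1 ((P 0).r 1 (s' (aug y))) +
      d 0 ((P 1).l 1 ((P 1).r 1 (s 0 y))) = y := by
    intro y hy
    rw [(hd 0 1 _).1, (hd 0 1 _).2, ← map_add, ← map_add, add_comm, h4, cut_of_mem hy]
  have k3 : ∀ i y, y ∈ cbSub (P (i + 1)) → (P (i + 1)).l 1 ((P (i + 1)).r 1 (s i (d i y))) +
      d (i + 1) ((P (i + 2)).l 1 ((P (i + 2)).r 1 (s (i + 1) y))) = y := by
    intro i y hy
    have e : s i (d i y) + d (i + 1) (s (i + 1) y) = y := (add_comm _ _).trans (h5 i y)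
    rw [(hd (i + 1) 1 _).1, (hd (i + 1) 1 _).2, ← map_add, ← map_add, e, cut_of_mem hy]
  refine ⟨{ P := fun i => cb (P i) (hP i).1
            proj := fun i => cb_projective (P i) (hP i).1 (hP i).2
            ε := restr (hP 0).1 hX aug haug
            d := fun i => restr (hP (i + 1)).1 (hP i).1 (d i) (hd i)
            hε := restr_isHom (hP 0).1 hX aug haug
            hd := fun i => restr_isHom (hP (i + 1)).1 (hP i).1 (d i) (hd i)
            εd := fun x => Subtype.ext (h1 x.1)
            dd := fun i x => Subtype.ext (h2 i x.1)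
            s₀ := cutMap hX (hP 0).1 s'
            s := fun i => cutMap (hP i).1 (hP (i + 1)).1 (s i)
            εs := fun x => Subtype.ext (k1 x.1 x.2)
            sε := fun x => Subtype.ext (k2 x.1 x.2)
            sd := fun i x => Subtype.ext (k3 i x.1 x.2) }, fun i hi => ?_⟩
  · haveI := h6 i hi
    exact ⟨fun x y => Subtype.ext (Subsingleton.elim _ _)⟩

end

section

variable {A : Type} [CommRing A] [Algebra ℂ A] [UniformSpace A] [CAlg A]
  [IsTopologicalRing A] [ContinuousSMul ℂ A]

theorem dimLE_reg (m : ℕ) (h : (unitization A).HasResolution m) : DimLE (reg A) m := by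
  have hA : IsPolynormedSpace A := bmod_polynormed (reg A)
  have hU : (unitization A).IsPolynormed := polynormed_prod hA polynormed_complex
  have h1 := dimLE_cb (unitization A) hU m h
  have el : ∀ (a : A) (x : A × ℂ),
      ((unitization A).l a x : A × ℂ) = (a * x.1 + x.2 • a, 0) := fun a x => rfl
  have er : ∀ (a : A) (x : A × ℂ),
      ((unitization A).r a x : A × ℂ) = (x.1 * a + x.2 • a, 0) := fun a x => rfl
  have hmem : ∀ x : A × ℂ, x ∈ cbSub (unitization A) → x.2 = 0 := by
    intro x hx
    have h2 : ((unitization A).l 1 x : A × ℂ) = x := (mem_cbSub.1 hx).1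
    rw [el] at h2
    exact (congrArg Prod.snd h2).symm
  have hmem' : ∀ b : A, ((b, (0 : ℂ)) : A × ℂ) ∈ cbSub (unitization A) := by
    intro b
    refine mem_cbSub.2 ⟨(el 1 (b, 0)).trans ?_, (er 1 (b, 0)).trans ?_⟩
    · simp
    · simp
  let f : cbSub (unitization A) →L[ℂ] A :=
    (ContinuousLinearMap.fst ℂ A ℂ).comp (cbSub (unitization A)).subtypeL
  let g : A →L[ℂ] cbSub (unitization A) :=
    (ContinuousLinearMap.inl ℂ A ℂ).codRestrict (cbSub (unitization A)) hmem'
  have f1 : ∀ (a : A) (x : A × ℂ), x ∈ cbSub (unitization A) → a * x.1 + x.2 • a = a * x.1 := by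
    intro a x hx
    rw [hmem x hx, zero_smul, add_zero]
  have f2 : ∀ (a : A) (x : A × ℂ), x ∈ cbSub (unitization A) → x.1 * a + x.2 • a = a * x.1 := by
    intro a x hx
    rw [hmem x hx, zero_smul, add_zero, mul_comm]
  have g1 : ∀ a b : A, ((a * b, 0) : A × ℂ) = (a * b + (0 : ℂ) • a, 0) := by
    intro a b
    rw [zero_smul, add_zero]
  have g2 : ∀ a b : A, ((a * b, 0) : A × ℂ) = (b * a + (0 : ℂ) • a, 0) := by
    intro a b
    rw [zero_smul, add_zero, mul_comm]
  have g3 : ∀ x : A × ℂ, x ∈ cbSub (unitization A) → ((x.1, 0) : A × ℂ) = x := by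
    intro x hx
    exact Prod.ext rfl (hmem x hx).symm
  exact DimLE.of_iso h1 f ⟨fun a x => f1 a x.1 x.2, fun a x => f2 a x.1 x.2⟩ g
    ⟨fun a x => Subtype.ext (g1 a x), fun a x => Subtype.ext (g2 a x)⟩
    (fun x => rfl) (fun x => Subtype.ext (g3 x.1 x.2))

end

end HD
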