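import Pool.Agent.Helper48.HD.VDefs
import Pool.Agent.Helper48.HD.H1
import Pool.Agent.Helper48.HD.B2
import Pool.Agent.Helper39.ST.Left

/-!
Module HD-V6: from DimLE (reg A) to bimodule resolutions of the unitization.

Proof. The unitization U = A × ℂ is the direct sum of the sub-bimodule A × 0 ≅ reg A and the line
L spanned by (-1, 1), on which both actions are zero (l a (-1, 1) = (a * (-1) + 1 • a, 0) = 0).
Projective modules P of BMod A A are projective BiMod's (for a test E restrict to
{x | 1 x 1 = x}, use p ↦ 1 (s p) 1); L (zero actions) is a projective BiMod: for f : E → L with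
right inverse s use x ↦ y - 1 y - y 1 + 1 y 1 with y = s x.  Direct sums of projectives are
projective.  Take P 0 = R.P 0 × L, P i = R.P i for i ≥ 1.
-/

open scoped Manifold ContDiff Topology

namespace HD

open Pool.Agent.Helper39.ST

section

variable {A : Type} [CommRing A] [Algebra ℂ A] [TopologicalSpace A]

/-- A bimodule in the sense of Helper39/ST. -/
private noncomputable def toBi (X : BMod A A) : BiMod A where
  V := X.V
  l := X.l.toLinearMap
  r := X.r.toLinearMap
  l_mul := fun a b v => by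
    show X.l (a * b) v = X.l a (X.l b v)
    rw [map_mul]
    rfl
  r_mul := fun a b v => by
    show X.r (a * b) v = X.r b (X.r a v)
    rw [mul_comm, map_mul]
    rfl
  l_r := fun a b v => X.comm a b v
  continuous_l := X.cl
  continuous_r := X.cr

private theorem toBi_polynormed (X : BMod A A) : (toBi X).IsPolynormed := by
  show IsPolynormedSpace X.V
  refine ⟨inferInstance, inferInstance, ?_⟩
  have h4 : IsTopologicalAddGroup.rightUniformSpace X.V = (inferInstance : UniformSpace X.V) :=
    IsUniformAddGroup.rightUniformSpace_eq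
  rw [h4]
  infer_instance

/-- The sum with a line on which both actions are zero. -/
private noncomputable def addLine (X : BMod A A) : BiMod A where
  V := X.V × ℂ
  l := (LinearMap.prodMapLinear ℂ X.V ℂ X.V ℂ ℂ).comp (LinearMap.prod X.l.toLinearMap 0)
  r := (LinearMap.prodMapLinear ℂ X.V ℂ X.V ℂ ℂ).comp (LinearMap.prod X.r.toLinearMap 0)
  l_mul := fun a b v => by
    refine Prod.ext ?_ rfl
    show X.l (a * b) v.1 = X.l a (X.l b v.1)
    rw [map_mul]
    rfl
  r_mul := fun a b v => by
    refine Prod.ext ?_ rfl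
    show X.r (a * b) v.1 = X.r b (X.r a v.1)
    rw [mul_comm, map_mul]
    rfl
  l_r := fun a b v => Prod.ext (X.comm a b v.1) rfl
  continuous_l := (X.cl.comp (continuous_fst.prodMk (continuous_fst.comp
    continuous_snd))).prodMk continuous_const
  continuous_r := (X.cr.comp (continuous_fst.prodMk (continuous_fst.comp
    continuous_snd))).prodMk continuous_const

private theorem addLine_l (X : BMod A A) (a : A) (v : X.V × ℂ) :
    (addLine X).l a v = ((X.l a v.1, 0) : X.V × ℂ) := rfl

private theorem addLine_r (X : BMod A A) (a : A) (v : X.V × ℂ) :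
    (addLine X).r a v = ((X.r a v.1, 0) : X.V × ℂ) := rfl

private theorem addLine_polynormed (X : BMod A A) : (addLine X).IsPolynormed :=
  polynormed_prod (toBi_polynormed X) polynormed_complex

/-- The part on which both units act as the identity. -/
private noncomputable def cbSub (E : BiMod A) : Submodule ℂ E.V :=
  LinearMap.ker (E.l 1 - LinearMap.id) ⊓ LinearMap.ker (E.r 1 - LinearMap.id)

private theorem mem_cbSub {E : BiMod A} {x : E.V} : x ∈ cbSub E ↔ E.l 1 x = x ∧ E.r 1 x = x := by
  rw [cbSub, Submodule.mem_inf, LinearMap.mem_ker, LinearMap.mem_ker, LinearMap.sub_apply,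
    LinearMap.sub_apply, LinearMap.id_apply, sub_eq_zero, sub_eq_zero]

private theorem isClosed_cbSub (E : BiMod A) (hE : E.IsPolynormed) :
    IsClosed (cbSub E : Set E.V) := by
  haveI := hE.1
  have e : (cbSub E : Set E.V) = {x | E.l 1 x = x} ∩ {x | E.r 1 x = x} :=
    Set.ext fun x => mem_cbSub
  rw [e]
  exact (isClosed_eq (E.continuous_l.comp (continuous_const.prodMk continuous_id))
    continuous_id).inter (isClosed_eq (E.continuous_r.comp (continuous_const.prodMk continuous_id))
    continuous_id)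

private theorem cb_l {E : BiMod A} (a : A) {x : E.V} (hx : x ∈ cbSub E) : E.l a x ∈ cbSub E := by
  rw [mem_cbSub] at hx ⊢
  constructor
  · rw [← E.l_mul, one_mul]
  · rw [← E.l_r, hx.2]

private theorem cb_r {E : BiMod A} (a : A) {x : E.V} (hx : x ∈ cbSub E) : E.r a x ∈ cbSub E := by
  rw [mem_cbSub] at hx ⊢
  constructor
  · rw [E.l_r, hx.1]
  · rw [← E.r_mul, mul_one]

/-- The projection onto this part. -/
private theorem cb_proj {E : BiMod A} (x : E.V) : E.l 1 (E.r 1 x) ∈ cbSub E := by
  rw [mem_cbSub]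
  constructor
  · rw [← E.l_mul, one_mul]
  · rw [← E.l_r, ← E.r_mul, one_mul]

/-- This part as a BMod. -/
private noncomputable def cb (E : BiMod A) (hE : E.IsPolynormed) : BMod A A :=
  letI := IsTopologicalAddGroup.rightUniformSpace E.V
  haveI : IsUniformAddGroup E.V := isUniformAddGroup_of_addCommGroup
  haveI := hE.1
  haveI := hE.2.1
  haveI : CompleteSpace E.V := hE.2.2
  haveI : IsUniformAddGroup (cbSub E) :=
    inferInstanceAs (IsUniformAddGroup (cbSub E).toAddSubgroup)
  haveI : CompleteSpace (cbSub E) := (isClosed_cbSub E hE).completeSpace_coe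
  haveI : LocallyConvexSpace ℝ (cbSub E) :=
    LocallyConvexSpace.induced (𝕜 := ℝ) ((cbSub E).subtype.restrictScalars ℝ)
  { V := cbSub E
    l :=
      { toFun := fun a => (E.l a).restrict (fun _ hx => cb_l a hx)
        map_one' := by
          ext x
          exact (mem_cbSub.mp x.2).1
        map_mul' := fun a b => by
          ext x
          exact E.l_mul a b x
        map_zero' := by ext x; simp
        map_add' := fun a b => by ext x; simp
        commutes' := fun z => by
          ext x
          show E.l (algebraMap ℂ A z) x = z • (x : E.V)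
          rw [Algebra.algebraMap_eq_smul_one, map_smul, LinearMap.smul_apply,
            (mem_cbSub.mp x.2).1] }
    r :=
      { toFun := fun a => (E.r a).restrict (fun _ hx => cb_r a hx)
        map_one' := by
          ext x
          exact (mem_cbSub.mp x.2).2
        map_mul' := fun a b => by
          ext x
          show E.r (a * b) x = E.r a (E.r b x)
          rw [mul_comm, E.r_mul]
        map_zero' := by ext x; simp
        map_add' := fun a b => by ext x; simp
        commutes' := fun z => by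
          ext x
          show E.r (algebraMap ℂ A z) x = z • (x : E.V)
          rw [Algebra.algebraMap_eq_smul_one, map_smul, LinearMap.smul_apply,
            (mem_cbSub.mp x.2).2] }
    cl := Continuous.subtype_mk (E.continuous_l.comp (continuous_fst.prodMk
        (continuous_subtype_val.comp continuous_snd))) _
    cr := Continuous.subtype_mk (E.continuous_r.comp (continuous_fst.prodMk
        (continuous_subtype_val.comp continuous_snd))) _
    comm := fun a c x => Subtype.ext (E.l_r a c x) }

/-- The actions as continuous linear maps. -/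
private noncomputable def actL (E : BiMod A) (a : A) : E.V →L[ℂ] E.V :=
  { toLinearMap := E.l a
    cont := E.continuous_l.comp (continuous_const.prodMk continuous_id) }

private noncomputable def actR (E : BiMod A) (a : A) : E.V →L[ℂ] E.V :=
  { toLinearMap := E.r a
    cont := E.continuous_r.comp (continuous_const.prodMk continuous_id) }

private theorem actL_apply (E : BiMod A) (a : A) (x : E.V) : actL E a x = E.l a x := rfl

private theorem actR_apply (E : BiMod A) (a : A) (x : E.V) : actR E a x = E.r a x := rfl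

/-- Lifting from a projective bimodule: `g` maps onto `P` after projection to the unital part. -/
private theorem lift_cb {P : BMod A A} (hP : Projective P) (E : BiMod A) (hE : E.IsPolynormed)
    (g : E.V →L[ℂ] P.V) (hgl : ∀ a, ∀ x ∈ cbSub E, g (E.l a x) = P.l a (g x))
    (hgr : ∀ a, ∀ x ∈ cbSub E, g (E.r a x) = P.r a (g x))
    (s : P.V →L[ℂ] E.V) (hs : ∀ p, g (E.l 1 (E.r 1 (s p))) = p) :
    ∃ t : P.V →L[ℂ] E.V, (∀ p, t p ∈ cbSub E) ∧ (∀ a p, t (P.l a p) = E.l a (t p)) ∧
      (∀ a p, t (P.r a p) = E.r a (t p)) ∧ ∀ p, g (t p) = p := by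
  let σ : (cb E hE).V →L[ℂ] P.V := g.comp (cbSub E).subtypeL
  have hσ : HD.IsHom (X := cb E hE) (Y := P) σ :=
    ⟨fun a x => hgl a x.1 x.2, fun a x => hgr a x.1 x.2⟩
  let τ : P.V →L[ℂ] (cb E hE).V :=
    ((actL E 1).comp ((actR E 1).comp s)).codRestrict (cbSub E) (fun p => cb_proj (s p))
  obtain ⟨t, ht, ht'⟩ := hP (cb E hE) σ hσ ⟨τ, fun p => hs p⟩
  refine ⟨(cbSub E).subtypeL.comp t, fun p => (t p).2, fun a p => ?_, fun a p => ?_, fun p => ht' p⟩
  · exact congrArg Subtype.val (ht.left a p)
  · exact congrArg Subtype.val (ht.right a p)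

private theorem toBi_projective {P : BMod A A} (hP : Projective P) : (toBi P).IsProjective := by
  intro E hE f hf ⟨s, hs⟩
  let f' : E.V →L[ℂ] P.V := f
  let s' : P.V →L[ℂ] E.V := s
  have hfl : ∀ a x, f' (E.l a x) = P.l a (f' x) := fun a x => (hf a x).1
  have hfr : ∀ a x, f' (E.r a x) = P.r a (f' x) := fun a x => (hf a x).2
  have hs' : ∀ p, f' (s' p) = p := hs
  have hone : ∀ p : P.V, P.l 1 p = p := fun p => by rw [map_one]; rfl
  have hone' : ∀ p : P.V, P.r 1 p = p := fun p => by rw [map_one]; rfl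
  obtain ⟨t, -, h1, h2, h3⟩ := lift_cb hP E hE f' (fun a x _ => hfl a x) (fun a x _ => hfr a x)
    s' (fun p => by rw [hfl, hfr, hs', hone, hone'])
  exact ⟨t, fun a p => ⟨h1 a p, h2 a p⟩, h3⟩

/-- The complementary projection. -/
private noncomputable def compl (E : BiMod A) : E.V →L[ℂ] E.V :=
  (ContinuousLinearMap.id ℂ E.V - actL E 1).comp (ContinuousLinearMap.id ℂ E.V - actR E 1)

private theorem compl_apply (E : BiMod A) (x : E.V) :
    compl E x = (x - E.r 1 x) - E.l 1 (x - E.r 1 x) := rfl

private theorem compl_l (E : BiMod A) (a : A) (x : E.V) : E.l a (compl E x) = 0 := by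
  rw [compl_apply, map_sub, ← E.l_mul, mul_one, sub_self]

private theorem compl_r (E : BiMod A) (a : A) (x : E.V) : E.r a (compl E x) = 0 := by
  rw [compl_apply, map_sub, ← E.l_r, map_sub, ← E.r_mul, one_mul, sub_self, map_zero, sub_self]

private theorem addLine_projective {P : BMod A A} (hP : Projective P) :
    (addLine P).IsProjective := by
  intro E hE f hf ⟨s, hs⟩
  let f' : E.V →L[ℂ] P.V × ℂ := f
  let s' : P.V × ℂ →L[ℂ] E.V := s
  have hfl : ∀ a x, f' (E.l a x) = (P.l a (f' x).1, 0) := fun a x => (hf a x).1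
  have hfr : ∀ a x, f' (E.r a x) = (P.r a (f' x).1, 0) := fun a x => (hf a x).2
  have hs' : ∀ p, f' (s' p) = p := hs
  have hone : ∀ p : P.V, P.l 1 p = p := fun p => by rw [map_one]; rfl
  have hone' : ∀ p : P.V, P.r 1 p = p := fun p => by rw [map_one]; rfl
  obtain ⟨t, h0, h1, h2, h3⟩ := lift_cb hP E hE ((ContinuousLinearMap.fst ℂ P.V ℂ).comp f')
    (fun a x _ => by
      show (f' (E.l a x)).1 = P.l a (f' x).1
      rw [hfl])
    (fun a x _ => by
      show (f' (E.r a x)).1 = P.r a (f' x).1
      rw [hfr])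
    (s'.comp (ContinuousLinearMap.inl ℂ P.V ℂ)) (fun p => by
      show (f' (E.l 1 (E.r 1 (s' (p, 0))))).1 = p
      rw [hfl, hfr, hs']
      show P.l 1 (P.r 1 p) = p
      rw [hone, hone'])
  have h4 : ∀ p, f' (t p) = (p, 0) := by
    intro p
    have e1 := (mem_cbSub.1 (h0 p)).1
    have e2 : (f' (t p)).1 = p := h3 p
    rw [← e1, hfl, e2, hone]
  let t2 : ℂ →L[ℂ] E.V := (compl E).comp (s'.comp (ContinuousLinearMap.inr ℂ P.V ℂ))
  have h5 : ∀ z, f' (t2 z) = (0, z) := by
    intro z
    have e1 : t2 z = compl E (s' (0, z)) := rfl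
    rw [e1, compl_apply, map_sub, hfl, map_sub, hfr, hs']
    simp [hone']
  let T : P.V × ℂ →L[ℂ] E.V :=
    t.comp (ContinuousLinearMap.fst ℂ P.V ℂ) + t2.comp (ContinuousLinearMap.snd ℂ P.V ℂ)
  have hT : ∀ p : P.V × ℂ, T p = t p.1 + t2 p.2 := fun p => rfl
  refine ⟨T, fun a p => ⟨?_, ?_⟩, fun p => ?_⟩
  · show T (P.l a p.1, 0) = E.l a (T p)
    rw [hT, hT, map_zero, add_zero, map_add, h1]
    have e1 : E.l a (t2 p.2) = 0 := compl_l E a _
    rw [e1, add_zero]
  · show T (P.r a p.1, 0) = E.r a (T p)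
    rw [hT, hT, map_zero, add_zero, map_add, h2]
    have e1 : E.r a (t2 p.2) = 0 := compl_r E a _
    rw [e1, add_zero]
  · show f' (T p) = p
    rw [hT, map_add, h4, h5]
    simp

end

section

variable {A : Type} [CommRing A] [Algebra ℂ A] [UniformSpace A] [CAlg A]
  [IsTopologicalRing A] [ContinuousSMul ℂ A]

/-- The modules of the resolution. -/
private noncomputable def resP (P : ℕ → BMod A A) : ℕ → BiMod A
  | 0 => addLine (P 0)
  | (i + 1) => toBi (P (i + 1))

theorem hasResolution_unitization (m : ℕ) (h : DimLE (reg A) m) :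
    (unitization A).HasResolution m := by
  obtain ⟨R, hR⟩ := h
  let ε : (R.P 0).V →L[ℂ] A := R.ε
  let s₀ : A →L[ℂ] (R.P 0).V := R.s₀
  have hεl : ∀ a x, ε ((R.P 0).l a x) = a * ε x := fun a x => R.hε.left a x
  have hεr : ∀ a x, ε ((R.P 0).r a x) = a * ε x := fun a x => R.hε.right a x
  have hεs : ∀ x, ε (s₀ x) = x := R.εs
  have hsε : ∀ x, s₀ (ε x) + R.d 0 (R.s 0 x) = x := R.sε
  have hεd : ∀ x, ε (R.d 0 x) = 0 := R.εd
  -- the line
  let j : ℂ →L[ℂ] A := (ContinuousLinearMap.id ℂ ℂ).smulRight (1 : A)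
  have hj : ∀ z, j z = z • (1 : A) := fun z => rfl
  let aug : (R.P 0).V × ℂ →L[ℂ] A × ℂ :=
    (ε.comp (ContinuousLinearMap.fst ℂ (R.P 0).V ℂ) -
      j.comp (ContinuousLinearMap.snd ℂ (R.P 0).V ℂ)).prod (ContinuousLinearMap.snd ℂ (R.P 0).V ℂ)
  have haug : ∀ p : (R.P 0).V × ℂ, aug p = (ε p.1 - p.2 • (1 : A), p.2) := fun p => rfl
  let s' : A × ℂ →L[ℂ] (R.P 0).V × ℂ :=
    (s₀.comp (ContinuousLinearMap.fst ℂ A ℂ + j.comp (ContinuousLinearMap.snd ℂ A ℂ))).prod
      (ContinuousLinearMap.snd ℂ A ℂ)
  have hs' : ∀ p : A × ℂ, s' p = (s₀ (p.1 + p.2 • (1 : A)), p.2) := fun p => rfl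
  let d0 : (R.P 1).V →L[ℂ] (R.P 0).V × ℂ := (ContinuousLinearMap.inl ℂ (R.P 0).V ℂ).comp (R.d 0)
  let s0 : (R.P 0).V × ℂ →L[ℂ] (R.P 1).V := (R.s 0).comp (ContinuousLinearMap.fst ℂ (R.P 0).V ℂ)
  let d : ∀ i, (resP R.P (i + 1)).V →L[ℂ] (resP R.P i).V := fun i =>
    match i with
    | 0 => d0
    | (i + 1) => R.d (i + 1)
  let s : ∀ i, (resP R.P i).V →L[ℂ] (resP R.P (i + 1)).V := fun i =>
    match i with
    | 0 => s0
    | (i + 1) => R.s (i + 1)
  refine ⟨resP R.P, aug, d, s', s, ?_, ?_, ?_, ?_, ?_, ?_, ?_, ?_, ?_⟩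
  · intro i
    cases i with
    | zero => exact ⟨addLine_polynormed _, addLine_projective (R.proj 0)⟩
    | succ i => exact ⟨toBi_polynormed _, toBi_projective (R.proj (i + 1))⟩
  · intro a p
    constructor
    · show aug ((R.P 0).l a p.1, 0) = (a * (aug p).1 + (aug p).2 • a, 0)
      rw [haug, haug, hεl]
      simp [mul_sub]
    · show aug ((R.P 0).r a p.1, 0) = ((aug p).1 * a + (aug p).2 • a, 0)
      rw [haug, haug, hεr]
      have e1 : (ε p.1 - p.2 • (1 : A)) * a + p.2 • a = a * ε p.1 := by
        rw [sub_mul, smul_mul_assoc, one_mul, sub_add_cancel, mul_comm]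
      refine Prod.ext ?_ rfl
      show a * ε p.1 - (0 : ℂ) • (1 : A) = (ε p.1 - p.2 • (1 : A)) * a + p.2 • a
      rw [e1, zero_smul, sub_zero]
  · intro i
    cases i with
    | zero =>
      intro a p
      constructor
      · show ((R.d 0 ((R.P 1).l a p), 0) : (R.P 0).V × ℂ) = ((R.P 0).l a (R.d 0 p), 0)
        rw [(R.hd 0).left]
      · show ((R.d 0 ((R.P 1).r a p), 0) : (R.P 0).V × ℂ) = ((R.P 0).r a (R.d 0 p), 0)
        rw [(R.hd 0).right]
    | succ i => exact fun a p => ⟨(R.hd (i + 1)).left a p, (R.hd (i + 1)).right a p⟩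
  · intro q
    show aug (R.d 0 q, 0) = 0
    rw [haug, hεd]
    simp
  · intro i q
    cases i with
    | zero =>
      show ((R.d 0 (R.d 1 q), 0) : (R.P 0).V × ℂ) = 0
      rw [R.dd 0]
      rfl
    | succ i => exact R.dd (i + 1) q
  · intro x
    show aug (s' x) = x
    rw [hs', haug, hεs]
    simp
  · intro p
    show ((R.d 0 (R.s 0 p.1), 0) : (R.P 0).V × ℂ) + s' (aug p) = p
    rw [haug, hs']
    have e1 := hsε p.1
    refine Prod.ext ?_ ?_
    · show R.d 0 (R.s 0 p.1) + s₀ (ε p.1 - p.2 • (1 : A) + p.2 • (1 : A)) = p.1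
      rw [sub_add_cancel, add_comm]
      exact e1
    · show (0 : ℂ) + p.2 = p.2
      rw [zero_add]
  · intro i p
    cases i with
    | zero =>
      exact (add_comm _ _).trans (R.sd 0 p)
    | succ i =>
      exact (add_comm _ _).trans (R.sd (i + 1) p)
  · intro i hi
    cases i with
    | zero => omega
    | succ i => exact hR (i + 1) hi

end

end HD
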