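import Pool.Agent.Helper48.HD.Main
import Pool.Agent.Helper48.HD.B3
import Pool.Agent.Helper48.HD.V2
import Pool.Agent.Helper48.HD.V3
import Pool.Agent.Helper48.HD.V5
import Pool.Agent.Helper48.HD.V6

/-!
Module HD-V7: the inequalities between the homological dimensions.

Proof. Note: dh ≤ m (m a natural number) iff HasResolution m' for some m' ≤ m.
dh_add_le: if (pullMod ρ X).dh = ⊤ nothing to prove; otherwise let m be the natural number with
HasResolution m for pullMod ρ X and m = dh.  V2: DimLE (corner (pullMod ρ X)) m.  As 1 acts as the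
identity on X, corner (pullMod ρ X) is isomorphic to (corner X).res ρ (DimLE.of_iso of B2), so by
tube_dim (Main) c ≤ m and DimLE (corner X) (m - c) (corner X = X is not zero), so by V3
X.HasResolution (m - c) and X.dh + c ≤ m.
dg_add_le: if dg B = m is finite: for every nonzero unital polynormed X over A: X.dh + c ≤ m.  For
A itself as a left module (unital, nonzero) this gives c ≤ m.  For an arbitrary polynormed X: either
its unital part is zero (then DimLE (corner X) 0 by DimLE.of_subsingleton and V3 gives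
X.HasResolution 0), or corner X, as a LeftMod X', is unital and nonzero, X'.dh + c ≤ m, and X.dh ≤
X'.dh by V2, V3 (corner X' ≅ corner X).  So X.dh ≤ m - c.
ds_add_le: an irreducible X is unital: {x | 1 x = 0} is an invariant subspace, not everything since
the action is not zero, so it is 0, and x - 1 x lies in it; X is nonzero.  pullMod ρ X is
irreducible: ρ is surjective (ρ (ι a) = a), so invariant subspaces are the same.
db_add_le: if db B = m is finite: (unitization B).HasResolution m, V5, tube_db (B3), V6.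
-/

open scoped Manifold ContDiff Topology

namespace HD

open Pool.Agent.Helper39.ST

/-! ### calculus of the dimensions -/

section

variable {A C : Type} [CommRing A] [Algebra ℂ A] [TopologicalSpace A]
    [CommRing C] [Algebra ℂ C] [TopologicalSpace C]

private theorem dh_le_iff (X : BMod A C) (m : ℕ) : dh X ≤ (m : ℕ∞) ↔ DimLE X m := by
  constructor
  · intro h
    by_contra hn
    have h1 : ((m + 1 : ℕ) : ℕ∞) ≤ dh X := by
      unfold dh
      refine le_iInf fun k => ?_
      have h2 : ¬ (k : ℕ) ≤ m := fun h3 => hn (DimLE.mono k.2 h3)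
      exact_mod_cast Nat.lt_of_not_le h2
    have h3 := h1.trans h
    have h4 : m + 1 ≤ m := by exact_mod_cast h3
    omega
  · intro h
    unfold dh
    exact iInf_le (fun k : {m : ℕ // DimLE X m} => ((k : ℕ) : ℕ∞)) ⟨m, h⟩

private theorem enat_ext {a b : ℕ∞} (h : ∀ m : ℕ, a ≤ m ↔ b ≤ m) : a = b := by
  refine le_antisymm ?_ ?_
  · induction b using ENat.recTopCoe with
    | top => exact le_top
    | coe b => exact (h b).2 le_rfl
  · induction a using ENat.recTopCoe with
    | top => exact le_top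
    | coe a => exact (h a).1 le_rfl

private theorem dh_congr {X X' : BMod A C} (f : X.V →L[ℂ] X'.V)
    (hf : IsHom f) (g : X'.V →L[ℂ] X.V) (hg : IsHom g) (hfg : ∀ x, f (g x) = x)
    (hgf : ∀ x, g (f x) = x) : dh X = dh X' := by
  refine enat_ext fun m => ?_
  rw [dh_le_iff, dh_le_iff]
  exact ⟨fun h => h.of_iso f hf g hg hfg hgf, fun h => h.of_iso g hg f hf hgf hfg⟩

private theorem left_dh_le_iff (X : LeftMod A) (m : ℕ) :
    X.dh ≤ (m : ℕ∞) ↔ ∃ k ≤ m, X.HasResolution k := by
  constructor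
  · intro h
    by_contra hn
    push Not at hn
    have h1 : ((m + 1 : ℕ) : ℕ∞) ≤ X.dh := by
      unfold LeftMod.dh
      refine le_sInf ?_
      rintro b ⟨k, rfl, hk⟩
      have h2 : ¬ k ≤ m := fun h3 => hn k h3 hk
      exact_mod_cast Nat.lt_of_not_le h2
    have h3 := h1.trans h
    have h4 : m + 1 ≤ m := by exact_mod_cast h3
    omega
  · rintro ⟨k, hk, h⟩
    have h0 : ((k : ℕ) : ℕ∞) ∈ {m : ℕ∞ | ∃ k : ℕ, m = k ∧ X.HasResolution k} := ⟨k, rfl, h⟩
    unfold LeftMod.dh
    refine (sInf_le h0).trans ?_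
    exact_mod_cast hk

/-- the homological dimension of a left module is that of its unital part -/
theorem left_dh_eq (X : LeftMod A) (hX : X.IsPolynormed) : X.dh = dh (corner X hX) := by
  refine enat_ext fun m => ?_
  rw [left_dh_le_iff, dh_le_iff]
  constructor
  · rintro ⟨k, hk, h⟩
    exact (dimLE_corner X hX k h).mono hk
  · intro h
    exact ⟨m, le_rfl, hasResolution_of_corner X hX m h⟩

/-- a module as a left module in the sense of Helper39/ST/Defs.lean -/
def toLeft (X : BMod A ℂ) : LeftMod A where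
  V := X.V
  act := X.l.toLinearMap
  act_mul := fun a b v => by
    show X.l (a * b) v = X.l a (X.l b v)
    rw [map_mul]
    rfl
  continuous_act := X.cl

theorem toLeft_polynormed (X : BMod A ℂ) : (toLeft X).IsPolynormed := by
  refine ⟨X.t2, X.lcs, ?_⟩
  have e : IsTopologicalAddGroup.rightUniformSpace X.V = X.unif :=
    IsUniformAddGroup.rightUniformSpace_eq
  show @CompleteSpace X.V (IsTopologicalAddGroup.rightUniformSpace X.V)
  rw [e]
  exact X.com

theorem toLeft_one (X : BMod A ℂ) (x : X.V) : (toLeft X).act 1 x = x := by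
  show X.l 1 x = x
  rw [map_one]
  rfl

/-- two modules over the complex numbers on the right: morphisms are the left linear maps -/
private theorem isHom_of_left {X Y : BMod A ℂ} {f : X.V →L[ℂ] Y.V}
    (h : ∀ a x, f (X.l a x) = Y.l a (f x)) : IsHom f := by
  refine ⟨h, fun c x => ?_⟩
  have e1 : X.r c x = c • x := by
    have h1 : X.r c = X.r (algebraMap ℂ ℂ c) := rfl
    rw [h1, AlgHom.commutes]
    simp [Algebra.algebraMap_eq_smul_one]
  have e2 : Y.r c (f x) = c • f x := by
    have h1 : Y.r c = Y.r (algebraMap ℂ ℂ c) := rfl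
    rw [h1, AlgHom.commutes]
    simp [Algebra.algebraMap_eq_smul_one]
  rw [e1, e2, map_smul]

/-- a module is isomorphic to the unital part of a left module if the left module is isomorphic -/
private theorem dh_corner_congr (X : LeftMod A) (hX : X.IsPolynormed) (Y : BMod A ℂ)
    (f : X.V →L[ℂ] Y.V) (hf : ∀ a x, f (X.act a x) = Y.l a (f x))
    (g : Y.V →L[ℂ] X.V) (hg : ∀ a y, g (Y.l a y) = X.act a (g y))
    (hfg : ∀ y, f (g y) = y) (hgf : ∀ x, X.act 1 x = x → g (f x) = x) :
    dh (corner X hX) = dh Y := by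
  have hmem : ∀ y, g y ∈ cornerSub X := by
    intro y
    rw [mem_cornerSub, ← hg, map_one]
    rfl
  let F : (corner X hX).V →L[ℂ] Y.V :=
    { toFun := fun x : cornerSub X => f (x : X.V)
      map_add' := fun (x y : cornerSub X) => by
        show f (((x : X.V) + (y : X.V))) = _
        rw [map_add]
      map_smul' := fun (c : ℂ) (x : cornerSub X) => by
        show f ((c • (x : X.V))) = _
        rw [map_smul]
        rfl
      cont := by
        exact f.continuous.comp continuous_subtype_val }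
  let G : Y.V →L[ℂ] (corner X hX).V :=
    { toFun := fun y => (⟨g y, hmem y⟩ : cornerSub X)
      map_add' := fun x y => by
        apply Subtype.ext
        show g (x + y) = g x + g y
        rw [map_add]
      map_smul' := fun c x => by
        apply Subtype.ext
        show g (c • x) = c • g x
        rw [map_smul]
      cont := by
        exact Continuous.subtype_mk g.continuous hmem }
  refine dh_congr F (isHom_of_left ?_) G (isHom_of_left ?_) ?_ ?_
  · intro a x
    exact hf a (x : cornerSub X).1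
  · intro a y
    apply Subtype.ext
    exact hg a y
  · intro y
    exact hfg y
  · intro x
    apply Subtype.ext
    exact hgf _ (mem_cornerSub.mp (x : cornerSub X).2)

/-- the homological dimension of a module, as a left module -/
theorem toLeft_dh (X : BMod A ℂ) : (toLeft X).dh = dh X := by
  rw [left_dh_eq _ (toLeft_polynormed X)]
  exact dh_corner_congr (toLeft X) (toLeft_polynormed X) X (ContinuousLinearMap.id ℂ X.V)
    (fun _ _ => rfl) (ContinuousLinearMap.id ℂ X.V) (fun _ _ => rfl) (fun _ => rfl)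
    (fun _ _ => rfl)

/-- the two global dimensions agree -/
theorem st_dg_eq : Pool.Agent.Helper39.ST.dg A = HD.dg A := by
  unfold Pool.Agent.Helper39.ST.dg HD.dg
  refine le_antisymm (iSup_le fun X => ?_) (iSup_le fun X => ?_)
  · rw [left_dh_eq X.1 X.2]
    exact le_iSup (fun Y : BMod A ℂ => dh Y) (corner X.1 X.2)
  · rw [← toLeft_dh X]
    exact le_iSup (fun Y : {Y : LeftMod A // Y.IsPolynormed} => Y.1.dh)
      ⟨toLeft X, toLeft_polynormed X⟩

/-- irreducible left modules are unital -/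
theorem irreducible_unital (X : LeftMod A) (h : X.IsIrreducible) (x : X.V) :
    X.act 1 x = x := by
  obtain ⟨⟨a, y, hay⟩, h2⟩ := h
  rcases h2 (LinearMap.ker (X.act 1)) (fun b z hz => by
    rw [LinearMap.mem_ker] at hz ⊢
    rw [← X.act_mul, one_mul, ← mul_one b, X.act_mul, hz, map_zero]) with h3 | h3
  · have h4 : x - X.act 1 x ∈ LinearMap.ker (X.act 1) := by
      rw [LinearMap.mem_ker, map_sub, ← X.act_mul, one_mul, sub_self]
    rw [h3, Submodule.mem_bot, sub_eq_zero] at h4
    exact h4.symm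
  · exfalso
    apply hay
    have h4 : y ∈ LinearMap.ker (X.act 1) := by rw [h3]; trivial
    rw [LinearMap.mem_ker] at h4
    rw [← mul_one a, X.act_mul, h4, map_zero]

/-- the unital part of an irreducible left module is irreducible -/
theorem irr_corner (X : LeftMod A) (hX : X.IsPolynormed) (h : X.IsIrreducible) :
    Irr (corner X hX) := by
  have hu := irreducible_unital X h
  obtain ⟨⟨a, y, hay⟩, h2⟩ := h
  have hmem : ∀ x, x ∈ cornerSub X := fun x => mem_cornerSub.mpr (hu x)
  refine ⟨?_, ?_⟩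
  · show Nontrivial (cornerSub X)
    refine ⟨⟨⟨y, hmem y⟩, 0, fun e => hay ?_⟩⟩
    have e1 : y = 0 := congrArg Subtype.val e
    rw [e1, map_zero]
  · intro U hU
    have hU' : ∀ b, ∀ x : cornerSub X, x ∈ U → (⟨X.act b x.1, hmem _⟩ : cornerSub X) ∈ U :=
      fun b x hx => hU b x hx
    let W : Submodule ℂ X.V :=
      { carrier := {x | (⟨x, hmem x⟩ : cornerSub X) ∈ U}
        add_mem' := fun {x y} hx hy => U.add_mem hx hy
        zero_mem' := U.zero_mem
        smul_mem' := fun c x hx => U.smul_mem c hx }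
    rcases h2 W (fun b x hx => hU' b ⟨x, hmem x⟩ hx) with h3 | h3
    · left
      rw [Submodule.eq_bot_iff]
      intro x hx
      have h4 : (x : cornerSub X).1 ∈ W := hx
      rw [h3, Submodule.mem_bot] at h4
      exact Subtype.ext h4
    · right
      rw [Submodule.eq_top_iff']
      intro x
      have h4 : (x : cornerSub X).1 ∈ W := by rw [h3]; trivial
      exact h4

/-- an irreducible module is irreducible as a left module -/
theorem irreducible_toLeft (X : BMod A ℂ) (h : Irr X) : (toLeft X).IsIrreducible := by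
  obtain ⟨h1, h2⟩ := h
  refine ⟨?_, fun W hW => h2 W hW⟩
  have := h1
  obtain ⟨x, hx⟩ := exists_ne (0 : X.V)
  exact ⟨1, x, by rw [toLeft_one]; exact hx⟩

/-- the two small dimensions agree -/
theorem st_ds_eq : Pool.Agent.Helper39.ST.ds A = HD.ds A := by
  unfold Pool.Agent.Helper39.ST.ds HD.ds
  refine le_antisymm (iSup_le fun X => ?_) (iSup_le fun X => ?_)
  · rw [left_dh_eq X.1 X.2.1]
    exact le_iSup (fun Y : {Y : BMod A ℂ // Irr Y} => dh Y.1)
      ⟨corner X.1 X.2.1, irr_corner X.1 X.2.1 X.2.2⟩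
  · rw [← toLeft_dh X.1]
    exact le_iSup (fun Y : {Y : LeftMod A // Y.IsPolynormed ∧ Y.IsIrreducible} => Y.1.dh)
      ⟨toLeft X.1, toLeft_polynormed X.1, irreducible_toLeft X.1 X.2⟩

end

section

variable {A : Type} [CommRing A] [Algebra ℂ A] [UniformSpace A] [CAlg A]
  [IsTopologicalRing A] [ContinuousSMul ℂ A]

omit [CAlg A] [IsTopologicalRing A] [ContinuousSMul ℂ A] in
private theorem bi_dh_le_iff (X : BiMod A) (m : ℕ) :
    X.dh ≤ (m : ℕ∞) ↔ ∃ k ≤ m, X.HasResolution k := by
  constructor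
  · intro h
    by_contra hn
    push Not at hn
    have h1 : ((m + 1 : ℕ) : ℕ∞) ≤ X.dh := by
      unfold BiMod.dh
      refine le_sInf ?_
      rintro b ⟨k, rfl, hk⟩
      have h2 : ¬ k ≤ m := fun h3 => hn k h3 hk
      exact_mod_cast Nat.lt_of_not_le h2
    have h3 := h1.trans h
    have h4 : m + 1 ≤ m := by exact_mod_cast h3
    omega
  · rintro ⟨k, hk, h⟩
    have h0 : ((k : ℕ) : ℕ∞) ∈ {m : ℕ∞ | ∃ k : ℕ, m = k ∧ X.HasResolution k} := ⟨k, rfl, h⟩
    unfold BiMod.dh
    refine (sInf_le h0).trans ?_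
    exact_mod_cast hk

/-- the two bidimensions agree -/
theorem st_db_eq : Pool.Agent.Helper39.ST.db A = HD.db A := by
  unfold Pool.Agent.Helper39.ST.db HD.db
  refine enat_ext fun m => ?_
  rw [bi_dh_le_iff, dh_le_iff]
  constructor
  · rintro ⟨k, hk, h⟩
    exact (dimLE_reg k h).mono hk
  · intro h
    exact ⟨m, le_rfl, hasResolution_unitization m h⟩

end

private theorem calg_C : CAlg ℂ where
  uag := inferInstance
  csm := inferInstance
  lcs := inferInstance
  t2 := inferInstance
  com := inferInstance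
  cmul := continuous_mul

private theorem add_le_of_sub {a : ℕ∞} {c m : ℕ} (h : a ≤ ((m - c : ℕ) : ℕ∞)) (hc : c ≤ m) :
    a + c ≤ m := by
  calc a + c ≤ ((m - c : ℕ) : ℕ∞) + c := add_le_add_left h _
    _ = m := by
        rw [← Nat.cast_add, Nat.sub_add_cancel hc]

section

variable {A B : Type} [CommRing A] [Algebra ℂ A] [UniformSpace A] [CAlg A]
    [CommRing B] [Algebra ℂ B] [UniformSpace B] [CAlg B]

private theorem bmod_dim (𝕋 : Tube A B) (Y : BMod A ℂ) (m : ℕ)
    (h : DimLE (Y.res 𝕋.ρ 𝕋.hρ) m) : (𝕋.c ≤ m ∧ DimLE Y (m - 𝕋.c)) ∨ Subsingleton Y.V := by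
  have := calg_C
  exact tube_dim 𝕋 Y m h

/-- the inequality for modules -/
theorem bmod_dh_add_le (𝕋 : Tube A B) (Y : BMod A ℂ) (hn : Nontrivial Y.V) :
    dh Y + 𝕋.c ≤ dh (Y.res 𝕋.ρ 𝕋.hρ) := by
  by_cases ht : dh (Y.res 𝕋.ρ 𝕋.hρ) = ⊤
  · rw [ht]; exact le_top
  · obtain ⟨m, hm⟩ := ENat.ne_top_iff_exists.mp ht
    rcases bmod_dim 𝕋 Y m ((dh_le_iff _ _).1 hm.symm.le) with ⟨h1, h2⟩ | h1
    · rw [← hm]
      exact add_le_of_sub ((dh_le_iff _ _).2 h2) h1
    · exact absurd h1 (not_subsingleton Y.V)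

theorem dh_add_le (𝕋 : Tube A B) (X : LeftMod A) (hX : X.IsPolynormed)
    (h1 : ∀ x, X.act 1 x = x) (hn : Nontrivial X.V) :
    X.dh + 𝕋.c ≤ (pullMod 𝕋.ρ 𝕋.hρ X).dh := by
  have hX' : (pullMod 𝕋.ρ 𝕋.hρ X).IsPolynormed := hX
  have hmem : ∀ x, x ∈ cornerSub X := fun x => mem_cornerSub.mpr (h1 x)
  have hn' : Nontrivial (corner X hX).V := by
    show Nontrivial (cornerSub X)
    obtain ⟨x, y, hxy⟩ := hn
    exact ⟨⟨x, hmem x⟩, ⟨y, hmem y⟩, fun e => hxy (congrArg Subtype.val e)⟩
  rw [left_dh_eq X hX, left_dh_eq _ hX']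
  refine (bmod_dh_add_le 𝕋 (corner X hX) hn').trans (le_of_eq ?_)
  symm
  let f : (pullMod 𝕋.ρ 𝕋.hρ X).V →L[ℂ] ((corner X hX).res 𝕋.ρ 𝕋.hρ).V :=
    { toFun := fun x : X.V => (⟨x, hmem x⟩ : cornerSub X)
      map_add' := fun _ _ => rfl
      map_smul' := fun _ _ => rfl
      cont := by
        exact Continuous.subtype_mk continuous_id hmem }
  let g : ((corner X hX).res 𝕋.ρ 𝕋.hρ).V →L[ℂ] (pullMod 𝕋.ρ 𝕋.hρ X).V :=
    { toFun := fun x : cornerSub X => x.1
      map_add' := fun _ _ => rfl
      map_smul' := fun _ _ => rfl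
      cont := by
        exact continuous_subtype_val }
  exact dh_corner_congr (pullMod 𝕋.ρ 𝕋.hρ X) hX' ((corner X hX).res 𝕋.ρ 𝕋.hρ) f
    (fun _ _ => rfl) g (fun _ _ => rfl) (fun _ => rfl) (fun _ _ => rfl)

theorem dg_add_le [Nontrivial A] (𝕋 : Tube A B) : dg A + 𝕋.c ≤ dg B := by
  by_cases ht : dg B = ⊤
  · rw [ht]; exact le_top
  · obtain ⟨m, hm⟩ := ENat.ne_top_iff_exists.mp ht
    have hB : ∀ Y : BMod B ℂ, DimLE Y m := by
      intro Y
      rw [← dh_le_iff, hm]
      exact le_iSup (fun Y : BMod B ℂ => dh Y) Y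
    have hc : 𝕋.c ≤ m := by
      rcases bmod_dim 𝕋 (reg A).left m (hB _) with ⟨h1, -⟩ | h1
      · exact h1
      · have h2 : Subsingleton A := h1
        exact absurd h2 (not_subsingleton A)
    rw [← hm]
    refine add_le_of_sub ?_ hc
    refine iSup_le fun X => ?_
    rw [dh_le_iff]
    rcases bmod_dim 𝕋 X m (hB _) with ⟨-, h1⟩ | h1
    · exact h1
    · exact DimLE.of_subsingleton h1 _

theorem ds_add_le (𝕋 : Tube A B) (h : ∃ X : LeftMod A, X.IsPolynormed ∧ X.IsIrreducible) :
    ds A + 𝕋.c ≤ ds B := by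
  by_cases ht : ds B = ⊤
  · rw [ht]; exact le_top
  · obtain ⟨m, hm⟩ := ENat.ne_top_iff_exists.mp ht
    have hA : ∀ X : BMod A ℂ, Irr X → 𝕋.c ≤ m ∧ DimLE X (m - 𝕋.c) := by
      intro X hX
      have hi : Irr (X.res 𝕋.ρ 𝕋.hρ) := by
        refine ⟨hX.1, fun U hU => hX.2 U fun a x hx => ?_⟩
        have h1 := hU (𝕋.ι a) x hx
        have h2 : (X.res 𝕋.ρ 𝕋.hρ).l (𝕋.ι a) x = X.l a x := by
          show X.l (𝕋.ρ (𝕋.ι a)) x = X.l a x
          rw [𝕋.ρι]
        rw [h2] at h1
        exact h1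
      have h1 : DimLE (X.res 𝕋.ρ 𝕋.hρ) m := by
        rw [← dh_le_iff, hm]
        exact le_iSup (fun Y : {Y : BMod B ℂ // Irr Y} => dh Y.1) ⟨X.res 𝕋.ρ 𝕋.hρ, hi⟩
      rcases bmod_dim 𝕋 X m h1 with h2 | h2
      · exact h2
      · have := hX.1
        exact absurd h2 (not_subsingleton X.V)
    obtain ⟨X, hX, hXi⟩ := h
    have hc : 𝕋.c ≤ m := (hA _ (irr_corner X hX hXi)).1
    rw [← hm]
    refine add_le_of_sub ?_ hc
    refine iSup_le fun X => ?_
    rw [dh_le_iff]
    exact (hA X.1 X.2).2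

theorem db_add_le [Nontrivial A] [IsTopologicalRing A] [ContinuousSMul ℂ A]
    [IsTopologicalRing B] [ContinuousSMul ℂ B] (𝕋 : Tube A B) : db A + 𝕋.c ≤ db B := by
  by_cases ht : db B = ⊤
  · rw [ht]; exact le_top
  · obtain ⟨m, hm⟩ := ENat.ne_top_iff_exists.mp ht
    have hB : DimLE (reg B) m := by
      rw [← dh_le_iff]
      exact hm.symm.le
    obtain ⟨hc, h1⟩ := tube_db 𝕋 m hB
    rw [← hm]
    exact add_le_of_sub ((dh_le_iff _ _).2 h1) hc

/-! ### the same inequalities for the dimensions of Helper39/ST/Defs.lean -/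

theorem st_dg_add_le [Nontrivial A] (𝕋 : Tube A B) :
    Pool.Agent.Helper39.ST.dg A + 𝕋.c ≤ Pool.Agent.Helper39.ST.dg B := by
  rw [st_dg_eq, st_dg_eq]
  exact dg_add_le 𝕋

theorem st_ds_add_le (𝕋 : Tube A B) (h : ∃ X : LeftMod A, X.IsPolynormed ∧ X.IsIrreducible) :
    Pool.Agent.Helper39.ST.ds A + 𝕋.c ≤ Pool.Agent.Helper39.ST.ds B := by
  rw [st_ds_eq, st_ds_eq]
  exact ds_add_le 𝕋 h

theorem st_db_add_le [Nontrivial A] [IsTopologicalRing A] [ContinuousSMul ℂ A]
    [IsTopologicalRing B] [ContinuousSMul ℂ B] (𝕋 : Tube A B) :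
    Pool.Agent.Helper39.ST.db A + 𝕋.c ≤ Pool.Agent.Helper39.ST.db B := by
  rw [st_db_eq, st_db_eq]
  exact db_add_le 𝕋

end

end HD
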