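import Pool.Agent.Helper48.HD.E1
import Pool.Agent.Helper48.HD.V2
import Pool.Agent.Helper48.HD.V3

/-!
Module HD-V9: the upper bound for the homological dimension over the tube.

Proof. If X.dh = ⊤ nothing to prove; otherwise let m be a natural number with X.HasResolution m and
X.dh = m.  V2: DimLE (corner X) m; E1: DimLE ((corner X).res ρ) (m + c); the module
(corner X).res ρ is isomorphic (identity map) to corner (pullMod ρ X) as ρ 1 = 1 (the two submodules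
are equal; DimLE.of_iso of B2), so V3 gives (pullMod ρ X).HasResolution (m + c).
-/

namespace HD

open scoped Manifold ContDiff Topology

open Pool.Agent.Helper39.ST

section

variable {A B : Type} [CommRing A] [Algebra ℂ A] [UniformSpace A] [CAlg A]
    [CommRing B] [Algebra ℂ B] [UniformSpace B] [CAlg B]

private theorem v9_calgC : CAlg ℂ :=
  { uag := inferInstance
    csm := inferInstance
    lcs := inferInstance
    t2 := inferInstance
    com := inferInstance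
    cmul := continuous_mul }

private theorem v9_mem (𝕋 : Tube A B) (X : LeftMod A) (x : (pullMod 𝕋.ρ 𝕋.hρ X).V) :
    x ∈ cornerSub (pullMod 𝕋.ρ 𝕋.hρ X) ↔ (show X.V from x) ∈ cornerSub X := by
  refine Iff.trans mem_cornerSub (Iff.trans ?_ mem_cornerSub.symm)
  show X.act (𝕋.ρ 1) x = x ↔ X.act 1 x = x
  rw [map_one]

private theorem v9_dimLE (𝕋 : Tube A B) (X : LeftMod A) (hX : X.IsPolynormed)
    (hX' : (pullMod 𝕋.ρ 𝕋.hρ X).IsPolynormed) (m : ℕ)
    (h : DimLE ((corner X hX).res 𝕋.ρ 𝕋.hρ) m) : DimLE (corner (pullMod 𝕋.ρ 𝕋.hρ X) hX') m := by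
  let f : ((corner X hX).res 𝕋.ρ 𝕋.hρ).V →L[ℂ] (corner (pullMod 𝕋.ρ 𝕋.hρ X) hX').V :=
    ((cornerSub X).subtypeL).codRestrict (cornerSub (pullMod 𝕋.ρ 𝕋.hρ X))
      (fun x => (v9_mem 𝕋 X _).mpr x.2)
  let g : (corner (pullMod 𝕋.ρ 𝕋.hρ X) hX').V →L[ℂ] ((corner X hX).res 𝕋.ρ 𝕋.hρ).V :=
    ((cornerSub (pullMod 𝕋.ρ 𝕋.hρ X)).subtypeL).codRestrict (cornerSub X)
      (fun x => (v9_mem 𝕋 X _).mp x.2)
  refine h.of_iso f ⟨fun a x => ?_, fun c x => ?_⟩ g ⟨fun a x => ?_, fun c x => ?_⟩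
    (fun x => ?_) (fun x => ?_)
  · apply Subtype.ext
    rfl
  · exact map_smul f c x
  · apply Subtype.ext
    rfl
  · exact map_smul g c x
  · apply Subtype.ext
    rfl
  · apply Subtype.ext
    rfl

theorem dh_pull_le (𝕋 : Tube A B)
    (hq : ∀ q, 𝕋.c < q → ∀ I J : Fin q → Fin 𝕋.m,
      Matrix.det (Matrix.of fun k l => 𝕋.ξ (I k) (𝕋.x (J l))) = 0)
    (X : LeftMod A) (hX : X.IsPolynormed) : (pullMod 𝕋.ρ 𝕋.hρ X).dh ≤ X.dh + 𝕋.c := by
  by_cases hne : {m : ℕ∞ | ∃ k : ℕ, m = k ∧ X.HasResolution k}.Nonempty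
  · have hmem : X.dh ∈ {m : ℕ∞ | ∃ k : ℕ, m = k ∧ X.HasResolution k} := csInf_mem hne
    obtain ⟨k, hk, hres⟩ := hmem
    have hX' : (pullMod 𝕋.ρ 𝕋.hρ X).IsPolynormed := hX
    have h1 : DimLE (corner X hX) k := dimLE_corner X hX k hres
    haveI : CAlg ℂ := v9_calgC
    have h2 : DimLE ((corner X hX).res 𝕋.ρ 𝕋.hρ) (k + 𝕋.c) := dimLE_res 𝕋 hq _ k h1
    have h3 := v9_dimLE 𝕋 X hX hX' _ h2
    have h4 := hasResolution_of_corner _ hX' _ h3
    rw [hk]
    refine sInf_le ⟨k + 𝕋.c, ?_, h4⟩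
    push_cast
    rfl
  · rw [Set.not_nonempty_iff_eq_empty] at hne
    have h : X.dh = ⊤ := by
      show sInf {m : ℕ∞ | ∃ k : ℕ, m = k ∧ X.HasResolution k} = ⊤
      rw [hne, sInf_empty]
    rw [h, top_add]
    exact le_top

end

end HD
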