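import Pool.Agent.Helper48.HD.PL
import Pool.Agent.Helper48.HD.V7
import Pool.Agent.Helper48.HD.V9

/-!
Module HD-FA: the shift of the homological dimension in terms of PMod.
-/

open scoped Manifold ContDiff Topology

namespace HD

open Pool.Agent.Helper39.ST (LeftMod)

section

variable {ι A : Type} [CommRing A] [Algebra ℂ A] [TopologicalSpace A]

theorem IsMap.comp {X Y Z : PMod ι A} {g : Y.V → Z.V} {f : X.V → Y.V} (hg : IsMap Y Z g)
    (hf : IsMap X Y f) : IsMap X Z (fun x => g (f x)) :=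
  ⟨hg.1.comp hf.1, fun x y => by beta_reduce; rw [hf.2.1, hg.2.1],
    fun z x => by beta_reduce; rw [hf.2.2, hg.2.2]⟩

theorem IsMap.zero' {X Y : PMod ι A} {f : X.V → Y.V} (hf : IsMap X Y f) : f 0 = 0 := by
  have := hf.2.2 0 0
  rwa [zero_smul, zero_smul] at this

theorem IsMor.comp {X Y Z : PMod ι A} {g : Y.V → Z.V} {f : X.V → Y.V} (hg : IsMor Y Z g)
    (hf : IsMor X Y f) : IsMor X Z (fun x => g (f x)) :=
  ⟨hg.1.comp hf.1, fun i a x => by beta_reduce; rw [hf.2, hg.2]⟩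

theorem HasRes.of_iso {X X' : PMod ι A} {e : X.V → X'.V} {e' : X'.V → X.V} (he : IsMor X X' e)
    (he' : IsMap X' X e') (h1 : ∀ x, e' (e x) = x) (h2 : ∀ y, e (e' y) = y) {m : ℕ}
    (h : X.HasRes m) : X'.HasRes m := by
  obtain ⟨P, aug, d, hP, hm, ⟨a1, a2, a3, a4⟩, s', s, b1, b2, b3, b4, b5⟩ := h
  refine ⟨P, fun y => e (aug y), d, hP, hm, ⟨he.comp a1, a2, fun y => ?_, a4⟩,
    fun y => s' (e' y), s, b1.comp he', b2, fun y => ?_, fun y => ?_, b5⟩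
  · show e (aug (d 0 y)) = 0
    rw [a3, he.1.zero']
  · show e (aug (s' (e' y))) = y
    rw [b3, h2]
  · show d 0 (s 0 y) + s' (e' (e (aug y))) = y
    rw [h1, b4]

theorem dh_congr' {X X' : PMod ι A} {e : X.V → X'.V} {e' : X'.V → X.V} (he : IsMor X X' e)
    (he' : IsMap X' X e') (h1 : ∀ x, e' (e x) = x) (h2 : ∀ y, e (e' y) = y) : X'.dh = X.dh := by
  have he'2 : IsMor X' X e' := ⟨he', fun i a y => by rw [← h1 (X.act i a (e' y)), he.2, h2]⟩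
  unfold PMod.dh
  congr 1
  ext k
  constructor
  · rintro ⟨m, hm, h⟩
    exact ⟨m, hm, HasRes.of_iso he'2 he.1 h2 h1 h⟩
  · rintro ⟨m, hm, h⟩
    exact ⟨m, hm, HasRes.of_iso he he' h1 h2 h⟩

end

section

variable {A B : Type} [CommRing A] [Algebra ℂ A] [UniformSpace A] [CAlg A]
    [CommRing B] [Algebra ℂ B] [UniformSpace B] [CAlg B]

theorem dhShift_of_tube (𝕋 : Tube A B)
    (hq : ∀ q, 𝕋.c < q → ∀ I J : Fin q → Fin 𝕋.m,
      Matrix.det (Matrix.of fun k l => 𝕋.ξ (I k) (𝕋.x (J l))) = 0)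
    (R : B → A → Prop) (hR : ∀ b, R b (𝕋.ρ b)) : DhShift R 𝕋.c := by
  rintro X X' hX h1 ⟨x, hx⟩ ⟨e, e', ⟨ce, ce'⟩, ⟨ae, me⟩, ⟨h3, h4⟩, h5⟩
  set Y : LeftMod B := pullMod 𝕋.ρ 𝕋.hρ (ofP X) with hY
  have k1 : IsMap (toP Y) X' e := ⟨ce, ae, me⟩
  have k2 : IsMap X' (toP Y) e' := by
    refine ⟨ce', fun y z => ?_, fun c y => ?_⟩
    · show e' (y + z) = e' y + e' z
      rw [← h3 (e' y + e' z), ae, h4, h4]
    · show e' (c • y) = c • e' y
      rw [← h3 (c • e' y), me, h4]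
  have k3 : IsMor (toP Y) X' e := ⟨k1, fun i b x => (h5 b (𝕋.ρ b) (hR b) i x).symm⟩
  rw [dh_congr' k3 k2 h3 h4, dh_toP, dh_ofP X]
  refine le_antisymm (dh_pull_le 𝕋 hq (ofP X) hX) (dh_add_le 𝕋 (ofP X) hX (fun x => h1 () x) ?_)
  exact ⟨⟨x, 0, hx⟩⟩

end

end HD
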