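import Pool.Agent.Helper48.HD.GDefs

/-!
Module HD-G0: from GTube to CTube, and facts on fibres.

Proof. toCTube: Ω' = {(s,u) | (s, e(s)u) in Ω} (open: (s,u) ↦ (s, e(s)u) is continuous, e being
continuous), g' (s,u) = g (s, e(s)u); star: e(s)(t u) = t e(s)u and e(s)e(s)u = e(s)u; g_rv from ev;
r_g, v_g from rv_g; the other fields are the same.
diff_fib: for f MDifferentiable on W the function u ↦ f (g (s, u)) is DifferentiableOn the open set
of all u with (s,u) in Ω (compose with the holomorphic map u ↦ (s,u) of ℂ^m to S × ℂ^m).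
mdiff_fg: f ∘ g is MDifferentiableOn Ω.  mdiff_rv: w ↦ (r w, v w) is MDifferentiable.
mdiff_scale: for t in [0,1] the map w ↦ g (r w, t v w) is MDifferentiable; mdiff_zero: s ↦ g (s, 0).
-/

open scoped Manifold ContDiff Topology

namespace HD

section

variable {n N m : ℕ} {S W : Type}
    [TopologicalSpace S] [ChartedSpace (EuclideanSpace ℂ (Fin n)) S]
    [IsManifold 𝓘(ℂ, EuclideanSpace ℂ (Fin n)) ω S]
    [TopologicalSpace W] [ChartedSpace (EuclideanSpace ℂ (Fin N)) W]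
    [IsManifold 𝓘(ℂ, EuclideanSpace ℂ (Fin N)) ω W]

/-- The convenient form of a tube. -/
theorem GTube.exists_cTube (T : GTube n N m S W) :
    ∃ T' : CTube n N m S W, T'.e = T.e ∧ T'.r = T.r ∧ ∀ s, T'.g (s, 0) = T.g (s, 0) := by
  have hec : Continuous T.e := by
    refine continuous_matrix fun i j => (T.he i j).continuous
  have hmap : Continuous fun p : S × (Fin m → ℂ) => (p.1, (T.e p.1).mulVec p.2) :=
    continuous_fst.prodMk ((hec.comp continuous_fst).matrix_mulVec continuous_snd)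
  have eee : ∀ s u, (T.e s).mulVec ((T.e s).mulVec u) = (T.e s).mulVec u := by
    intro s u
    rw [Matrix.mulVec_mulVec, T.ee]
  refine ⟨{ e := T.e
            Ω := {p : S × (Fin m → ℂ) | (p.1, (T.e p.1).mulVec p.2) ∈ T.Ω}
            r := T.r
            v := T.v
            g := fun p => T.g (p.1, (T.e p.1).mulVec p.2)
            he := T.he
            ee := T.ee
            hΩ := T.hΩ.preimage hmap
            zero := ?_
            star := ?_
            hr := T.hr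
            hv := T.hv
            mem := ?_
            g_rv := ?_
            r_g := ?_
            v_g := ?_
            hg := T.hg
            g_e := ?_
            Ω_e := ?_ }, rfl, rfl, ?_⟩
  · intro s
    change (s, (T.e s).mulVec 0) ∈ T.Ω
    rw [Matrix.mulVec_zero]
    exact T.zero s
  · intro s u hu t ht
    change (s, (T.e s).mulVec ((t : ℂ) • u)) ∈ T.Ω
    rw [Matrix.mulVec_smul]
    exact T.star s _ hu (eee s u) t ht
  · intro w
    change (T.r w, (T.e (T.r w)).mulVec (T.v w)) ∈ T.Ω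
    rw [T.ev]
    exact T.mem w
  · intro w
    change T.g (T.r w, (T.e (T.r w)).mulVec (T.v w)) = w
    rw [T.ev]
    exact T.g_rv w
  · intro p hp
    exact (T.rv_g p.1 _ hp (eee _ _)).1
  · intro p hp
    exact (T.rv_g p.1 _ hp (eee _ _)).2
  · intro s u
    change T.g (s, (T.e s).mulVec ((T.e s).mulVec u)) = T.g (s, (T.e s).mulVec u)
    rw [eee]
  · intro s u
    change (s, (T.e s).mulVec ((T.e s).mulVec u)) ∈ T.Ω ↔ (s, (T.e s).mulVec u) ∈ T.Ω
    rw [eee]
  · intro s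
    change T.g (s, (T.e s).mulVec 0) = T.g (s, 0)
    rw [Matrix.mulVec_zero]

theorem CTube.mdiff_fg (T : CTube n N m S W) {f : W → ℂ}
    (hf : MDifferentiable 𝓘(ℂ, EuclideanSpace ℂ (Fin N)) 𝓘(ℂ, ℂ) f) :
    MDifferentiableOn (modelSC n m) 𝓘(ℂ, ℂ) (fun p => f (T.g p)) T.Ω := by
  exact hf.comp_mdifferentiableOn T.hg

theorem CTube.diff_fib (T : CTube n N m S W) {f : W → ℂ}
    (hf : MDifferentiable 𝓘(ℂ, EuclideanSpace ℂ (Fin N)) 𝓘(ℂ, ℂ) f) (s : S) :
    DifferentiableOn ℂ (fun u : Fin m → ℂ => f (T.g (s, u))) {u | (s, u) ∈ T.Ω} := by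
  have h1 : MDifferentiable 𝓘(ℂ, Fin m → ℂ) (modelSC n m)
      (fun u : Fin m → ℂ => ((s, u) : S × (Fin m → ℂ))) :=
    mdifferentiable_const.prodMk mdifferentiable_id
  intro u hu
  have h2 : MDifferentiableAt (modelSC n m) 𝓘(ℂ, ℂ) (fun p => f (T.g p)) (s, u) :=
    (T.mdiff_fg hf (s, u) hu).mdifferentiableAt (T.hΩ.mem_nhds hu)
  have h3 : MDifferentiableAt 𝓘(ℂ, Fin m → ℂ) 𝓘(ℂ, ℂ)
      ((fun p : S × (Fin m → ℂ) => f (T.g p)) ∘ fun u : Fin m → ℂ => (s, u)) u :=
    MDifferentiableAt.comp u h2 (h1 u)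
  exact (mdifferentiableAt_iff_differentiableAt.mp h3).differentiableWithinAt

theorem CTube.mdiff_rv (T : CTube n N m S W) :
    MDifferentiable 𝓘(ℂ, EuclideanSpace ℂ (Fin N)) (modelSC n m) (fun w => (T.r w, T.v w)) := by
  exact T.hr.prodMk T.hv

theorem CTube.mdiff_scale (T : CTube n N m S W) (t : ℝ) (ht : t ∈ Set.Icc (0 : ℝ) 1) :
    MDifferentiable 𝓘(ℂ, EuclideanSpace ℂ (Fin N)) 𝓘(ℂ, EuclideanSpace ℂ (Fin N))
      (fun w => T.g (T.r w, (t : ℂ) • T.v w)) := by
  intro w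
  have hmem : (T.r w, (t : ℂ) • T.v w) ∈ T.Ω := T.star _ _ (T.mem w) t ht
  have h2 : MDifferentiableAt (modelSC n m) 𝓘(ℂ, EuclideanSpace ℂ (Fin N)) T.g
      (T.r w, (t : ℂ) • T.v w) := (T.hg _ hmem).mdifferentiableAt (T.hΩ.mem_nhds hmem)
  have h1 : MDifferentiableAt 𝓘(ℂ, EuclideanSpace ℂ (Fin N)) (modelSC n m)
      (fun w => ((T.r w, (t : ℂ) • T.v w) : S × (Fin m → ℂ))) w :=
    (T.hr w).prodMk ((T.hv w).const_smul (t : ℂ))
  exact MDifferentiableAt.comp w h2 h1

theorem CTube.mdiff_zero (T : CTube n N m S W) :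
    MDifferentiable 𝓘(ℂ, EuclideanSpace ℂ (Fin n)) 𝓘(ℂ, EuclideanSpace ℂ (Fin N))
      (fun s => T.g (s, 0)) := by
  intro s
  have hmem : (s, (0 : Fin m → ℂ)) ∈ T.Ω := T.zero s
  have h2 : MDifferentiableAt (modelSC n m) 𝓘(ℂ, EuclideanSpace ℂ (Fin N)) T.g (s, 0) :=
    (T.hg _ hmem).mdifferentiableAt (T.hΩ.mem_nhds hmem)
  have h1 : MDifferentiableAt 𝓘(ℂ, EuclideanSpace ℂ (Fin n)) (modelSC n m)
      (fun s => ((s, 0) : S × (Fin m → ℂ))) s :=
    mdifferentiableAt_id.prodMk mdifferentiableAt_const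
  exact MDifferentiableAt.comp s h2 h1

end

end HD
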