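import Pool.Agent.Helper48.HD.G0

/-!
Module HD-G6: the dimension of a tube is the dimension of the base plus the rank of the bundle.
-/

open scoped Manifold ContDiff Topology

namespace HD

section

/-- The algebra behind the dimension count. -/
theorem finrank_of_retract {n N m c : ℕ} (e : Matrix (Fin m) (Fin m) ℂ)
    (hc : e.rank = c)
    (dG : (EuclideanSpace ℂ (Fin n) × (Fin m → ℂ)) →L[ℂ] EuclideanSpace ℂ (Fin N))
    (dF : EuclideanSpace ℂ (Fin N) →L[ℂ] (EuclideanSpace ℂ (Fin n) × (Fin m → ℂ)))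
    (h1 : ∀ x, dG (dF x) = x) (h2 : ∀ x u, dF (dG (x, u)) = (x, e.mulVec u)) : N = n + c := by
  have hinj : Function.Injective
      (dF : EuclideanSpace ℂ (Fin N) →ₗ[ℂ] (EuclideanSpace ℂ (Fin n) × (Fin m → ℂ))) :=
    fun x y h => by
      have h' : dF x = dF y := h
      rw [← h1 x, ← h1 y, h']
  set L : (EuclideanSpace ℂ (Fin n) × LinearMap.range e.mulVecLin) →ₗ[ℂ]
      (EuclideanSpace ℂ (Fin n) × (Fin m → ℂ)) :=
    LinearMap.prodMap LinearMap.id (LinearMap.range e.mulVecLin).subtype with hL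
  have hLinj : Function.Injective L := by
    rintro ⟨x, u⟩ ⟨y, v⟩ h
    have h3 := Prod.mk.inj h
    exact Prod.ext h3.1 (Subtype.ext h3.2)
  have hr : LinearMap.range (dF : EuclideanSpace ℂ (Fin N) →ₗ[ℂ]
      (EuclideanSpace ℂ (Fin n) × (Fin m → ℂ))) = LinearMap.range L := by
    apply le_antisymm
    · rintro _ ⟨x, rfl⟩
      refine ⟨((dF x).1, ⟨(dF x).2, (dF x).2, ?_⟩), rfl⟩
      have h3 := h2 (dF x).1 (dF x).2
      rw [Prod.mk.eta, h1] at h3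
      exact (congrArg Prod.snd h3).symm
    · rintro _ ⟨⟨x, _, u, rfl⟩, rfl⟩
      exact ⟨dG (x, u), h2 x u⟩
  have h3 := LinearMap.finrank_range_of_inj hinj
  have h4 := LinearMap.finrank_range_of_inj hLinj
  rw [hr, h4] at h3
  have h5 : Module.finrank ℂ (LinearMap.range e.mulVecLin) = c := hc
  rw [Module.finrank_prod, h5] at h3
  simpa using h3.symm

variable {n N m : ℕ} {S W : Type}
    [TopologicalSpace S] [ChartedSpace (EuclideanSpace ℂ (Fin n)) S]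
    [IsManifold 𝓘(ℂ, EuclideanSpace ℂ (Fin n)) ω S]
    [TopologicalSpace W] [ChartedSpace (EuclideanSpace ℂ (Fin N)) W]
    [IsManifold 𝓘(ℂ, EuclideanSpace ℂ (Fin N)) ω W]

omit [IsManifold 𝓘(ℂ, EuclideanSpace ℂ (Fin n)) ω S]
  [IsManifold 𝓘(ℂ, EuclideanSpace ℂ (Fin N)) ω W] in
theorem mfderiv_retract (F : W → S × (Fin m → ℂ)) (G : S × (Fin m → ℂ) → W) (w : W)
    (p : S × (Fin m → ℂ))
    (hF : MDifferentiableAt 𝓘(ℂ, EuclideanSpace ℂ (Fin N)) (modelSC n m) F w)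
    (hG : MDifferentiableAt (modelSC n m) 𝓘(ℂ, EuclideanSpace ℂ (Fin N)) G p)
    (e1 : F w = p) (hid : ∀ w, G (F w) = w) (x : EuclideanSpace ℂ (Fin N)) :
    mfderiv (modelSC n m) 𝓘(ℂ, EuclideanSpace ℂ (Fin N)) G p
      (mfderiv 𝓘(ℂ, EuclideanSpace ℂ (Fin N)) (modelSC n m) F w x) = x := by
  subst e1
  have h1 := mfderiv_comp (I := 𝓘(ℂ, EuclideanSpace ℂ (Fin N))) (I' := modelSC n m)
    (I'' := 𝓘(ℂ, EuclideanSpace ℂ (Fin N))) w hG hF
  have hid' : G ∘ F = id := funext hid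
  rw [hid', mfderiv_id] at h1
  have h3 := congrArg (fun L => L x) h1
  exact h3.symm

theorem CTube.dim_eq (T : CTube n N m S W) [Nonempty S] (c : ℕ)
    (hc : ∀ s, (T.e s).rank = c) : N = n + c := by
  obtain ⟨s₀⟩ := ‹Nonempty S›
  have hz : ((s₀, 0) : S × (Fin m → ℂ)) ∈ T.Ω := T.zero s₀
  have hgd : MDifferentiableAt (modelSC n m) 𝓘(ℂ, EuclideanSpace ℂ (Fin N)) T.g (s₀, 0) :=
    (T.hg _ hz).mdifferentiableAt (T.hΩ.mem_nhds hz)
  have hF : MDifferentiable 𝓘(ℂ, EuclideanSpace ℂ (Fin N)) (modelSC n m)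
      (fun w => (T.r w, T.v w)) := T.mdiff_rv
  have hFp : (T.r (T.g (s₀, 0)), T.v (T.g (s₀, 0))) = ((s₀, 0) : S × (Fin m → ℂ)) := by
    rw [T.r_g _ hz, T.v_g _ hz]
    simp
  have h2 := mfderiv_comp (I := modelSC n m) (I' := 𝓘(ℂ, EuclideanSpace ℂ (Fin N)))
    (I'' := modelSC n m) ((s₀, 0) : S × (Fin m → ℂ)) (hF (T.g (s₀, 0))) hgd
  refine finrank_of_retract (T.e s₀) (hc s₀)
    (mfderiv (modelSC n m) 𝓘(ℂ, EuclideanSpace ℂ (Fin N)) T.g (s₀, 0))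
    (mfderiv 𝓘(ℂ, EuclideanSpace ℂ (Fin N)) (modelSC n m) (fun w => (T.r w, T.v w)) (T.g (s₀, 0)))
    (fun x => mfderiv_retract _ _ _ _ (hF _) hgd hFp T.g_rv x) (fun x u => ?_)
  have h3 := congrArg (fun L => L ((x, u) : EuclideanSpace ℂ (Fin n) × (Fin m → ℂ))) h2
  refine Eq.trans h3.symm ?_
  have hdF : MDifferentiableAt (modelSC n m) (modelSC n m)
      ((fun w => (T.r w, T.v w)) ∘ T.g) ((s₀, 0) : S × (Fin m → ℂ)) :=
    (hF (T.g (s₀, 0))).comp _ hgd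
  have h4 := mfderiv_prod_eq_add_apply (v := ((x, u) : EuclideanSpace ℂ (Fin n) × (Fin m → ℂ)))
    hdF
  refine Eq.trans h4 ?_
  have h5 : (fun z : S => ((fun w => (T.r w, T.v w)) ∘ T.g) (z, (0 : Fin m → ℂ))) =
      fun z => (z, (0 : Fin m → ℂ)) := by
    funext z
    show (T.r (T.g (z, 0)), T.v (T.g (z, 0))) = _
    rw [T.r_g _ (T.zero z), T.v_g _ (T.zero z)]
    simp
  have h6 : (fun z : Fin m → ℂ => ((fun w => (T.r w, T.v w)) ∘ T.g) (s₀, z)) =ᶠ[𝓝 0]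
      (fun z => (s₀, z)) ∘ (LinearMap.toContinuousLinearMap (T.e s₀).mulVecLin) := by
    have h7 : Continuous fun z : Fin m → ℂ => (s₀, z) := by fun_prop
    filter_upwards [(T.hΩ.preimage h7).mem_nhds hz] with z hz'
    show (T.r (T.g (s₀, z)), T.v (T.g (s₀, z))) = _
    rw [T.r_g _ hz', T.v_g _ hz']
    rfl
  have h8 : mfderiv 𝓘(ℂ, EuclideanSpace ℂ (Fin n)) (modelSC n m)
      (fun z : S => ((fun w => (T.r w, T.v w)) ∘ T.g) (z, (0 : Fin m → ℂ))) s₀ x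
      = ((x, 0) : EuclideanSpace ℂ (Fin n) × (Fin m → ℂ)) := by
    rw [h5]
    have := mfderiv_prod_left (I := 𝓘(ℂ, EuclideanSpace ℂ (Fin n))) (I' := 𝓘(ℂ, Fin m → ℂ))
      (x₀ := s₀) (y₀ := (0 : Fin m → ℂ))
    exact congrArg (fun L => L x) this
  have h9 : mfderiv 𝓘(ℂ, Fin m → ℂ) (modelSC n m)
      (fun z : Fin m → ℂ => ((fun w => (T.r w, T.v w)) ∘ T.g) (s₀, z)) 0 u
      = ((0, (T.e s₀).mulVec u) : EuclideanSpace ℂ (Fin n) × (Fin m → ℂ)) := by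
    rw [h6.mfderiv_eq]
    have h10 : MDifferentiableAt 𝓘(ℂ, Fin m → ℂ) 𝓘(ℂ, Fin m → ℂ)
        (LinearMap.toContinuousLinearMap (T.e s₀).mulVecLin) (0 : Fin m → ℂ) :=
      (LinearMap.toContinuousLinearMap (T.e s₀).mulVecLin).mdifferentiableAt
    have h11 : MDifferentiableAt 𝓘(ℂ, Fin m → ℂ) (modelSC n m) (fun z : Fin m → ℂ => (s₀, z))
        (LinearMap.toContinuousLinearMap (T.e s₀).mulVecLin 0) :=
      mdifferentiableAt_const.prodMk mdifferentiableAt_id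
    have h12 := mfderiv_comp (I := 𝓘(ℂ, Fin m → ℂ)) (I' := 𝓘(ℂ, Fin m → ℂ)) (I'' := modelSC n m)
      (0 : Fin m → ℂ) h11 h10
    refine (congrArg (fun L => L u) h12).trans ?_
    have h13 := mfderiv_prod_right (I := 𝓘(ℂ, EuclideanSpace ℂ (Fin n))) (I' := 𝓘(ℂ, Fin m → ℂ))
      (x₀ := s₀) (y₀ := LinearMap.toContinuousLinearMap (T.e s₀).mulVecLin 0)
    have h14 := (LinearMap.toContinuousLinearMap (T.e s₀).mulVecLin).mfderiv_eq (x := 0)
    refine (congrArg (fun L => L (mfderiv 𝓘(ℂ, Fin m → ℂ) 𝓘(ℂ, Fin m → ℂ)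
      (LinearMap.toContinuousLinearMap (T.e s₀).mulVecLin) (0 : Fin m → ℂ) u)) h13).trans ?_
    have h15 := congrArg (fun L => L u) h14
    exact congrArg (fun y => ((0, y) : EuclideanSpace ℂ (Fin n) × (Fin m → ℂ))) h15
  refine (congrArg₂ (fun y z => y + z) h8 h9).trans ?_
  show ((x + 0, 0 + (T.e s₀).mulVec u) : EuclideanSpace ℂ (Fin n) × (Fin m → ℂ)) = _
  rw [add_zero, zero_add]

theorem GTube.dim_eq (T : GTube n N m S W) [Nonempty S] (c : ℕ)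
    (hc : ∀ s, (T.e s).rank = c) : N = n + c := by
  obtain ⟨T', he, -, -⟩ := T.exists_cTube
  exact T'.dim_eq c (fun s => by rw [he]; exact hc s)

end

end HD
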