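import Pool.Agent.Helper48.HD.Tube
import Pool.Agent.Helper39.ST.Defs

/-!
Project HD: geometric tubes.  S and W are complex manifolds of dimensions n and N; the tube W over
S is the part of the bundle im e (e a holomorphic matrix valued function on S with e * e = e) over
S which lies in an open set Ω of S × ℂ^m whose intersections with the fibres of the bundle are
star-shaped about the zero section.
-/

open scoped Manifold ContDiff Topology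

namespace HD

open Pool.Agent.Helper39.ST

/-- The model of S × ℂ^m. -/
noncomputable abbrev modelSC (n m : ℕ) := (𝓘(ℂ, EuclideanSpace ℂ (Fin n))).prod 𝓘(ℂ, Fin m → ℂ)

/-- W is a tube over S: r : W → S the projection, v : W → ℂ^m the fibre coordinates, g the inverse
map, holomorphic as a function of (s, u) ↦ g (s, e(s) u). -/
structure GTube (n N m : ℕ) (S W : Type)
    [TopologicalSpace S] [ChartedSpace (EuclideanSpace ℂ (Fin n)) S]
    [TopologicalSpace W] [ChartedSpace (EuclideanSpace ℂ (Fin N)) W] where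
  e : S → Matrix (Fin m) (Fin m) ℂ
  Ω : Set (S × (Fin m → ℂ))
  r : W → S
  v : W → Fin m → ℂ
  g : S × (Fin m → ℂ) → W
  he : ∀ i j, MDifferentiable 𝓘(ℂ, EuclideanSpace ℂ (Fin n)) 𝓘(ℂ, ℂ) (fun s => e s i j)
  ee : ∀ s, e s * e s = e s
  hΩ : IsOpen Ω
  zero : ∀ s, (s, 0) ∈ Ω
  star : ∀ s u, (s, u) ∈ Ω → (e s).mulVec u = u → ∀ t ∈ Set.Icc (0 : ℝ) 1, (s, (t : ℂ) • u) ∈ Ω
  hr : MDifferentiable 𝓘(ℂ, EuclideanSpace ℂ (Fin N)) 𝓘(ℂ, EuclideanSpace ℂ (Fin n)) r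
  hv : MDifferentiable 𝓘(ℂ, EuclideanSpace ℂ (Fin N)) 𝓘(ℂ, Fin m → ℂ) v
  mem : ∀ w, (r w, v w) ∈ Ω
  ev : ∀ w, (e (r w)).mulVec (v w) = v w
  g_rv : ∀ w, g (r w, v w) = w
  rv_g : ∀ s u, (s, u) ∈ Ω → (e s).mulVec u = u → r (g (s, u)) = s ∧ v (g (s, u)) = u
  hg : MDifferentiableOn (modelSC n m) 𝓘(ℂ, EuclideanSpace ℂ (Fin N))
    (fun p : S × (Fin m → ℂ) => g (p.1, (e p.1).mulVec p.2))
    {p : S × (Fin m → ℂ) | (p.1, (e p.1).mulVec p.2) ∈ Ω}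

/-- Convenient form: g is defined on the open set Ω of all (s, u) with (s, e(s) u) in the tube. -/
structure CTube (n N m : ℕ) (S W : Type)
    [TopologicalSpace S] [ChartedSpace (EuclideanSpace ℂ (Fin n)) S]
    [TopologicalSpace W] [ChartedSpace (EuclideanSpace ℂ (Fin N)) W] where
  e : S → Matrix (Fin m) (Fin m) ℂ
  Ω : Set (S × (Fin m → ℂ))
  r : W → S
  v : W → Fin m → ℂ
  g : S × (Fin m → ℂ) → W
  he : ∀ i j, MDifferentiable 𝓘(ℂ, EuclideanSpace ℂ (Fin n)) 𝓘(ℂ, ℂ) (fun s => e s i j)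
  ee : ∀ s, e s * e s = e s
  hΩ : IsOpen Ω
  zero : ∀ s, (s, 0) ∈ Ω
  star : ∀ s u, (s, u) ∈ Ω → ∀ t ∈ Set.Icc (0 : ℝ) 1, (s, (t : ℂ) • u) ∈ Ω
  hr : MDifferentiable 𝓘(ℂ, EuclideanSpace ℂ (Fin N)) 𝓘(ℂ, EuclideanSpace ℂ (Fin n)) r
  hv : MDifferentiable 𝓘(ℂ, EuclideanSpace ℂ (Fin N)) 𝓘(ℂ, Fin m → ℂ) v
  mem : ∀ w, (r w, v w) ∈ Ω
  g_rv : ∀ w, g (r w, v w) = w
  r_g : ∀ p ∈ Ω, r (g p) = p.1
  v_g : ∀ p ∈ Ω, v (g p) = (e p.1).mulVec p.2
  hg : MDifferentiableOn (modelSC n m) 𝓘(ℂ, EuclideanSpace ℂ (Fin N)) g Ω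
  g_e : ∀ s u, g (s, (e s).mulVec u) = g (s, u)
  Ω_e : ∀ s u, (s, (e s).mulVec u) ∈ Ω ↔ (s, u) ∈ Ω

section

variable {n N m : ℕ} {S W : Type}
    [TopologicalSpace S] [ChartedSpace (EuclideanSpace ℂ (Fin n)) S]
    [TopologicalSpace W] [ChartedSpace (EuclideanSpace ℂ (Fin N)) W]

/-- The fibre derivative of a function on the tube. -/
noncomputable def CTube.dfun (T : CTube n N m S W) (i : Fin m) (f : W → ℂ) (w : W) : ℂ :=
  fderiv ℂ (fun u : Fin m → ℂ => f (T.g (T.r w, u))) (T.v w) (Pi.single i 1)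

/-- The operators ∫ t^(q-1) f(t w) dt. -/
noncomputable def CTube.jfun (T : CTube n N m S W) (q : ℕ) (f : W → ℂ) (w : W) : ℂ :=
  ∫ t in (0 : ℝ)..1, (t : ℂ) ^ (q - 1) * f (T.g (T.r w, (t : ℂ) • T.v w))

end

end HD
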