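import Pool.Agent.Helper48.HD.F0
import Pool.Agent.Helper48.HD.GDefs
import Pool.Agent.Helper39.ST.Hol

/-!
Module HD-M0: O(S) is a complete locally convex algebra.

Proof. UniformSpace: that of C(S, ℂ) (ContinuousMap.compactConvergenceUniformSpace) restricted to the
subalgebra.  C(S, ℂ) is a complete Hausdorff locally convex topological algebra for S locally compact
(ChartedSpace.locallyCompactSpace); local convexity: e.g. it is induced by the seminorms
sup over compact sets, or from the embedding into the product of the C(K, ℂ).  Hol n S is closed in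
C(S, ℂ): if f is in the closure, f is a limit of a filter on Hol n S, converging locally uniformly
(ContinuousMap.tendsto_iff_tendstoLocallyUniformly, S locally compact); for x in S let φ =
chartAt x; the functions f_i ∘ φ.symm are holomorphic on φ.target (differentiableOn_chart of
Helper39/ST/Hol), converge locally uniformly there, so f ∘ φ.symm is holomorphic on
φ.target (hol_limit), hence f is MDifferentiableAt x (mdifferentiableAt_iff, writtenInExtChartAt).
-/

open scoped Manifold ContDiff Topology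

namespace HD

open Pool.Agent.Helper39.ST

section

variable {n : ℕ} {S : Type} [TopologicalSpace S] [ChartedSpace (EuclideanSpace ℂ (Fin n)) S]
  [IsManifold 𝓘(ℂ, EuclideanSpace ℂ (Fin n)) ω S]

/-- A function which is holomorphic in all charts is holomorphic. -/
theorem mdifferentiable_of_charts {f : S → ℂ}
    (h : ∀ x : S, DifferentiableOn ℂ (f ∘ (chartAt (EuclideanSpace ℂ (Fin n)) x).symm)
      (chartAt (EuclideanSpace ℂ (Fin n)) x).target) :
    MDifferentiable 𝓘(ℂ, EuclideanSpace ℂ (Fin n)) 𝓘(ℂ, ℂ) f := by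
  have : IsManifold 𝓘(ℂ, EuclideanSpace ℂ (Fin n)) 1 S :=
    IsManifold.of_le (n := ω) (by exact le_top)
  intro x
  set φ := chartAt (EuclideanSpace ℂ (Fin n)) x with hφ
  have h1 : MDifferentiableAt 𝓘(ℂ, EuclideanSpace ℂ (Fin n)) 𝓘(ℂ, ℂ) (f ∘ φ.symm) (φ x) := by
    rw [mdifferentiableAt_iff_differentiableAt]
    exact (h x).differentiableAt (φ.open_target.mem_nhds (φ.map_source (mem_chart_source _ x)))
  have h2 : MDifferentiableAt 𝓘(ℂ, EuclideanSpace ℂ (Fin n)) 𝓘(ℂ, EuclideanSpace ℂ (Fin n)) φ x :=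
    mdifferentiableAt_atlas (chart_mem_atlas _ x) (mem_chart_source _ x)
  have h3 := h1.comp x h2
  refine h3.congr_of_eventuallyEq ?_
  filter_upwards [φ.open_source.mem_nhds (mem_chart_source _ x)] with y hy
  show f y = f (φ.symm (φ y))
  rw [φ.left_inv hy]

private theorem M0_isClosed_hol : IsClosed ((Hol n S : Subalgebra ℂ C(S, ℂ)) : Set C(S, ℂ)) := by
  have : LocallyCompactSpace S := ChartedSpace.locallyCompactSpace (EuclideanSpace ℂ (Fin n)) S
  rw [← closure_subset_iff_isClosed]
  intro f hf
  have hne : (𝓝[((Hol n S : Subalgebra ℂ C(S, ℂ)) : Set C(S, ℂ))] f).NeBot :=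
    mem_closure_iff_nhdsWithin_neBot.1 hf
  have hlim : Filter.Tendsto (fun g : C(S, ℂ) => g)
      (𝓝[((Hol n S : Subalgebra ℂ C(S, ℂ)) : Set C(S, ℂ))] f) (𝓝 f) :=
    Filter.Tendsto.mono_left Filter.tendsto_id nhdsWithin_le_nhds
  rw [ContinuousMap.tendsto_iff_tendstoLocallyUniformly] at hlim
  show MDifferentiable 𝓘(ℂ, EuclideanSpace ℂ (Fin n)) 𝓘(ℂ, ℂ) f
  apply mdifferentiable_of_charts
  intro x
  set φ := chartAt (EuclideanSpace ℂ (Fin n)) x with hφ
  refine hol_limit (F := fun g : C(S, ℂ) => g ∘ φ.symm) φ.open_target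
    (φ := 𝓝[((Hol n S : Subalgebra ℂ C(S, ℂ)) : Set C(S, ℂ))] f) ?_ ?_
  · filter_upwards [self_mem_nhdsWithin] with g hg
    exact differentiableOn_chart x (⟨g, hg⟩ : Hol n S)
  · have h1 : TendstoLocallyUniformlyOn (fun (g : C(S, ℂ)) (a : S) => g a) f
        (𝓝[((Hol n S : Subalgebra ℂ C(S, ℂ)) : Set C(S, ℂ))] f) Set.univ :=
      hlim.tendstoLocallyUniformlyOn
    exact h1.comp φ.symm (fun _ _ => Set.mem_univ _) φ.continuousOn_symm

private theorem M0_uag : IsUniformAddGroup C(S, ℂ) := by
  let F : C(S, ℂ) →+ UniformOnFun S ℂ {K | IsCompact K} :=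
    { toFun := ContinuousMap.toUniformOnFunIsCompact
      map_zero' := rfl
      map_add' := fun _ _ => rfl }
  exact IsUniformInducing.isUniformAddGroup F
    ContinuousMap.isUniformEmbedding_toUniformOnFunIsCompact.isUniformInducing

instance cAlg_hol : CAlg (Hol n S) := by
  have : LocallyCompactSpace S := ChartedSpace.locallyCompactSpace (EuclideanSpace ℂ (Fin n)) S
  have huag0 : IsUniformAddGroup C(S, ℂ) := M0_uag
  have huag : IsUniformAddGroup (Hol n S) :=
    inferInstanceAs (IsUniformAddGroup (Hol n S).toSubmodule.toAddSubgroup)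
  have hcsm : ContinuousSMul ℂ (Hol n S) := by infer_instance
  have hlcs : LocallyConvexSpace ℝ (Hol n S) :=
    LocallyConvexSpace.induced (𝕜 := ℝ) ((Hol n S).toSubmodule.subtype.restrictScalars ℝ)
  have ht2 : T2Space (Hol n S) := inferInstance
  have hcom : CompleteSpace C(S, ℂ) := by infer_instance
  have hcom' : CompleteSpace (Hol n S) := M0_isClosed_hol.completeSpace_coe
  exact ⟨huag, hcsm, hlcs, ht2, hcom', continuous_mul⟩

end

end HD
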