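import Pool.Agent.Helper48.HD.F2
import Pool.Agent.Helper48.HD.M0

/-!
Module HD-M2: integrals of holomorphic functions on a manifold depending continuously on a parameter.

Proof. In the charts (mdifferentiable_of_charts of M0) by hol_integral (F2): for φ = chartAt x the
function (t, y) ↦ H t (φ.symm y) is continuous on [0,1] × φ.target and holomorphic in y
(composition of the MDifferentiable function H t with the chart).
-/

open scoped Manifold ContDiff Topology

namespace HD

section

variable {n : ℕ} {S : Type} [TopologicalSpace S] [ChartedSpace (EuclideanSpace ℂ (Fin n)) S]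
  [IsManifold 𝓘(ℂ, EuclideanSpace ℂ (Fin n)) ω S]

theorem mdiff_integral {H : ℝ → S → ℂ}
    (hc : ContinuousOn (fun p : ℝ × S => H p.1 p.2) (Set.Icc (0 : ℝ) 1 ×ˢ Set.univ))
    (hH : ∀ t ∈ Set.Icc (0 : ℝ) 1,
      MDifferentiable 𝓘(ℂ, EuclideanSpace ℂ (Fin n)) 𝓘(ℂ, ℂ) (H t)) :
    MDifferentiable 𝓘(ℂ, EuclideanSpace ℂ (Fin n)) 𝓘(ℂ, ℂ)
      (fun x => ∫ t in (0 : ℝ)..1, H t x) := by
  have hM : IsManifold 𝓘(ℂ, EuclideanSpace ℂ (Fin n)) 1 S :=
    IsManifold.of_le (n := ω) (by exact le_top)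
  refine mdifferentiable_of_charts (fun x => ?_)
  set φ := chartAt (EuclideanSpace ℂ (Fin n)) x with hφ
  have key := hol_integral (H := fun t y => H t (φ.symm y)) φ.open_target ?_ ?_
  · exact key
  · have hmaps : Set.MapsTo (fun p : ℝ × EuclideanSpace ℂ (Fin n) => (p.1, φ.symm p.2))
        (Set.Icc (0 : ℝ) 1 ×ˢ φ.target) (Set.Icc (0 : ℝ) 1 ×ˢ Set.univ) := by
      intro p hp
      exact ⟨hp.1, Set.mem_univ _⟩
    refine hc.comp (g := fun p : ℝ × S => H p.1 p.2)
      (f := fun p : ℝ × EuclideanSpace ℂ (Fin n) => (p.1, φ.symm p.2)) ?_ hmaps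
    refine continuousOn_fst.prodMk ?_
    exact φ.continuousOn_symm.comp continuousOn_snd (fun p hp => hp.2)
  · intro t ht
    rw [← mdifferentiableOn_iff_differentiableOn]
    exact (hH t ht).comp_mdifferentiableOn (mdifferentiableOn_atlas_symm (chart_mem_atlas _ x))

end

end HD
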