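import Pool.Agent.Helper48.HD.G0
import Pool.Agent.Helper48.HD.M2

/-!
Module HD-G2: the operators J q on O(W).

Proof. mdiff_integral (M2) with H t w = t^(q-1) f (g (r w, t v w)) (CTube.mdiff_scale; the joint
continuity of (t,w) ↦ g (r w, t v w) on [0,1] × W: the point (r w, t v w) lies in Ω, where g is
continuous).  Linear in f (intervalIntegral, continuous integrands).  Continuity: for K compact
in W the set K' = {g (r w, t v w) | w in K, t in [0,1]} is compact and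
sup_K |J q f| ≤ sup_K' |f|.
-/

open scoped Manifold ContDiff Topology

namespace HD

open Pool.Agent.Helper39.ST

section

variable {n N m : ℕ} {S W : Type}
    [TopologicalSpace S] [ChartedSpace (EuclideanSpace ℂ (Fin n)) S]
    [IsManifold 𝓘(ℂ, EuclideanSpace ℂ (Fin n)) ω S]
    [TopologicalSpace W] [ChartedSpace (EuclideanSpace ℂ (Fin N)) W]
    [IsManifold 𝓘(ℂ, EuclideanSpace ℂ (Fin N)) ω W]

omit [IsManifold 𝓘(ℂ, EuclideanSpace ℂ (Fin n)) ω S]
    [IsManifold 𝓘(ℂ, EuclideanSpace ℂ (Fin N)) ω W] in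
private theorem g2_scale (T : CTube n N m S W) :
    ContinuousOn (fun p : ℝ × W => T.g (T.r p.2, (p.1 : ℂ) • T.v p.2))
      (Set.Icc (0 : ℝ) 1 ×ˢ Set.univ) := by
  have hr : Continuous T.r := T.hr.continuous
  have hv : Continuous T.v := T.hv.continuous
  refine T.hg.continuousOn.comp (f := fun p : ℝ × W => (T.r p.2, (p.1 : ℂ) • T.v p.2)) ?_ ?_
  · exact Continuous.continuousOn (by fun_prop)
  · intro p hp
    exact T.star _ _ (T.mem p.2) p.1 hp.1

omit [IsManifold 𝓘(ℂ, EuclideanSpace ℂ (Fin n)) ω S]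
    [IsManifold 𝓘(ℂ, EuclideanSpace ℂ (Fin N)) ω W] in
private theorem g2_integrand (T : CTube n N m S W) (q : ℕ) (f : Hol N W) :
    ContinuousOn (fun p : ℝ × W =>
      (p.1 : ℂ) ^ (q - 1) * (f : C(W, ℂ)) (T.g (T.r p.2, (p.1 : ℂ) • T.v p.2)))
      (Set.Icc (0 : ℝ) 1 ×ˢ Set.univ) := by
  refine ContinuousOn.mul (Continuous.continuousOn (by fun_prop)) ?_
  exact (f : C(W, ℂ)).continuous.comp_continuousOn (g2_scale T)

omit [IsManifold 𝓘(ℂ, EuclideanSpace ℂ (Fin n)) ω S]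
    [IsManifold 𝓘(ℂ, EuclideanSpace ℂ (Fin N)) ω W] in
private theorem g2_int (T : CTube n N m S W) (q : ℕ) (f : Hol N W) (w : W) :
    IntervalIntegrable (fun t : ℝ =>
      (t : ℂ) ^ (q - 1) * (f : C(W, ℂ)) (T.g (T.r w, (t : ℂ) • T.v w)))
      MeasureTheory.volume 0 1 := by
  apply ContinuousOn.intervalIntegrable
  rw [Set.uIcc_of_le zero_le_one]
  refine (g2_integrand T q f).comp (f := fun t : ℝ => (t, w))
    (Continuous.continuousOn (by fun_prop)) ?_
  intro t ht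
  exact ⟨ht, Set.mem_univ _⟩

private theorem g2_mdiff (T : CTube n N m S W) (q : ℕ) (f : Hol N W) :
    MDifferentiable 𝓘(ℂ, EuclideanSpace ℂ (Fin N)) 𝓘(ℂ, ℂ)
      (fun w => T.jfun q (f : C(W, ℂ)) w) := by
  refine mdiff_integral (H := fun t w =>
    (t : ℂ) ^ (q - 1) * (f : C(W, ℂ)) (T.g (T.r w, (t : ℂ) • T.v w)))
    (g2_integrand T q f) ?_
  intro t ht
  have h1 : MDifferentiable 𝓘(ℂ, EuclideanSpace ℂ (Fin N)) 𝓘(ℂ, ℂ)
      (fun w => (f : C(W, ℂ)) (T.g (T.r w, (t : ℂ) • T.v w))) :=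
    MDifferentiable.comp (g := fun w => (f : C(W, ℂ)) w) f.2 (T.mdiff_scale t ht)
  exact MDifferentiable.const_smul ((t : ℂ) ^ (q - 1)) h1

/-- the operator on functions -/
private noncomputable def g2_fun (T : CTube n N m S W) (q : ℕ) (f : Hol N W) : Hol N W :=
  ⟨⟨fun w => T.jfun q (f : C(W, ℂ)) w, (g2_mdiff T q f).continuous⟩, g2_mdiff T q f⟩

private noncomputable def g2_lin (T : CTube n N m S W) (q : ℕ) : Hol N W →ₗ[ℂ] Hol N W where
  toFun := g2_fun T q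
  map_add' := by
    intro f f'
    apply Subtype.ext
    ext w
    show T.jfun q ((f + f' : Hol N W) : C(W, ℂ)) w =
      T.jfun q (f : C(W, ℂ)) w + T.jfun q (f' : C(W, ℂ)) w
    unfold CTube.jfun
    rw [← intervalIntegral.integral_add (g2_int T q f w) (g2_int T q f' w)]
    refine intervalIntegral.integral_congr fun t _ => ?_
    exact mul_add _ _ _
  map_smul' := by
    intro c f
    apply Subtype.ext
    ext w
    show T.jfun q ((c • f : Hol N W) : C(W, ℂ)) w = c • T.jfun q (f : C(W, ℂ)) w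
    unfold CTube.jfun
    rw [← intervalIntegral.integral_smul]
    refine intervalIntegral.integral_congr fun t _ => ?_
    exact mul_left_comm _ _ _

omit [IsManifold 𝓘(ℂ, EuclideanSpace ℂ (Fin n)) ω S]
    [IsManifold 𝓘(ℂ, EuclideanSpace ℂ (Fin N)) ω W] in
private theorem g2_bound (T : CTube n N m S W) (q : ℕ) (K : Set W) (hK : IsCompact K) :
    ∃ K' : Set W, IsCompact K' ∧
      ∀ f : Hol N W, ∀ B : ℝ, (∀ w ∈ K', ‖(f : C(W, ℂ)) w‖ ≤ B) →
        ∀ w ∈ K, ‖T.jfun q (f : C(W, ℂ)) w‖ ≤ B := by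
  refine ⟨(fun p : ℝ × W => T.g (T.r p.2, (p.1 : ℂ) • T.v p.2)) '' (Set.Icc (0 : ℝ) 1 ×ˢ K),
    (isCompact_Icc.prod hK).image_of_continuousOn ((g2_scale T).mono
      (Set.prod_mono_right (Set.subset_univ _))), ?_⟩
  intro f B hB w hw
  have h : ∀ t ∈ Set.uIoc (0 : ℝ) 1,
      ‖(t : ℂ) ^ (q - 1) * (f : C(W, ℂ)) (T.g (T.r w, (t : ℂ) • T.v w))‖ ≤ B := by
    intro t ht
    rw [Set.uIoc_of_le zero_le_one] at ht
    have h1 := hB _ ⟨(t, w), ⟨⟨ht.1.le, ht.2⟩, hw⟩, rfl⟩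
    rw [norm_mul, norm_pow]
    have h2 : ‖(t : ℂ)‖ ^ (q - 1) ≤ 1 := by
      apply pow_le_one₀ (norm_nonneg _)
      rw [Complex.norm_real, Real.norm_eq_abs, abs_of_pos ht.1]
      exact ht.2
    calc ‖(t : ℂ)‖ ^ (q - 1) * ‖(f : C(W, ℂ)) (T.g (T.r w, (t : ℂ) • T.v w))‖
        ≤ 1 * ‖(f : C(W, ℂ)) (T.g (T.r w, (t : ℂ) • T.v w))‖ :=
          mul_le_mul_of_nonneg_right h2 (norm_nonneg _)
      _ = ‖(f : C(W, ℂ)) (T.g (T.r w, (t : ℂ) • T.v w))‖ := one_mul _
      _ ≤ B := h1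
  have h3 := intervalIntegral.norm_integral_le_of_norm_le_const h
  rw [sub_zero, abs_one, mul_one] at h3
  exact h3

private theorem g2_cont (T : CTube n N m S W) (q : ℕ) : Continuous (g2_lin T q) := by
  refine Continuous.subtype_mk ?_ _
  rw [continuous_iff_continuousAt]
  intro f0
  have hid : Filter.Tendsto (fun f : Hol N W => (f : C(W, ℂ))) (𝓝 f0) (𝓝 (f0 : C(W, ℂ))) :=
    continuous_subtype_val.continuousAt
  rw [ContinuousMap.tendsto_iff_forall_isCompact_tendstoUniformlyOn] at hid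
  refine ContinuousMap.tendsto_iff_forall_isCompact_tendstoUniformlyOn.mpr ?_
  intro K hK
  obtain ⟨K', hK', h⟩ := g2_bound T q K hK
  have h1 := hid K' hK'
  rw [Metric.tendstoUniformlyOn_iff] at h1 ⊢
  intro ε hε
  filter_upwards [h1 (ε / 2) (by positivity)] with f hf w hw
  have h2 : ∀ w ∈ K', ‖((f0 - f : Hol N W) : C(W, ℂ)) w‖ ≤ ε / 2 := by
    intro w hw
    have := hf w hw
    rw [dist_eq_norm] at this
    exact this.le
  have h3 := h (f0 - f) _ h2 w hw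
  have h4 : T.jfun q ((f0 - f : Hol N W) : C(W, ℂ)) w =
      T.jfun q (f0 : C(W, ℂ)) w - T.jfun q (f : C(W, ℂ)) w := by
    have := map_sub (g2_lin T q) f0 f
    exact congrArg (fun q : Hol N W => (q : C(W, ℂ)) w) this
  rw [h4] at h3
  show dist (T.jfun q (f0 : C(W, ℂ)) w) (T.jfun q (f : C(W, ℂ)) w) < ε
  rw [dist_eq_norm]
  linarith

theorem CTube.exists_J (T : CTube n N m S W) :
    ∃ J : ℕ → Hol N W →L[ℂ] Hol N W, ∀ (q : ℕ) (f : Hol N W) (w : W),
      ((J q f : Hol N W) : C(W, ℂ)) w = T.jfun q (f : C(W, ℂ)) w := by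
  exact ⟨fun q => ⟨g2_lin T q, g2_cont T q⟩, fun _ _ _ => rfl⟩

end

end HD
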