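import Pool.Agent.Helper48.HD.G0

/-!
Module HD-G3: pointwise identities for the fibre derivatives.

Proof. Fix w; let s = r w, φ(u) = f (g (s, u)), holomorphic near v w (CTube.diff_fib, mem).
dfun_pull: a (r (g (s,u))) = a s is constant for u near v w (r_g), so the derivative of the product
is a s times the derivative of φ (Filter.EventuallyEq.fderiv_eq, Ω open).
dfun_v: v (g (s,u)) j = Σ_k e(s)_(jk) u_k near v w (v_g), with derivative e(s)_(ji) in direction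
ε_i; product rule; at u = v w: v_j (w) = Σ_k e(s)_(jk) v(w)_k = v(w)_j by v_g and g_rv.
dfun_e: φ(u) = φ(e(s) u) (g_e), and e(s) v(w) = v(w), so by the chain rule
dφ(ε_i) = dφ(e(s) ε_i) = Σ_k e(s)_(ki) dφ(ε_k).
-/

open scoped Manifold ContDiff Topology

namespace HD

section

variable {n N m : ℕ} {S W : Type}
    [TopologicalSpace S] [ChartedSpace (EuclideanSpace ℂ (Fin n)) S]
    [IsManifold 𝓘(ℂ, EuclideanSpace ℂ (Fin n)) ω S]
    [TopologicalSpace W] [ChartedSpace (EuclideanSpace ℂ (Fin N)) W]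
    [IsManifold 𝓘(ℂ, EuclideanSpace ℂ (Fin N)) ω W]

omit [IsManifold 𝓘(ℂ, EuclideanSpace ℂ (Fin n)) ω S]
  [IsManifold 𝓘(ℂ, EuclideanSpace ℂ (Fin N)) ω W] in
private theorem nhd_fib (T : CTube n N m S W) (w : W) :
    {u | (T.r w, u) ∈ T.Ω} ∈ 𝓝 (T.v w) :=
  (T.hΩ.preimage (Continuous.prodMk_right (T.r w))).mem_nhds (T.mem w)

omit [IsManifold 𝓘(ℂ, EuclideanSpace ℂ (Fin n)) ω S]
  [IsManifold 𝓘(ℂ, EuclideanSpace ℂ (Fin N)) ω W] in
private theorem e_v (T : CTube n N m S W) (w : W) :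
    (T.e (T.r w)).mulVec (T.v w) = T.v w := by
  have h := T.v_g _ (T.mem w)
  rw [T.g_rv] at h
  exact h.symm

private theorem diff_at (T : CTube n N m S W) {f : W → ℂ}
    (hf : MDifferentiable 𝓘(ℂ, EuclideanSpace ℂ (Fin N)) 𝓘(ℂ, ℂ) f) (w : W) :
    DifferentiableAt ℂ (fun u : Fin m → ℂ => f (T.g (T.r w, u))) (T.v w) :=
  (T.diff_fib hf (T.r w)).differentiableAt (nhd_fib T w)

theorem CTube.dfun_pull (T : CTube n N m S W) (i : Fin m) (a : S → ℂ) {f : W → ℂ}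
    (hf : MDifferentiable 𝓘(ℂ, EuclideanSpace ℂ (Fin N)) 𝓘(ℂ, ℂ) f) (w : W) :
    T.dfun i (fun w => a (T.r w) * f w) w = a (T.r w) * T.dfun i f w := by
  have h1 : (fun u : Fin m → ℂ => (fun w => a (T.r w) * f w) (T.g (T.r w, u))) =ᶠ[𝓝 (T.v w)]
      fun u => a (T.r w) * f (T.g (T.r w, u)) := by
    filter_upwards [nhd_fib T w] with u hu
    show a (T.r (T.g (T.r w, u))) * f (T.g (T.r w, u)) = _
    rw [T.r_g _ hu]
  unfold CTube.dfun
  rw [h1.fderiv_eq, fderiv_const_mul (diff_at T hf w)]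
  rfl

theorem CTube.dfun_v (T : CTube n N m S W) (i j : Fin m) {f : W → ℂ}
    (hf : MDifferentiable 𝓘(ℂ, EuclideanSpace ℂ (Fin N)) 𝓘(ℂ, ℂ) f) (w : W) :
    T.dfun i (fun w => T.v w j * f w) w = T.e (T.r w) j i * f w + T.v w j * T.dfun i f w := by
  let L : (Fin m → ℂ) →L[ℂ] ℂ :=
    LinearMap.toContinuousLinearMap ((LinearMap.proj j).comp (Matrix.mulVecLin (T.e (T.r w))))
  have hL : ∀ u, L u = (T.e (T.r w)).mulVec u j := fun u => rfl
  have h1 : (fun u : Fin m → ℂ => (fun w => T.v w j * f w) (T.g (T.r w, u))) =ᶠ[𝓝 (T.v w)]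
      fun u => L u * f (T.g (T.r w, u)) := by
    filter_upwards [nhd_fib T w] with u hu
    show T.v (T.g (T.r w, u)) j * f (T.g (T.r w, u)) = _
    rw [T.v_g _ hu, hL]
  have h2 : HasFDerivAt (fun u => L u * f (T.g (T.r w, u)))
      (L (T.v w) • fderiv ℂ (fun u : Fin m → ℂ => f (T.g (T.r w, u))) (T.v w) +
        f (T.g (T.r w, T.v w)) • L) (T.v w) :=
    L.hasFDerivAt.mul (diff_at T hf w).hasFDerivAt
  unfold CTube.dfun
  rw [h1.fderiv_eq, h2.fderiv, T.g_rv]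
  have h3 : L (T.v w) = T.v w j := by rw [hL, e_v]
  have h4 : L (Pi.single i 1) = T.e (T.r w) j i := by
    rw [hL, Matrix.mulVec_single_one]
    rfl
  rw [h3]
  show T.v w j * (fderiv ℂ (fun u : Fin m → ℂ => f (T.g (T.r w, u))) (T.v w)) (Pi.single i 1)
    + f w * L (Pi.single i 1) = _
  rw [h4]
  ring

theorem CTube.dfun_e (T : CTube n N m S W) (i : Fin m) {f : W → ℂ}
    (hf : MDifferentiable 𝓘(ℂ, EuclideanSpace ℂ (Fin N)) 𝓘(ℂ, ℂ) f) (w : W) :
    ∑ k, T.e (T.r w) k i * T.dfun k f w = T.dfun i f w := by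
  let E : (Fin m → ℂ) →L[ℂ] (Fin m → ℂ) :=
    LinearMap.toContinuousLinearMap (Matrix.mulVecLin (T.e (T.r w)))
  have hE : ∀ u, E u = (T.e (T.r w)).mulVec u := fun u => rfl
  have h1 : HasFDerivAt (fun u : Fin m → ℂ => f (T.g (T.r w, u)))
      (fderiv ℂ (fun u : Fin m → ℂ => f (T.g (T.r w, u))) (T.v w)) (T.v w) :=
    (diff_at T hf w).hasFDerivAt
  have h2 : HasFDerivAt (fun u : Fin m → ℂ => f (T.g (T.r w, u)))
      (fderiv ℂ (fun u : Fin m → ℂ => f (T.g (T.r w, u))) (T.v w)) (E (T.v w)) := by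
    rw [hE, e_v]
    exact h1
  have h3 : HasFDerivAt (fun u : Fin m → ℂ => f (T.g (T.r w, E u)))
      ((fderiv ℂ (fun u : Fin m → ℂ => f (T.g (T.r w, u))) (T.v w)).comp E) (T.v w) :=
    h2.comp (T.v w) E.hasFDerivAt
  have h4 : (fun u : Fin m → ℂ => f (T.g (T.r w, E u))) =
      fun u : Fin m → ℂ => f (T.g (T.r w, u)) := by
    funext u
    rw [hE, T.g_e]
  rw [h4] at h3
  have h5 := h3.unique h1
  have h6 : E (Pi.single i 1) = ∑ k, T.e (T.r w) k i • (Pi.single k (1 : ℂ) : Fin m → ℂ) := by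
    rw [hE, Matrix.mulVec_single_one]
    funext k
    simp [Finset.sum_apply, Pi.single_apply, Matrix.col_apply]
  unfold CTube.dfun
  conv_rhs => rw [← h5]
  rw [ContinuousLinearMap.comp_apply, h6, map_sum]
  refine Finset.sum_congr rfl fun k _ => ?_
  rw [map_smul, smul_eq_mul]

end

end HD
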