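import Pool.Agent.Helper48.HD.G0
import Pool.Agent.Helper48.HD.F1

/-!
Module HD-G4: pointwise identities for the operators J q.

Write λ_t w = g (r w, t v w); then r (λ_t w) = r w, v (λ_t w) = t v w (v_g, and e(r w) v w = v w by
v_g, g_rv), and λ_s (λ_t w) = λ_(st) w.
jfun_pull: r (λ_t w) = r w.
jfun_v: v_j (λ_t w) = t v_j(w), t^(q-1) t = t^q (q ≥ 1).
jfun_E, jfun_1: let φ(u) = f (g (r w, u)), ψ(t) = φ(t v(w)) for t in [0,1].
Then ψ'(t) = Σ_i v_i(w) ∂_iφ(t v(w)) = Σ_i v_i(w) (dfun i f)(λ_t w) (chain rule; φ is holomorphic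
near t v(w), and dfun i f (λ_t w) is the derivative of u ↦ f (g (r w, u)) at t v(w)).
(Σ_i v_i dfun i f + q f)(λ_t w) = t ψ'(t) + q ψ(t), and t^(q-1) (t ψ' + q ψ) = (t^q ψ)', so the
integral is ψ(1) = f(w) for q ≥ 1 (fundamental theorem of calculus,
intervalIntegral.integral_eq_sub_of_hasDerivAt; ψ' is continuous on [0,1]).
jfun_1: Σ_i v_i(w) ∫ (dfun i f)(λ_t w) dt = ∫ ψ' = ψ(1) - ψ(0) = f(w) - f(g (r w, 0)).
-/

open scoped Manifold ContDiff Topology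

namespace HD

section

variable {n N m : ℕ} {S W : Type}
    [TopologicalSpace S] [ChartedSpace (EuclideanSpace ℂ (Fin n)) S]
    [IsManifold 𝓘(ℂ, EuclideanSpace ℂ (Fin n)) ω S]
    [TopologicalSpace W] [ChartedSpace (EuclideanSpace ℂ (Fin N)) W]
    [IsManifold 𝓘(ℂ, EuclideanSpace ℂ (Fin N)) ω W]

private theorem lam_mem (T : CTube n N m S W) (w : W) {t : ℝ} (ht : t ∈ Set.Icc (0 : ℝ) 1) :
    (T.r w, (t : ℂ) • T.v w) ∈ T.Ω := T.star _ _ (T.mem w) t ht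

private theorem r_lam (T : CTube n N m S W) (w : W) {t : ℝ} (ht : t ∈ Set.Icc (0 : ℝ) 1) :
    T.r (T.g (T.r w, (t : ℂ) • T.v w)) = T.r w := T.r_g _ (lam_mem T w ht)

private theorem e_v (T : CTube n N m S W) (w : W) : (T.e (T.r w)).mulVec (T.v w) = T.v w := by
  have h := T.v_g _ (T.mem w)
  rw [T.g_rv] at h
  exact h.symm

private theorem v_lam (T : CTube n N m S W) (w : W) {t : ℝ} (ht : t ∈ Set.Icc (0 : ℝ) 1) :
    T.v (T.g (T.r w, (t : ℂ) • T.v w)) = (t : ℂ) • T.v w := by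
  rw [T.v_g _ (lam_mem T w ht)]
  simp only [Matrix.mulVec_smul, e_v]

private theorem dfun_lam (T : CTube n N m S W) (w : W) {t : ℝ} (ht : t ∈ Set.Icc (0 : ℝ) 1)
    (i : Fin m) (f : W → ℂ) :
    T.dfun i f (T.g (T.r w, (t : ℂ) • T.v w)) =
      fderiv ℂ (fun u : Fin m → ℂ => f (T.g (T.r w, u))) ((t : ℂ) • T.v w) (Pi.single i 1) := by
  unfold CTube.dfun
  rw [r_lam T w ht, v_lam T w ht]

private theorem sum_single (L : (Fin m → ℂ) →L[ℂ] ℂ) (v : Fin m → ℂ) :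
    ∑ i, v i * L (Pi.single i 1) = L v := by
  have h : v = ∑ i, v i • (Pi.single i (1 : ℂ) : Fin m → ℂ) := by
    ext j
    simp [Finset.sum_apply, Pi.single_apply]
  conv_rhs => rw [h]
  rw [map_sum]
  simp

private theorem cont_seg (T : CTube n N m S W) {f : W → ℂ}
    (hf : MDifferentiable 𝓘(ℂ, EuclideanSpace ℂ (Fin N)) 𝓘(ℂ, ℂ) f) (w : W) (x : Fin m → ℂ) :
    ContinuousOn (fun t : ℝ => fderiv ℂ (fun u : Fin m → ℂ => f (T.g (T.r w, u)))
      ((t : ℂ) • T.v w) x) (Set.Icc 0 1) := by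
  have hU : IsOpen {u : Fin m → ℂ | (T.r w, u) ∈ T.Ω} := T.hΩ.preimage (by fun_prop)
  have h := (hol_fderiv hU (T.diff_fib hf (T.r w)) x).continuousOn
  exact h.comp (f := fun t : ℝ => (t : ℂ) • T.v w) (by fun_prop) (fun t ht => lam_mem T w ht)

private theorem deriv_seg (T : CTube n N m S W) {f : W → ℂ}
    (hf : MDifferentiable 𝓘(ℂ, EuclideanSpace ℂ (Fin N)) 𝓘(ℂ, ℂ) f) (w : W) {t : ℝ}
    (ht : t ∈ Set.Icc (0 : ℝ) 1) :
    HasDerivAt (fun t : ℝ => f (T.g (T.r w, (t : ℂ) • T.v w)))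
      (fderiv ℂ (fun u : Fin m → ℂ => f (T.g (T.r w, u))) ((t : ℂ) • T.v w) (T.v w)) t := by
  have hU : IsOpen {u : Fin m → ℂ | (T.r w, u) ∈ T.Ω} := T.hΩ.preimage (by fun_prop)
  have h1 : DifferentiableAt ℂ (fun u : Fin m → ℂ => f (T.g (T.r w, u))) ((t : ℂ) • T.v w) :=
    (T.diff_fib hf (T.r w)).differentiableAt (hU.mem_nhds (lam_mem T w ht))
  have h2 : HasDerivAt (fun z : ℂ => z • T.v w) (T.v w) (t : ℂ) := by
    simpa using (hasDerivAt_id (t : ℂ)).smul_const (T.v w)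
  exact (h1.hasFDerivAt.comp_hasDerivAt (t : ℂ) h2).comp_ofReal

private theorem mem01 {t : ℝ} (ht : t ∈ Set.uIcc (0 : ℝ) 1) : t ∈ Set.Icc (0 : ℝ) 1 := by
  rwa [Set.uIcc_of_le zero_le_one] at ht

theorem CTube.jfun_pull (T : CTube n N m S W) (q : ℕ) (a : S → ℂ) (f : W → ℂ) (w : W) :
    T.jfun q (fun w => a (T.r w) * f w) w = a (T.r w) * T.jfun q f w := by
  unfold CTube.jfun
  rw [← intervalIntegral.integral_const_mul]
  refine intervalIntegral.integral_congr (fun t ht => ?_)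
  simp only
  rw [r_lam T w (mem01 ht)]
  ring

theorem CTube.jfun_v (T : CTube n N m S W) (q : ℕ) (hq : 1 ≤ q) (j : Fin m) (f : W → ℂ) (w : W) :
    T.jfun q (fun w => T.v w j * f w) w = T.v w j * T.jfun (q + 1) f w := by
  unfold CTube.jfun
  rw [← intervalIntegral.integral_const_mul]
  refine intervalIntegral.integral_congr (fun t ht => ?_)
  simp only
  rw [v_lam T w (mem01 ht)]
  obtain ⟨k, rfl⟩ : ∃ k, q = k + 1 := ⟨q - 1, by omega⟩
  simp only [Nat.add_sub_cancel, Pi.smul_apply, smul_eq_mul, pow_succ]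
  ring

theorem CTube.jfun_E (T : CTube n N m S W) (q : ℕ) (hq : 1 ≤ q) {f : W → ℂ}
    (hf : MDifferentiable 𝓘(ℂ, EuclideanSpace ℂ (Fin N)) 𝓘(ℂ, ℂ) f) (w : W) :
    T.jfun q (fun w => ∑ i, T.v w i * T.dfun i f w + (q : ℂ) * f w) w = f w := by
  obtain ⟨k, rfl⟩ : ∃ k, q = k + 1 := ⟨q - 1, by omega⟩
  have hd : ∀ t ∈ Set.uIcc (0 : ℝ) 1, HasDerivAt
      (fun t : ℝ => (t : ℂ) ^ (k + 1) * f (T.g (T.r w, (t : ℂ) • T.v w)))
      (((k + 1 : ℕ) : ℂ) * (t : ℂ) ^ k * f (T.g (T.r w, (t : ℂ) • T.v w)) +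
        (t : ℂ) ^ (k + 1) * fderiv ℂ (fun u : Fin m → ℂ => f (T.g (T.r w, u)))
          ((t : ℂ) • T.v w) (T.v w)) t := by
    intro t ht
    have h1 : HasDerivAt (fun t : ℝ => (t : ℂ) ^ (k + 1)) (((k + 1 : ℕ) : ℂ) * (t : ℂ) ^ k) t := by
      simpa using (hasDerivAt_pow (k + 1) (t : ℂ)).comp_ofReal
    exact h1.mul (deriv_seg T hf w (mem01 ht))
  have hc1 : ContinuousOn (fun t : ℝ => f (T.g (T.r w, (t : ℂ) • T.v w))) (Set.uIcc 0 1) :=
    fun t ht => (deriv_seg T hf w (mem01 ht)).continuousAt.continuousWithinAt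
  have hc2 := cont_seg T hf w (T.v w)
  rw [← Set.uIcc_of_le (zero_le_one' ℝ)] at hc2
  have hc : ContinuousOn (fun t : ℝ =>
      (((k + 1 : ℕ) : ℂ) * (t : ℂ) ^ k * f (T.g (T.r w, (t : ℂ) • T.v w)) +
        (t : ℂ) ^ (k + 1) * fderiv ℂ (fun u : Fin m → ℂ => f (T.g (T.r w, u)))
          ((t : ℂ) • T.v w) (T.v w))) (Set.uIcc 0 1) := by
    refine ContinuousOn.add (ContinuousOn.mul ?_ hc1) (ContinuousOn.mul ?_ hc2)
    · exact (by fun_prop : Continuous (fun t : ℝ => ((k + 1 : ℕ) : ℂ) * (t : ℂ) ^ k)).continuousOn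
    · exact (by fun_prop : Continuous (fun t : ℝ => (t : ℂ) ^ (k + 1))).continuousOn
  have h := intervalIntegral.integral_eq_sub_of_hasDerivAt hd hc.intervalIntegrable
  have h2 : T.jfun (k + 1) (fun w => ∑ i, T.v w i * T.dfun i f w + ((k + 1 : ℕ) : ℂ) * f w) w =
      ∫ t in (0 : ℝ)..1, (((k + 1 : ℕ) : ℂ) * (t : ℂ) ^ k * f (T.g (T.r w, (t : ℂ) • T.v w)) +
        (t : ℂ) ^ (k + 1) * fderiv ℂ (fun u : Fin m → ℂ => f (T.g (T.r w, u)))
          ((t : ℂ) • T.v w) (T.v w)) := by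
    unfold CTube.jfun
    refine intervalIntegral.integral_congr (fun t ht => ?_)
    have h3 : ∑ i, T.v (T.g (T.r w, (t : ℂ) • T.v w)) i *
        T.dfun i f (T.g (T.r w, (t : ℂ) • T.v w)) =
        (t : ℂ) * fderiv ℂ (fun u : Fin m → ℂ => f (T.g (T.r w, u)))
          ((t : ℂ) • T.v w) (T.v w) := by
      rw [← sum_single, Finset.mul_sum]
      refine Finset.sum_congr rfl (fun i _ => ?_)
      rw [v_lam T w (mem01 ht), dfun_lam T w (mem01 ht), Pi.smul_apply, smul_eq_mul]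
      ring
    simp only [Nat.add_sub_cancel]
    rw [h3]
    ring
  rw [h2, h]
  simp [T.g_rv]

theorem CTube.jfun_1 (T : CTube n N m S W) {f : W → ℂ}
    (hf : MDifferentiable 𝓘(ℂ, EuclideanSpace ℂ (Fin N)) 𝓘(ℂ, ℂ) f) (w : W) :
    ∑ i, T.v w i * T.jfun 1 (T.dfun i f) w = f w - f (T.g (T.r w, 0)) := by
  have hd : ∀ t ∈ Set.uIcc (0 : ℝ) 1, HasDerivAt
      (fun t : ℝ => f (T.g (T.r w, (t : ℂ) • T.v w)))
      (fderiv ℂ (fun u : Fin m → ℂ => f (T.g (T.r w, u))) ((t : ℂ) • T.v w) (T.v w)) t :=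
    fun t ht => deriv_seg T hf w (mem01 ht)
  have hc : ∀ x : Fin m → ℂ, ContinuousOn (fun t : ℝ =>
      fderiv ℂ (fun u : Fin m → ℂ => f (T.g (T.r w, u))) ((t : ℂ) • T.v w) x)
      (Set.uIcc 0 1) := by
    intro x
    rw [Set.uIcc_of_le (zero_le_one' ℝ)]
    exact cont_seg T hf w x
  have h := intervalIntegral.integral_eq_sub_of_hasDerivAt hd (hc (T.v w)).intervalIntegrable
  have h2 : ∑ i, T.v w i * T.jfun 1 (T.dfun i f) w =
      ∫ t in (0 : ℝ)..1, fderiv ℂ (fun u : Fin m → ℂ => f (T.g (T.r w, u)))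
        ((t : ℂ) • T.v w) (T.v w) := by
    have h3 : ∀ i, T.v w i * T.jfun 1 (T.dfun i f) w =
        ∫ t in (0 : ℝ)..1, T.v w i * fderiv ℂ (fun u : Fin m → ℂ => f (T.g (T.r w, u)))
          ((t : ℂ) • T.v w) (Pi.single i 1) := by
      intro i
      unfold CTube.jfun
      rw [← intervalIntegral.integral_const_mul]
      refine intervalIntegral.integral_congr (fun t ht => ?_)
      rw [dfun_lam T w (mem01 ht)]
      simp
    simp only [h3]
    rw [← intervalIntegral.integral_finsetSum]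
    · refine intervalIntegral.integral_congr (fun t ht => ?_)
      exact sum_single _ _
    · intro i _
      exact ((hc (Pi.single i 1)).const_smul (T.v w i)).intervalIntegrable
  rw [h2, h]
  simp [T.g_rv]

end

end HD
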