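import Pool.Agent.Helper48.HD.GDefs

/-!
Module HD-G5: pull back along holomorphic maps.

Proof. Composition with a holomorphic (hence continuous) map is a homomorphism of algebras and
continuous for the compact-open topologies (ContinuousMap.continuous_precomp).
-/

open scoped Manifold ContDiff Topology

namespace HD

open Pool.Agent.Helper39.ST

section

variable {n N m : ℕ} {S W : Type}
    [TopologicalSpace S] [ChartedSpace (EuclideanSpace ℂ (Fin n)) S]
    [IsManifold 𝓘(ℂ, EuclideanSpace ℂ (Fin n)) ω S]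
    [TopologicalSpace W] [ChartedSpace (EuclideanSpace ℂ (Fin N)) W]
    [IsManifold 𝓘(ℂ, EuclideanSpace ℂ (Fin N)) ω W]

theorem exists_pull (f : W → S)
    (hf : MDifferentiable 𝓘(ℂ, EuclideanSpace ℂ (Fin N)) 𝓘(ℂ, EuclideanSpace ℂ (Fin n)) f) :
    ∃ φ : Hol n S →ₐ[ℂ] Hol N W, Continuous φ ∧
      ∀ (a : Hol n S) (w : W), ((φ a : Hol N W) : C(W, ℂ)) w = (a : C(S, ℂ)) (f w) := by
  let F : C(W, S) := ⟨f, hf.continuous⟩
  refine ⟨((ContinuousMap.compRightAlgHom ℂ ℂ F).comp (Hol n S).val).codRestrict (Hol N W)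
    (fun a => ?_), ?_, fun a w => rfl⟩
  · have ha : MDifferentiable 𝓘(ℂ, EuclideanSpace ℂ (Fin n)) 𝓘(ℂ, ℂ) (a : C(S, ℂ)) := a.2
    exact ha.comp hf
  · exact ((ContinuousMap.continuous_precomp F).comp continuous_subtype_val).subtype_mk _

end

end HD
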