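import Pool.Agent.Helper48.HD.G1
import Pool.Agent.Helper48.HD.G2
import Pool.Agent.Helper48.HD.G3
import Pool.Agent.Helper48.HD.G4
import Pool.Agent.Helper48.HD.G5
import Pool.Agent.Helper48.HD.CB

/-!
Module HD-GT: the algebraic tube of a geometric tube.

Proof. A = Hol n S, B = Hol N W, ι = pull back along r (G5), ρ = pull back along s ↦ g (s, 0)
(G5, CTube.mdiff_zero; r (g (s,0)) = s).  e_(ij) as elements of A.
M = {x : Fin m → A | Σ_j e_(ij) x_j = x_i} (submodule of Fin m → A), x_j = column j of e,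
ξ_i = coordinate i; Σ_i ξ_i(y) x_i = e y = y.  v_i = coordinate i of v; v (g (s,0)) = e(s) 0 = 0.
D y f = Σ_i ι(y_i) * (D i f) with D i of G1; D_v: Σ_i y_i e_(ji) = y_j.  D (x_j) f = Σ_i e_(ij) D i f
= D j f by dfun_e.  J of G2; J_E, J_v, J_1 from G4 (the smul q • b is (q : ℂ) * b).
c = c, lam I y' = (1/c!) det of the matrix (k,l) ↦ (y'_l)_(I k) in A (alternating, A-multilinear in
y'), mu I = fun k => x_(I k); Σ_I lam I (mu I) = (1/c!) Σ_I det (e_(I k, I l)) = 1 pointwise by
sum_minors (CB).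
-/

open scoped Manifold ContDiff Topology

namespace HD

open Pool.Agent.Helper39.ST

section

private noncomputable def gtmul {B : Type} [CommRing B] [Algebra ℂ B] [UniformSpace B]
    [ContinuousMul B] (b : B) : B →L[ℂ] B :=
  ⟨LinearMap.mulLeft ℂ b, continuous_const.mul continuous_id⟩

/-- The algebraic part of the construction. -/
private theorem abs_tube {A B : Type} [CommRing A] [Algebra ℂ A] [UniformSpace A]
    [CommRing B] [Algebra ℂ B] [UniformSpace B] [ContinuousAdd B] [ContinuousMul B] {m : ℕ}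
    (ι : A →ₐ[ℂ] B) (ρ : B →ₐ[ℂ] A) (hι : Continuous ι) (hρ : Continuous ρ)
    (ρι : ∀ a, ρ (ι a) = a) (E : Matrix (Fin m) (Fin m) A) (hE : E * E = E) (v : Fin m → B)
    (ρv : ∀ i, ρ (v i) = 0) (D : Fin m → B →L[ℂ] B) (J : ℕ → B →L[ℂ] B)
    (hD_lin : ∀ i a b, D i (ι a * b) = ι a * D i b)
    (hD_v : ∀ i j b, D i (v j * b) = ι (E j i) * b + v j * D i b)
    (hD_e : ∀ i b, ∑ k, ι (E k i) * D k b = D i b)
    (J_lin : ∀ q a b, J q (ι a * b) = ι a * J q b)
    (J_E : ∀ (q : ℕ) (b : B), 1 ≤ q → J q (∑ i, v i * D i b + q • b) = b)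
    (J_v : ∀ q i b, 1 ≤ q → J q (v i * b) = v i * J (q + 1) b)
    (J_1 : ∀ b, ∑ i, v i * J 1 (D i b) = b - ι (ρ b)) (c : ℕ) (κ : A)
    (hκ : ∑ I : Fin c → Fin m, κ * Matrix.det (Matrix.of fun l k => E (I k) (I l)) = 1)
    (hmin : ∀ q, c < q → ∀ I J : Fin q → Fin m,
      Matrix.det (Matrix.of fun k l => E (I k) (J l)) = 0) :
    ∃ 𝕋 : Tube A B, 𝕋.c = c ∧ 𝕋.ρ = ρ ∧ ∀ q, c < q → ∀ I J : Fin q → Fin 𝕋.m,
      Matrix.det (Matrix.of fun k l => 𝕋.ξ (I k) (𝕋.x (J l))) = 0 := by
  let M : Submodule A (Fin m → A) := LinearMap.eqLocus E.mulVecLin LinearMap.id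
  let x : Fin m → M := fun j => ⟨fun i => E i j, by
    show E.mulVec (fun i => E i j) = fun i => E i j
    ext1 i
    have := congrFun (congrFun hE i) j
    rw [Matrix.mul_apply] at this
    exact this⟩
  let ξ : Fin m → M →ₗ[A] A := fun i => (LinearMap.proj i).comp M.subtype
  have hξ : ∀ i (y : M), ξ i y = (y : Fin m → A) i := fun i y => rfl
  have hM : ∀ (y : M) (i : Fin m), ∑ j, E i j * (y : Fin m → A) j = (y : Fin m → A) i := by
    intro y i
    have h : E.mulVec (y : Fin m → A) = (y : Fin m → A) := y.2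
    exact congrFun h i
  have hsum : ∀ (y : M) (b : B),
      (∑ i, (gtmul (ι ((y : Fin m → A) i))).comp (D i) : B →L[ℂ] B) b =
        ∑ i, ι ((y : Fin m → A) i) * D i b := by
    intro y b
    rw [sum_apply]
    rfl
  have hDx : ∀ i (b : B),
      (∑ k, (gtmul (ι (((x i : M) : Fin m → A) k))).comp (D k) : B →L[ℂ] B) b = D i b := by
    intro i b
    exact (hsum (x i) b).trans (hD_e i b)
  let L : (Fin c → Fin m) → M →ₗ[A] (Fin c → A) := fun I => LinearMap.pi fun k => ξ (I k)
  let Λ : (Fin c → Fin m) → AlternatingMap A M A (Fin c) :=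
    fun I => (Matrix.detRowAlternating (n := Fin c) (R := A)).compLinearMap (L I)
  refine ⟨{ ι := ι
            ρ := ρ
            hι := hι
            hρ := hρ
            ρι := ρι
            M := M
            m := m
            x := x
            ξ := ξ
            ξx := ?_
            v := v
            ρv := ρv
            D := fun y => ∑ i, (gtmul (ι ((y : Fin m → A) i))).comp (D i)
            J := J
            D_add := ?_
            D_smul := ?_
            D_lin := ?_
            D_v := ?_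
            J_lin := J_lin
            J_E := ?_
            J_v := J_v
            J_1 := ?_
            c := c
            lam := fun I y => κ * Λ I y
            hlam := ?_
            mu := fun I k => x (I k)
            lam_mu := ?_ }, rfl, rfl, hmin⟩
  · intro y
    apply Subtype.ext
    ext1 k
    rw [← hM y k]
    simp only [Submodule.coe_sum, Submodule.coe_smul, Finset.sum_apply, Pi.smul_apply,
      smul_eq_mul]
    refine Finset.sum_congr rfl fun j _ => ?_
    exact mul_comm _ _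
  · intro y y' b
    rw [hsum, hsum, hsum, ← Finset.sum_add_distrib]
    refine Finset.sum_congr rfl fun i _ => ?_
    rw [Submodule.coe_add, Pi.add_apply, map_add, add_mul]
  · intro a y b
    rw [hsum, hsum, Finset.mul_sum]
    refine Finset.sum_congr rfl fun i _ => ?_
    rw [Submodule.coe_smul, Pi.smul_apply, smul_eq_mul, map_mul, mul_assoc]
  · intro y a b
    rw [hsum, hsum, Finset.mul_sum]
    refine Finset.sum_congr rfl fun i _ => ?_
    rw [hD_lin]
    ring
  · intro y j b
    rw [hsum, hsum, Finset.mul_sum, hξ, ← hM y j, map_sum, Finset.sum_mul,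
      ← Finset.sum_add_distrib]
    refine Finset.sum_congr rfl fun i _ => ?_
    rw [hD_v, map_mul]
    ring
  · intro q b hq
    have h0 : ∑ i, v i * (∑ k, (gtmul (ι (((x i : M) : Fin m → A) k))).comp
        (D k) : B →L[ℂ] B) b + q • b = ∑ i, v i * D i b + q • b := by
      congr 1
      exact Finset.sum_congr rfl fun i _ => by rw [hDx]
    rw [h0]
    exact J_E q b hq
  · intro b
    have h0 : ∑ i, v i * J 1 ((∑ k, (gtmul (ι (((x i : M) : Fin m → A) k))).comp
        (D k) : B →L[ℂ] B) b) = ∑ i, v i * J 1 (D i b) :=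
      Finset.sum_congr rfl fun i _ => by rw [hDx]
    rw [h0]
    exact J_1 b
  · intro I
    refine ⟨fun y i u v => ?_, fun y i a u => ?_, fun y i j h hij => ?_⟩
    · show κ * Λ I _ = κ * Λ I _ + κ * Λ I _
      rw [AlternatingMap.map_update_add, mul_add]
    · show κ * Λ I _ = a * (κ * Λ I _)
      rw [AlternatingMap.map_update_smul, smul_eq_mul]
      ring
    · show κ * Λ I _ = 0
      rw [(Λ I).map_eq_zero_of_eq y h hij, mul_zero]
  · exact hκ

end

section

variable {n N m : ℕ} {S W : Type}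
    [TopologicalSpace S] [ChartedSpace (EuclideanSpace ℂ (Fin n)) S]
    [IsManifold 𝓘(ℂ, EuclideanSpace ℂ (Fin n)) ω S]
    [TopologicalSpace W] [ChartedSpace (EuclideanSpace ℂ (Fin N)) W]
    [IsManifold 𝓘(ℂ, EuclideanSpace ℂ (Fin N)) ω W]

private theorem gt_add (N : ℕ) (W : Type) [TopologicalSpace W]
    [ChartedSpace (EuclideanSpace ℂ (Fin N)) W] : ContinuousAdd (Hol N W) := by
  have h : IsTopologicalRing (Hol N W) := inferInstance
  exact h.toContinuousAdd

private theorem gt_mul (N : ℕ) (W : Type) [TopologicalSpace W]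
    [ChartedSpace (EuclideanSpace ℂ (Fin N)) W] : ContinuousMul (Hol N W) := by
  have h : IsTopologicalRing (Hol N W) := inferInstance
  exact h.toContinuousMul

/-- evaluation at a point -/
private noncomputable def gtev (n : ℕ) {S : Type} [TopologicalSpace S]
    [ChartedSpace (EuclideanSpace ℂ (Fin n)) S] (s : S) : Hol n S →+* ℂ where
  toFun f := (f : C(S, ℂ)) s
  map_one' := rfl
  map_mul' _ _ := rfl
  map_zero' := rfl
  map_add' _ _ := rfl

private theorem gt_ext {n : ℕ} {S : Type} [TopologicalSpace S]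
    [ChartedSpace (EuclideanSpace ℂ (Fin n)) S] {f f' : Hol n S}
    (h : ∀ s, gtev n s f = gtev n s f') : f = f' :=
  Subtype.ext (ContinuousMap.ext h)

/-- the entries of e as holomorphic functions -/
private noncomputable def gtE (T : CTube n N m S W) : Matrix (Fin m) (Fin m) (Hol n S) :=
  Matrix.of fun i j => ⟨⟨fun s => T.e s i j, (T.he i j).continuous⟩, T.he i j⟩

private theorem gtE_ev (T : CTube n N m S W) (i j : Fin m) (s : S) :
    gtev n s (gtE T i j) = T.e s i j := rfl

private theorem gtE_sq (T : CTube n N m S W) : gtE T * gtE T = gtE T := by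
  ext1 i j
  refine gt_ext fun s => ?_
  rw [Matrix.mul_apply, map_sum]
  simp only [map_mul, gtE_ev]
  have := congrFun (congrFun (T.ee s) i) j
  rw [Matrix.mul_apply] at this
  exact this

private noncomputable def gtv (T : CTube n N m S W) (i : Fin m) : Hol N W :=
  ⟨⟨fun w => T.v w i, (continuous_apply i).comp T.hv.continuous⟩, by
    show MDifferentiable 𝓘(ℂ, EuclideanSpace ℂ (Fin N)) 𝓘(ℂ, ℂ) (fun w => T.v w i)
    exact (ContinuousLinearMap.proj (R := ℂ) (φ := fun _ : Fin m => ℂ) i).mdifferentiable.comp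
      T.hv⟩

private theorem gtv_ev (T : CTube n N m S W) (i : Fin m) (w : W) :
    gtev N w (gtv T i) = T.v w i := rfl

private theorem minor_zero (m c q : ℕ) (P : Matrix (Fin m) (Fin m) ℂ) (hr : P.rank = c)
    (hq : c < q) (I J : Fin q → Fin m) : (P.submatrix I J).det = 0 := by
  by_contra h
  have h1 : P.submatrix I J = ((1 : Matrix (Fin m) (Fin m) ℂ).submatrix I id) * P *
      ((1 : Matrix (Fin m) (Fin m) ℂ).submatrix id J) := by
    ext a b
    simp [Matrix.mul_apply, Matrix.one_apply]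
  have h2 : (P.submatrix I J).rank ≤ c := by
    rw [h1, ← hr]
    exact (Matrix.rank_mul_le_left _ _).trans (Matrix.rank_mul_le_right _ _)
  have h3 : (P.submatrix I J).rank = q := by
    rw [Matrix.rank_of_isUnit _ ((Matrix.isUnit_iff_isUnit_det _).2 (isUnit_iff_ne_zero.2 h))]
    simp
  omega

theorem CTube.exists_tube (T : CTube n N m S W) (c : ℕ) (hc : ∀ s, (T.e s).rank = c) :
    ∃ 𝕋 : Tube (Hol n S) (Hol N W), 𝕋.c = c ∧
      (∀ (f : Hol N W) (s : S),
        ((𝕋.ρ f : Hol n S) : C(S, ℂ)) s = (f : C(W, ℂ)) (T.g (s, 0))) ∧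
      ∀ q, c < q → ∀ I J : Fin q → Fin 𝕋.m,
        Matrix.det (Matrix.of fun k l => 𝕋.ξ (I k) (𝕋.x (J l))) = 0 := by
  obtain ⟨ι, hι, ιe⟩ := exists_pull (n := n) (N := N) (S := S) (W := W) T.r T.hr
  obtain ⟨ρ, hρ, ρe⟩ := exists_pull (n := N) (N := n) (S := W) (W := S) (fun s => T.g (s, 0))
    T.mdiff_zero
  obtain ⟨D, hD⟩ := T.exists_D
  obtain ⟨J, hJ⟩ := T.exists_J
  have ιv : ∀ (a : Hol n S) (w : W), gtev N w (ι a) = gtev n (T.r w) a := ιe
  have ρv : ∀ (f : Hol N W) (s : S), gtev n s (ρ f) = gtev N (T.g (s, 0)) f := ρe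
  have Dv : ∀ (i : Fin m) (f : Hol N W) (w : W),
      gtev N w (D i f) = T.dfun i (f : C(W, ℂ)) w := hD
  have Jv : ∀ (q : ℕ) (f : Hol N W) (w : W), gtev N w (J q f) = T.jfun q (f : C(W, ℂ)) w := hJ
  have hmulfun : ∀ (a : Hol n S) (b : Hol N W), (((ι a * b : Hol N W) : C(W, ℂ)) : W → ℂ) =
        fun w => (a : C(S, ℂ)) (T.r w) * (b : C(W, ℂ)) w := by
    intro a b
    funext w
    show ((ι a : Hol N W) : C(W, ℂ)) w * _ = _
    rw [ιe]
  have hD_lin : ∀ i (a : Hol n S) (b : Hol N W), D i (ι a * b) = ι a * D i b := by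
    intro i a b
    refine gt_ext fun w => ?_
    rw [map_mul (gtev N w), Dv, Dv, ιv, hmulfun]
    exact T.dfun_pull i (a : C(S, ℂ)) b.2 w
  have hD_v : ∀ i j (b : Hol N W), D i (gtv T j * b) = ι (gtE T j i) * b + gtv T j * D i b := by
    intro i j b
    refine gt_ext fun w => ?_
    rw [map_add (gtev N w), map_mul (gtev N w), map_mul (gtev N w), Dv, Dv, ιv, gtv_ev, gtE_ev]
    exact T.dfun_v i j b.2 w
  have hD_e : ∀ i (b : Hol N W), ∑ k, ι (gtE T k i) * D k b = D i b := by
    intro i b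
    refine gt_ext fun w => ?_
    rw [map_sum (gtev N w), Dv]
    have h1 : ∀ k, gtev N w (ι (gtE T k i) * D k b) =
        T.e (T.r w) k i * T.dfun k (b : C(W, ℂ)) w := by
      intro k
      rw [map_mul (gtev N w), ιv, Dv, gtE_ev]
    simp only [h1]
    exact T.dfun_e i b.2 w
  have hcf : ((Nat.factorial c : ℕ) : ℂ) ≠ 0 := by exact_mod_cast Nat.factorial_ne_zero c
  let κ : Hol n S := algebraMap ℂ (Hol n S) ((Nat.factorial c : ℕ) : ℂ)⁻¹
  have hρι : ∀ a, ρ (ι a) = a := by
    intro a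
    refine gt_ext fun s => ?_
    rw [ρv, ιv, T.r_g _ (T.zero s)]
  have hρv : ∀ i, ρ (gtv T i) = 0 := by
    intro i
    refine gt_ext fun s => ?_
    rw [ρv, gtv_ev, T.v_g _ (T.zero s), map_zero (gtev n s)]
    simp
  have hJ_lin : ∀ q (a : Hol n S) (b : Hol N W), J q (ι a * b) = ι a * J q b := by
    intro q a b
    refine gt_ext fun w => ?_
    rw [map_mul (gtev N w), Jv, Jv, ιv, hmulfun]
    exact T.jfun_pull q (a : C(S, ℂ)) (b : C(W, ℂ)) w
  have hJ_E : ∀ (q : ℕ) (b : Hol N W), 1 ≤ q → J q (∑ i, gtv T i * D i b + q • b) = b := by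
    intro q b hq
    refine gt_ext fun w => ?_
    rw [Jv]
    have h1 : (((∑ i, gtv T i * D i b + q • b : Hol N W) : C(W, ℂ)) : W → ℂ) =
        fun w => ∑ i, T.v w i * T.dfun i (b : C(W, ℂ)) w + (q : ℂ) * (b : C(W, ℂ)) w := by
      funext w
      have h2 : ∀ i, gtev N w (gtv T i * D i b) = T.v w i * T.dfun i (b : C(W, ℂ)) w := by
        intro i
        rw [map_mul (gtev N w), gtv_ev, Dv]
      show gtev N w (∑ i, gtv T i * D i b + q • b) = _
      rw [map_add (gtev N w), map_sum (gtev N w), map_nsmul (gtev N w), nsmul_eq_mul]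
      simp only [h2]
      rfl
    rw [h1]
    exact T.jfun_E q hq b.2 w
  have hJ_v : ∀ q i (b : Hol N W), 1 ≤ q → J q (gtv T i * b) = gtv T i * J (q + 1) b := by
    intro q i b hq
    refine gt_ext fun w => ?_
    rw [map_mul (gtev N w), Jv, Jv, gtv_ev]
    exact T.jfun_v q hq i (b : C(W, ℂ)) w
  have hJ_1 : ∀ b : Hol N W, ∑ i, gtv T i * J 1 (D i b) = b - ι (ρ b) := by
    intro b
    refine gt_ext fun w => ?_
    rw [map_sub (gtev N w), ιv, ρv, map_sum (gtev N w)]
    have h1 : ∀ i, (((D i b : Hol N W) : C(W, ℂ)) : W → ℂ) = T.dfun i (b : C(W, ℂ)) := by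
      intro i
      funext w
      exact hD i b w
    have h2 : ∀ i, gtev N w (gtv T i * J 1 (D i b)) =
        T.v w i * T.jfun 1 (T.dfun i (b : C(W, ℂ))) w := by
      intro i
      rw [map_mul (gtev N w), gtv_ev, Jv, h1]
    simp only [h2]
    exact T.jfun_1 b.2 w
  have hκ : ∑ I : Fin c → Fin m,
      κ * Matrix.det (Matrix.of fun l k => gtE T (I k) (I l)) = 1 := by
    refine gt_ext fun s => ?_
    rw [map_sum (gtev n s), map_one (gtev n s)]
    have h1 : ∀ I : Fin c → Fin m,
        gtev n s (κ * Matrix.det (Matrix.of fun l k => gtE T (I k) (I l))) =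
        ((Nat.factorial c : ℕ) : ℂ)⁻¹ * ((T.e s).submatrix I I).det := by
      intro I
      have hd := RingHom.map_det (R := Hol n S) (S := ℂ) (gtev n s)
        (Matrix.of fun l k => gtE T (I k) (I l))
      rw [map_mul (gtev n s), ← Matrix.det_transpose ((T.e s).submatrix I I)]
      exact congrArg (fun z => ((Nat.factorial c : ℕ) : ℂ)⁻¹ * z) hd
    rw [Finset.sum_congr rfl fun I _ => h1 I, ← Finset.mul_sum,
      sum_minors m c (T.e s) (T.ee s) (hc s)]
    exact inv_mul_cancel₀ hcf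
  have hmin : ∀ q, c < q → ∀ I J : Fin q → Fin m,
      Matrix.det (Matrix.of fun k l => gtE T (I k) (J l)) = 0 := by
    intro q hq I J
    refine gt_ext fun s => ?_
    have hd := RingHom.map_det (R := Hol n S) (S := ℂ) (gtev n s)
      (Matrix.of fun k l => gtE T (I k) (J l))
    exact (hd.trans (minor_zero m c q (T.e s) (hc s) hq I J)).trans (map_zero (gtev n s)).symm
  obtain ⟨𝕋, h1, h2, h3⟩ := @abs_tube (Hol n S) (Hol N W) _ _ _ _ _ _ (gt_add N W) (gt_mul N W)
    m ι ρ hι hρ hρι (gtE T) (gtE_sq T) (gtv T) hρv D J hD_lin hD_v hD_e hJ_lin hJ_E hJ_v hJ_1 c κ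
    hκ hmin
  refine ⟨𝕋, h1, fun f s => ?_, h3⟩
  rw [h2]
  exact ρe f s

end

end HD
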