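import Pool.Agent.Helper48.HD.PDefs
import Pool.Agent.Helper39.ST.Defs

/-!
Module HD-PB: PMod Bool A and the bimodules of Helper39/ST/Defs.lean give the same bidimension.

Proof. Pure translation.  ofB : PMod Bool A → BiMod A: same V; l a = x ↦ act true a x,
r a = x ↦ act false a x as bilinear maps (LinearMap.mk₂); r_mul: r (a * b) v = r a (r b v) =
r b (r a v) by comm; continuity = cont.  toB : BiMod A → PMod Bool A: act i a x = if i then l a x
else r a x; act_mul for false: r (a * b) = r (b * a) = r a (r b ·) by commutativity of A, comm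
in the four cases: l_r, and for equal indices from l_mul, r_mul and commutativity of A.
Poly is the same condition.  Proj: for P : PMod Bool A, (ofB P).IsProjective ↔ P.Proj, testing with
toB E, ofB E (maps: a continuous linear map f is the same as a function with IsMap; build
the ContinuousLinearMap from IsMap); (toB P).Proj ↔ P.IsProjective.
HasRes X m ↔ (ofB X).HasResolution m: translate all modules and maps (→: ofB (P k); ←: toB (P k); for
← the augmentation goes to X itself, as a function V → V).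
unitz A corresponds to unitization A (same V, same actions), so (unitz A).HasRes m ↔
(unitization A).HasResolution m; then dbP A = db A as infima of the same set.
-/

open scoped Manifold ContDiff Topology

namespace HD

open Pool.Agent.Helper39.ST (BiMod unitization)

section

variable {A : Type} [CommRing A] [Algebra ℂ A] [TopologicalSpace A]

/-- a PMod over Bool as a bimodule -/
private noncomputable abbrev ofB (X : PMod Bool A) : BiMod A where
  V := X.V
  l := LinearMap.mk₂ ℂ (fun a v => X.act true a v) (X.add_act true) (X.smul_act true)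
    (X.act_add true) (fun z a v => X.act_smul true a z v)
  r := LinearMap.mk₂ ℂ (fun a v => X.act false a v) (X.add_act false) (X.smul_act false)
    (X.act_add false) (fun z a v => X.act_smul false a z v)
  l_mul := fun a b v => X.act_mul true a b v
  r_mul := fun a b v => (X.act_mul false a b v).trans (X.comm false false a b v)
  l_r := fun a b v => X.comm true false a b v
  continuous_l := X.cont true
  continuous_r := X.cont false

/-- a bimodule as a PMod over Bool -/
private abbrev toB (X : BiMod A) : PMod Bool A where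
  V := X.V
  act i a x := cond i (X.l a x) (X.r a x)
  add_act i a b x := by cases i <;> simp
  smul_act i z a x := by cases i <;> simp
  act_add i a x y := by cases i <;> simp
  act_smul i a z x := by cases i <;> simp
  act_mul i a b x := by
    cases i
    · show X.r (a * b) x = X.r a (X.r b x)
      rw [mul_comm, X.r_mul]
    · exact X.l_mul a b x
  comm i j a b x := by
    cases i <;> cases j
    · show X.r a (X.r b x) = X.r b (X.r a x)
      rw [← X.r_mul, ← X.r_mul, mul_comm]
    · exact (X.l_r b a x).symm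
    · exact X.l_r a b x
    · show X.l a (X.l b x) = X.l b (X.l a x)
      rw [← X.l_mul, ← X.l_mul, mul_comm]
  cont i := by
    cases i
    · exact X.continuous_r
    · exact X.continuous_l

private theorem proj_ofB (P : PMod Bool A) : P.Proj ↔ (ofB P).IsProjective := by
  constructor
  · intro h E hE f hf hs
    obtain ⟨s, hs⟩ := hs
    obtain ⟨t, ht, htt⟩ := h (toB E) f hE
      ⟨⟨f.continuous, fun x y => f.map_add x y, fun z x => f.map_smul z x⟩, by
        intro i a x
        cases i
        · exact (hf a x).2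
        · exact (hf a x).1⟩
      ⟨s, ⟨s.continuous, fun x y => s.map_add x y, fun z x => s.map_smul z x⟩, hs⟩
    exact ⟨⟨⟨⟨t, ht.1.2.1⟩, ht.1.2.2⟩, ht.1.1⟩,
      fun a x => ⟨ht.2 true a x, ht.2 false a x⟩, htt⟩
  · intro h E f hE hf hs
    obtain ⟨s, hs, hss⟩ := hs
    obtain ⟨t, ht, htt⟩ := h (ofB E) hE ⟨⟨⟨f, hf.1.2.1⟩, hf.1.2.2⟩, hf.1.1⟩
      (fun a x => ⟨hf.2 true a x, hf.2 false a x⟩)
      ⟨⟨⟨⟨s, hs.2.1⟩, hs.2.2⟩, hs.1⟩, hss⟩
    exact ⟨t, ⟨⟨t.continuous, fun x y => t.map_add x y, fun z x => t.map_smul z x⟩, by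
      intro i a x
      cases i
      · exact (ht a x).2
      · exact (ht a x).1⟩, htt⟩

private theorem proj_toB (P : BiMod A) : (toB P).Proj ↔ P.IsProjective := by
  constructor
  · intro h E hE f hf hs
    obtain ⟨s, hs⟩ := hs
    obtain ⟨t, ht, htt⟩ := h (toB E) f hE
      ⟨⟨f.continuous, fun x y => f.map_add x y, fun z x => f.map_smul z x⟩, by
        intro i a x
        cases i
        · exact (hf a x).2
        · exact (hf a x).1⟩
      ⟨s, ⟨s.continuous, fun x y => s.map_add x y, fun z x => s.map_smul z x⟩, hs⟩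
    exact ⟨⟨⟨⟨t, ht.1.2.1⟩, ht.1.2.2⟩, ht.1.1⟩,
      fun a x => ⟨ht.2 true a x, ht.2 false a x⟩, htt⟩
  · intro h E f hE hf hs
    obtain ⟨s, hs, hss⟩ := hs
    obtain ⟨t, ht, htt⟩ := h (ofB E) hE ⟨⟨⟨f, hf.1.2.1⟩, hf.1.2.2⟩, hf.1.1⟩
      (fun a x => ⟨hf.2 true a x, hf.2 false a x⟩)
      ⟨⟨⟨⟨s, hs.2.1⟩, hs.2.2⟩, hs.1⟩, hss⟩
    exact ⟨t, ⟨⟨t.continuous, fun x y => t.map_add x y, fun z x => t.map_smul z x⟩, by
      intro i a x
      cases i
      · exact (ht a x).2
      · exact (ht a x).1⟩, htt⟩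

private theorem hasRes_ofB (X : PMod Bool A) (m : ℕ) :
    X.HasRes m ↔ (ofB X).HasResolution m := by
  constructor
  · rintro ⟨P, aug, d, hP, hs, ⟨ha, hd, h0, hdd⟩, s', s, hs', hss, h1, h2, h3⟩
    refine ⟨fun k => ofB (P k), ⟨⟨⟨aug, ha.1.2.1⟩, ha.1.2.2⟩, ha.1.1⟩,
      fun k => ⟨⟨⟨d k, (hd k).1.2.1⟩, (hd k).1.2.2⟩, (hd k).1.1⟩,
      ⟨⟨⟨s', hs'.2.1⟩, hs'.2.2⟩, hs'.1⟩,
      fun k => ⟨⟨⟨s k, (hss k).2.1⟩, (hss k).2.2⟩, (hss k).1⟩, ?_⟩
    exact ⟨fun k => ⟨(hP k).1, (proj_ofB (P k)).1 (hP k).2⟩,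
      fun a x => ⟨ha.2 true a x, ha.2 false a x⟩,
      fun k a x => ⟨(hd k).2 true a x, (hd k).2 false a x⟩, h0, hdd, h1, h2, h3, hs⟩
  · rintro ⟨P, aug, d, s', s, hP, ha, hd, h0, hdd, h1, h2, h3, hs⟩
    refine ⟨fun k => toB (P k), aug, fun k => d k,
      fun k => ⟨(hP k).1, (proj_toB (P k)).2 (hP k).2⟩, hs, ⟨?_, ?_, h0, hdd⟩,
      s', fun k => s k, ?_, ?_, h1, h2, h3⟩
    · refine ⟨⟨aug.continuous, fun x y => aug.map_add x y, fun z x => aug.map_smul z x⟩, ?_⟩
      intro i a x
      cases i
      · exact (ha a x).2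
      · exact (ha a x).1
    · intro k
      refine ⟨⟨(d k).continuous, fun x y => (d k).map_add x y,
        fun z x => (d k).map_smul z x⟩, ?_⟩
      intro i a x
      cases i
      · exact (hd k a x).2
      · exact (hd k a x).1
    · exact ⟨s'.continuous, fun x y => s'.map_add x y, fun z x => s'.map_smul z x⟩
    · intro k
      exact ⟨(s k).continuous, fun x y => (s k).map_add x y, fun z x => (s k).map_smul z x⟩

private theorem mk_congr {V : Type} [AddCommGroup V] [Module ℂ V] [TopologicalSpace V]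
    [IsTopologicalAddGroup V] [ContinuousSMul ℂ V] {l l' r r' : A →ₗ[ℂ] V →ₗ[ℂ] V}
    (hl : l = l') (hr : r = r') (h1 h2 h3 h4 h5 h1' h2' h3' h4' h5') :
    BiMod.mk (A := A) V l r h1 h2 h3 h4 h5 = BiMod.mk V l' r' h1' h2' h3' h4' h5' := by
  subst hl
  subst hr
  rfl

private theorem ofB_unitz [IsTopologicalRing A] [ContinuousSMul ℂ A] :
    ofB (unitz A) = unitization A := by
  unfold unitization
  refine mk_congr (V := A × ℂ) ?_ ?_ _ _ _ _ _ _ _ _ _ _
  · rfl
  · refine LinearMap.ext fun a => LinearMap.ext fun v => ?_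
    show ((a * v.1 + v.2 • a, (0 : ℂ)) : A × ℂ) = (v.1 * a + v.2 • a, 0)
    rw [mul_comm]

theorem hasRes_unitz [IsTopologicalRing A] [ContinuousSMul ℂ A] (m : ℕ) :
    (unitz A).HasRes m ↔ (unitization A).HasResolution m := by
  rw [hasRes_ofB, ofB_unitz]

variable (A) in
theorem dbP_eq [IsTopologicalRing A] [ContinuousSMul ℂ A] :
    dbP A = Pool.Agent.Helper39.ST.db A := by
  unfold dbP Pool.Agent.Helper39.ST.db PMod.dh BiMod.dh
  simp only [hasRes_unitz]

end

end HD
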