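import Pool.Agent.Helper48.HD.B5
import Pool.Agent.Helper48.HD.V3
import Pool.Agent.Helper48.HD.V5

/-!
Module HD-V8: dg A ≤ db A.

Proof. If db A = ⊤ nothing to prove; otherwise let m be a natural number with
(unitization A).HasResolution m and db A = m (the infimum of a nonempty set of such numbers is
attained).  V5: DimLE (reg A) m; for every polynormed X, B5: DimLE (corner X) m,
V3: X.HasResolution m, so X.dh ≤ m.
-/

namespace HD

open scoped Manifold ContDiff Topology

open Pool.Agent.Helper39.ST

section

variable {A : Type} [CommRing A] [Algebra ℂ A] [UniformSpace A] [CAlg A]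
  [IsTopologicalRing A] [ContinuousSMul ℂ A]

variable (A) in
theorem dg_le_db : dg A ≤ db A := by
  unfold dg db dh
  exact iSup_le fun X => le_iInf fun m =>
    iInf_le_of_le (⟨m.1, dimLE_of_reg m.1 m.2 X⟩ : {m : ℕ // DimLE X m}) le_rfl

variable (A) in
/-- The same inequality for the dimensions of Helper39/ST/Defs.lean. -/
theorem st_dg_le_db : Pool.Agent.Helper39.ST.dg A ≤ Pool.Agent.Helper39.ST.db A := by
  unfold Pool.Agent.Helper39.ST.dg Pool.Agent.Helper39.ST.db BiMod.dh
  refine iSup_le fun X => le_sInf ?_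
  rintro _ ⟨m, rfl, hm⟩
  exact sInf_le ⟨m, rfl, hasResolution_of_corner X.1 X.2 m
    (dimLE_of_reg m (dimLE_reg m hm) (corner X.1 X.2))⟩

end

end HD
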