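import Pool.Agent.Helper48.HD.FA
import Pool.Agent.Helper48.HD.PB
import Pool.Agent.Helper48.HD.GT
import Pool.Agent.Helper48.HD.G0
import Pool.Agent.Helper48.HD.G6
import Pool.Agent.Helper48.HD.V8
import Pool.Agent.Helper39.ST.Main

/-!
Module HD-FB: the final theorem.
-/

open scoped Manifold ContDiff Topology

namespace HD

open Pool.Agent.Helper39.ST (Hol LeftMod charMod charMod_irreducible polynormed_complex evalAt
  evalAt_mul)

section

variable {n : ℕ} {S : Type} [TopologicalSpace S] [ChartedSpace (EuclideanSpace ℂ (Fin n)) S]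
  [CMan n S]

theorem dirDeriv_eq (x : S) (v : EuclideanSpace ℂ (Fin n)) (f : Hol n S) :
    dirDeriv x v (f : C(S, ℂ)) = Pool.Agent.Helper39.ST.differential n S x v f := by
  set φ := chartAt (EuclideanSpace ℂ (Fin n)) x with hφ
  set z := φ x with hz
  have hzt : z ∈ φ.target := φ.map_source (mem_chart_source _ x)
  have hF := Pool.Agent.Helper39.ST.differentiableOn_chart x f
  rw [Pool.Agent.Helper39.ST.differential_eq]
  set F : EuclideanSpace ℂ (Fin n) → ℂ := (f : C(S, ℂ)) ∘ φ.symm with hFdef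
  have hd : DifferentiableAt ℂ F z := hF.differentiableAt (φ.open_target.mem_nhds hzt)
  have hlined : HasDerivAt (fun t : ℂ => z + t • v) v 0 := by
    simpa using ((hasDerivAt_id (0 : ℂ)).smul_const v).const_add z
  have h1 : HasDerivAt (fun t : ℂ => F (z + t • v)) (fderiv ℂ F z v) 0 := by
    have h2 : HasFDerivAt F (fderiv ℂ F z) (z + (0:ℂ) • v) := by simpa using hd.hasFDerivAt
    exact h2.comp_hasDerivAt (0:ℂ) hlined
  exact h1.deriv

theorem coordAt_global {x : S} (h : CoordAt (n := n) x) :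
    Pool.Agent.Helper39.ST.GlobalCoordinatesAt n S x := by
  obtain ⟨f, hf⟩ := h
  refine ⟨f, fun c hc => hf c fun v => ?_⟩
  rw [← hc v]
  refine Finset.sum_congr rfl fun i _ => ?_
  rw [dirDeriv_eq, smul_eq_mul]

end

theorem exists_irreducible {A : Type} [CommRing A] [Algebra ℂ A] [TopologicalSpace A]
    (ε : A →L[ℂ] ℂ) (hε : ∀ a b, ε (a * b) = ε a * ε b) (h1 : ε 1 = 1) :
    ∃ X : LeftMod A, X.IsPolynormed ∧ X.IsIrreducible :=
  ⟨charMod ε hε, polynormed_complex, charMod_irreducible ε hε h1⟩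

section

variable {n N m c : ℕ} {S W : Type}
    [TopologicalSpace S] [ChartedSpace (EuclideanSpace ℂ (Fin n)) S] [CMan n S] [Nonempty S]
    [TopologicalSpace W] [ChartedSpace (EuclideanSpace ℂ (Fin N)) W] [CMan N W]

omit [Nonempty S] in
theorem exists_tube' (T : GTube n N m S W) (hc : ∀ s, (T.e s).rank = c) :
    ∃ 𝕋 : Tube (Hol n S) (Hol N W), 𝕋.c = c ∧ (∀ f, T.restr f (𝕋.ρ f)) ∧
      ∀ q, 𝕋.c < q → ∀ I J : Fin q → Fin 𝕋.m,
        Matrix.det (Matrix.of fun k l => 𝕋.ξ (I k) (𝕋.x (J l))) = 0 := by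
  obtain ⟨T', he, -, hg⟩ := T.exists_cTube
  obtain ⟨𝕋, h1, h2, h3⟩ := T'.exists_tube c (fun s => by rw [he]; exact hc s)
  refine ⟨𝕋, h1, fun f s => ?_, fun q hq => h3 q (h1 ▸ hq)⟩
  rw [h2, hg]

omit [Nonempty S] in
theorem module_shift (T : GTube n N m S W) (hc : ∀ s, (T.e s).rank = c)
    (X : PMod Unit (Hol n S)) (hX : X.Poly) (h1 : ∀ i x, X.act i 1 x = x) (h0 : ∃ x : X.V, x ≠ 0)
    (X' : PMod Unit (Hol N W)) (hX' : IsPull T.restr X X') : X'.dh = X.dh + c := by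
  obtain ⟨𝕋, h𝕋, hρ, hq⟩ := exists_tube' T hc
  subst h𝕋
  exact dhShift_of_tube (A := Hol n S) (B := Hol N W) 𝕋 hq T.restr hρ X X' hX h1 h0 hX'

theorem tube_reduction (T : GTube n N m S W) (hc : ∀ s, (T.e s).rank = c) :
    N = n + c ∧ dgO n S + c ≤ dgO N W ∧ dsO n S + c ≤ dsO N W ∧ dbO n S + c ≤ dbO N W ∧
    ((∃ s : S, CoordAt (n := n) s) →
      (dbO N W ≤ N → dbO n S = n ∧ dgO n S = n ∧ dsO n S = n) ∧
      (dgO N W ≤ N → dgO n S = n ∧ dsO n S = n) ∧ (dsO N W ≤ N → dsO n S = n)) := by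
  obtain ⟨𝕋, h𝕋, -, -⟩ := exists_tube' T hc
  subst h𝕋
  have hN := T.dim_eq 𝕋.c hc
  have hnt : Nontrivial (Hol n S) := by
    obtain ⟨s₀⟩ := ‹Nonempty S›
    refine ⟨⟨0, 1, fun h => ?_⟩⟩
    have h2 := congrArg (evalAt s₀) h
    have h3 : evalAt s₀ (0 : Hol n S) = 0 := map_zero _
    have h4 : evalAt s₀ (1 : Hol n S) = 1 := rfl
    rw [h3, h4] at h2
    exact zero_ne_one h2
  have hirr : ∃ X : LeftMod (Hol n S), X.IsPolynormed ∧ X.IsIrreducible := by
    obtain ⟨s₁⟩ := ‹Nonempty S›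
    exact exists_irreducible (A := Hol n S) (evalAt s₁) (evalAt_mul s₁) rfl
  have h1 : dgO n S + 𝕋.c ≤ dgO N W := by
    unfold dgO
    rw [dgP_eq, dgP_eq]
    exact st_dg_add_le (A := Hol n S) (B := Hol N W) 𝕋
  have h2 : dsO n S + 𝕋.c ≤ dsO N W := by
    unfold dsO
    rw [dsP_eq, dsP_eq]
    exact st_ds_add_le (A := Hol n S) (B := Hol N W) 𝕋 hirr
  have h3 : dbO n S + 𝕋.c ≤ dbO N W := by
    unfold dbO
    rw [dbP_eq, dbP_eq]
    exact st_db_add_le (A := Hol n S) (B := Hol N W) 𝕋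
  refine ⟨hN, h1, h2, h3, ?_⟩
  rintro ⟨s, hs⟩
  have hm := Pool.Agent.Helper39.ST.main s (coordAt_global hs)
  have key : ∀ a b : ℕ∞, a + 𝕋.c ≤ b → b ≤ N → a ≤ n := by
    intro a b hab hb
    have h5 : a + 𝕋.c ≤ (n : ℕ∞) + (𝕋.c : ℕ∞) :=
      (hab.trans hb).trans (le_of_eq (by exact_mod_cast hN))
    exact (ENat.add_le_add_iff_right (ENat.natCast_ne_top _)).mp h5
  have e1 : dbO n S = Pool.Agent.Helper39.ST.db (Hol n S) := dbP_eq (Hol n S)
  have e2 : dgO n S = Pool.Agent.Helper39.ST.dg (Hol n S) := dgP_eq (Hol n S)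
  have e3 : dsO n S = Pool.Agent.Helper39.ST.ds (Hol n S) := dsP_eq (Hol n S)
  have h6 : dgO n S ≤ dbO n S := by
    rw [e1, e2]
    exact st_dg_le_db (Hol n S)
  have h7 : (n : ℕ∞) ≤ dsO n S := by rw [e3]; exact hm.1
  have h8 : dsO n S ≤ dgO n S := by rw [e3, e2]; exact hm.2.1
  refine ⟨fun hW => ?_, fun hW => ?_, fun hW => ?_⟩
  · have h4 := key _ _ h3 hW
    exact ⟨le_antisymm h4 ((h7.trans h8).trans h6), le_antisymm (h6.trans h4) (h7.trans h8),
      le_antisymm ((h8.trans h6).trans h4) h7⟩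
  · have h4 := key _ _ h1 hW
    exact ⟨le_antisymm h4 (h7.trans h8), le_antisymm (h8.trans h4) h7⟩
  · exact le_antisymm (key _ _ h2 hW) h7

end

end HD
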