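import Pool.Agent.Helper48.HD.F1
import Pool.Agent.Helper48.HD.GDefs

/-!
Module HD-M1: derivatives in the second variable on open subsets of S × ℂ^m.

Proof. mdiff_partial: near a point (s₀, u₀) of Ω use the chart φ = chartAt s₀ of S: the function
G (x, u) = F (φ.symm x, u) is holomorphic on the open set {(x,u) | x in φ.target, (φ.symm x, u) in Ω}
of E_n × ℂ^m, and the derivative of G at (x,u) in the direction (0, ε_i) is the derivative
(chain rule); hol_fderiv (F1); go back to S × ℂ^m by composing with (φ, id).  (The chart of the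
product manifold at (s₀, u₀) is φ × id.)
partial_bound: choose δ > 0 with (s, u + τ ε_i) in Ω for (s,u) in K, |τ| ≤ δ (compactness of K), K' the
compact set of all these points; Cauchy estimate for τ ↦ F (s, u + τ ε_i): C = 1/δ.
-/

open scoped Manifold ContDiff Topology

namespace HD

section

variable {n m : ℕ} {S : Type} [TopologicalSpace S] [ChartedSpace (EuclideanSpace ℂ (Fin n)) S]
  [IsManifold 𝓘(ℂ, EuclideanSpace ℂ (Fin n)) ω S]

theorem mdiff_partial {Ω : Set (S × (Fin m → ℂ))} (hΩ : IsOpen Ω) {F : S × (Fin m → ℂ) → ℂ}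
    (hF : MDifferentiableOn (modelSC n m) 𝓘(ℂ, ℂ) F Ω) (i : Fin m) :
    MDifferentiableOn (modelSC n m) 𝓘(ℂ, ℂ)
      (fun p => fderiv ℂ (fun u : Fin m → ℂ => F (p.1, u)) p.2 (Pi.single i 1)) Ω := by
  intro p₀ hp₀
  let e := extChartAt (modelSC n m) p₀
  have hes : ∀ (y : EuclideanSpace ℂ (Fin n)) (u : Fin m → ℂ),
      e.symm (y, u) = ((extChartAt 𝓘(ℂ, EuclideanSpace ℂ (Fin n)) p₀.1).symm y, u) := by
    intro y u
    simp only [e, extChartAt_prod]
    rfl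
  have hsrc : IsOpen e.source := isOpen_extChartAt_source p₀
  have hV : IsOpen (e.source ∩ Ω) := hsrc.inter hΩ
  have hU : IsOpen (e.target ∩ e.symm ⁻¹' Ω) :=
    (continuousOn_extChartAt_symm p₀).isOpen_inter_preimage (isOpen_extChartAt_target p₀) hΩ
  have himg : e '' (e.source ∩ Ω) = e.target ∩ e.symm ⁻¹' Ω := e.image_source_inter_eq' Ω
  have hmaps : ∀ f : S × (Fin m → ℂ) → ℂ,
      Set.MapsTo f (e.source ∩ Ω) (extChartAt 𝓘(ℂ, ℂ) (0 : ℂ)).source := fun f x _ => by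
    simp
  have key : ∀ f : S × (Fin m → ℂ) → ℂ,
      MDifferentiableOn (modelSC n m) 𝓘(ℂ, ℂ) f (e.source ∩ Ω) ↔
        DifferentiableOn ℂ (f ∘ e.symm) (e.target ∩ e.symm ⁻¹' Ω) := by
    intro f
    rw [mdifferentiableOn_iff_of_subset_source' (x := p₀) (y := (0 : ℂ))
      Set.inter_subset_left (hmaps f)]
    rw [← himg]
    rfl
  have hG : DifferentiableOn ℂ (F ∘ e.symm) (e.target ∩ e.symm ⁻¹' Ω) :=
    (key F).1 (hF.mono Set.inter_subset_right)
  have hH := hol_fderiv hU hG ((0, Pi.single i 1) : EuclideanSpace ℂ (Fin n) × (Fin m → ℂ))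
  have hD : MDifferentiableOn (modelSC n m) 𝓘(ℂ, ℂ)
      (fun p : S × (Fin m → ℂ) => fderiv ℂ (fun u : Fin m → ℂ => F (p.1, u)) p.2
        (Pi.single i 1)) (e.source ∩ Ω) := by
    rw [key]
    refine hH.congr fun x hx => ?_
    obtain ⟨y, u⟩ := x
    have h1 : HasFDerivAt (F ∘ e.symm) (fderiv ℂ (F ∘ e.symm) (y, u)) (y, u) :=
      (hG.differentiableAt (hU.mem_nhds hx)).hasFDerivAt
    have h2 := h1.comp u (hasFDerivAt_prodMk_right (𝕜 := ℂ) y u)
    have h3 : ((F ∘ e.symm) ∘ fun u' : Fin m → ℂ => (y, u')) =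
        fun u' : Fin m → ℂ =>
          F ((extChartAt 𝓘(ℂ, EuclideanSpace ℂ (Fin n)) p₀.1).symm y, u') := by
      funext u'
      show F (e.symm (y, u')) = _
      rw [hes]
    rw [h3] at h2
    show fderiv ℂ (fun u' : Fin m → ℂ => F ((e.symm (y, u)).1, u')) (e.symm (y, u)).2
      (Pi.single i 1) = _
    rw [hes]
    show fderiv ℂ (fun u' : Fin m → ℂ =>
      F ((extChartAt 𝓘(ℂ, EuclideanSpace ℂ (Fin n)) p₀.1).symm y, u')) u (Pi.single i 1) = _
    rw [h2.fderiv]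
    simp
  have hmem : p₀ ∈ e.source ∩ Ω := ⟨mem_extChartAt_source p₀, hp₀⟩
  exact ((hD p₀ hmem).mdifferentiableAt (hV.mem_nhds hmem)).mdifferentiableWithinAt

omit [ChartedSpace (EuclideanSpace ℂ (Fin n)) S]
  [IsManifold 𝓘(ℂ, EuclideanSpace ℂ (Fin n)) ω S] in
theorem partial_bound {Ω : Set (S × (Fin m → ℂ))} (hΩ : IsOpen Ω) (K : Set (S × (Fin m → ℂ)))
    (hK : IsCompact K) (hKΩ : K ⊆ Ω) (i : Fin m) :
    ∃ (K' : Set (S × (Fin m → ℂ))) (C : ℝ), IsCompact K' ∧ K' ⊆ Ω ∧ 0 ≤ C ∧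
      ∀ F : S × (Fin m → ℂ) → ℂ,
        (∀ s, DifferentiableOn ℂ (fun u => F (s, u)) {u | (s, u) ∈ Ω}) →
        ∀ B : ℝ, (∀ p ∈ K', ‖F p‖ ≤ B) →
        ∀ p ∈ K, ‖fderiv ℂ (fun u : Fin m → ℂ => F (p.1, u)) p.2 (Pi.single i 1)‖ ≤ C * B := by
  let ε : Fin m → ℂ := Pi.single i 1
  let Φ : (S × (Fin m → ℂ)) × ℂ → S × (Fin m → ℂ) := fun q => (q.1.1, q.1.2 + q.2 • ε)
  have hΦ : Continuous Φ := by
    refine (continuous_fst.comp continuous_fst).prodMk ?_
    exact (continuous_snd.comp continuous_fst).add (continuous_snd.smul continuous_const)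
  have hsub : K ×ˢ ({0} : Set ℂ) ⊆ Φ ⁻¹' Ω := by
    rintro ⟨p, τ⟩ ⟨hp, hτ⟩
    have hτ' : τ = 0 := hτ
    subst hτ'
    show (p.1, p.2 + (0 : ℂ) • ε) ∈ Ω
    rw [zero_smul, add_zero]
    exact hKΩ hp
  obtain ⟨u, v, hu, hv, hKu, h0v, huv⟩ :=
    generalized_tube_lemma hK isCompact_singleton (hΩ.preimage hΦ) hsub
  obtain ⟨δ', hδ', hball⟩ := Metric.isOpen_iff.1 hv 0 (h0v rfl)
  let δ : ℝ := δ' / 2
  have hδ : 0 < δ := by positivity
  have hcb : Metric.closedBall (0 : ℂ) δ ⊆ v :=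
    (Metric.closedBall_subset_ball (by simp only [δ]; linarith)).trans hball
  have hin : ∀ p ∈ K, ∀ τ ∈ Metric.closedBall (0 : ℂ) δ, Φ (p, τ) ∈ Ω := fun p hp τ hτ =>
    huv ⟨hKu hp, hcb hτ⟩
  refine ⟨Φ '' (K ×ˢ Metric.closedBall (0 : ℂ) δ), 1 / δ,
    (hK.prod (isCompact_closedBall _ _)).image hΦ, ?_, by positivity, ?_⟩
  · rintro _ ⟨⟨p, τ⟩, ⟨hp, hτ⟩, rfl⟩
    exact hin p hp τ hτ
  · intro F hF B hB p hp
    have hopen : IsOpen {w : Fin m → ℂ | (p.1, w) ∈ Ω} :=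
      hΩ.preimage (Continuous.prodMk_right p.1)
    have hdiff : ∀ τ ∈ Metric.closedBall (0 : ℂ) δ,
        HasDerivAt (fun τ : ℂ => F (p.1, p.2 + τ • ε))
          (fderiv ℂ (fun w : Fin m → ℂ => F (p.1, w)) (p.2 + τ • ε) ε) τ := by
      intro τ hτ
      have h1 : DifferentiableAt ℂ (fun w : Fin m → ℂ => F (p.1, w)) (p.2 + τ • ε) :=
        (hF p.1).differentiableAt (hopen.mem_nhds (hin p hp τ hτ))
      have h2 : HasDerivAt (fun τ : ℂ => p.2 + τ • ε) ε τ := by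
        have := ((hasDerivAt_id τ).smul_const ε).const_add p.2
        simpa using this
      exact h1.hasFDerivAt.comp_hasDerivAt τ h2
    have hdc : DiffContOnCl ℂ (fun τ : ℂ => F (p.1, p.2 + τ • ε)) (Metric.ball 0 δ) := by
      apply DifferentiableOn.diffContOnCl
      intro τ hτ
      rw [closure_ball (0 : ℂ) hδ.ne'] at hτ
      exact (hdiff τ hτ).differentiableAt.differentiableWithinAt
    have hest := Complex.norm_deriv_le_of_forall_mem_sphere_norm_le hδ hdc (C := B)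
      (fun τ hτ => hB _ ⟨(p, τ), ⟨hp, Metric.sphere_subset_closedBall hτ⟩, rfl⟩)
    have h0 := (hdiff 0 (Metric.mem_closedBall_self hδ.le)).deriv
    rw [h0] at hest
    simp only [zero_smul, add_zero] at hest
    calc ‖fderiv ℂ (fun u : Fin m → ℂ => F (p.1, u)) p.2 ε‖ ≤ B / δ := hest
      _ = 1 / δ * B := by ring

end

end HD
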