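import Pool.Agent.Helper48.HD.G0
import Pool.Agent.Helper48.HD.M1
import Pool.Agent.Helper48.HD.M0

/-!
Module HD-G1: the fibre derivatives are continuous operators on O(W).

Proof. dfun i f w = (derivative i of F = f ∘ g)(r w, v w); mdiff_partial (M1) with F
(CTube.mdiff_fg), composed with CTube.mdiff_rv.  Linear in f by linearity of fderiv (CTube.diff_fib,
Ω open).  Continuity in the compact-open topology: for a compact set K of W let K₁ be its image under
(r, v), K' and C from partial_bound, and K'' = g(K') compact in W (g is continuous on Ω):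
sup_K |dfun i f| ≤ C sup_K'' |f|; a linear map with such bounds is continuous (continuity at 0;
compare Pool/Agent/Helper39/ST/Hol.lean, continuous_differential).
-/

open scoped Manifold ContDiff Topology

namespace HD

open Pool.Agent.Helper39.ST

section

variable {n N m : ℕ} {S W : Type}
    [TopologicalSpace S] [ChartedSpace (EuclideanSpace ℂ (Fin n)) S]
    [IsManifold 𝓘(ℂ, EuclideanSpace ℂ (Fin n)) ω S]
    [TopologicalSpace W] [ChartedSpace (EuclideanSpace ℂ (Fin N)) W]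
    [IsManifold 𝓘(ℂ, EuclideanSpace ℂ (Fin N)) ω W]

omit [IsManifold 𝓘(ℂ, EuclideanSpace ℂ (Fin n)) ω S]
    [IsManifold 𝓘(ℂ, EuclideanSpace ℂ (Fin N)) ω W] in
private theorem g1_open (T : CTube n N m S W) (s : S) :
    IsOpen {u : Fin m → ℂ | (s, u) ∈ T.Ω} :=
  T.hΩ.preimage (by fun_prop : Continuous fun u : Fin m → ℂ => (s, u))

private theorem g1_diffAt (T : CTube n N m S W) (f : Hol N W) (w : W) :
    DifferentiableAt ℂ (fun u : Fin m → ℂ => (f : C(W, ℂ)) (T.g (T.r w, u))) (T.v w) :=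
  (T.diff_fib f.2 (T.r w)).differentiableAt ((g1_open T (T.r w)).mem_nhds (T.mem w))

private theorem g1_mdiff (T : CTube n N m S W) (i : Fin m) (f : Hol N W) :
    MDifferentiable 𝓘(ℂ, EuclideanSpace ℂ (Fin N)) 𝓘(ℂ, ℂ)
      (fun w => T.dfun i (f : C(W, ℂ)) w) := by
  have h1 := mdiff_partial T.hΩ (T.mdiff_fg f.2) i
  intro w
  exact ((h1 _ (T.mem w)).mdifferentiableAt (T.hΩ.mem_nhds (T.mem w))).comp w (T.mdiff_rv w)

/-- the operator on functions -/
private noncomputable def g1_fun (T : CTube n N m S W) (i : Fin m) (f : Hol N W) : Hol N W :=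
  ⟨⟨fun w => T.dfun i (f : C(W, ℂ)) w, (g1_mdiff T i f).continuous⟩, g1_mdiff T i f⟩

private theorem g1_fun_apply (T : CTube n N m S W) (i : Fin m) (f : Hol N W) (w : W) :
    ((g1_fun T i f : Hol N W) : C(W, ℂ)) w = T.dfun i (f : C(W, ℂ)) w := rfl

private noncomputable def g1_lin (T : CTube n N m S W) (i : Fin m) : Hol N W →ₗ[ℂ] Hol N W where
  toFun := g1_fun T i
  map_add' := by
    intro f f'
    apply Subtype.ext
    ext w
    show T.dfun i ((f + f' : Hol N W) : C(W, ℂ)) w =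
      T.dfun i (f : C(W, ℂ)) w + T.dfun i (f' : C(W, ℂ)) w
    unfold CTube.dfun
    have h := fderiv_add (g1_diffAt T f w) (g1_diffAt T f' w)
    exact congrArg (fun L => L (Pi.single i 1)) h
  map_smul' := by
    intro c f
    apply Subtype.ext
    ext w
    show T.dfun i ((c • f : Hol N W) : C(W, ℂ)) w = c • T.dfun i (f : C(W, ℂ)) w
    unfold CTube.dfun
    have h := fderiv_const_smul (g1_diffAt T f w) c
    exact congrArg (fun L => L (Pi.single i 1)) h

private theorem g1_bound (T : CTube n N m S W) (i : Fin m) (K : Set W) (hK : IsCompact K) :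
    ∃ (K' : Set W) (C : ℝ), IsCompact K' ∧ 0 ≤ C ∧
      ∀ f : Hol N W, ∀ B : ℝ, (∀ w ∈ K', ‖(f : C(W, ℂ)) w‖ ≤ B) →
        ∀ w ∈ K, ‖T.dfun i (f : C(W, ℂ)) w‖ ≤ C * B := by
  have hrv : Continuous fun w => (T.r w, T.v w) := T.mdiff_rv.continuous
  obtain ⟨K', C, hK', hKΩ, hC, h⟩ := partial_bound T.hΩ ((fun w => (T.r w, T.v w)) '' K)
    (hK.image hrv) (by rintro _ ⟨w, _, rfl⟩; exact T.mem w) i
  refine ⟨T.g '' K', C, hK'.image_of_continuousOn (T.hg.continuousOn.mono hKΩ), hC, ?_⟩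
  intro f B hB w hw
  exact h (fun p => (f : C(W, ℂ)) (T.g p)) (fun s => T.diff_fib f.2 s) B
    (fun p hp => hB _ ⟨p, hp, rfl⟩) (T.r w, T.v w) ⟨w, hw, rfl⟩

private theorem g1_cont (T : CTube n N m S W) (i : Fin m) : Continuous (g1_lin T i) := by
  refine Continuous.subtype_mk ?_ _
  rw [continuous_iff_continuousAt]
  intro f0
  have hid : Filter.Tendsto (fun f : Hol N W => (f : C(W, ℂ))) (𝓝 f0) (𝓝 (f0 : C(W, ℂ))) :=
    continuous_subtype_val.continuousAt
  rw [ContinuousMap.tendsto_iff_forall_isCompact_tendstoUniformlyOn] at hid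
  refine ContinuousMap.tendsto_iff_forall_isCompact_tendstoUniformlyOn.mpr ?_
  intro K hK
  obtain ⟨K', C, hK', hC, h⟩ := g1_bound T i K hK
  have h1 := hid K' hK'
  rw [Metric.tendstoUniformlyOn_iff] at h1 ⊢
  intro ε hε
  filter_upwards [h1 (ε / (C + 1)) (by positivity)] with f hf w hw
  have h2 : ∀ w ∈ K', ‖((f0 - f : Hol N W) : C(W, ℂ)) w‖ ≤ ε / (C + 1) := by
    intro w hw
    have := hf w hw
    rw [dist_eq_norm] at this
    exact this.le
  have h3 := h (f0 - f) _ h2 w hw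
  have h4 : T.dfun i ((f0 - f : Hol N W) : C(W, ℂ)) w =
      T.dfun i (f0 : C(W, ℂ)) w - T.dfun i (f : C(W, ℂ)) w := by
    have := map_sub (g1_lin T i) f0 f
    exact congrArg (fun q : Hol N W => (q : C(W, ℂ)) w) this
  rw [h4] at h3
  show dist (T.dfun i (f0 : C(W, ℂ)) w) (T.dfun i (f : C(W, ℂ)) w) < ε
  rw [dist_eq_norm]
  refine lt_of_le_of_lt h3 ?_
  rw [← mul_div_assoc, div_lt_iff₀ (by positivity)]
  nlinarith

theorem CTube.exists_D (T : CTube n N m S W) :
    ∃ D : Fin m → Hol N W →L[ℂ] Hol N W, ∀ (i : Fin m) (f : Hol N W) (w : W),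
      ((D i f : Hol N W) : C(W, ℂ)) w = T.dfun i (f : C(W, ℂ)) w :=
  ⟨fun i => ⟨g1_lin T i, g1_cont T i⟩, fun _ _ _ => rfl⟩

end

end HD
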