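import Pool.Agent.Helper48.HD.H1

/-!
Module HD-H2: lifting through an exact admissible place of a complex (maps α from Z₁ to Z₀ and
β from Z₀ to W).

Proof. Let X = ker β, a closed submodule of Z₀ (BMod.sub).  α corestricts to a morphism Z₁ → X,
and the restriction of s to X is a continuous linear right inverse of it, by hs.  φ corestricts
to X.  Apply Projective.lift of H1.
-/

namespace HD

section

variable {A C : Type} [CommRing A] [Algebra ℂ A] [TopologicalSpace A]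
    [CommRing C] [Algebra ℂ C] [TopologicalSpace C]

theorem Projective.liftCx {P Z₁ Z₀ W : BMod A C} (hP : Projective P)
    (α : Z₁.V →L[ℂ] Z₀.V) (hα : IsHom α) (β : Z₀.V →L[ℂ] W.V) (hβ : IsHom β)
    (hβα : ∀ x, β (α x) = 0) (s : Z₀.V →L[ℂ] Z₁.V) (hs : ∀ z, β z = 0 → α (s z) = z)
    (φ : P.V →L[ℂ] Z₀.V) (hφ : IsHom φ) (h0 : ∀ x, β (φ x) = 0) :
    ∃ ψ : P.V →L[ℂ] Z₁.V, IsHom ψ ∧ ∀ x, α (ψ x) = φ x := by
  let U : Submodule ℂ Z₀.V := LinearMap.ker β.toLinearMap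
  have hmem : ∀ x : Z₀.V, x ∈ U ↔ β x = 0 := fun x => Iff.rfl
  have hU : IsClosed (U : Set Z₀.V) := β.isClosed_ker
  let X : BMod A C := Z₀.sub U hU
    (fun a x hx => (hmem _).2 (by rw [hβ.left, (hmem x).1 hx, map_zero]))
    (fun c x hx => (hmem _).2 (by rw [hβ.right, (hmem x).1 hx, map_zero]))
  let σ : Z₁.V →L[ℂ] X.V := α.codRestrict U (fun x => (hmem _).2 (hβα x))
  have hσ : IsHom (X := Z₁) (Y := X) σ :=
    ⟨fun a x => Subtype.ext (hα.left a x), fun c x => Subtype.ext (hα.right c x)⟩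
  let τ : X.V →L[ℂ] Z₁.V := s.comp U.subtypeL
  have hτ : ∀ x, σ (τ x) = x := fun x => Subtype.ext (hs x.1 ((hmem _).1 x.2))
  let φ' : P.V →L[ℂ] X.V := φ.codRestrict U (fun x => (hmem _).2 (h0 x))
  have hφ' : IsHom (X := P) (Y := X) φ' :=
    ⟨fun a x => Subtype.ext (hφ.left a x), fun c x => Subtype.ext (hφ.right c x)⟩
  obtain ⟨ψ, hψ, hψ'⟩ := hP.lift σ hσ τ hτ φ' hφ'
  exact ⟨ψ, hψ, fun x => congrArg Subtype.val (hψ' x)⟩

end

end HD
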