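import Pool.Agent.Helper48.HD.H2

/-!
Module HD-H3: comparison of projective resolutions.

Proof. f 0: lift T.ε along P.ε (Projective.lift, right inverse P.s₀).  f 1: lift f 0 ∘ T.d 0
through P.P 1 → P.P 0 → X (Projective.liftCx with s = P.s 0; exactness from P.sε; the condition
P.ε (f 0 (T.d 0 x)) = T.ε (T.d 0 x) = 0).  f (k+2): lift f (k+1) ∘ T.d (k+1) through
P.P (k+2) → P.P (k+1) → P.P k (s = P.s (k+1), exactness from P.sd).
For the recursion use for example the type of pairs: at stage k the pair (f k, f (k+1)) of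
morphisms with P.d k ∘ f (k+1) = f k ∘ T.d k, a recursively defined sequence of such pairs
(Nat.rec with Classical.choose), consecutive pairs overlapping.
-/

namespace HD

section

variable {A C : Type} [CommRing A] [Algebra ℂ A] [TopologicalSpace A]
    [CommRing C] [Algebra ℂ C] [TopologicalSpace C]

theorem exists_chainMap {X : BMod A C} (T P : ProjRes X) :
    ∃ f : ∀ k, (T.P k).V →L[ℂ] (P.P k).V, (∀ k, IsHom (f k)) ∧
      (∀ x, P.ε (f 0 x) = T.ε x) ∧ ∀ k x, P.d k (f (k + 1) x) = f k (T.d k x) := by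
  classical
  obtain ⟨f0, hf0, hf0'⟩ := (T.proj 0).lift P.ε P.hε P.s₀ P.εs T.ε T.hε
  obtain ⟨f1, hf1, hf1'⟩ := (T.proj 1).liftCx (P.d 0) (P.hd 0) P.ε P.hε P.εd (P.s 0)
    (fun z hz => by
      have h := P.sε z
      rwa [hz, map_zero, zero_add] at h)
    (f0.comp (T.d 0)) (hf0.comp (T.hd 0))
    (fun x => by rw [ContinuousLinearMap.comp_apply, hf0', T.εd])
  have step : ∀ (k : ℕ) (g : (T.P k).V →L[ℂ] (P.P k).V)
      (g' : (T.P (k + 1)).V →L[ℂ] (P.P (k + 1)).V), IsHom g' →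
      (∀ x, P.d k (g' x) = g (T.d k x)) →
      ∃ g'' : (T.P (k + 1 + 1)).V →L[ℂ] (P.P (k + 1 + 1)).V, IsHom g'' ∧
        ∀ x, P.d (k + 1) (g'' x) = g' (T.d (k + 1) x) := by
    intro k g g' hg' hgg'
    obtain ⟨g'', h1, h2⟩ := (T.proj (k + 1 + 1)).liftCx (P.d (k + 1)) (P.hd (k + 1)) (P.d k)
      (P.hd k) (P.dd k) (P.s (k + 1))
      (fun z hz => by
        have h := P.sd k z
        rwa [hz, map_zero, zero_add] at h)
      (g'.comp (T.d (k + 1))) (hg'.comp (T.hd (k + 1)))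
      (fun x => by rw [ContinuousLinearMap.comp_apply, hgg', T.dd, map_zero])
    exact ⟨g'', h1, h2⟩
  let St : ℕ → Type := fun k =>
    {p : ((T.P k).V →L[ℂ] (P.P k).V) × ((T.P (k + 1)).V →L[ℂ] (P.P (k + 1)).V) //
      IsHom p.1 ∧ IsHom p.2 ∧ ∀ x, P.d k (p.2 x) = p.1 (T.d k x)}
  let nxt : ∀ k, St k → St (k + 1) := fun k p =>
    ⟨(p.1.2, Classical.choose (step k p.1.1 p.1.2 p.2.2.1 p.2.2.2)),
      p.2.2.1, (Classical.choose_spec (step k p.1.1 p.1.2 p.2.2.1 p.2.2.2)).1,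
      (Classical.choose_spec (step k p.1.1 p.1.2 p.2.2.1 p.2.2.2)).2⟩
  let q : ∀ k, St k := fun k => Nat.rec (motive := St) ⟨(f0, f1), hf0, hf1, hf1'⟩ nxt k
  refine ⟨fun k => (q k).1.1, fun k => (q k).2.1, hf0', fun k x => ?_⟩
  exact (q k).2.2.2 x

end

end HD
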