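import Pool.Agent.Helper48.HD.H2

/-!
Module HD-H7: a resolution by modules which are projective as left modules, of a module which
is projective as left module, has a left linear contraction.

Proof. Work with the left modules (R.P k).left, X.left over A and ℂ; a continuous linear map
commuting with the left actions is a morphism of them (the right action of ℂ is scalar
multiplication, see BMod.left).  s₀: lift the identity of X.left along R.ε
(Projective.lift with the continuous linear right inverse R.s₀).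
s 0: lift id - s₀ ∘ ε through R.P 1 → R.P 0 → X (Projective.liftCx of H2).
s (k+1): lift id - s k ∘ R.d k through R.P (k+2) → R.P (k+1) → R.P k; the condition
R.d k (x - s k (R.d k x)) = s (k-1) (R.d (k-1) (R.d k x)) = 0.
Recursion as in H3.
-/

namespace HD

section

variable {A C : Type} [CommRing A] [Algebra ℂ A] [TopologicalSpace A]
    [CommRing C] [Algebra ℂ C] [TopologicalSpace C]

private theorem isHom_left {X Y : BMod A C} (f : X.V →L[ℂ] Y.V)
    (hf : ∀ a x, f (X.l a x) = Y.l a (f x)) : IsHom (X := X.left) (Y := Y.left) f := by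
  refine ⟨hf, fun c x => ?_⟩
  change f ((Algebra.ofId ℂ (Module.End ℂ X.V)) c x) =
    (Algebra.ofId ℂ (Module.End ℂ Y.V)) c (f x)
  rw [Algebra.ofId_apply, Algebra.ofId_apply, Algebra.algebraMap_eq_smul_one,
    Algebra.algebraMap_eq_smul_one, LinearMap.smul_apply, LinearMap.smul_apply,
    Module.End.one_apply, Module.End.one_apply, map_smul]

private theorem left_lift {P Z₁ Z₀ W : BMod A C} (hP : Projective P.left)
    (α : Z₁.V →L[ℂ] Z₀.V) (hα : IsHom α) (β : Z₀.V →L[ℂ] W.V) (hβ : IsHom β)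
    (hβα : ∀ x, β (α x) = 0) (s : Z₀.V →L[ℂ] Z₁.V) (hs : ∀ z, β z = 0 → α (s z) = z)
    (φ : P.V →L[ℂ] Z₀.V) (hφ : ∀ a x, φ (P.l a x) = Z₀.l a (φ x)) (h0 : ∀ x, β (φ x) = 0) :
    ∃ ψ : P.V →L[ℂ] Z₁.V, (∀ a x, ψ (P.l a x) = Z₁.l a (ψ x)) ∧ ∀ x, α (ψ x) = φ x := by
  obtain ⟨ψ, h1, h2⟩ := Projective.liftCx (P := P.left) (Z₁ := Z₁.left) (Z₀ := Z₀.left)
    (W := W.left) hP α (isHom_left α hα.left) β (isHom_left β hβ.left) hβα s hs φ
    (isHom_left φ hφ) h0
  exact ⟨ψ, fun a x => h1.left a x, h2⟩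

private theorem start_zero {X : BMod A C} (R : ProjRes X) (hX : Projective X.left) :
    ∃ s₀ : X.V →L[ℂ] (R.P 0).V, (∀ a x, s₀ (X.l a x) = (R.P 0).l a (s₀ x)) ∧
      ∀ x, R.ε (s₀ x) = x := by
  obtain ⟨ψ, h1, h2⟩ := Projective.lift (P := X.left) (X := X.left) (Z := (R.P 0).left) hX R.ε
    (isHom_left R.ε R.hε.left) R.s₀ R.εs (ContinuousLinearMap.id ℂ X.V)
    (isHom_left (X := X) (Y := X) _ fun _ _ => rfl)
  exact ⟨ψ, fun a x => h1.left a x, h2⟩

private theorem start_one {X : BMod A C} (R : ProjRes X) (hR : Projective (R.P 0).left)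
    (s₀ : X.V →L[ℂ] (R.P 0).V) (hs : ∀ a x, s₀ (X.l a x) = (R.P 0).l a (s₀ x))
    (hs' : ∀ x, R.ε (s₀ x) = x) :
    ∃ s : (R.P 0).V →L[ℂ] (R.P 1).V, (∀ a x, s ((R.P 0).l a x) = (R.P 1).l a (s x)) ∧
      ∀ x, s₀ (R.ε x) + R.d 0 (s x) = x := by
  obtain ⟨ψ, hψ, hψ'⟩ := left_lift hR (R.d 0) (R.hd 0) R.ε R.hε R.εd (R.s 0) (by
      intro z hz
      have h1 := R.sε z
      rw [hz, map_zero, zero_add] at h1
      exact h1) (ContinuousLinearMap.id ℂ _ - s₀.comp R.ε) (by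
      intro a x
      change (R.P 0).l a x - s₀ (R.ε ((R.P 0).l a x)) = (R.P 0).l a (x - s₀ (R.ε x))
      rw [R.hε.left, hs, map_sub]) (by
      intro x
      change R.ε (x - s₀ (R.ε x)) = 0
      rw [map_sub, hs', sub_self])
  refine ⟨ψ, hψ, fun x => ?_⟩
  have h2 : R.d 0 (ψ x) = x - s₀ (R.ε x) := hψ' x
  rw [h2, add_sub_cancel]

private theorem contraction_succ {X : BMod A C} (R : ProjRes X) (k : ℕ)
    (hR : Projective (R.P (k + 1)).left) (s : (R.P k).V →L[ℂ] (R.P (k + 1)).V)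
    (hs : ∀ a x, s ((R.P k).l a x) = (R.P (k + 1)).l a (s x))
    (hc : ∀ x, R.d k (s (R.d k x)) = R.d k x) :
    ∃ s' : (R.P (k + 1)).V →L[ℂ] (R.P (k + 2)).V,
      (∀ a x, s' ((R.P (k + 1)).l a x) = (R.P (k + 2)).l a (s' x)) ∧
      ∀ x, s (R.d k x) + R.d (k + 1) (s' x) = x := by
  obtain ⟨ψ, hψ, hψ'⟩ := left_lift hR (R.d (k + 1)) (R.hd (k + 1)) (R.d k) (R.hd k) (R.dd k)
    (R.s (k + 1)) (by
      intro z hz
      have h1 := R.sd k z
      rw [hz, map_zero, zero_add] at h1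
      exact h1) (ContinuousLinearMap.id ℂ _ - s.comp (R.d k)) (by
      intro a x
      change (R.P (k + 1)).l a x - s (R.d k ((R.P (k + 1)).l a x)) =
        (R.P (k + 1)).l a (x - s (R.d k x))
      rw [(R.hd k).left, hs, map_sub]) (by
      intro x
      change R.d k (x - s (R.d k x)) = 0
      rw [map_sub, hc, sub_self])
  refine ⟨ψ, hψ, fun x => ?_⟩
  have h2 : R.d (k + 1) (ψ x) = x - s (R.d k x) := hψ' x
  rw [h2, add_sub_cancel]

theorem exists_left_contraction {X : BMod A C} (R : ProjRes X) (hX : Projective X.left)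
    (hR : ∀ k, Projective (R.P k).left) :
    ∃ (s₀ : X.V →L[ℂ] (R.P 0).V) (s : ∀ k, (R.P k).V →L[ℂ] (R.P (k + 1)).V),
      (∀ a x, s₀ (X.l a x) = (R.P 0).l a (s₀ x)) ∧
      (∀ k a x, s k ((R.P k).l a x) = (R.P (k + 1)).l a (s k x)) ∧
      (∀ x, R.ε (s₀ x) = x) ∧ (∀ x, s₀ (R.ε x) + R.d 0 (s 0 x) = x) ∧
      ∀ k x, s k (R.d k x) + R.d (k + 1) (s (k + 1) x) = x := by
  classical
  let S : ℕ → Type := fun k => {s : (R.P k).V →L[ℂ] (R.P (k + 1)).V //
    (∀ a x, s ((R.P k).l a x) = (R.P (k + 1)).l a (s x)) ∧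
      ∀ x, R.d k (s (R.d k x)) = R.d k x}
  have step : ∀ (k : ℕ) (s : S k), ∃ s' : S (k + 1),
      ∀ x, s.1 (R.d k x) + R.d (k + 1) (s'.1 x) = x := by
    intro k s
    obtain ⟨s', h1, h2⟩ := contraction_succ R k (hR (k + 1)) s.1 s.2.1 s.2.2
    refine ⟨⟨s', h1, fun x => ?_⟩, h2⟩
    have h3 := h2 (R.d (k + 1) x)
    rw [R.dd k x, map_zero, zero_add] at h3
    exact h3
  choose next hnext using step
  obtain ⟨s₀, hs₀, hs₀'⟩ := start_zero R hX
  obtain ⟨a, ha, ha'⟩ := start_one R (hR 0) s₀ hs₀ hs₀'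
  let a0 : S 0 := ⟨a, ha, fun x => by
    have h3 := ha' (R.d 0 x)
    rw [R.εd x, map_zero, zero_add] at h3
    exact h3⟩
  let q : ∀ k, S k := fun k => Nat.rec a0 (fun k h => next k h) k
  refine ⟨s₀, fun k => (q k).1, hs₀, fun k => (q k).2.1, hs₀', fun x => ha' x, fun k x => ?_⟩
  exact hnext k (q k) x

end

end HD
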