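import Pool.Agent.Helper48.HD.Tube

/-!
Module HD-K1: the Koszul differential preserves alternating forms.

Proof. Function.update (Fin.cons x y) with index j.succ: Fin.cons_update:
Fin.cons x (Function.update y j u) = Function.update (Fin.cons x y) j.succ u.  The A-linearity:
Z.l (v i) (Z.l (ι a) z) = Z.l (ι a) (Z.l (v i) z), B is commutative.
-/

namespace HD

section

variable {A B C : Type} [CommRing A] [Algebra ℂ A] [UniformSpace A]
    [CommRing B] [Algebra ℂ B] [UniformSpace B]
    [CommRing C] [Algebra ℂ C] [TopologicalSpace C]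

theorem isAlt_kosFun (𝕋 : Tube A B) (Z : BMod B C) {q : ℕ} {η : (Fin (q + 1) → 𝕋.M) → Z.V}
    (hη : IsAlt (fun a z => Z.l (𝕋.ι a) z) η) :
    IsAlt (fun a z => Z.l (𝕋.ι a) z) (kosFun 𝕋 Z η) := by
  refine ⟨fun y i u v => ?_, fun y i a u => ?_, fun y i j h hij => ?_⟩
  · unfold kosFun
    rw [← Finset.sum_add_distrib]
    refine Finset.sum_congr rfl fun k _ => ?_
    rw [Fin.cons_update, Fin.cons_update, Fin.cons_update, hη.add, map_add]
  · unfold kosFun
    show _ = Z.l (𝕋.ι a) (∑ k, _)
    rw [map_sum]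
    refine Finset.sum_congr rfl fun k _ => ?_
    rw [Fin.cons_update, Fin.cons_update, hη.smul]
    rw [← Module.End.mul_apply, ← Module.End.mul_apply, ← map_mul, ← map_mul, mul_comm]
  · unfold kosFun
    refine Finset.sum_eq_zero fun k _ => ?_
    rw [hη.alt (Fin.cons (𝕋.x k) y) i.succ j.succ (by simpa using h)
      (fun h1 => hij (Fin.succ_injective _ h1)), map_zero]

end

end HD
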