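import Pool.Agent.Helper48.HD.Tube

/-!
Module HD-K2: the homotopy preserves alternating forms.

Proof. η is an alternating map over ℤ: make it an AlternatingMap ℤ M Z (Fin q) (additivity
from IsAlt.add, the ℤ-homogeneity follows from additivity).  For x in M put
f x = (J (q+1) ∘ D x) ∘ η, again alternating (additive maps compose with alternating maps), and
x ↦ f x is additive by D_add.  AlternatingMap.alternatizeUncurryFin f is the function homFun:
its value at y is Σ_j (-1)^j • f (y j) (removeNth j y), removeNth j y = fun k => y (j.succAbove k).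
This gives add and alt.  The A-homogeneity: in the slot i, the term j = i uses D_smul and J_lin,
the terms j ≠ i use the homogeneity of η in the slot corresponding to i, D_lin and J_lin.
-/

namespace HD

section

variable {A B C : Type} [CommRing A] [Algebra ℂ A] [UniformSpace A]
    [CommRing B] [Algebra ℂ B] [UniformSpace B]
    [CommRing C] [Algebra ℂ C] [TopologicalSpace C]

/-- an alternating form as an alternating map over the integers -/
private def toAltInt {M Z : Type} [AddCommGroup M] [Module A M] [AddCommGroup Z]
    {act : A → Z → Z} {q : ℕ} {η : (Fin q → M) → Z} (hη : IsAlt act η) :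
    AlternatingMap ℤ M Z (Fin q) where
  toFun := η
  map_update_add' := by
    intro inst y i u v
    have e : inst = instDecidableEqFin q := Subsingleton.elim _ _
    subst e
    exact hη.add y i u v
  map_update_smul' := by
    intro inst y i n u
    have e : inst = instDecidableEqFin q := Subsingleton.elim _ _
    subst e
    exact map_zsmul (AddMonoidHom.mk' (fun w => η (Function.update y i w))
      (fun u v => hη.add y i u v)) n u
  map_eq_zero_of_eq' := by
    intro y i j h hij
    exact hη.alt y i j h hij

/-- the terms of the homotopy -/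
private def homMap (𝕋 : Tube A B) {Y : BMod A C} {Z : BMod B C} (O : 𝕋.Ops Y Z) {q : ℕ}
    {η : (Fin q → 𝕋.M) → Z.V} (hη : IsAlt (fun a z => Z.l (𝕋.ι a) z) η) :
    𝕋.M →ₗ[ℤ] AlternatingMap ℤ 𝕋.M Z.V (Fin q) :=
  (AddMonoidHom.mk' (fun x =>
    (((O.J (q + 1)).toLinearMap.toAddMonoidHom.comp
      (O.D x).toLinearMap.toAddMonoidHom).toIntLinearMap).compAlternatingMap (toAltInt hη))
    (fun x x' => by
      ext y
      show O.J (q + 1) (O.D (x + x') (η y)) =
        O.J (q + 1) (O.D x (η y)) + O.J (q + 1) (O.D x' (η y))
      rw [O.D_add, map_add])).toIntLinearMap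

private theorem homFun_eq (𝕋 : Tube A B) {Y : BMod A C} {Z : BMod B C} (O : 𝕋.Ops Y Z) {q : ℕ}
    {η : (Fin q → 𝕋.M) → Z.V} (hη : IsAlt (fun a z => Z.l (𝕋.ι a) z) η) (y : Fin (q + 1) → 𝕋.M) :
    homFun 𝕋 O η y = AlternatingMap.alternatizeUncurryFin (homMap 𝕋 O hη) y := by
  rw [AlternatingMap.alternatizeUncurryFin_apply]
  rfl

theorem isAlt_homFun (𝕋 : Tube A B) {Y : BMod A C} {Z : BMod B C} (O : 𝕋.Ops Y Z) {q : ℕ}
    {η : (Fin q → 𝕋.M) → Z.V} (hη : IsAlt (fun a z => Z.l (𝕋.ι a) z) η) :
    IsAlt (fun a z => Z.l (𝕋.ι a) z) (homFun 𝕋 O η) := by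
  refine ⟨fun y i u v => ?_, fun y i a u => ?_, fun y i j h hij => ?_⟩
  · rw [homFun_eq 𝕋 O hη, homFun_eq 𝕋 O hη, homFun_eq 𝕋 O hη]
    exact AlternatingMap.map_update_add _ y i u v
  · show (∑ j : Fin (q + 1), ((-1 : ℤ) ^ (j : ℕ)) • O.J (q + 1)
        (O.D (Function.update y i (a • u) j)
          (η (fun k => Function.update y i (a • u) (j.succAbove k))))) =
      Z.l (𝕋.ι a) (∑ j : Fin (q + 1), ((-1 : ℤ) ^ (j : ℕ)) • O.J (q + 1)
        (O.D (Function.update y i u j) (η (fun k => Function.update y i u (j.succAbove k)))))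
    rw [map_sum]
    refine Finset.sum_congr rfl fun j _ => ?_
    rw [map_zsmul]
    congr 1
    by_cases hji : j = i
    · subst hji
      have e : ∀ w : 𝕋.M, (fun k => Function.update y j w (j.succAbove k)) =
          fun k => y (j.succAbove k) := by
        intro w
        funext k
        exact Function.update_of_ne (Fin.succAbove_ne j k) _ _
      rw [e, e, Function.update_self, Function.update_self, O.D_smul, O.J_lin]
    · obtain ⟨i', hi'⟩ := Fin.exists_succAbove_eq (Ne.symm hji)
      have e : ∀ w : 𝕋.M, (fun k => Function.update y i w (j.succAbove k)) =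
          Function.update (fun k => y (j.succAbove k)) i' w := by
        intro w
        have h1 := Function.update_comp_eq_of_injective y (Fin.succAbove_right_injective (p := j))
          i' w
        rw [hi'] at h1
        exact h1
      rw [e, e, Function.update_of_ne hji, Function.update_of_ne hji, hη.smul, O.D_lin, O.J_lin]
  · rw [homFun_eq 𝕋 O hη]
    exact AlternatingMap.map_eq_zero_of_eq _ y h hij

end

end HD
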