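import Pool.Agent.Helper48.HD.K1
import Pool.Agent.Helper48.HD.K2

/-!
Project HD: forms and Koszul maps as continuous linear maps.
-/

namespace HD

section

variable {A B C : Type} [CommRing A] [Algebra ℂ A] [TopologicalSpace A]
    [CommRing B] [Algebra ℂ B] [TopologicalSpace B]
    [CommRing C] [Algebra ℂ C] [TopologicalSpace C]

/-- Action of a fixed scalar as a continuous linear map. -/
def BMod.lL (Z : BMod B C) (b : B) : Z.V →L[ℂ] Z.V := ⟨Z.l b, Z.continuous_l b⟩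

def BMod.rL (Z : BMod B C) (c : C) : Z.V →L[ℂ] Z.V := ⟨Z.r c, Z.continuous_r c⟩

theorem BMod.lL_apply (Z : BMod B C) (b : B) (z : Z.V) : Z.lL b z = Z.l b z := rfl

theorem BMod.rL_apply (Z : BMod B C) (c : C) (z : Z.V) : Z.rL c z = Z.r c z := rfl

variable {M : Type} [AddCommGroup M] [Module A M] {q : ℕ} {φ : A →ₐ[ℂ] B} {Z : BMod B C}

/-- A form from its values. -/
def alt.mk (φ : A →ₐ[ℂ] B) (Z : BMod B C) (η : (Fin q → M) → Z.V)
    (h : IsAlt (fun a z => Z.l (φ a) z) η) : (alt M q φ Z).V :=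
  (⟨η, h⟩ : altSub M q φ Z)

theorem alt.ev_mk (η : (Fin q → M) → Z.V) (h : IsAlt (fun a z => Z.l (φ a) z) η)
    (y : Fin q → M) : alt.ev (alt.mk φ Z η h) y = η y := rfl

theorem alt.isAlt (η : (alt M q φ Z).V) : IsAlt (fun a z => Z.l (φ a) z) (alt.ev η) :=
  (η : altSub M q φ Z).2

theorem alt.ext {η θ : (alt M q φ Z).V} (h : ∀ y, alt.ev η y = alt.ev θ y) : η = θ :=
  Subtype.ext (funext h)

theorem alt.ev_add (η θ : (alt M q φ Z).V) (y : Fin q → M) :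
    alt.ev (η + θ) y = alt.ev η y + alt.ev θ y := rfl

theorem alt.ev_sub (η θ : (alt M q φ Z).V) (y : Fin q → M) :
    alt.ev (η - θ) y = alt.ev η y - alt.ev θ y := rfl

theorem alt.ev_zero (y : Fin q → M) : alt.ev (0 : (alt M q φ Z).V) y = 0 := rfl

theorem alt.ev_smul (z : ℂ) (η : (alt M q φ Z).V) (y : Fin q → M) :
    alt.ev (z • η) y = z • alt.ev η y := rfl

theorem alt.ev_l (b : B) (η : (alt M q φ Z).V) (y : Fin q → M) :
    alt.ev ((alt M q φ Z).l b η) y = Z.l b (alt.ev η y) := rfl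

theorem alt.ev_r (c : C) (η : (alt M q φ Z).V) (y : Fin q → M) :
    alt.ev ((alt M q φ Z).r c η) y = Z.r c (alt.ev η y) := rfl

variable (φ Z) in
/-- Evaluation. -/
def alt.evL (y : Fin q → M) : (alt M q φ Z).V →L[ℂ] Z.V where
  toFun η := alt.ev η y
  map_add' _ _ := rfl
  map_smul' _ _ := rfl
  cont := (continuous_apply y).comp continuous_subtype_val

theorem alt.evL_apply (y : Fin q → M) (η : (alt M q φ Z).V) :
    alt.evL φ Z y η = alt.ev η y := rfl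

/-- Continuous linear maps to a space of forms. -/
def alt.liftL {W : Type} [AddCommGroup W] [Module ℂ W] [TopologicalSpace W]
    (φ : A →ₐ[ℂ] B) (Z : BMod B C) (F : (Fin q → M) → (W →L[ℂ] Z.V))
    (h : ∀ w, IsAlt (fun a z => Z.l (φ a) z) (fun y => F y w)) : W →L[ℂ] (alt M q φ Z).V where
  toFun w := alt.mk φ Z (fun y => F y w) (h w)
  map_add' u w := alt.ext fun y => by
    rw [alt.ev_add]
    simp only [alt.ev_mk, map_add]
  map_smul' z w := alt.ext fun y => by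
    simp only [alt.ev_mk, map_smul, RingHom.id_apply]
    rfl
  cont := by
    refine Continuous.subtype_mk ?_ _
    exact continuous_pi fun y => (F y).continuous

theorem alt.ev_liftL {W : Type} [AddCommGroup W] [Module ℂ W] [TopologicalSpace W]
    (F : (Fin q → M) → (W →L[ℂ] Z.V))
    (h : ∀ w, IsAlt (fun a z => Z.l (φ a) z) (fun y => F y w)) (w : W) (y : Fin q → M) :
    alt.ev (alt.liftL φ Z F h w) y = F y w := rfl

end

section

variable {A B B' C C' : Type} [CommRing A] [Algebra ℂ A] [TopologicalSpace A]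
    [CommRing B] [Algebra ℂ B] [TopologicalSpace B]
    [CommRing B'] [Algebra ℂ B'] [TopologicalSpace B']
    [CommRing C] [Algebra ℂ C] [TopologicalSpace C]
    [CommRing C'] [Algebra ℂ C'] [TopologicalSpace C']

/-- Composition of forms with a map of the values. -/
def alt.map (M : Type) [AddCommGroup M] [Module A M] (q : ℕ) {φ : A →ₐ[ℂ] B} {φ' : A →ₐ[ℂ] B'}
    {Z : BMod B C} {Z' : BMod B' C'} (f : Z.V →L[ℂ] Z'.V)
    (hf : ∀ a z, f (Z.l (φ a) z) = Z'.l (φ' a) (f z)) :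
    (alt M q φ Z).V →L[ℂ] (alt M q φ' Z').V :=
  alt.liftL φ' Z' (fun y => f.comp (alt.evL φ Z y)) (by
    intro η
    have h := alt.isAlt η
    refine ⟨fun y i u v => ?_, fun y i a u => ?_, fun y i j e hij => ?_⟩
    · show f (alt.ev η _) = f (alt.ev η _) + f (alt.ev η _)
      rw [h.add, map_add]
    · show f (alt.ev η _) = Z'.l (φ' a) (f (alt.ev η _))
      rw [h.smul, hf]
    · show f (alt.ev η _) = 0
      rw [h.alt y i j e hij, map_zero])

theorem alt.ev_map {M : Type} [AddCommGroup M] [Module A M] {q : ℕ} {φ : A →ₐ[ℂ] B}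
    {φ' : A →ₐ[ℂ] B'} {Z : BMod B C} {Z' : BMod B' C'} (f : Z.V →L[ℂ] Z'.V)
    (hf : ∀ a z, f (Z.l (φ a) z) = Z'.l (φ' a) (f z)) (η : (alt M q φ Z).V) (y : Fin q → M) :
    alt.ev (alt.map M q (φ := φ) (φ' := φ') f hf η) y = f (alt.ev η y) := rfl

end

section

variable {A B C : Type} [CommRing A] [Algebra ℂ A] [UniformSpace A]
    [CommRing B] [Algebra ℂ B] [UniformSpace B]
    [CommRing C] [Algebra ℂ C] [TopologicalSpace C]

/-- The Koszul differential. -/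
noncomputable def kosL (𝕋 : Tube A B) (Z : BMod B C) (q : ℕ) :
    (alt 𝕋.M (q + 1) 𝕋.ι Z).V →L[ℂ] (alt 𝕋.M q 𝕋.ι Z).V :=
  alt.liftL 𝕋.ι Z (fun y => ∑ i, (Z.lL (𝕋.v i)).comp (alt.evL 𝕋.ι Z (Fin.cons (𝕋.x i) y))) (by
    intro η
    have h := isAlt_kosFun 𝕋 Z (alt.isAlt η)
    have e : (fun y : Fin q → 𝕋.M => (∑ i, (Z.lL (𝕋.v i)).comp
        (alt.evL 𝕋.ι Z (Fin.cons (𝕋.x i) y))) η) = kosFun 𝕋 Z (alt.ev η) := by
      funext y
      simp [kosFun, BMod.lL_apply, alt.evL_apply]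
    rw [e]
    exact h)

theorem ev_kosL (𝕋 : Tube A B) (Z : BMod B C) (q : ℕ) (η : (alt 𝕋.M (q + 1) 𝕋.ι Z).V)
    (y : Fin q → 𝕋.M) : alt.ev (kosL 𝕋 Z q η) y = kosFun 𝕋 Z (alt.ev η) y := by
  rw [kosL, alt.ev_liftL]
  simp [kosFun, BMod.lL_apply, alt.evL_apply]

/-- The homotopy. -/
noncomputable def homL (𝕋 : Tube A B) {Y : BMod A C} {Z : BMod B C} (O : 𝕋.Ops Y Z) (q : ℕ) :
    (alt 𝕋.M q 𝕋.ι Z).V →L[ℂ] (alt 𝕋.M (q + 1) 𝕋.ι Z).V :=
  alt.liftL 𝕋.ι Z (fun y => ∑ j : Fin (q + 1), ((-1 : ℤ) ^ (j : ℕ)) • (O.J (q + 1)).comp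
      ((O.D (y j)).comp (alt.evL 𝕋.ι Z (fun k => y (j.succAbove k))))) (by
    intro η
    have h := isAlt_homFun 𝕋 O (alt.isAlt η)
    have e : (fun y : Fin (q + 1) → 𝕋.M => (∑ j : Fin (q + 1), ((-1 : ℤ) ^ (j : ℕ)) •
        (O.J (q + 1)).comp ((O.D (y j)).comp (alt.evL 𝕋.ι Z (fun k => y (j.succAbove k))))) η)
        = homFun 𝕋 O (alt.ev η) := by
      funext y
      simp [homFun, alt.evL_apply]
    rw [e]
    exact h)

theorem ev_homL (𝕋 : Tube A B) {Y : BMod A C} {Z : BMod B C} (O : 𝕋.Ops Y Z) (q : ℕ)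
    (η : (alt 𝕋.M q 𝕋.ι Z).V) (y : Fin (q + 1) → 𝕋.M) :
    alt.ev (homL 𝕋 O q η) y = homFun 𝕋 O (alt.ev η) y := by
  rw [homL, alt.ev_liftL]
  simp [homFun, alt.evL_apply]

end

end HD
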