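import Pool.Agent.Helper48.HD.GDefs

/-!
Project HD: the definitions used in the statement.  Modules over a commutative topological algebra A
with one action of A (left modules) or two commuting actions of A (bimodules), projective modules,
admissible projective resolutions, homological dimensions.
-/

open scoped Manifold ContDiff Topology

namespace HD

open Pool.Agent.Helper39.ST (IsPolynormedSpace Hol)

section

variable (ι A : Type) [CommRing A] [Algebra ℂ A] [TopologicalSpace A]

/-- A topological vector space with a family (indexed by ι) of commuting, jointly continuous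
bilinear associative actions of the commutative algebra A (the unit of A need not act as the
identity).  For ι = Unit these are the topological left A-modules, for ι = Bool the topological
A-bimodules (two actions, true on the left and false on the right). -/
structure PMod : Type 1 where
  V : Type
  [acg : AddCommGroup V]
  [mod : Module ℂ V]
  [top : TopologicalSpace V]
  [tag : IsTopologicalAddGroup V]
  [csm : ContinuousSMul ℂ V]
  act : ι → A → V → V
  add_act : ∀ i a b x, act i (a + b) x = act i a x + act i b x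
  smul_act : ∀ i (z : ℂ) a x, act i (z • a) x = z • act i a x
  act_add : ∀ i a x y, act i a (x + y) = act i a x + act i a y
  act_smul : ∀ i a (z : ℂ) x, act i a (z • x) = z • act i a x
  act_mul : ∀ i a b x, act i (a * b) x = act i a (act i b x)
  comm : ∀ i j a b x, act i a (act j b x) = act j b (act i a x)
  cont : ∀ i, Continuous fun p : A × V => act i p.1 p.2

attribute [instance] PMod.acg PMod.mod PMod.top PMod.tag PMod.csm

variable {ι A}

/-- Polynormed modules: the space is complete, Hausdorff and locally convex. -/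
def PMod.Poly (X : PMod ι A) : Prop := IsPolynormedSpace X.V

/-- Continuous linear maps. -/
def IsMap (X Y : PMod ι A) (f : X.V → Y.V) : Prop :=
  Continuous f ∧ (∀ x y, f (x + y) = f x + f y) ∧ ∀ (z : ℂ) x, f (z • x) = z • f x

/-- Morphisms of modules. -/
def IsMor (X Y : PMod ι A) (f : X.V → Y.V) : Prop :=
  IsMap X Y f ∧ ∀ i a x, f (X.act i a x) = Y.act i a (f x)

/-- Projective modules: every morphism of a polynormed module onto P with a continuous linear
right inverse has a right inverse which is a morphism. -/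
def PMod.Proj (P : PMod ι A) : Prop :=
  ∀ (E : PMod ι A) (f : E.V → P.V), E.Poly → IsMor E P f →
    (∃ s, IsMap P E s ∧ ∀ p, f (s p) = p) → ∃ t, IsMor P E t ∧ ∀ p, f (t p) = p

/-- 0 ← X ← P 0 ← P 1 ← ... is a complex of modules. -/
def IsCx (X : PMod ι A) (P : ℕ → PMod ι A) (aug : (P 0).V → X.V)
    (d : ∀ k, (P (k + 1)).V → (P k).V) : Prop :=
  IsMor (P 0) X aug ∧ (∀ k, IsMor (P (k + 1)) (P k) (d k)) ∧ (∀ y, aug (d 0 y) = 0) ∧
    ∀ k y, d k (d (k + 1) y) = 0

/-- The complex splits as a complex of topological vector spaces. -/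
def Splits (X : PMod ι A) (P : ℕ → PMod ι A) (aug : (P 0).V → X.V)
    (d : ∀ k, (P (k + 1)).V → (P k).V) : Prop :=
  ∃ (s' : X.V → (P 0).V) (s : ∀ k, (P k).V → (P (k + 1)).V),
    IsMap X (P 0) s' ∧ (∀ k, IsMap (P k) (P (k + 1)) (s k)) ∧
    (∀ x, aug (s' x) = x) ∧ (∀ y, d 0 (s 0 y) + s' (aug y) = y) ∧
    ∀ k y, d (k + 1) (s (k + 1) y) + s k (d k y) = y

/-- X has an admissible projective resolution with P k = 0 for k > m. -/
def PMod.HasRes (X : PMod ι A) (m : ℕ) : Prop :=
  ∃ (P : ℕ → PMod ι A) (aug : (P 0).V → X.V) (d : ∀ k, (P (k + 1)).V → (P k).V),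
    (∀ k, (P k).Poly ∧ (P k).Proj) ∧ (∀ k, m < k → Subsingleton (P k).V) ∧
    IsCx X P aug d ∧ Splits X P aug d

/-- The homological dimension. -/
noncomputable def PMod.dh (X : PMod ι A) : ℕ∞ := sInf {m : ℕ∞ | ∃ k : ℕ, m = k ∧ X.HasRes k}

/-- Irreducible modules: some product is not zero, and only trivial invariant subspaces. -/
def PMod.Irred (X : PMod ι A) : Prop :=
  (∃ i a x, X.act i a x ≠ 0) ∧
    ∀ W : Submodule ℂ X.V, (∀ i a x, x ∈ W → X.act i a x ∈ W) → W = ⊥ ∨ W = ⊤

variable (A)

/-- The global dimension. -/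
noncomputable def dgP : ℕ∞ := ⨆ (X : PMod Unit A) (_ : X.Poly), X.dh

/-- The small dimension. -/
noncomputable def dsP : ℕ∞ := ⨆ (X : PMod Unit A) (_ : X.Poly ∧ X.Irred), X.dh

/-- The unitization A₊ = A × ℂ as a bimodule. -/
noncomputable def unitz [IsTopologicalRing A] [ContinuousSMul ℂ A] : PMod Bool A where
  V := A × ℂ
  act _ a v := (a * v.1 + v.2 • a, 0)
  add_act i a b x := by ext <;> simp [add_mul]; abel
  smul_act i z a x := by ext <;> simp [smul_smul, mul_comm]
  act_add i a x y := by ext <;> simp [mul_add, add_smul]; abel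
  act_smul i a z x := by ext <;> simp [smul_smul]
  act_mul i a b x := by ext <;> simp [mul_assoc, mul_add]
  comm i j a b x := by ext <;> simp [mul_add, mul_left_comm, mul_comm]
  cont i := by fun_prop

/-- The bidimension. -/
noncomputable def dbP [IsTopologicalRing A] [ContinuousSMul ℂ A] : ℕ∞ := (unitz A).dh

variable {A}
variable {B : Type} [CommRing B] [Algebra ℂ B] [TopologicalSpace B]

/-- Up to an isomorphism e of topological vector spaces, X' is the left module X, on which b in B
acts as any a in A with R b a. -/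
def IsPull (R : B → A → Prop) (X : PMod Unit A) (X' : PMod Unit B) : Prop :=
  ∃ (e : X.V → X'.V) (e' : X'.V → X.V), (Continuous e ∧ Continuous e') ∧
    ((∀ x y, e (x + y) = e x + e y) ∧ ∀ (z : ℂ) x, e (z • x) = z • e x) ∧
    ((∀ x, e' (e x) = x) ∧ ∀ y, e (e' y) = y) ∧
    ∀ b a, R b a → ∀ i x, X'.act i b (e x) = e (X.act i a x)

/-- dh_B X' = dh_A X + c for all nonzero unital polynormed left A-modules X, where X' is X with any
action of B in which b acts as any a with R b a. -/
def DhShift (R : B → A → Prop) (c : ℕ) : Prop :=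
  ∀ (X : PMod Unit A) (X' : PMod Unit B), X.Poly → (∀ i x, X.act i 1 x = x) →
    (∃ x : X.V, x ≠ 0) → IsPull R X X' → X'.dh = X.dh + c

end

section

variable (n : ℕ) (S : Type) [TopologicalSpace S] [ChartedSpace (EuclideanSpace ℂ (Fin n)) S]

/-- S is a complex manifold of dimension n. -/
abbrev CMan : Prop := IsManifold 𝓘(ℂ, EuclideanSpace ℂ (Fin n)) ω S

/-- The global dimension of 𝓞(S). -/
noncomputable def dgO : ℕ∞ := dgP (Hol n S)

/-- The small dimension of 𝓞(S). -/
noncomputable def dsO : ℕ∞ := dsP (Hol n S)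

/-- The bidimension of 𝓞(S). -/
noncomputable def dbO : ℕ∞ := dbP (Hol n S)

variable {n S}

/-- The derivative of f at x in the direction v (in the chart at x). -/
noncomputable def dirDeriv (x : S) (v : EuclideanSpace ℂ (Fin n)) (f : C(S, ℂ)) : ℂ :=
  deriv (fun t : ℂ => f ((chartAt (EuclideanSpace ℂ (Fin n)) x).symm
    (chartAt (EuclideanSpace ℂ (Fin n)) x x + t • v))) 0

/-- There are n functions in 𝓞(S) whose differentials at x are linearly independent. -/
def CoordAt (x : S) : Prop :=
  ∃ f : Fin n → Hol n S, ∀ c : Fin n → ℂ,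
    (∀ v : EuclideanSpace ℂ (Fin n), ∑ i, c i * dirDeriv x v (f i) = 0) → c = 0

variable {N m : ℕ} {W : Type} [TopologicalSpace W] [ChartedSpace (EuclideanSpace ℂ (Fin N)) W]

/-- a is the restriction of f to the zero section. -/
def GTube.restr (T : GTube n N m S W) (f : Hol N W) (a : Hol n S) : Prop :=
  ∀ s, (a : C(S, ℂ)) s = (f : C(W, ℂ)) (T.g (s, 0))

end

end HD
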