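import Pool.Agent.Helper48.HD.Basic
import Pool.Agent.Helper39.ST.Defs

/-!
Project HD: the unital part of a module in the sense of Helper39/ST/Defs.lean (where the unit of
the algebra need not act as the identity) as a BMod.
-/

open scoped Manifold ContDiff Topology

namespace HD

open Pool.Agent.Helper39.ST

section

variable {A : Type} [CommRing A] [Algebra ℂ A] [TopologicalSpace A]

/-- The unital part {x | 1 x = x} of a polynormed left module. -/
noncomputable def cornerSub (X : LeftMod A) : Submodule ℂ X.V :=
  LinearMap.ker (X.act 1 - LinearMap.id)

theorem mem_cornerSub {X : LeftMod A} {x : X.V} : x ∈ cornerSub X ↔ X.act 1 x = x := by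
  rw [cornerSub, LinearMap.mem_ker, LinearMap.sub_apply, LinearMap.id_apply, sub_eq_zero]

theorem isClosed_cornerSub (X : LeftMod A) (hX : X.IsPolynormed) :
    IsClosed (cornerSub X : Set X.V) := by
  haveI := hX.1
  have e : (cornerSub X : Set X.V) = {x | X.act 1 x = x} := Set.ext fun x => mem_cornerSub
  rw [e]
  exact isClosed_eq (X.continuous_act.comp (continuous_const.prodMk continuous_id)) continuous_id

/-- The unital part as a BMod. -/
noncomputable def corner (X : LeftMod A) (hX : X.IsPolynormed) : BMod A ℂ :=
  letI := IsTopologicalAddGroup.rightUniformSpace X.V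
  haveI : IsUniformAddGroup X.V := isUniformAddGroup_of_addCommGroup
  haveI := hX.1
  haveI := hX.2.1
  haveI : CompleteSpace X.V := hX.2.2
  haveI : IsUniformAddGroup (cornerSub X) :=
    inferInstanceAs (IsUniformAddGroup (cornerSub X).toAddSubgroup)
  haveI : CompleteSpace (cornerSub X) := (isClosed_cornerSub X hX).completeSpace_coe
  haveI : LocallyConvexSpace ℝ (cornerSub X) :=
    LocallyConvexSpace.induced (𝕜 := ℝ) ((cornerSub X).subtype.restrictScalars ℝ)
  { V := cornerSub X
    l :=
      { toFun := fun a => (X.act a).restrict (fun x hx => by
          rw [mem_cornerSub] at hx ⊢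
          rw [← X.act_mul, one_mul])
        map_one' := by
          ext x
          exact mem_cornerSub.mp x.2
        map_mul' := fun a b => by
          ext x
          exact X.act_mul a b x
        map_zero' := by ext x; simp
        map_add' := fun a b => by ext x; simp
        commutes' := fun z => by
          ext x
          show X.act (algebraMap ℂ A z) x = z • (x : X.V)
          rw [Algebra.algebraMap_eq_smul_one, map_smul, LinearMap.smul_apply,
            mem_cornerSub.mp x.2] }
    r := Algebra.ofId ℂ (Module.End ℂ (cornerSub X))
    cl := Continuous.subtype_mk (X.continuous_act.comp (continuous_fst.prodMk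
        (continuous_subtype_val.comp continuous_snd))) _
    cr := by
      have h : (fun p : ℂ × cornerSub X => (Algebra.ofId ℂ (Module.End ℂ (cornerSub X))) p.1 p.2)
          = fun p => p.1 • p.2 := by
        funext p
        simp [Algebra.ofId_apply, Algebra.algebraMap_eq_smul_one]
      rw [h]
      exact continuous_smul
    comm := fun a c x => by
      simp [Algebra.ofId_apply, Algebra.algebraMap_eq_smul_one] }

/-- Restriction of a left module along a homomorphism. -/
def pullMod {B : Type} [CommRing B] [Algebra ℂ B] [TopologicalSpace B] (ρ : B →ₐ[ℂ] A)
    (hρ : Continuous ρ) (X : LeftMod A) : LeftMod B where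
  V := X.V
  act := X.act.comp ρ.toLinearMap
  act_mul := fun a b v => by
    show X.act (ρ (a * b)) v = X.act (ρ a) (X.act (ρ b) v)
    rw [map_mul, X.act_mul]
  continuous_act := X.continuous_act.comp ((hρ.comp continuous_fst).prodMk continuous_snd)

end

end HD
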