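import Pool.Agent.Helper48.HD.PDefs
import Pool.Agent.Helper48.HD.VDefs
import Pool.Agent.Helper39.ST.Defs

/-!
Module HD-PL: PMod Unit A and the left modules of Helper39/ST/Defs.lean give the same homological
dimensions.
-/

open scoped Manifold ContDiff Topology

namespace HD

open Pool.Agent.Helper39.ST (LeftMod)

section

variable {ι A : Type} [CommRing A] [Algebra ℂ A] [TopologicalSpace A]

/-- A map of modules as a continuous linear map. -/
def IsMap.cl {X Y : PMod ι A} {f : X.V → Y.V} (h : IsMap X Y f) : X.V →L[ℂ] Y.V where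
  toFun := f
  map_add' := h.2.1
  map_smul' := h.2.2
  cont := h.1

theorem isMap_cl {X Y : PMod ι A} (f : X.V →L[ℂ] Y.V) : IsMap X Y f :=
  ⟨f.continuous, map_add f, map_smul f⟩

/-- A module as a left module in the sense of Helper39/ST. -/
def ofP (X : PMod Unit A) : LeftMod A where
  V := X.V
  act := LinearMap.mk₂ ℂ (fun a x => X.act () a x) (fun a b x => X.add_act () a b x)
    (fun z a x => X.smul_act () z a x) (fun a x y => X.act_add () a x y)
    (fun z a x => X.act_smul () a z x)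
  act_mul := fun a b x => X.act_mul () a b x
  continuous_act := X.cont ()

/-- A left module in the sense of Helper39/ST as a module. -/
def toP (X : LeftMod A) : PMod Unit A where
  V := X.V
  act _ a x := X.act a x
  add_act _ a b x := by rw [map_add, LinearMap.add_apply]
  smul_act _ z a x := by rw [map_smul, LinearMap.smul_apply]
  act_add _ a x y := map_add _ _ _
  act_smul _ a z x := map_smul _ _ _
  act_mul _ a b x := X.act_mul a b x
  comm _ _ a b x := by rw [← X.act_mul, ← X.act_mul, mul_comm]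
  cont _ := X.continuous_act

theorem ofP_act (X : PMod Unit A) (a : A) (x : X.V) : (ofP X).act a x = X.act () a x := rfl

theorem proj_ofP {P : PMod Unit A} (h : P.Proj) : (ofP P).IsProjective := by
  intro E hE f hf ⟨s, hs⟩
  obtain ⟨t, ht, htt⟩ := h (toP E) f hE
    ⟨⟨f.continuous, map_add f, map_smul f⟩, fun _ a x => hf a x⟩
    ⟨s, ⟨s.continuous, map_add s, map_smul s⟩, hs⟩
  exact ⟨ht.1.cl, fun a x => ht.2 () a x, htt⟩

theorem proj_toP {P : LeftMod A} (h : P.IsProjective) : (toP P).Proj := by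
  intro E f hE hf ⟨s, hs, hss⟩
  obtain ⟨t, ht, htt⟩ := h (ofP E) hE hf.1.cl (fun a x => hf.2 () a x) ⟨hs.cl, hss⟩
  exact ⟨t, ⟨⟨t.continuous, map_add t, map_smul t⟩, fun _ a x => ht a x⟩, htt⟩

theorem hasRes_iff (X : PMod Unit A) (m : ℕ) : X.HasRes m ↔ (ofP X).HasResolution m := by
  constructor
  · rintro ⟨P, aug, d, hP, hm, ⟨h1, h2, h3, h4⟩, s', s, h5, h6, h7, h8, h9⟩
    exact ⟨fun k => ofP (P k), h1.1.cl, fun k => (h2 k).1.cl, h5.cl, fun k => (h6 k).cl,
      fun k => ⟨(hP k).1, proj_ofP (hP k).2⟩, fun a x => h1.2 () a x, fun k a x => (h2 k).2 () a x,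
      h3, h4, h7, h8, h9, hm⟩
  · rintro ⟨P, aug, d, s', s, hP, h1, h2, h3, h4, h7, h8, h9, hm⟩
    exact ⟨fun k => toP (P k), aug, fun k => d k, fun k => ⟨(hP k).1, proj_toP (hP k).2⟩, hm,
      ⟨⟨⟨aug.continuous, map_add aug, map_smul aug⟩, fun _ a x => h1 a x⟩,
        fun k => ⟨⟨(d k).continuous, map_add (d k), map_smul (d k)⟩, fun _ a x => h2 k a x⟩,
        h3, h4⟩, s', fun k => s k, ⟨s'.continuous, map_add s', map_smul s'⟩,
      fun k => ⟨(s k).continuous, map_add (s k), map_smul (s k)⟩, h7, h8, h9⟩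

theorem dh_ofP (X : PMod Unit A) : X.dh = (ofP X).dh := by
  unfold PMod.dh LeftMod.dh
  congr 1
  ext m
  simp only [Set.mem_setOf_eq, hasRes_iff]

theorem dh_toP (X : LeftMod A) : (toP X).dh = X.dh := dh_ofP (toP X)

theorem irred_ofP {X : PMod Unit A} (h : X.Irred) : (ofP X).IsIrreducible := by
  obtain ⟨⟨i, a, x, hx⟩, h2⟩ := h
  exact ⟨⟨a, x, hx⟩, fun W hW => h2 W fun i a x hx => hW a x hx⟩

theorem irred_toP {X : LeftMod A} (h : X.IsIrreducible) : (toP X).Irred := by
  obtain ⟨⟨a, x, hx⟩, h2⟩ := h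
  exact ⟨⟨(), a, x, hx⟩, fun W hW => h2 W fun a x hx => hW () a x hx⟩

variable (A) in
theorem dgP_eq : dgP A = Pool.Agent.Helper39.ST.dg A := by
  unfold dgP Pool.Agent.Helper39.ST.dg
  refine le_antisymm (iSup₂_le fun X hX => ?_) (iSup_le fun X => ?_)
  · rw [dh_ofP]
    exact le_iSup (fun Y : {Y : LeftMod A // Y.IsPolynormed} => Y.1.dh) ⟨ofP X, hX⟩
  · rw [← dh_toP]
    exact le_iSup₂ (f := fun (Y : PMod Unit A) (_ : Y.Poly) => Y.dh) (toP X.1) X.2

variable (A) in
theorem dsP_eq : dsP A = Pool.Agent.Helper39.ST.ds A := by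
  unfold dsP Pool.Agent.Helper39.ST.ds
  refine le_antisymm (iSup₂_le fun X hX => ?_) (iSup_le fun X => ?_)
  · rw [dh_ofP]
    exact le_iSup (fun Y : {Y : LeftMod A // Y.IsPolynormed ∧ Y.IsIrreducible} => Y.1.dh)
      ⟨ofP X, hX.1, irred_ofP hX.2⟩
  · rw [← dh_toP]
    exact le_iSup₂ (f := fun (Y : PMod Unit A) (_ : Y.Poly ∧ Y.Irred) => Y.dh) (toP X.1)
      ⟨X.2.1, irred_toP X.2.2⟩

end

end HD
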