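import Pool.Agent.Helper48.HD.H1

/-!
Module HD-T1: completed projective tensor products of complete locally convex spaces, balanced
with respect to a family of pairs of operators, with universal property with parameter.

Construction (proposal). For continuous seminorms p on E, q on F let Forms p q be the set of
all bilinear β : E →ₗ[ℂ] F →ₗ[ℂ] ℂ with β (u a m) n = β m (w a n) for all a and
‖β m n‖ ≤ p m * q n.  Let Big be the product over all pairs (p, q) of continuous seminorms of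
the Banach spaces lp (fun _ : Forms p q => ℂ) ⊤ (bounded functions; all instances: complete,
Hausdorff, locally convex, exist for products; Pi.locallyConvexSpace or so).  Let τ m n be the
family of functions β ↦ β m n.  T = topological closure of the span of all τ m n, a closed
subspace of Big, hence complete; the actions of ℂ on it are scalar multiplication (Algebra.ofId
ℂ (Module.End ℂ T)).  Continuity of τ: the (p,q)-component has norm at most p m * q n, and
bilinearity.  Density: by definition.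
Lift: given X, G, Φ continuous trilinear balanced.  For every continuous seminorm r on G there are
continuous seminorms x0 on X, p on E, q on F with r (Φ x m n) ≤ x0 x * p m * q n (continuity at 0
and homogeneity).  KEY INEQUALITY: for a finite sum z = Σ τ m_i n_i (linear combination) and x in
X: r (Σ Φ x m_i n_i) ≤ x0 x * ‖z_(p,q)‖.  Proof: Hahn-Banach gives a linear functional f on G,
|f| ≤ r, with f (Σ Φ x m_i n_i) = r (..); if x0 x ≠ 0 then β = (x0 x)⁻¹ • f (Φ x · ·) lies in
Forms p q and ‖z_(p,q)‖ ≥ |z_(p,q) β|; if x0 x = 0 both sides vanish.  (Hahn-Banach for a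
seminorm over ℂ: use the quotient of G by the kernel of r as normed space, or a geometric version,
or exists_extension_of_le_sublinear for the real part.)  So for fixed x the map
Σ τ m_i n_i ↦ Σ Φ x m_i n_i is well defined (T2) and uniformly continuous on the span, extends to
T (G complete), is bilinear in (x, t), and satisfies r (Ψ x t) ≤ x0 x * ‖t_(p,q)‖ on all of
X × T, which gives the joint continuity (for bilinear maps into a locally convex space continuity
at 0 in this form is enough).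
-/

namespace HD

open scoped ComplexOrder Topology TensorProduct

private theorem t1_lcsC (V : Type) [AddCommGroup V] [Module ℂ V] [TopologicalSpace V]
    [IsTopologicalAddGroup V] [LocallyConvexSpace ℝ V] : LocallyConvexSpace ℂ V := by
  rw [locallyConvexSpace_iff_exists_convex_subset_zero]
  intro U hU
  obtain ⟨S, hS, hc, hSU⟩ :=
    (locallyConvexSpace_iff_exists_convex_subset_zero ℝ V).1 inferInstance U hU
  exact ⟨S, hS, convex_of_nonneg_surjective_algebraMap _
    (fun z hz => by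
      obtain ⟨x, hx, rfl⟩ := (RCLike.nonneg_iff_exists_ofReal (K := ℂ)).mp hz
      exact ⟨x, hx, rfl⟩) hc, hSU⟩

private theorem t1_poly (V : Type) [AddCommGroup V] [Module ℂ V] [TopologicalSpace V]
    [IsTopologicalAddGroup V] [ContinuousSMul ℂ V] [LocallyConvexSpace ℝ V] :
    PolynormableSpace ℂ V := by
  haveI := t1_lcsC V
  haveI : ContinuousSMul ℝ V := IsScalarTower.continuousSMul ℂ
  infer_instance

private theorem t1_semi (V : Type) [AddCommGroup V] [Module ℂ V] [TopologicalSpace V]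
    [IsTopologicalAddGroup V] [ContinuousSMul ℂ V] [LocallyConvexSpace ℝ V]
    {U : Set V} (hU : U ∈ 𝓝 (0 : V)) :
    ∃ p : Seminorm ℂ V, Continuous p ∧ ∀ x, p x < 1 → x ∈ U := by
  haveI := t1_lcsC V
  haveI : ContinuousSMul ℝ V := IsScalarTower.continuousSMul ℂ
  obtain ⟨s, hs, hsU⟩ := (nhds_hasBasis_absConvex_open ℂ V).mem_iff.1 hU
  refine ⟨gaugeSeminormFamily ℂ V ⟨s, hs⟩, with_gaugeSeminormFamily.continuous_seminorm _, ?_⟩
  intro x hx
  apply hsU
  have := gaugeSeminormFamily_ball (𝕜 := ℂ) (E := V) ⟨s, hs⟩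
  have hx' : x ∈ (gaugeSeminormFamily ℂ V ⟨s, hs⟩).ball 0 1 := by
    rw [Seminorm.mem_ball_zero]
    exact hx
  rw [this] at hx'
  exact hx'

private theorem t1_hb (V : Type) [AddCommGroup V] [Module ℂ V] (r : Seminorm ℂ V) (v : V) :
    ∃ f : V →ₗ[ℂ] ℂ, (∀ y, ‖f y‖ ≤ r y) ∧ f v = (r v : ℂ) := by
  letI := AddGroupSeminorm.toSeminormedAddCommGroup r.toAddGroupSeminorm
  letI : NormedSpace ℂ V := ⟨fun c x => (map_smul_eq_mul r c x).le⟩
  obtain ⟨g, hg, hv⟩ := exists_dual_vector'' ℂ v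
  refine ⟨g.toLinearMap, fun y => ?_, hv⟩
  have := g.le_of_opNorm_le hg y
  rw [one_mul] at this
  exact this

/-- Continuity test. -/
private theorem t1_tendsto {α : Type} (V : Type) [AddCommGroup V] [Module ℂ V]
    [TopologicalSpace V] [IsTopologicalAddGroup V] [ContinuousSMul ℂ V] [LocallyConvexSpace ℝ V]
    (l : Filter α) (f : α → V) (v : V)
    (h : ∀ r : Seminorm ℂ V, Continuous r → Filter.Tendsto (fun a => r (f a - v)) l (𝓝 0)) :
    Filter.Tendsto f l (𝓝 v) := by
  haveI := t1_poly V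
  rw [(PolynormableSpace.withSeminorms ℂ V).tendsto_nhds f v]
  intro i ε hε
  exact (h i.1 i.2).eventually_lt_const hε

private theorem t1_cont_bilin (X Y Z : Type)
    [AddCommGroup X] [Module ℂ X] [TopologicalSpace X]
    [AddCommGroup Y] [Module ℂ Y] [TopologicalSpace Y]
    [IsTopologicalAddGroup X] [IsTopologicalAddGroup Y]
    [AddCommGroup Z] [Module ℂ Z]
    [TopologicalSpace Z] [IsTopologicalAddGroup Z] [ContinuousSMul ℂ Z] [LocallyConvexSpace ℝ Z]
    (B : X →ₗ[ℂ] Y →ₗ[ℂ] Z)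
    (h : ∀ r : Seminorm ℂ Z, Continuous r → ∃ (p : Seminorm ℂ X) (q : Seminorm ℂ Y),
      Continuous p ∧ Continuous q ∧ ∀ x y, r (B x y) ≤ p x * q y) :
    Continuous fun a : X × Y => B a.1 a.2 := by
  rw [continuous_iff_continuousAt]
  rintro ⟨x0, y0⟩
  apply t1_tendsto
  intro r hr
  obtain ⟨p, q, hp, hq, hpq⟩ := h r hr
  have hg : Filter.Tendsto (fun a : X × Y => p (a.1 - x0) * q (a.2 - y0) + p (a.1 - x0) * q y0
      + p x0 * q (a.2 - y0)) (𝓝 (x0, y0)) (𝓝 0) := by
    have hc : Continuous (fun a : X × Y => p (a.1 - x0) * q (a.2 - y0) + p (a.1 - x0) * q y0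
      + p x0 * q (a.2 - y0)) := by
      have h1 : Continuous fun a : X × Y => p (a.1 - x0) :=
        hp.comp (continuous_fst.sub continuous_const)
      have h2 : Continuous fun a : X × Y => q (a.2 - y0) :=
        hq.comp (continuous_snd.sub continuous_const)
      exact ((h1.mul h2).add (h1.mul continuous_const)).add (continuous_const.mul h2)
    have := hc.tendsto (x0, y0)
    simpa using this
  refine squeeze_zero (fun a => apply_nonneg r _) (fun a => ?_) hg
  have e : B a.1 a.2 - B x0 y0 = B (a.1 - x0) (a.2 - y0) + B (a.1 - x0) y0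
      + B x0 (a.2 - y0) := by
    simp only [map_sub, LinearMap.sub_apply]
    abel
  show r (B a.1 a.2 - B x0 y0) ≤ _
  rw [e]
  refine (map_add_le_add r _ _).trans (add_le_add ((map_add_le_add r _ _).trans
    (add_le_add (hpq _ _) (hpq _ _))) (hpq _ _))

private theorem t1_cont_lin (Y Z : Type)
    [AddCommGroup Y] [Module ℂ Y] [TopologicalSpace Y]
    [IsTopologicalAddGroup Y]
    [AddCommGroup Z] [Module ℂ Z]
    [TopologicalSpace Z] [IsTopologicalAddGroup Z] [ContinuousSMul ℂ Z] [LocallyConvexSpace ℝ Z]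
    (B : Y →ₗ[ℂ] Z)
    (h : ∀ r : Seminorm ℂ Z, Continuous r → ∃ q : Y → ℝ,
      Continuous q ∧ q 0 = 0 ∧ ∀ y, r (B y) ≤ q y) :
    Continuous B := by
  apply continuous_of_continuousAt_zero B.toAddMonoidHom
  show Filter.Tendsto B (𝓝 0) (𝓝 (B 0))
  apply t1_tendsto
  intro r hr
  obtain ⟨q, hq, h0, hle⟩ := h r hr
  have hg : Filter.Tendsto q (𝓝 0) (𝓝 0) := by
    have := hq.tendsto 0
    rwa [h0] at this
  refine squeeze_zero (fun a => apply_nonneg r _) (fun a => ?_) hg
  rw [map_zero, sub_zero]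
  exact hle a

private theorem t1_tri (X M N G : Type)
    [AddCommGroup X] [Module ℂ X] [TopologicalSpace X] [IsTopologicalAddGroup X]
    [ContinuousSMul ℂ X] [LocallyConvexSpace ℝ X]
    [AddCommGroup M] [Module ℂ M] [TopologicalSpace M] [IsTopologicalAddGroup M]
    [ContinuousSMul ℂ M] [LocallyConvexSpace ℝ M]
    [AddCommGroup N] [Module ℂ N] [TopologicalSpace N] [IsTopologicalAddGroup N]
    [ContinuousSMul ℂ N] [LocallyConvexSpace ℝ N]
    [AddCommGroup G] [Module ℂ G] [TopologicalSpace G]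
    (Φ : X →ₗ[ℂ] M →ₗ[ℂ] N →ₗ[ℂ] G)
    (hΦ : Continuous fun a : X × M × N => Φ a.1 a.2.1 a.2.2)
    (r : Seminorm ℂ G) (hr : Continuous r) :
    ∃ (x0 : Seminorm ℂ X) (p : Seminorm ℂ M) (q : Seminorm ℂ N),
      Continuous x0 ∧ Continuous p ∧ Continuous q ∧
      ∀ x m n, r (Φ x m n) ≤ x0 x * (p m * q n) := by
  have hW : {a : X × M × N | r (Φ a.1 a.2.1 a.2.2) < 1} ∈ 𝓝 ((0 : X), (0 : M), (0 : N)) := by
    have hc : Continuous fun a : X × M × N => r (Φ a.1 a.2.1 a.2.2) := hr.comp hΦ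
    apply (hc.isOpen_preimage _ isOpen_Iio).mem_nhds
    simp
  rw [nhds_prod_eq, Filter.mem_prod_iff] at hW
  obtain ⟨U1, hU1, U2, hU2, hU⟩ := hW
  rw [nhds_prod_eq, Filter.mem_prod_iff] at hU2
  obtain ⟨V1, hV1, V2, hV2, hV⟩ := hU2
  obtain ⟨x0, hx0, hx0'⟩ := t1_semi X hU1
  obtain ⟨p, hp, hp'⟩ := t1_semi M hV1
  obtain ⟨q, hq, hq'⟩ := t1_semi N hV2
  refine ⟨x0, p, q, hx0, hp, hq, fun x m n => ?_⟩
  have key : ∀ ε : ℝ, 0 < ε → r (Φ x m n) ≤ (x0 x + ε) * ((p m + ε) * (q n + ε)) := by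
    intro ε hε
    have ha : 0 < x0 x + ε := add_pos_of_nonneg_of_pos (apply_nonneg x0 x) hε
    have hb : 0 < p m + ε := add_pos_of_nonneg_of_pos (apply_nonneg p m) hε
    have hc : 0 < q n + ε := add_pos_of_nonneg_of_pos (apply_nonneg q n) hε
    have h1 : x0 (((x0 x + ε : ℝ) : ℂ)⁻¹ • x) < 1 := by
      rw [map_smul_eq_mul, norm_inv, Complex.norm_real, Real.norm_of_nonneg ha.le,
        inv_mul_lt_iff₀ ha]
      linarith
    have h2 : p (((p m + ε : ℝ) : ℂ)⁻¹ • m) < 1 := by
      rw [map_smul_eq_mul, norm_inv, Complex.norm_real, Real.norm_of_nonneg hb.le,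
        inv_mul_lt_iff₀ hb]
      linarith
    have h3 : q (((q n + ε : ℝ) : ℂ)⁻¹ • n) < 1 := by
      rw [map_smul_eq_mul, norm_inv, Complex.norm_real, Real.norm_of_nonneg hc.le,
        inv_mul_lt_iff₀ hc]
      linarith
    have hmem : ((((x0 x + ε : ℝ) : ℂ)⁻¹ • x), (((p m + ε : ℝ) : ℂ)⁻¹ • m),
        (((q n + ε : ℝ) : ℂ)⁻¹ • n)) ∈ {a : X × M × N | r (Φ a.1 a.2.1 a.2.2) < 1} :=
      hU ⟨hx0' _ h1, hV ⟨hp' _ h2, hq' _ h3⟩⟩
    have h4 : r (Φ (((x0 x + ε : ℝ) : ℂ)⁻¹ • x) (((p m + ε : ℝ) : ℂ)⁻¹ • m)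
        (((q n + ε : ℝ) : ℂ)⁻¹ • n)) < 1 := hmem
    simp only [map_smul, LinearMap.smul_apply] at h4
    rw [map_smul_eq_mul, map_smul_eq_mul, map_smul_eq_mul, norm_inv, norm_inv, norm_inv,
      Complex.norm_real, Complex.norm_real, Complex.norm_real, Real.norm_of_nonneg ha.le,
      Real.norm_of_nonneg hb.le, Real.norm_of_nonneg hc.le] at h4
    have h5 : r (Φ x m n) = (x0 x + ε) * ((p m + ε) * (q n + ε)) *
        ((q n + ε)⁻¹ * ((p m + ε)⁻¹ * ((x0 x + ε)⁻¹ * r (Φ x m n)))) := by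
      field_simp
    have h6 : (q n + ε)⁻¹ * ((p m + ε)⁻¹ * ((x0 x + ε)⁻¹ * r (Φ x m n))) < 1 := by
      have : (q n + ε)⁻¹ * ((p m + ε)⁻¹ * ((x0 x + ε)⁻¹ * r (Φ x m n))) =
        (x0 x + ε)⁻¹ * ((p m + ε)⁻¹ * ((q n + ε)⁻¹ * r (Φ x m n))) := by ring
      rw [this]
      first
        | exact h4
        | (convert h4 using 1; ring)
    rw [h5]
    have hpos : 0 < (x0 x + ε) * ((p m + ε) * (q n + ε)) := mul_pos ha (mul_pos hb hc)
    nlinarith
  have hcont : Continuous fun ε : ℝ => (x0 x + ε) * ((p m + ε) * (q n + ε)) := by fun_prop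
  have ht : Filter.Tendsto (fun ε : ℝ => (x0 x + ε) * ((p m + ε) * (q n + ε))) (𝓝[>] 0)
      (𝓝 (x0 x * (p m * q n))) := by
    have := (hcont.tendsto 0).mono_left (nhdsWithin_le_nhds (s := Set.Ioi 0))
    simpa using this
  exact ge_of_tendsto ht (Filter.eventually_of_mem self_mem_nhdsWithin fun ε hε => key ε hε)


private theorem t1_lift (E F T X G : BMod ℂ ℂ) (R : Type) (u : R → E.V → E.V)
    (w : R → F.V → F.V) (τ : E.V →ₗ[ℂ] F.V →ₗ[ℂ] T.V)
    (hdense : Dense ((LinearMap.range (TensorProduct.lift τ) : Submodule ℂ T.V) : Set T.V))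
    (hN : ∀ (p : Seminorm ℂ E.V) (q : Seminorm ℂ F.V), Continuous p → Continuous q →
      ∃ N : Seminorm ℂ T.V, Continuous N ∧ ∀ β : E.V →ₗ[ℂ] F.V →ₗ[ℂ] ℂ,
        (∀ a m n, β (u a m) n = β m (w a n)) → (∀ m n, ‖β m n‖ ≤ p m * q n) →
        ∀ z, ‖TensorProduct.lift β z‖ ≤ N (TensorProduct.lift τ z))
    (Φ : X.V →ₗ[ℂ] E.V →ₗ[ℂ] F.V →ₗ[ℂ] G.V)
    (hΦ : Continuous fun p : X.V × E.V × F.V => Φ p.1 p.2.1 p.2.2)
    (hbal : ∀ x a m n, Φ x (u a m) n = Φ x m (w a n)) :
    ∃ Ψ : X.V →ₗ[ℂ] T.V →ₗ[ℂ] G.V, (Continuous fun p : X.V × T.V => Ψ p.1 p.2) ∧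
      ∀ x m n, Ψ x (τ m n) = Φ x m n := by
  -- key inequality
  have key : ∀ r : Seminorm ℂ G.V, Continuous r → ∃ (x0 : Seminorm ℂ X.V) (N : Seminorm ℂ T.V),
      Continuous x0 ∧ Continuous N ∧
      ∀ x z, r (TensorProduct.lift (Φ x) z) ≤ x0 x * N (TensorProduct.lift τ z) := by
    intro r hr
    obtain ⟨x0, p, q, hx0, hp, hq, hle⟩ := t1_tri X.V E.V F.V G.V Φ hΦ r hr
    obtain ⟨N, hNc, hN'⟩ := hN p q hp hq
    refine ⟨x0, N, hx0, hNc, fun x z => ?_⟩
    by_cases h0 : x0 x = 0
    · rw [h0, zero_mul]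
      induction z using TensorProduct.induction_on with
      | zero => simp
      | tmul m n =>
        rw [TensorProduct.lift.tmul]
        have := hle x m n
        rwa [h0, zero_mul] at this
      | add a b ha hb =>
        rw [map_add]
        refine (map_add_le_add r _ _).trans ?_
        linarith
    · have hpos : 0 < x0 x := lt_of_le_of_ne (apply_nonneg x0 x) (Ne.symm h0)
      obtain ⟨f, hf, hfv⟩ := t1_hb G.V r (TensorProduct.lift (Φ x) z)
      have h1 := hN' (((x0 x : ℝ) : ℂ)⁻¹ • ((Φ x).compr₂ f)) (fun a m n => by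
        simp only [LinearMap.smul_apply, LinearMap.compr₂_apply, hbal]) (fun m n => by
        simp only [LinearMap.smul_apply, LinearMap.compr₂_apply, norm_smul, norm_inv,
          Complex.norm_real]
        rw [Real.norm_of_nonneg hpos.le, inv_mul_le_iff₀ hpos]
        exact (hf _).trans (hle x m n)) z
      have h3 : TensorProduct.lift (((x0 x : ℝ) : ℂ)⁻¹ • ((Φ x).compr₂ f))
          = ((x0 x : ℝ) : ℂ)⁻¹ • (f ∘ₗ TensorProduct.lift (Φ x)) :=
        TensorProduct.ext' (fun m n => by simp)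
      have h2 : TensorProduct.lift (((x0 x : ℝ) : ℂ)⁻¹ • ((Φ x).compr₂ f)) z
          = ((x0 x : ℝ) : ℂ)⁻¹ * f (TensorProduct.lift (Φ x) z) := by
        rw [h3]
        rfl
      rw [h2, hfv, norm_mul, norm_inv, Complex.norm_real, Complex.norm_real,
        Real.norm_of_nonneg hpos.le, Real.norm_of_nonneg (apply_nonneg r _),
        inv_mul_le_iff₀ hpos] at h1
      exact h1
  haveI : PolynormableSpace ℂ G.V := t1_poly G.V
  have hker : ∀ x z, TensorProduct.lift τ z = 0 → TensorProduct.lift (Φ x) z = 0 := by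
    intro x z hz
    by_contra hne
    obtain ⟨i, hi⟩ := (PolynormableSpace.withSeminorms ℂ G.V).separating_of_T1 _ hne
    apply hi
    obtain ⟨x0, N, -, -, hle⟩ := key i.1 i.2
    have := hle x z
    rw [hz, map_zero, mul_zero] at this
    exact le_antisymm this (apply_nonneg i.1 _)
  let D : Submodule ℂ T.V := LinearMap.range (TensorProduct.lift τ)
  haveI : IsUniformAddGroup D := inferInstanceAs (IsUniformAddGroup D.toAddSubgroup)
  let ψ : X.V → (D →ₗ[ℂ] G.V) := fun x =>
    ((LinearMap.ker (TensorProduct.lift τ)).liftQ (TensorProduct.lift (Φ x))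
      (fun z hz => hker x z hz)) ∘ₗ
      (LinearMap.quotKerEquivRange (TensorProduct.lift τ)).symm.toLinearMap
  have hψ : ∀ x z (h : TensorProduct.lift τ z ∈ D),
      ψ x ⟨TensorProduct.lift τ z, h⟩ = TensorProduct.lift (Φ x) z := by
    intro x z h
    show ((LinearMap.ker (TensorProduct.lift τ)).liftQ (TensorProduct.lift (Φ x))
      (fun z hz => hker x z hz))
      ((LinearMap.quotKerEquivRange (TensorProduct.lift τ)).symm
        ⟨TensorProduct.lift τ z, h⟩) = _
    rw [LinearMap.quotKerEquivRange_symm_apply_image]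
    exact Submodule.liftQ_apply _ _ _
  have hcont : ∀ x, Continuous (ψ x) := by
    intro x
    apply t1_cont_lin
    intro r hr
    obtain ⟨x0, N, hx0, hN, hle⟩ := key r hr
    refine ⟨fun d => x0 x * N d, continuous_const.mul (hN.comp continuous_subtype_val), by simp,
      ?_⟩
    rintro ⟨_, z, rfl⟩
    rw [hψ]
    exact hle x z
  let ψc : X.V → (D →L[ℂ] G.V) := fun x => ⟨ψ x, hcont x⟩
  have hde : DenseRange (D.subtypeL) := by
    show DenseRange (Subtype.val : D → T.V)
    exact hdense.denseRange_val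
  have hue : IsUniformInducing (D.subtypeL) := isUniformInducing_val _
  let Ex : X.V → (T.V →L[ℂ] G.V) := fun x => (ψc x).extend D.subtypeL
  have hEx : ∀ x z, Ex x (TensorProduct.lift τ z) = TensorProduct.lift (Φ x) z := by
    intro x z
    have h1 := ContinuousLinearMap.extend_eq (ψc x) hde hue
      ⟨TensorProduct.lift τ z, LinearMap.mem_range_self _ z⟩
    exact h1.trans (hψ x z _)
  have hΦadd : ∀ x x', TensorProduct.lift (Φ (x + x'))
      = TensorProduct.lift (Φ x) + TensorProduct.lift (Φ x') := fun x x' =>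
    TensorProduct.ext' (fun m n => by simp)
  have hΦsmul : ∀ (c : ℂ) x, TensorProduct.lift (Φ (c • x))
      = c • TensorProduct.lift (Φ x) := fun c x =>
    TensorProduct.ext' (fun m n => by simp)
  have hEadd : ∀ x x', Ex (x + x') = Ex x + Ex x' := by
    intro x x'
    apply ContinuousLinearMap.extend_unique _ hde hue
    ext d
    obtain ⟨_, z, rfl⟩ := d
    show Ex x (TensorProduct.lift τ z) + Ex x' (TensorProduct.lift τ z) = ψ (x + x') _
    rw [hEx, hEx, hψ, hΦadd]
    rfl
  have hEsmul : ∀ (c : ℂ) x, Ex (c • x) = c • Ex x := by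
    intro c x
    apply ContinuousLinearMap.extend_unique _ hde hue
    ext d
    obtain ⟨_, z, rfl⟩ := d
    show c • Ex x (TensorProduct.lift τ z) = ψ (c • x) _
    rw [hEx, hψ, hΦsmul]
    rfl
  let Ψ : X.V →ₗ[ℂ] T.V →ₗ[ℂ] G.V :=
    { toFun := fun x => (Ex x).toLinearMap
      map_add' := fun x x' => by rw [hEadd]; rfl
      map_smul' := fun c x => by rw [hEsmul]; rfl }
  refine ⟨Ψ, ?_, ?_⟩
  · apply t1_cont_bilin
    intro r hr
    obtain ⟨x0, N, hx0, hNc, hle⟩ := key r hr
    refine ⟨x0, N, hx0, hNc, fun x t => ?_⟩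
    show r (Ex x t) ≤ x0 x * N t
    refine isClosed_property hde (isClosed_le (hr.comp (Ex x).continuous)
      (continuous_const.mul hNc)) ?_ t
    rintro ⟨_, z, rfl⟩
    show r (Ex x (TensorProduct.lift τ z)) ≤ x0 x * N (TensorProduct.lift τ z)
    rw [hEx]
    exact hle x z
  · intro x m n
    show Ex x (τ m n) = Φ x m n
    have := hEx x (m ⊗ₜ[ℂ] n)
    rwa [TensorProduct.lift.tmul, TensorProduct.lift.tmul] at this


/-- Complete locally convex spaces as modules over ℂ. -/
private noncomputable def t1_ban (V : Type) [NormedAddCommGroup V] [NormedSpace ℂ V]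
    [CompleteSpace V] : BMod ℂ ℂ :=
  { V := V
    l := Algebra.ofId ℂ (Module.End ℂ V)
    r := Algebra.ofId ℂ (Module.End ℂ V)
    cl := by
      have h : (fun p : ℂ × V => (Algebra.ofId ℂ (Module.End ℂ V)) p.1 p.2)
          = fun p => p.1 • p.2 := by
        funext p
        simp [Algebra.ofId_apply, Algebra.algebraMap_eq_smul_one]
      rw [h]
      exact continuous_smul
    cr := by
      have h : (fun p : ℂ × V => (Algebra.ofId ℂ (Module.End ℂ V)) p.1 p.2)
          = fun p => p.1 • p.2 := by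
        funext p
        simp [Algebra.ofId_apply, Algebra.algebraMap_eq_smul_one]
      rw [h]
      exact continuous_smul
    comm := fun a c x => by
      have h : ∀ (a : ℂ) (x : V), (Algebra.ofId ℂ (Module.End ℂ V)) a x = a • x := by
        intro a x
        simp [Algebra.ofId_apply, Algebra.algebraMap_eq_smul_one]
      rw [h, h, h, h, smul_comm] }

/-- Balanced forms bounded by p and q. -/
private def t1_Forms (E F : BMod ℂ ℂ) (R : Type) (u : R → E.V → E.V) (w : R → F.V → F.V)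
    (p : Seminorm ℂ E.V) (q : Seminorm ℂ F.V) : Type :=
  {β : E.V →ₗ[ℂ] F.V →ₗ[ℂ] ℂ // (∀ a m n, β (u a m) n = β m (w a n)) ∧
    ∀ m n, ‖β m n‖ ≤ p m * q n}

private def t1_Idx (E F : BMod ℂ ℂ) : Type :=
  {p : Seminorm ℂ E.V // Continuous p} × {q : Seminorm ℂ F.V // Continuous q}

private noncomputable def t1_Big (E F : BMod ℂ ℂ) (R : Type) (u : R → E.V → E.V)
    (w : R → F.V → F.V) : BMod ℂ ℂ :=
  BMod.pi fun i : t1_Idx E F =>
    t1_ban (lp (fun _ : t1_Forms E F R u w i.1.1 i.2.1 => ℂ) ⊤)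

private noncomputable def t1_coord (E F : BMod ℂ ℂ) (R : Type) (u : R → E.V → E.V)
    (w : R → F.V → F.V) (i : t1_Idx E F) (m : E.V) (n : F.V) :
    lp (fun _ : t1_Forms E F R u w i.1.1 i.2.1 => ℂ) ⊤ :=
  ⟨fun β => β.1 m n, memℓp_infty ⟨i.1.1 m * i.2.1 n, by
    rintro _ ⟨β, rfl⟩
    exact β.2.2 m n⟩⟩

private theorem t1_coord_norm (E F : BMod ℂ ℂ) (R : Type) (u : R → E.V → E.V)
    (w : R → F.V → F.V) (i : t1_Idx E F) (m : E.V) (n : F.V) :
    ‖t1_coord E F R u w i m n‖ ≤ i.1.1 m * i.2.1 n := by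
  refine lp.norm_le_of_forall_le (mul_nonneg (apply_nonneg i.1.1 m) (apply_nonneg i.2.1 n))
    fun β => β.2.2 m n

private noncomputable def t1_tau0 (E F : BMod ℂ ℂ) (R : Type) (u : R → E.V → E.V)
    (w : R → F.V → F.V) : E.V →ₗ[ℂ] F.V →ₗ[ℂ] (t1_Big E F R u w).V :=
  LinearMap.mk₂ ℂ (fun m n => (fun i => t1_coord E F R u w i m n : (t1_Big E F R u w).V))
    (fun m m' n => by
      funext i
      apply Subtype.ext
      funext β
      show β.1 (m + m') n = β.1 m n + β.1 m' n
      rw [map_add]; rfl)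
    (fun c m n => by
      funext i
      apply Subtype.ext
      funext β
      show β.1 (c • m) n = c • β.1 m n
      rw [map_smul]; rfl)
    (fun m n n' => by
      funext i
      apply Subtype.ext
      funext β
      show β.1 m (n + n') = β.1 m n + β.1 m n'
      rw [map_add])
    (fun c m n => by
      funext i
      apply Subtype.ext
      funext β
      show β.1 m (c • n) = c • β.1 m n
      rw [map_smul])

private theorem t1_Big_l (E F : BMod ℂ ℂ) (R : Type) (u : R → E.V → E.V)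
    (w : R → F.V → F.V) (a : ℂ) (x : (t1_Big E F R u w).V) :
    (t1_Big E F R u w).l a x = a • x := by
  have h := (t1_Big E F R u w).l.commutes a
  rw [Algebra.algebraMap_eq_smul_one, Algebra.algebraMap_eq_smul_one, smul_eq_mul,
    mul_one] at h
  rw [h]
  rfl

private theorem t1_Big_r (E F : BMod ℂ ℂ) (R : Type) (u : R → E.V → E.V)
    (w : R → F.V → F.V) (a : ℂ) (x : (t1_Big E F R u w).V) :
    (t1_Big E F R u w).r a x = a • x := by
  have h := (t1_Big E F R u w).r.commutes a
  rw [Algebra.algebraMap_eq_smul_one, Algebra.algebraMap_eq_smul_one, smul_eq_mul,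
    mul_one] at h
  rw [h]
  rfl

/-- Completed balanced tensor product, existence. -/
theorem exists_tens0 (E F : BMod ℂ ℂ) (R : Type) (u : R → E.V → E.V) (w : R → F.V → F.V) :
    ∃ (T : BMod ℂ ℂ) (τ : E.V →ₗ[ℂ] F.V →ₗ[ℂ] T.V),
      (∀ a m n, τ (u a m) n = τ m (w a n)) ∧
      (Continuous fun p : E.V × F.V => τ p.1 p.2) ∧
      Dense ((Submodule.span ℂ {t | ∃ m n, τ m n = t} : Submodule ℂ T.V) : Set T.V) ∧
      ∀ (X G : BMod ℂ ℂ) (Φ : X.V →ₗ[ℂ] E.V →ₗ[ℂ] F.V →ₗ[ℂ] G.V),
        (Continuous fun p : X.V × E.V × F.V => Φ p.1 p.2.1 p.2.2) →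
        (∀ x a m n, Φ x (u a m) n = Φ x m (w a n)) →
        ∃ Ψ : X.V →ₗ[ℂ] T.V →ₗ[ℂ] G.V, (Continuous fun p : X.V × T.V => Ψ p.1 p.2) ∧
          ∀ x m n, Ψ x (τ m n) = Φ x m n := by
  let B : BMod ℂ ℂ := t1_Big E F R u w
  let τ0 : E.V →ₗ[ℂ] F.V →ₗ[ℂ] B.V := t1_tau0 E F R u w
  let S : Submodule ℂ B.V := Submodule.span ℂ {t | ∃ m n, τ0 m n = t}
  let U : Submodule ℂ B.V := S.topologicalClosure
  have hU : IsClosed (U : Set B.V) := S.isClosed_topologicalClosure
  have hSU : S ≤ U := S.le_topologicalClosure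
  let T : BMod ℂ ℂ := B.sub U hU
    (fun a x hx => by rw [t1_Big_l]; exact U.smul_mem a hx)
    (fun a x hx => by rw [t1_Big_r]; exact U.smul_mem a hx)
  have hmem : ∀ m n, τ0 m n ∈ U := fun m n => hSU (Submodule.subset_span ⟨m, n, rfl⟩)
  let τ : E.V →ₗ[ℂ] F.V →ₗ[ℂ] T.V :=
    LinearMap.mk₂ ℂ (fun m n => (⟨τ0 m n, hmem m n⟩ : T.V))
      (fun m m' n => Subtype.ext (by
        show τ0 (m + m') n = τ0 m n + τ0 m' n
        rw [map_add]; rfl))
      (fun c m n => Subtype.ext (by
        show τ0 (c • m) n = c • τ0 m n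
        rw [map_smul]; rfl))
      (fun m n n' => Subtype.ext (by
        show τ0 m (n + n') = τ0 m n + τ0 m n'
        rw [map_add]))
      (fun c m n => Subtype.ext (by
        show τ0 m (c • n) = c • τ0 m n
        rw [map_smul]))
  have hbal : ∀ a m n, τ (u a m) n = τ m (w a n) := by
    intro a m n
    apply Subtype.ext
    funext i
    apply Subtype.ext
    funext β
    exact β.2.1 a m n
  have hcont : Continuous fun p : E.V × F.V => τ p.1 p.2 := by
    apply Continuous.subtype_mk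
    apply continuous_pi
    intro i
    let Bi : E.V →ₗ[ℂ] F.V →ₗ[ℂ]
        (t1_ban (lp (fun _ : t1_Forms E F R u w i.1.1 i.2.1 => ℂ) ⊤)).V :=
      LinearMap.mk₂ ℂ (fun m n => τ0 m n i)
        (fun m m' n => by rw [map_add]; rfl)
        (fun c m n => by rw [map_smul]; rfl)
        (fun m n n' => by rw [map_add]; rfl)
        (fun c m n => by rw [map_smul]; rfl)
    have hBi : Continuous fun a : E.V × F.V => Bi a.1 a.2 := by
      apply t1_cont_bilin
      intro r hr
      obtain ⟨C, hC, hrC⟩ := Seminorm.bound_of_continuous_normedSpace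
        (F := lp (fun _ : t1_Forms E F R u w i.1.1 i.2.1 => ℂ) ⊤) r hr
      refine ⟨C.toNNReal • i.1.1, i.2.1, ?_, i.2.2, fun x y => ?_⟩
      · exact (continuous_const.mul i.1.2 : Continuous fun x => (C.toNNReal : ℝ) * i.1.1 x)
      · refine (hrC _).trans ?_
        show C * ‖t1_coord E F R u w i x y‖ ≤ ((C.toNNReal : ℝ) * i.1.1 x) * i.2.1 y
        rw [Real.coe_toNNReal _ hC.le, mul_assoc]
        exact mul_le_mul_of_nonneg_left (t1_coord_norm E F R u w i x y) hC.le
    exact hBi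
  have hspan : Dense ((Submodule.span ℂ {t | ∃ m n, τ m n = t} : Submodule ℂ T.V) : Set T.V) := by
    intro x
    have hx : (x.1 : B.V) ∈ closure (S : Set B.V) := x.2
    refine closure_subtype.2 (closure_mono ?_ hx)
    let J : T.V →ₗ[ℂ] B.V :=
      { toFun := fun t => t.1
        map_add' := fun _ _ => rfl
        map_smul' := fun _ _ => rfl }
    have hle : S ≤ Submodule.map J
        (Submodule.span ℂ {t | ∃ m n, τ m n = t} : Submodule ℂ T.V) := by
      rw [Submodule.span_le]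
      rintro _ ⟨m, n, rfl⟩
      exact ⟨τ m n, Submodule.subset_span ⟨m, n, rfl⟩, rfl⟩
    intro s hs
    obtain ⟨t, ht, hts⟩ := hle hs
    exact ⟨t, ht, hts⟩
  refine ⟨T, τ, hbal, hcont, hspan, ?_⟩
  intro X G Φ hΦ hbalΦ
  refine t1_lift E F T X G R u w τ ?_ ?_ Φ hΦ hbalΦ
  · refine hspan.mono ?_
    have : (Submodule.span ℂ {t | ∃ m n, τ m n = t} : Submodule ℂ T.V) ≤
        LinearMap.range (TensorProduct.lift τ) := by
      rw [Submodule.span_le]
      rintro _ ⟨m, n, rfl⟩
      exact ⟨m ⊗ₜ[ℂ] n, TensorProduct.lift.tmul m n⟩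
    exact this
  · intro p q hp hq
    let i : t1_Idx E F := (⟨p, hp⟩, ⟨q, hq⟩)
    let L : T.V →ₗ[ℂ] lp (fun _ : t1_Forms E F R u w i.1.1 i.2.1 => ℂ) ⊤ :=
      { toFun := fun t => t.1 i
        map_add' := fun _ _ => rfl
        map_smul' := fun _ _ => rfl }
    refine ⟨(normSeminorm ℂ _).comp L, ?_, ?_⟩
    · have h1 : Continuous fun t : T.V => L t :=
        (continuous_apply (A := fun j : t1_Idx E F =>
          (t1_ban (lp (fun _ : t1_Forms E F R u w j.1.1 j.2.1 => ℂ) ⊤)).V) i).comp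
          continuous_subtype_val
      exact continuous_norm.comp h1
    · intro β hβ hle z
      let b : t1_Forms E F R u w i.1.1 i.2.1 := ⟨β, hβ, hle⟩
      have hz : ∀ z, (L (TensorProduct.lift τ z)) b = TensorProduct.lift β z := by
        intro z
        induction z using TensorProduct.induction_on with
        | zero => simp
        | tmul m n =>
          rw [TensorProduct.lift.tmul, TensorProduct.lift.tmul]
          rfl
        | add a c ha hc =>
          rw [map_add, map_add, map_add, lp.coeFn_add, Pi.add_apply, ha, hc]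
      rw [← hz z]
      exact lp.norm_apply_le_norm ENNReal.top_ne_zero _ b

end HD
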