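import Pool.Agent.Helper48.HD.H1
import Pool.Agent.Helper48.HD.TensDefs

/-!
Module HD-T3: consequences of the universal property.

Proof. hom_ext: f and g agree on the span of the τ m n, which is dense, and are continuous.
lift1: IsTens.lift with X = ℂ (as BMod ℂ ℂ, e.g. algMod for the algebra ℂ; CAlg ℂ is needed, give
an instance or use any one-dimensional BMod ℂ ℂ) and Φ' z m n = z • Φ m n, then put x = 1.
lift_hom: by lift1; F is a morphism because this holds on the τ m n (hom_ext).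
map: lift1 with Φ m n = τ' (f m) (g n).
-/

namespace HD

/-- A complete locally convex space as a module over the complex numbers. -/
private def ofSp (V : Type) [AddCommGroup V] [Module ℂ V] [UniformSpace V] [IsUniformAddGroup V]
    [ContinuousSMul ℂ V] [LocallyConvexSpace ℝ V] [T2Space V] [CompleteSpace V] : BMod ℂ ℂ :=
  have h : Continuous fun p : ℂ × V => (Algebra.ofId ℂ (Module.End ℂ V)) p.1 p.2 := by
    have h : (fun p : ℂ × V => (Algebra.ofId ℂ (Module.End ℂ V)) p.1 p.2)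
        = fun p => p.1 • p.2 := by
      funext p
      simp [Algebra.ofId_apply, Algebra.algebraMap_eq_smul_one]
    rw [h]
    exact continuous_smul
  { V := V
    l := Algebra.ofId ℂ (Module.End ℂ V)
    r := Algebra.ofId ℂ (Module.End ℂ V)
    cl := h
    cr := h
    comm := fun a c x => by
      simp [Algebra.ofId_apply, Algebra.algebraMap_eq_smul_one, smul_comm a c x] }

section

/-- The left action by one element as a continuous linear map. -/
private def lC {A C : Type} [CommRing A] [Algebra ℂ A] [TopologicalSpace A]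
    [CommRing C] [Algebra ℂ C] [TopologicalSpace C] (X : BMod A C) (a : A) : X.V →L[ℂ] X.V :=
  ⟨X.l a, X.cl.comp (continuous_const.prodMk continuous_id)⟩

/-- The right action by one element as a continuous linear map. -/
private def rC {A C : Type} [CommRing A] [Algebra ℂ A] [TopologicalSpace A]
    [CommRing C] [Algebra ℂ C] [TopologicalSpace C] (X : BMod A C) (c : C) : X.V →L[ℂ] X.V :=
  ⟨X.r c, X.cr.comp (continuous_const.prodMk continuous_id)⟩

end

section

variable {S R C : Type} [CommRing S] [Algebra ℂ S] [TopologicalSpace S]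
    [CommRing R] [Algebra ℂ R] [TopologicalSpace R]
    [CommRing C] [Algebra ℂ C] [TopologicalSpace C]
    {M : BMod S R} {N : BMod R C} {T : BMod S C} {τ : M.V →ₗ[ℂ] N.V →ₗ[ℂ] T.V}

theorem IsTens.hom_ext (hT : IsTens M N T τ) {G : Type} [AddCommGroup G] [Module ℂ G]
    [TopologicalSpace G] [T2Space G] (f g : T.V →L[ℂ] G)
    (h : ∀ m n, f (τ m n) = g (τ m n)) : f = g := by
  apply ContinuousLinearMap.coeFn_injective
  refine Continuous.ext_on hT.dense f.continuous g.continuous ?_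
  intro x hx
  have h2 : Set.EqOn (f : T.V →ₗ[ℂ] G) (g : T.V →ₗ[ℂ] G) {t | ∃ m n, τ m n = t} := by
    rintro _ ⟨m, n, rfl⟩
    exact h m n
  exact LinearMap.eqOn_span h2 hx

theorem IsTens.lift1 (hT : IsTens M N T τ) {G : Type} [AddCommGroup G] [Module ℂ G]
    [UniformSpace G] [IsUniformAddGroup G] [ContinuousSMul ℂ G] [LocallyConvexSpace ℝ G]
    [T2Space G] [CompleteSpace G] (Φ : M.V →ₗ[ℂ] N.V →ₗ[ℂ] G)
    (hc : Continuous fun p : M.V × N.V => Φ p.1 p.2)
    (hb : ∀ a m n, Φ (M.r a m) n = Φ m (N.l a n)) :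
    ∃ F : T.V →L[ℂ] G, ∀ m n, F (τ m n) = Φ m n := by
  let Φ' : ℂ →ₗ[ℂ] M.V →ₗ[ℂ] N.V →ₗ[ℂ] G := LinearMap.toSpanSingleton ℂ _ Φ
  obtain ⟨Ψ, hΨ, hΨ'⟩ := hT.lift (ofSp ℂ) (ofSp G) Φ'
    (by
      show Continuous fun p : ℂ × M.V × N.V => p.1 • Φ p.2.1 p.2.2
      exact continuous_fst.smul (hc.comp continuous_snd))
    (by
      intro x a m n
      have h : ∀ z : ℂ, z • Φ (M.r a m) n = z • Φ m (N.l a n) := fun z => by rw [hb]
      exact h x)
  refine ⟨⟨Ψ (1 : ℂ), hΨ.comp (continuous_const.prodMk continuous_id)⟩, fun m n => ?_⟩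
  show Ψ (1 : ℂ) (τ m n) = Φ m n
  rw [hΨ']
  show (1 : ℂ) • Φ m n = Φ m n
  rw [one_smul]

theorem IsTens.lift_hom (hT : IsTens M N T τ) (G : BMod S C)
    (Φ : M.V →ₗ[ℂ] N.V →ₗ[ℂ] G.V)
    (hc : Continuous fun p : M.V × N.V => Φ p.1 p.2)
    (hb : ∀ a m n, Φ (M.r a m) n = Φ m (N.l a n))
    (hl : ∀ s m n, Φ (M.l s m) n = G.l s (Φ m n))
    (hr : ∀ c m n, Φ m (N.r c n) = G.r c (Φ m n)) :
    ∃ F : T.V →L[ℂ] G.V, IsHom F ∧ ∀ m n, F (τ m n) = Φ m n := by
  obtain ⟨F, hF⟩ := hT.lift1 Φ hc hb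
  refine ⟨F, ⟨fun s x => ?_, fun c x => ?_⟩, hF⟩
  · have h := hT.hom_ext (F.comp (lC T s)) ((lC G s).comp F) (fun m n => by
      show F (T.l s (τ m n)) = G.l s (F (τ m n))
      rw [hT.left, hF, hF, hl])
    exact congrArg (fun f : T.V →L[ℂ] G.V => f x) h
  · have h := hT.hom_ext (F.comp (rC T c)) ((rC G c).comp F) (fun m n => by
      show F (T.r c (τ m n)) = G.r c (F (τ m n))
      rw [hT.right, hF, hF, hr])
    exact congrArg (fun f : T.V →L[ℂ] G.V => f x) h

theorem IsTens.map (hT : IsTens M N T τ) {S' C' : Type} [CommRing S'] [Algebra ℂ S']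
    [TopologicalSpace S'] [CommRing C'] [Algebra ℂ C'] [TopologicalSpace C']
    {M' : BMod S' R} {N' : BMod R C'} {T' : BMod S' C'} {τ' : M'.V →ₗ[ℂ] N'.V →ₗ[ℂ] T'.V}
    (hT' : IsTens M' N' T' τ') (f : M.V →L[ℂ] M'.V) (hf : ∀ a m, f (M.r a m) = M'.r a (f m))
    (g : N.V →L[ℂ] N'.V) (hg : ∀ a n, g (N.l a n) = N'.l a (g n)) :
    ∃ F : T.V →L[ℂ] T'.V, ∀ m n, F (τ m n) = τ' (f m) (g n) := by
  let Φ : M.V →ₗ[ℂ] N.V →ₗ[ℂ] T'.V := (τ'.compl₂ (g : N.V →ₗ[ℂ] N'.V)).comp (f : M.V →ₗ[ℂ] M'.V)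
  exact hT.lift1 Φ
    (by
      show Continuous fun p : M.V × N.V => τ' (f p.1) (g p.2)
      exact hT'.cont.comp ((f.continuous.comp continuous_fst).prodMk
        (g.continuous.comp continuous_snd)))
    (by
      intro a m n
      show τ' (f (M.r a m)) (g n) = τ' (f m) (g (N.l a n))
      rw [hf, hg, hT'.bal])

end

end HD
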