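import Pool.Agent.Helper48.HD.Alt

/-!
Project HD: algebraic form of a tube.  A = O(S), B = O(W), ι pull back from S to W,
ρ restriction to S, M = dual of the module of fibre coordinates (sections of the bundle),
D fibre derivatives, J q f (w) = ∫ t^(q-1) f(t w) dt.
-/

namespace HD

/-- Algebraic tube data. -/
structure Tube (A B : Type) [CommRing A] [Algebra ℂ A] [UniformSpace A]
    [CommRing B] [Algebra ℂ B] [UniformSpace B] where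
  ι : A →ₐ[ℂ] B
  ρ : B →ₐ[ℂ] A
  hι : Continuous ι
  hρ : Continuous ρ
  ρι : ∀ a, ρ (ι a) = a
  M : Type
  [gM : AddCommGroup M]
  [mM : Module A M]
  m : ℕ
  x : Fin m → M
  ξ : Fin m → M →ₗ[A] A
  ξx : ∀ y, ∑ i, ξ i y • x i = y
  v : Fin m → B
  ρv : ∀ i, ρ (v i) = 0
  D : M → B →L[ℂ] B
  J : ℕ → B →L[ℂ] B
  D_add : ∀ y y' b, D (y + y') b = D y b + D y' b
  D_smul : ∀ a y b, D (a • y) b = ι a * D y b
  D_lin : ∀ y a b, D y (ι a * b) = ι a * D y b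
  D_v : ∀ y i b, D y (v i * b) = ι (ξ i y) * b + v i * D y b
  J_lin : ∀ q a b, J q (ι a * b) = ι a * J q b
  J_E : ∀ q b, 1 ≤ q → J q (∑ i, v i * D (x i) b + q • b) = b
  J_v : ∀ q i b, 1 ≤ q → J q (v i * b) = v i * J (q + 1) b
  J_1 : ∀ b, ∑ i, v i * J 1 (D (x i) b) = b - ι (ρ b)
  c : ℕ
  lam : (Fin c → Fin m) → (Fin c → M) → A
  hlam : ∀ I, IsAlt (fun a b => a * b) (lam I)
  mu : (Fin c → Fin m) → (Fin c → M)
  lam_mu : ∑ I, lam I (mu I) = 1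

attribute [instance] Tube.gM Tube.mM

section

variable {A B C : Type} [CommRing A] [Algebra ℂ A] [UniformSpace A]
    [CommRing B] [Algebra ℂ B] [UniformSpace B]
    [CommRing C] [Algebra ℂ C] [TopologicalSpace C]

/-- The operators of a tube on a B-module Z lying over an A-module Y. -/
structure Tube.Ops (𝕋 : Tube A B) (Y : BMod A C) (Z : BMod B C) where
  i : Y.V →L[ℂ] Z.V
  p : Z.V →L[ℂ] Y.V
  D : 𝕋.M → Z.V →L[ℂ] Z.V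
  J : ℕ → Z.V →L[ℂ] Z.V
  p_i : ∀ y, p (i y) = y
  p_l : ∀ b z, p (Z.l b z) = Y.l (𝕋.ρ b) (p z)
  p_r : ∀ c z, p (Z.r c z) = Y.r c (p z)
  i_l : ∀ a y, i (Y.l a y) = Z.l (𝕋.ι a) (i y)
  i_r : ∀ c y, i (Y.r c y) = Z.r c (i y)
  D_r : ∀ y c z, D y (Z.r c z) = Z.r c (D y z)
  J_r : ∀ q c z, J q (Z.r c z) = Z.r c (J q z)
  D_add : ∀ y y' z, D (y + y') z = D y z + D y' z
  D_smul : ∀ a y z, D (a • y) z = Z.l (𝕋.ι a) (D y z)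
  D_lin : ∀ y a z, D y (Z.l (𝕋.ι a) z) = Z.l (𝕋.ι a) (D y z)
  D_v : ∀ y j z, D y (Z.l (𝕋.v j) z) = Z.l (𝕋.ι (𝕋.ξ j y)) z + Z.l (𝕋.v j) (D y z)
  J_lin : ∀ q a z, J q (Z.l (𝕋.ι a) z) = Z.l (𝕋.ι a) (J q z)
  J_E : ∀ q z, 1 ≤ q → J q (∑ j, Z.l (𝕋.v j) (D (𝕋.x j) z) + q • z) = z
  J_v : ∀ q j z, 1 ≤ q → J q (Z.l (𝕋.v j) z) = Z.l (𝕋.v j) (J (q + 1) z)
  J_1 : ∀ z, ∑ j, Z.l (𝕋.v j) (J 1 (D (𝕋.x j) z)) = z - i (p z)

/-- The Koszul differential on functions. -/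
def kosFun (𝕋 : Tube A B) (Z : BMod B C) {q : ℕ} (η : (Fin (q + 1) → 𝕋.M) → Z.V) :
    (Fin q → 𝕋.M) → Z.V :=
  fun y => ∑ i, Z.l (𝕋.v i) (η (Fin.cons (𝕋.x i) y))

/-- The homotopy on functions. -/
def homFun (𝕋 : Tube A B) {Y : BMod A C} {Z : BMod B C} (O : 𝕋.Ops Y Z) {q : ℕ}
    (η : (Fin q → 𝕋.M) → Z.V) : (Fin (q + 1) → 𝕋.M) → Z.V :=
  fun y => ∑ j : Fin (q + 1),
    ((-1 : ℤ) ^ (j : ℕ)) • O.J (q + 1) (O.D (y j) (η (fun k => y (j.succAbove k))))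

end

end HD
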