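import Pool.Agent.Helper48.HD.Kos

/-!
Project HD: the total complex of the Koszul complexes over a projective resolution.
Given a tube, an A-module Y with a projective resolution R, and B-modules Z j over R.P j with
the operators of the tube, T k is the product of the modules of q-forms with values in Z j over
all pairs (q, j) with q + j = k.
-/

namespace HD

section

variable {A B C : Type} [CommRing A] [Algebra ℂ A] [UniformSpace A]
    [CommRing B] [Algebra ℂ B] [UniformSpace B]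
    [CommRing C] [Algebra ℂ C] [TopologicalSpace C]

/-- A projective resolution of Y together with B-modules Z j over its terms. -/
structure TubeRes (𝕋 : Tube A B) (Y : BMod A C) : Type 1 where
  R : ProjRes Y
  Z : ℕ → BMod B C
  projZ : ∀ j, Projective (Z j)
  O : ∀ j, 𝕋.Ops (R.P j) (Z j)
  δ : ∀ j, (Z (j + 1)).V →L[ℂ] (Z j).V
  hδ : ∀ j, IsHom (δ j)
  δδ : ∀ j z, δ j (δ (j + 1) z) = 0
  pδ : ∀ j z, (O j).p (δ j z) = R.d j ((O (j + 1)).p z)
  iδ : ∀ j y, δ j ((O (j + 1)).i y) = (O j).i (R.d j y)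
  Dδ : ∀ j x z, δ j ((O (j + 1)).D x z) = (O j).D x (δ j z)
  Jδ : ∀ j q z, δ j ((O (j + 1)).J q z) = (O j).J q (δ j z)

variable {𝕋 : Tube A B} {Y : BMod A C} (U : TubeRes 𝕋 Y)

/-- Pairs with sum k. -/
abbrev Idx (k : ℕ) : Type := {p : ℕ × ℕ // p.1 + p.2 = k}

instance (k : ℕ) : Fintype (Idx k) :=
  Fintype.subtype (Finset.HasAntidiagonal.antidiagonal k)
    (fun _ => Finset.HasAntidiagonal.mem_antidiagonal)

namespace TubeRes

/-- The total complex. -/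
def T (k : ℕ) : BMod B C := BMod.pi (fun p : Idx k => alt 𝕋.M p.1.1 𝕋.ι (U.Z p.1.2))

/-- The component of index (q, j). -/
def comp (k q j : ℕ) (h : q + j = k) : (U.T k).V →L[ℂ] (alt 𝕋.M q 𝕋.ι (U.Z j)).V :=
  ContinuousLinearMap.proj (φ := fun p : Idx k => (alt 𝕋.M p.1.1 𝕋.ι (U.Z p.1.2)).V)
    (⟨(q, j), h⟩ : Idx k)

theorem T_ext {k : ℕ} {s t : (U.T k).V} (h : ∀ q j e, U.comp k q j e s = U.comp k q j e t) :
    s = t := by
  funext p
  obtain ⟨⟨q, j⟩, e⟩ := p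
  exact h q j e

theorem comp_l (k q j : ℕ) (h : q + j = k) (b : B) (t : (U.T k).V) :
    U.comp k q j h ((U.T k).l b t) = (alt 𝕋.M q 𝕋.ι (U.Z j)).l b (U.comp k q j h t) := rfl

theorem comp_r (k q j : ℕ) (h : q + j = k) (c : C) (t : (U.T k).V) :
    U.comp k q j h ((U.T k).r c t) = (alt 𝕋.M q 𝕋.ι (U.Z j)).r c (U.comp k q j h t) := rfl

/-- Maps to the total complex from components. -/
def mkT {W : Type} [AddCommGroup W] [Module ℂ W] [TopologicalSpace W] (k : ℕ)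
    (f : ∀ p : Idx k, W →L[ℂ] (alt 𝕋.M p.1.1 𝕋.ι (U.Z p.1.2)).V) : W →L[ℂ] (U.T k).V :=
  ContinuousLinearMap.pi f

theorem comp_mkT {W : Type} [AddCommGroup W] [Module ℂ W] [TopologicalSpace W] (k : ℕ)
    (f : ∀ p : Idx k, W →L[ℂ] (alt 𝕋.M p.1.1 𝕋.ι (U.Z p.1.2)).V) (q j : ℕ) (h : q + j = k)
    (w : W) : U.comp k q j h (U.mkT k f w) = f ⟨(q, j), h⟩ w := rfl

/-- δ on forms. -/
def δA (q j : ℕ) : (alt 𝕋.M q 𝕋.ι (U.Z (j + 1))).V →L[ℂ] (alt 𝕋.M q 𝕋.ι (U.Z j)).V :=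
  alt.map 𝕋.M q (U.δ j) (fun _ z => (U.hδ j).left _ z)

theorem ev_δA (q j : ℕ) (η : (alt 𝕋.M q 𝕋.ι (U.Z (j + 1))).V) (y : Fin q → 𝕋.M) :
    alt.ev (U.δA q j η) y = U.δ j (alt.ev η y) := rfl

/-- Restriction of forms to S. -/
def pA (q j : ℕ) : (alt 𝕋.M q 𝕋.ι (U.Z j)).V →L[ℂ]
    (alt 𝕋.M q (AlgHom.id ℂ A) (U.R.P j)).V :=
  alt.map 𝕋.M q (U.O j).p (fun a z => by
    rw [(U.O j).p_l, 𝕋.ρι]; rfl)

theorem ev_pA (q j : ℕ) (η : (alt 𝕋.M q 𝕋.ι (U.Z j)).V) (y : Fin q → 𝕋.M) :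
    alt.ev (U.pA q j η) y = (U.O j).p (alt.ev η y) := rfl

/-- Pull back of forms from S. -/
def iA (q j : ℕ) : (alt 𝕋.M q (AlgHom.id ℂ A) (U.R.P j)).V →L[ℂ]
    (alt 𝕋.M q 𝕋.ι (U.Z j)).V :=
  alt.map 𝕋.M q (U.O j).i (fun a y => by
    rw [← (U.O j).i_l]; rfl)

theorem ev_iA (q j : ℕ) (η : (alt 𝕋.M q (AlgHom.id ℂ A) (U.R.P j)).V) (y : Fin q → 𝕋.M) :
    alt.ev (U.iA q j η) y = (U.O j).i (alt.ev η y) := rfl

/-- The differential of the total complex. -/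
noncomputable def D (k : ℕ) : (U.T (k + 1)).V →L[ℂ] (U.T k).V :=
  U.mkT k (fun p =>
    (kosL 𝕋 (U.Z p.1.2) p.1.1).comp (U.comp (k + 1) (p.1.1 + 1) p.1.2 (by have := p.2; omega)) +
    ((-1 : ℤ) ^ p.1.1) • (U.δA p.1.1 p.1.2).comp
      (U.comp (k + 1) p.1.1 (p.1.2 + 1) (by have := p.2; omega)))

theorem comp_D (k q j : ℕ) (h : q + j = k) (t : (U.T (k + 1)).V) :
    U.comp k q j h (U.D k t) =
      kosL 𝕋 (U.Z j) q (U.comp (k + 1) (q + 1) j (by omega) t) +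
      ((-1 : ℤ) ^ q) • U.δA q j (U.comp (k + 1) q (j + 1) (by omega) t) := rfl

/-- The homotopy of the total complex coming from the fibrewise homotopies. -/
noncomputable def H (k : ℕ) : (U.T k).V →L[ℂ] (U.T (k + 1)).V :=
  U.mkT (k + 1) (fun p => match p with
    | ⟨(0, _), _⟩ => 0
    | ⟨(q + 1, j), h⟩ => (homL 𝕋 (U.O j) q).comp (U.comp k q j (by
        have h' : q + 1 + j = k + 1 := h
        omega)))

theorem comp_H_zero (k j : ℕ) (h : 0 + j = k + 1) (t : (U.T k).V) :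
    U.comp (k + 1) 0 j h (U.H k t) = 0 := rfl

theorem comp_H_succ (k q j : ℕ) (h : q + 1 + j = k + 1) (t : (U.T k).V) :
    U.comp (k + 1) (q + 1) j h (U.H k t) = homL 𝕋 (U.O j) q (U.comp k q j (by omega) t) := rfl

/-- A function of degree zero as a form of degree zero. -/
def zero (Z : BMod B C) : Z.V →L[ℂ] (alt 𝕋.M 0 𝕋.ι Z).V :=
  alt.liftL 𝕋.ι Z (fun _ => ContinuousLinearMap.id ℂ Z.V)
    (fun _ => ⟨fun _ i => i.elim0, fun _ i => i.elim0, fun _ i => i.elim0⟩)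

theorem ev_zero (Z : BMod B C) (z : Z.V) (y : Fin 0 → 𝕋.M) :
    alt.ev (zero (𝕋 := 𝕋) Z z) y = z := rfl

/-- The value of a form of degree zero. -/
def val (Z : BMod B C) : (alt 𝕋.M 0 𝕋.ι Z).V →L[ℂ] Z.V := alt.evL 𝕋.ι Z (fun i => i.elim0)

theorem val_apply (Z : BMod B C) (η : (alt 𝕋.M 0 𝕋.ι Z).V) :
    val Z η = alt.ev η (fun i => i.elim0) := rfl

/-- The augmentation T k → R.P k (zero outside of the component (0, k)). -/
def aug (k : ℕ) : (U.T k).V →L[ℂ] (U.R.P k).V :=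
  (U.O k).p.comp ((val (U.Z k)).comp (U.comp k 0 k (by omega)))

/-- The identity of R.P k for two equal indices. -/
def castR {j k : ℕ} (e : j = k) : (U.R.P k).V →L[ℂ] (U.R.P j).V := by
  cases e
  exact ContinuousLinearMap.id ℂ _

theorem castR_rfl (k : ℕ) (y : (U.R.P k).V) : U.castR (rfl : k = k) y = y := rfl

/-- The section R.P k → T k. -/
def coaug (k : ℕ) : (U.R.P k).V →L[ℂ] (U.T k).V :=
  U.mkT k (fun p => match p with
    | ⟨(0, j), h⟩ => (zero (U.Z j)).comp ((U.O j).i.comp (U.castR (by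
        have h' : 0 + j = k := h
        omega)))
    | ⟨(_ + 1, _), _⟩ => 0)

theorem comp_coaug_zero (k : ℕ) (y : (U.R.P k).V) :
    U.comp k 0 k (by omega) (U.coaug k y) = zero (U.Z k) ((U.O k).i y) := rfl

theorem comp_coaug_succ (k q j : ℕ) (h : q + 1 + j = k) (y : (U.R.P k).V) :
    U.comp k (q + 1) j h (U.coaug k y) = 0 := rfl

/-- The contraction of the total complex over Y. -/
noncomputable def S (k : ℕ) : (U.T k).V →L[ℂ] (U.T (k + 1)).V :=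
  U.H k + (U.coaug (k + 1)).comp ((U.R.s k).comp (U.aug k))

/-- The contraction at Y. -/
def S₀ : Y.V →L[ℂ] (U.T 0).V := (U.coaug 0).comp U.R.s₀

/-- The augmentation to Y. -/
def E : (U.T 0).V →L[ℂ] Y.V := U.R.ε.comp (U.aug 0)

end TubeRes

end

end HD
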