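import Pool.Agent.Helper48.HD.T3
import Pool.Agent.Helper48.HD.Tube

/-!
Module HD-U1: the operators of the tube on the base change Z of Y.

Proof. M = algMod id ι is B as B-A-bimodule (M.V = B, M.l b x = b * x, M.r a x = ι a * x).
i y = τ 1 y.  p : IsTens.lift1 with Φ b y = Y.l (ρ b) y (balanced because ρ ∘ ι = id).
D x, J q: IsTens.map with f = 𝕋.D x, 𝕋.J q (they commute with M.r by D_lin, J_lin) and g = id.
All identities: by IsTens.hom_ext it is enough to check them on the elements τ b y, where they are the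
identities of 𝕋 (for example J_1: Σ_j τ (v_j J_1 D_(x_j) b) y = τ (b - ι (ρ b)) y and
τ (ι (ρ b)) y = τ 1 (Y.l (ρ b) y) = i (p (τ b y))).
-/

namespace HD

section

variable {A B C : Type} [CommRing A] [Algebra ℂ A] [UniformSpace A] [CAlg A]
    [CommRing B] [Algebra ℂ B] [UniformSpace B] [CAlg B]
    [CommRing C] [Algebra ℂ C] [UniformSpace C] [CAlg C]

theorem exists_ops (𝕋 : Tube A B) (Y : BMod A C) {Z : BMod B C}
    {τ : (algMod (AlgHom.id ℂ B) continuous_id 𝕋.ι 𝕋.hι).V →ₗ[ℂ] Y.V →ₗ[ℂ] Z.V}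
    (hZ : IsTens (algMod (AlgHom.id ℂ B) continuous_id 𝕋.ι 𝕋.hι) Y Z τ) :
    ∃ O : 𝕋.Ops Y Z, (∀ y, O.i y = τ (1 : B) y) ∧
      (∀ (b : B) y, O.p (τ b y) = Y.l (𝕋.ρ b) y) ∧
      (∀ x (b : B) y, O.D x (τ b y) = τ (𝕋.D x b) y) ∧
      ∀ q (b : B) y, O.J q (τ b y) = τ (𝕋.J q b) y := by
  classical
  let T : B →ₗ[ℂ] Y.V →ₗ[ℂ] Z.V := τ
  have tl : ∀ (b b' : B) (y : Y.V), Z.l b (T b' y) = T (b * b') y := fun b b' y => hZ.left b b' y
  have tr : ∀ (c : C) (b : B) (y : Y.V), Z.r c (T b y) = T b (Y.r c y) :=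
    fun c b y => hZ.right c b y
  have tb : ∀ (a : A) (b : B) (y : Y.V), T (𝕋.ι a * b) y = T b (Y.l a y) :=
    fun a b y => hZ.bal a b y
  have tadd : ∀ (b b' : B) (y : Y.V), T (b + b') y = T b y + T b' y := fun b b' y => by
    rw [map_add, LinearMap.add_apply]
  have tsub : ∀ (b b' : B) (y : Y.V), T (b - b') y = T b y - T b' y := fun b b' y => by
    rw [map_sub, LinearMap.sub_apply]
  have tnsmul : ∀ (q : ℕ) (b : B) (y : Y.V), T (q • b) y = q • T b y := fun q b y => by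
    rw [map_nsmul, LinearMap.smul_apply]
  have tsum : ∀ (f : Fin 𝕋.m → B) (y : Y.V), T (∑ j, f j) y = ∑ j, T (f j) y := fun f y => by
    rw [map_sum, LinearMap.sum_apply]
  -- the extension principle
  have ext0 : ∀ {G : Type} [AddCommGroup G] [Module ℂ G] [TopologicalSpace G] [T2Space G]
      (f g : Z.V →L[ℂ] G), (∀ (b : B) (y : Y.V), f (T b y) = g (T b y)) → ∀ z, f z = g z := by
    intro G _ _ _ _ f g h z
    have := hZ.hom_ext f g h
    rw [this]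
  let lZ : B → Z.V →L[ℂ] Z.V := fun b => ⟨Z.l b, Z.continuous_l b⟩
  let rZ : C → Z.V →L[ℂ] Z.V := fun c => ⟨Z.r c, Z.continuous_r c⟩
  let lY : A → Y.V →L[ℂ] Y.V := fun a => ⟨Y.l a, Y.continuous_l a⟩
  let rY : C → Y.V →L[ℂ] Y.V := fun c => ⟨Y.r c, Y.continuous_r c⟩
  -- the operators
  let i : Y.V →L[ℂ] Z.V := ⟨T 1, hZ.cont.comp (continuous_const.prodMk continuous_id)⟩
  have hi : ∀ y, i y = T 1 y := fun _ => rfl
  obtain ⟨p, hp⟩ : ∃ p : Z.V →L[ℂ] Y.V, ∀ (b : B) (y : Y.V), p (T b y) = Y.l (𝕋.ρ b) y := by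
    have hc : Continuous fun q : B × Y.V => Y.l (𝕋.ρ q.1) q.2 :=
      Y.cl.comp ((𝕋.hρ.comp continuous_fst).prodMk continuous_snd)
    have hk : ∀ (a : A) (m : B) (n : Y.V),
        Y.l (𝕋.ρ (𝕋.ι a * m)) n = Y.l (𝕋.ρ m) (Y.l a n) := by
      intro a m n
      rw [map_mul, 𝕋.ρι, ← Module.End.mul_apply, ← map_mul, mul_comm]
    obtain ⟨F, hF⟩ := hZ.lift1 (G := Y.V)
      ((Y.l.toLinearMap.comp 𝕋.ρ.toLinearMap : B →ₗ[ℂ] (Y.V →ₗ[ℂ] Y.V))) hc
      (fun a m n => hk a m n)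
    exact ⟨F, hF⟩
  have hDex : ∀ x, ∃ F : Z.V →L[ℂ] Z.V, ∀ (b : B) (y : Y.V), F (T b y) = T (𝕋.D x b) y := by
    intro x
    obtain ⟨F, hF⟩ := hZ.map hZ (𝕋.D x : B →L[ℂ] B) (fun a m => 𝕋.D_lin x a m)
      (ContinuousLinearMap.id ℂ Y.V) (fun _ _ => rfl)
    exact ⟨F, hF⟩
  have hJex : ∀ q, ∃ F : Z.V →L[ℂ] Z.V, ∀ (b : B) (y : Y.V), F (T b y) = T (𝕋.J q b) y := by
    intro q
    obtain ⟨F, hF⟩ := hZ.map hZ (𝕋.J q : B →L[ℂ] B) (fun a m => 𝕋.J_lin q a m)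
      (ContinuousLinearMap.id ℂ Y.V) (fun _ _ => rfl)
    exact ⟨F, hF⟩
  choose D hD using hDex
  choose J hJ using hJex
  refine ⟨{ i := i, p := p, D := D, J := J, p_i := ?_, p_l := ?_, p_r := ?_, i_l := ?_,
            i_r := ?_, D_r := ?_, J_r := ?_, D_add := ?_, D_smul := ?_, D_lin := ?_, D_v := ?_,
            J_lin := ?_, J_E := ?_, J_v := ?_, J_1 := ?_ }, hi, hp, hD, hJ⟩
  · intro y
    rw [hi, hp, map_one, map_one]; rfl
  · intro b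
    refine ext0 (p.comp (lZ b)) ((lY (𝕋.ρ b)).comp p) (fun b' y => ?_)
    show p (Z.l b (T b' y)) = Y.l (𝕋.ρ b) (p (T b' y))
    rw [tl, hp, hp, map_mul, map_mul]; rfl
  · intro c
    refine ext0 (p.comp (rZ c)) ((rY c).comp p) (fun b y => ?_)
    show p (Z.r c (T b y)) = Y.r c (p (T b y))
    rw [tr, hp, hp, Y.comm]
  · intro a y
    rw [hi, hi, tl, tb]
  · intro c y
    rw [hi, hi, tr]
  · intro x c
    refine ext0 ((D x).comp (rZ c)) ((rZ c).comp (D x)) (fun b y => ?_)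
    show D x (Z.r c (T b y)) = Z.r c (D x (T b y))
    rw [tr, hD, hD, tr]
  · intro q c
    refine ext0 ((J q).comp (rZ c)) ((rZ c).comp (J q)) (fun b y => ?_)
    show J q (Z.r c (T b y)) = Z.r c (J q (T b y))
    rw [tr, hJ, hJ, tr]
  · intro x x'
    refine ext0 (D (x + x')) (D x + D x') (fun b y => ?_)
    show D (x + x') (T b y) = D x (T b y) + D x' (T b y)
    rw [hD, hD, hD, 𝕋.D_add, tadd]
  · intro a x
    refine ext0 (D (a • x)) ((lZ (𝕋.ι a)).comp (D x)) (fun b y => ?_)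
    show D (a • x) (T b y) = Z.l (𝕋.ι a) (D x (T b y))
    rw [hD, hD, 𝕋.D_smul, tl]
  · intro x a
    refine ext0 ((D x).comp (lZ (𝕋.ι a))) ((lZ (𝕋.ι a)).comp (D x)) (fun b y => ?_)
    show D x (Z.l (𝕋.ι a) (T b y)) = Z.l (𝕋.ι a) (D x (T b y))
    rw [tl, hD, hD, 𝕋.D_lin, tl]
  · intro x j
    refine ext0 ((D x).comp (lZ (𝕋.v j)))
      (lZ (𝕋.ι (𝕋.ξ j x)) + (lZ (𝕋.v j)).comp (D x)) (fun b y => ?_)
    show D x (Z.l (𝕋.v j) (T b y)) =
      Z.l (𝕋.ι (𝕋.ξ j x)) (T b y) + Z.l (𝕋.v j) (D x (T b y))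
    rw [tl, hD, hD, 𝕋.D_v, tadd, tl, tl]
  · intro q a
    refine ext0 ((J q).comp (lZ (𝕋.ι a))) ((lZ (𝕋.ι a)).comp (J q)) (fun b y => ?_)
    show J q (Z.l (𝕋.ι a) (T b y)) = Z.l (𝕋.ι a) (J q (T b y))
    rw [tl, hJ, hJ, 𝕋.J_lin, tl]
  · intro q z hq
    have e : ∀ z : Z.V, ((∑ j, (lZ (𝕋.v j)).comp (D (𝕋.x j))) +
        q • ContinuousLinearMap.id ℂ Z.V) z = ∑ j, Z.l (𝕋.v j) (D (𝕋.x j) z) + q • z := by
      intro z
      simp only [add_apply, sum_apply, smul_apply]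
      rfl
    have h := ext0 ((J q).comp ((∑ j, (lZ (𝕋.v j)).comp (D (𝕋.x j))) +
      q • ContinuousLinearMap.id ℂ Z.V)) (ContinuousLinearMap.id ℂ Z.V) (fun b y => by
        rw [ContinuousLinearMap.comp_apply, e]
        have e2 : ∑ j, Z.l (𝕋.v j) (D (𝕋.x j) (T b y)) + q • T b y =
            T (∑ j, 𝕋.v j * 𝕋.D (𝕋.x j) b + q • b) y := by
          rw [tadd, tnsmul, tsum]
          congr 1
          refine Finset.sum_congr rfl fun j _ => ?_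
          rw [hD, tl]
        rw [e2, hJ, 𝕋.J_E q b hq]
        rfl) z
    rw [ContinuousLinearMap.comp_apply, e] at h
    exact h
  · intro q j z hq
    refine ext0 ((J q).comp (lZ (𝕋.v j))) ((lZ (𝕋.v j)).comp (J (q + 1))) (fun b y => ?_) z
    show J q (Z.l (𝕋.v j) (T b y)) = Z.l (𝕋.v j) (J (q + 1) (T b y))
    rw [tl, hJ, hJ, 𝕋.J_v q j b hq, tl]
  · intro z
    have e : ∀ z : Z.V, (∑ j, (lZ (𝕋.v j)).comp ((J 1).comp (D (𝕋.x j)))) z =
        ∑ j, Z.l (𝕋.v j) (J 1 (D (𝕋.x j) z)) := by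
      intro z
      simp only [sum_apply]
      rfl
    have h := ext0 (∑ j, (lZ (𝕋.v j)).comp ((J 1).comp (D (𝕋.x j))))
      (ContinuousLinearMap.id ℂ Z.V - i.comp p) (fun b y => by
        rw [e]
        have e2 : ∑ j, Z.l (𝕋.v j) (J 1 (D (𝕋.x j) (T b y))) =
            T (∑ j, 𝕋.v j * 𝕋.J 1 (𝕋.D (𝕋.x j) b)) y := by
          rw [tsum]
          refine Finset.sum_congr rfl fun j _ => ?_
          rw [hD, hJ, tl]
        rw [e2, 𝕋.J_1, tsub]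
        show T b y - T (𝕋.ι (𝕋.ρ b)) y = T b y - i (p (T b y))
        rw [hp, hi, ← tb, mul_one]) z
    rw [e] at h
    exact h

end

end HD
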