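import Pool.Agent.Helper48.HD.U1
import Pool.Agent.Helper48.HD.T2
import Pool.Agent.Helper48.HD.T4
import Pool.Agent.Helper48.HD.T6
import Pool.Agent.Helper48.HD.TubeRes

/-!
Module HD-U2: existence of the data TubeRes.

Proof. R a projective resolution of Y (T6), Z j and τ_j the completed tensor product of
algMod id ι (BMod B A) and R.P j (T2), projective by T4, O j by U1, δ j by IsTens.map (T3) with
f = id, g = R.d j: δ j (τ b y) = τ b (R.d j y); all identities by IsTens.hom_ext.
(Choose Z, τ, O by Classical.choose for all j first.)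
-/

namespace HD

section

variable {A B C : Type} [CommRing A] [Algebra ℂ A] [UniformSpace A] [CAlg A]
    [CommRing B] [Algebra ℂ B] [UniformSpace B] [CAlg B]
    [CommRing C] [Algebra ℂ C] [UniformSpace C] [CAlg C]

theorem exists_tubeRes (𝕋 : Tube A B) (Y : BMod A C) : Nonempty (TubeRes 𝕋 Y) := by
  obtain ⟨R⟩ := exists_projRes Y
  choose Z τ hτ using fun j => exists_tens (algMod (AlgHom.id ℂ B) continuous_id 𝕋.ι 𝕋.hι) (R.P j)
  choose O hi hp hD hJ using fun j => exists_ops 𝕋 (R.P j) (hτ j)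
  choose δ hδ using fun j => (hτ (j + 1)).map (hτ j)
    (ContinuousLinearMap.id ℂ (algMod (AlgHom.id ℂ B) continuous_id 𝕋.ι 𝕋.hι).V)
    (fun _ _ => rfl) (R.d j) (fun a n => (R.hd j).left a n)
  have hδ' : ∀ j m n, δ j (τ (j + 1) m n) = τ j m (R.d j n) := fun j m n => hδ j m n
  refine ⟨{
    R := R
    Z := Z
    projZ := fun j => (hτ j).projective 𝕋.hι (R.proj j)
    O := O
    δ := δ
    hδ := fun j => ⟨fun b z => ?_, fun c z => ?_⟩
    δδ := fun j z => ?_
    pδ := fun j z => ?_
    iδ := fun j y => ?_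
    Dδ := fun j x z => ?_
    Jδ := fun j q z => ?_ }⟩
  · have key : (δ j).comp ((Z (j + 1)).lL b) = ((Z j).lL b).comp (δ j) := by
      refine (hτ (j + 1)).hom_ext _ _ fun m n => ?_
      show δ j ((Z (j + 1)).l b (τ (j + 1) m n)) = (Z j).l b (δ j (τ (j + 1) m n))
      rw [(hτ (j + 1)).left, hδ', hδ', (hτ j).left]
    exact DFunLike.congr_fun key z
  · have key : (δ j).comp ((Z (j + 1)).rL c) = ((Z j).rL c).comp (δ j) := by
      refine (hτ (j + 1)).hom_ext _ _ fun m n => ?_
      show δ j ((Z (j + 1)).r c (τ (j + 1) m n)) = (Z j).r c (δ j (τ (j + 1) m n))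
      rw [(hτ (j + 1)).right, hδ', hδ', (hτ j).right, (R.hd j).right]
    exact DFunLike.congr_fun key z
  · have key : (δ j).comp (δ (j + 1)) = 0 := by
      refine (hτ (j + 1 + 1)).hom_ext _ _ fun m n => ?_
      show δ j (δ (j + 1) (τ (j + 1 + 1) m n)) = 0
      rw [hδ', hδ', R.dd, map_zero]
    exact DFunLike.congr_fun key z
  · have key : ((O j).p).comp (δ j) = (R.d j).comp (O (j + 1)).p := by
      refine (hτ (j + 1)).hom_ext _ _ fun m n => ?_
      show (O j).p (δ j (τ (j + 1) m n)) = R.d j ((O (j + 1)).p (τ (j + 1) m n))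
      rw [hδ']
      exact (hp j m _).trans (((R.hd j).left _ _).symm.trans (congrArg (R.d j) (hp (j + 1) m n).symm))
    exact DFunLike.congr_fun key z
  · rw [hi, hi]
    exact hδ' j (1 : B) y
  · have key : (δ j).comp ((O (j + 1)).D x) = ((O j).D x).comp (δ j) := by
      refine (hτ (j + 1)).hom_ext _ _ fun m n => ?_
      show δ j ((O (j + 1)).D x (τ (j + 1) m n)) = (O j).D x (δ j (τ (j + 1) m n))
      rw [hδ']
      exact (congrArg (δ j) (hD (j + 1) x m n)).trans ((hδ' j (𝕋.D x m) n).trans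
        (hD j x m (R.d j n)).symm)
    exact DFunLike.congr_fun key z
  · have key : (δ j).comp ((O (j + 1)).J q) = ((O j).J q).comp (δ j) := by
      refine (hτ (j + 1)).hom_ext _ _ fun m n => ?_
      show δ j ((O (j + 1)).J q (τ (j + 1) m n)) = (O j).J q (δ j (τ (j + 1) m n))
      rw [hδ']
      exact (congrArg (δ j) (hJ (j + 1) q m n)).trans ((hδ' j (𝕋.J q m) n).trans
        (hJ j q m (R.d j n)).symm)
    exact DFunLike.congr_fun key z

end

end HD
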