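import Pool.Agent.Helper48.HD.TubeRes

/-!
Module HD-X5: from forms of degree c to functions: Y is a natural retract of the forms.

Proof. For I : Fin c → Fin m put η_I(y) = the form y' ↦ (R.P j).l (lam I y') y of degree c
(alternating and A-linear by hlam and multiplicativity of the action); this is linear, continuous in y
(pointwise topology) and a morphism of A-C-bimodules (A commutative).
h'' y = Σ_I alt.ev (h' η_I(y)) (mu I).  It is a morphism.  With dA = alt.map (R.d j):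
R.d j (h'' (R.d j y)) = Σ_I ev (dA (h' (η_I(R.d j y)))) (mu I), and η_I(R.d j y) = dA (η_I(y)),
so it is Σ_I ev (dA (η_I y)) (mu I) = Σ_I (lam I (mu I)) R.d j y = R.d j y by lam_mu.
-/

namespace HD

section

variable {A B C : Type} [CommRing A] [Algebra ℂ A] [UniformSpace A]
    [CommRing B] [Algebra ℂ B] [UniformSpace B]
    [CommRing C] [Algebra ℂ C] [TopologicalSpace C]

/-- Forms of degree q with values in an A-C-bimodule. -/
noncomputable def dA (𝕋 : Tube A B) {Y : BMod A C} (R : ProjRes Y) (q j : ℕ) :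
    (alt 𝕋.M q (AlgHom.id ℂ A) (R.P (j + 1))).V →L[ℂ] (alt 𝕋.M q (AlgHom.id ℂ A) (R.P j)).V :=
  alt.map 𝕋.M q (R.d j) (fun a z => (R.hd j).left a z)

theorem ev_dA (𝕋 : Tube A B) {Y : BMod A C} (R : ProjRes Y) (q j : ℕ)
    (η : (alt 𝕋.M q (AlgHom.id ℂ A) (R.P (j + 1))).V) (y : Fin q → 𝕋.M) :
    alt.ev (dA 𝕋 R q j η) y = R.d j (alt.ev η y) := rfl

/-- The form `y' ↦ l (lam I y') x`. -/
private def formL (𝕋 : Tube A B) (X : BMod A C) (I : Fin 𝕋.c → Fin 𝕋.m) :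
    X.V →L[ℂ] (alt 𝕋.M 𝕋.c (AlgHom.id ℂ A) X).V :=
  alt.liftL (AlgHom.id ℂ A) X (fun y' => X.lL (𝕋.lam I y')) (by
    intro w
    have h := 𝕋.hlam I
    refine ⟨fun y i u v => ?_, fun y i a u => ?_, fun y i k e hik => ?_⟩
    · show X.l _ w = X.l _ w + X.l _ w
      rw [h.add, map_add]
      rfl
    · show X.l _ w = X.l a (X.l _ w)
      rw [h.smul]
      show X.l (a * _) w = _
      rw [map_mul]
      rfl
    · show X.l _ w = 0
      rw [h.alt y i k e hik, map_zero]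
      rfl)

private theorem ev_formL (𝕋 : Tube A B) (X : BMod A C) (I : Fin 𝕋.c → Fin 𝕋.m) (x : X.V)
    (y : Fin 𝕋.c → 𝕋.M) : alt.ev (formL 𝕋 X I x) y = X.l (𝕋.lam I y) x := rfl

private theorem isHom_formL (𝕋 : Tube A B) (X : BMod A C) (I : Fin 𝕋.c → Fin 𝕋.m) :
    IsHom (X := X) (Y := alt 𝕋.M 𝕋.c (AlgHom.id ℂ A) X) (formL 𝕋 X I) := by
  refine ⟨fun a x => alt.ext fun y => ?_, fun c x => alt.ext fun y => ?_⟩
  · rw [ev_formL, alt.ev_l, ev_formL, ← Module.End.mul_apply, ← Module.End.mul_apply, ← map_mul,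
      ← map_mul, mul_comm]
  · rw [ev_formL, alt.ev_r, ev_formL, X.comm]

private theorem sum_lam (𝕋 : Tube A B) (X : BMod A C) (x : X.V) :
    ∑ I, X.l (𝕋.lam I (𝕋.mu I)) x = x := by
  have h : X.l (∑ I, 𝕋.lam I (𝕋.mu I)) x = x := by
    rw [𝕋.lam_mu, map_one]
    rfl
  rw [map_sum, LinearMap.sum_apply] at h
  exact h

private theorem isHom_evL {M : Type} [AddCommGroup M] [Module A M] {q : ℕ} (X : BMod A C)
    (y : Fin q → M) : IsHom (X := alt M q (AlgHom.id ℂ A) X) (Y := X)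
      (alt.evL (AlgHom.id ℂ A) X y) :=
  ⟨fun _ _ => rfl, fun _ _ => rfl⟩

theorem split_of_split_forms (𝕋 : Tube A B) {Y : BMod A C} (R : ProjRes Y) (j : ℕ)
    (h' : (alt 𝕋.M 𝕋.c (AlgHom.id ℂ A) (R.P j)).V →L[ℂ]
      (alt 𝕋.M 𝕋.c (AlgHom.id ℂ A) (R.P (j + 1))).V) (hh : IsHom h')
    (e : ∀ η, dA 𝕋 R 𝕋.c j (h' (dA 𝕋 R 𝕋.c j η)) = dA 𝕋 R 𝕋.c j η) :
    ∃ h : (R.P j).V →L[ℂ] (R.P (j + 1)).V, IsHom h ∧
      ∀ y, R.d j (h (R.d j y)) = R.d j y := by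
  refine ⟨∑ I, (alt.evL (AlgHom.id ℂ A) (R.P (j + 1)) (𝕋.mu I)).comp
    (h'.comp (formL 𝕋 (R.P j) I)), ?_, ?_⟩
  · exact IsHom.sum _ fun I _ => (isHom_evL _ _).comp (hh.comp (isHom_formL 𝕋 _ I))
  · intro y
    have h1 : ∀ I, formL 𝕋 (R.P j) I (R.d j y) =
        dA 𝕋 R 𝕋.c j (formL 𝕋 (R.P (j + 1)) I y) := by
      intro I
      refine alt.ext fun y' => ?_
      rw [ev_dA, ev_formL, ev_formL, (R.hd j).left]
    have h2 : ∀ I, R.d j (alt.ev (h' (formL 𝕋 (R.P j) I (R.d j y))) (𝕋.mu I)) =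
        R.d j ((R.P (j + 1)).l (𝕋.lam I (𝕋.mu I)) y) := by
      intro I
      rw [h1, ← ev_dA, e, ev_dA, ev_formL]
    have h3 : (∑ I, (alt.evL (AlgHom.id ℂ A) (R.P (j + 1)) (𝕋.mu I)).comp
        (h'.comp (formL 𝕋 (R.P j) I))) (R.d j y) =
        ∑ I, alt.ev (h' (formL 𝕋 (R.P j) I (R.d j y))) (𝕋.mu I) := by
      rw [ContinuousLinearMap.sum_apply]
      rfl
    rw [h3, map_sum, Finset.sum_congr rfl fun I _ => h2 I, ← map_sum, sum_lam]

/-- If every form of degree c with values in R.P 0 is mapped to zero by the augmentation, then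
Y is zero (use the forms y' ↦ (R.P 0).l (lam I y') (R.s₀ y), evaluate at mu I and sum over I). -/
theorem subsingleton_of_forms (𝕋 : Tube A B) {Y : BMod A C} (R : ProjRes Y)
    (e : ∀ (η : (alt 𝕋.M 𝕋.c (AlgHom.id ℂ A) (R.P 0)).V) (y : Fin 𝕋.c → 𝕋.M),
      R.ε (alt.ev η y) = 0) : Subsingleton Y.V := by
  refine ⟨fun x y => ?_⟩
  have h0 : ∀ x : Y.V, x = 0 := by
    intro x
    have h1 := R.εs x
    rw [← sum_lam 𝕋 (R.P 0) (R.s₀ x), map_sum] at h1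
    rw [← h1]
    exact Finset.sum_eq_zero fun I _ => e (formL 𝕋 (R.P 0) I (R.s₀ x)) (𝕋.mu I)
  rw [h0 x, h0 y]

end

end HD
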